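import Mathlib

section

/-! The complex of lists with coefficients in a representation. -/

namespace Pool.Agent.MP_f7db47_al.Cv

/-- Existence of equivariant choice functions, for actions given as plain functions. -/
theorem exists_equi_raw {H X S : Type*} [Group H] (a : H → X → X) (b : H → S → S)
    (a1 : ∀ x, a 1 x = x) (amul : ∀ g h x, a (g * h) x = a g (a h x))
    (bmul : ∀ g h s, b (g * h) s = b g (b h s)) (R : X → S → Prop)
    (hR : ∀ h x s, R x s → R (a h x) (b h s))
    (hex : ∀ x, ∃ s, R x s ∧ ∀ h, a h x = x → b h s = s) :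
    ∃ f : X → S, (∀ x, R x (f x)) ∧ ∀ h x, f (a h x) = b h (f x) := by
  classical
  let st : Setoid X := ⟨fun x y => ∃ h, a h y = x, fun x => ⟨1, a1 x⟩,
    fun {x y} ⟨h, e⟩ => ⟨h⁻¹, by rw [← e, ← amul, inv_mul_cancel, a1]⟩,
    fun {x y z} ⟨h, e⟩ ⟨g, e'⟩ => ⟨h * g, by rw [amul, e', e]⟩⟩
  choose s hs1 hs2 using hex
  have hrep : ∀ x, ∃ h, a h (Quotient.mk st x).out = x := fun x =>
    st.symm (Quotient.mk_out (s := st) x)
  choose γ hγ using hrep
  refine ⟨fun x => b (γ x) (s (Quotient.mk st x).out), fun x => ?_, fun h x => ?_⟩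
  · have := hR (γ x) _ _ (hs1 (Quotient.mk st x).out)
    rwa [hγ] at this
  · have e : Quotient.mk st (a h x) = Quotient.mk st x := Quotient.sound ⟨h, rfl⟩
    have h1 := hγ (a h x)
    rw [e] at h1
    have h2 : a ((h * γ x)⁻¹ * γ (a h x)) (Quotient.mk st x).out = (Quotient.mk st x).out := by
      have h0 : a h x = a (h * γ x) (Quotient.mk st x).out := by rw [amul, hγ]
      rw [amul, h1, h0, ← amul, inv_mul_cancel, a1]
    have h3 := hs2 _ _ h2
    show b (γ (a h x)) (s (Quotient.mk st (a h x)).out) = b h (b (γ x) (s (Quotient.mk st x).out))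
    rw [e, ← bmul h]
    conv_rhs => rw [← h3]
    rw [← bmul, mul_inv_cancel_left]

/-- Existence of equivariant choice functions. -/
theorem exists_equi {H X S : Type*} [Group H] [MulAction H X] [MulAction H S] (R : X → S → Prop)
    (hR : ∀ (h : H) x s, R x s → R (h • x) (h • s))
    (hex : ∀ x, ∃ s, R x s ∧ ∀ h : H, h • x = x → h • s = s) :
    ∃ f : X → S, (∀ x, R x (f x)) ∧ ∀ (h : H) x, f (h • x) = h • f x :=
  exists_equi_raw (fun (h : H) (x : X) => h • x) (fun (h : H) (s : S) => h • s)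
    (one_smul H) (fun g h x => mul_smul g h x) (fun g h x => mul_smul g h x) R hR hex

instance listAct {H S : Type*} [Group H] [MulAction H S] : MulAction H (List S) where
  smul h l := l.map (h • ·)
  one_smul l := by
    show l.map ((1 : H) • ·) = l
    simp
  mul_smul g h l := by
    show l.map ((g * h) • ·) = (l.map (h • ·)).map (g • ·)
    simp [mul_smul]

section
variable {H S : Type*} [Group H] [MulAction H S]

theorem smul_list (h : H) (l : List S) : h • l = l.map (h • ·) := rfl

@[simp] theorem smul_nil (h : H) : h • ([] : List S) = [] := rfl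

@[simp] theorem smul_cons (h : H) (s : S) (l : List S) : h • (s :: l) = h • s :: h • l := rfl

@[simp] theorem length_smul (h : H) (l : List S) : (h • l).length = l.length :=
  List.length_map _

theorem mem_smul_list {h : H} {l : List S} {s : S} : s ∈ h • l ↔ ∃ t ∈ l, h • t = s :=
  List.mem_map

theorem fix_of_smul_list {h : H} {l : List S} (e : h • l = l) : ∀ s ∈ l, h • s = s := by
  induction l with
  | nil => simp
  | cons t l ih =>
    rw [smul_cons, List.cons.injEq] at e
    intro s hs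
    rcases List.mem_cons.1 hs with rfl | hs
    · exact e.1
    · exact ih e.2 s hs

end

variable {κ : Type*} [CommRing κ] {H : Type*} [Group H]
variable {V W : Type*} [AddCommGroup V] [Module κ V] [AddCommGroup W] [Module κ W]

/-- A linear map commutes with the actions. -/
def Equi (ρ : Representation κ H V) (σ : Representation κ H W) (f : V →ₗ[κ] W) : Prop :=
  ∀ h v, f (ρ h v) = σ h (f v)

/-- The representation on finitely supported functions on an `H`-set. -/
noncomputable def pr (Y : Type*) [MulAction H Y] (ρ : Representation κ H V) :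
    Representation κ H (Y →₀ V) where
  toFun h := Finsupp.lsum κ fun y => Finsupp.lsingle (h • y) ∘ₗ ρ h
  map_one' := by
    ext y v
    simp
  map_mul' g h := by
    ext y v
    simp [mul_smul]

@[simp] theorem pr_single {Y : Type*} [MulAction H Y] (ρ : Representation κ H V) (h : H) (y : Y)
    (v : V) : pr Y ρ h (Finsupp.single y v) = Finsupp.single (h • y) (ρ h v) := by
  simp [pr]

theorem pr_apply {Y : Type*} [MulAction H Y] (ρ : Representation κ H V) (h : H) (z : Y →₀ V)
    (y : Y) : pr Y ρ h z (h • y) = ρ h (z y) := by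
  classical
  induction z using Finsupp.induction_linear with
  | zero => simp
  | add a b ha hb => simp [ha, hb]
  | single x v =>
    rw [pr_single]
    by_cases e : x = y
    · subst e; simp
    · rw [Finsupp.single_eq_of_ne (fun c => e (MulAction.injective h c).symm),
        Finsupp.single_eq_of_ne (Ne.symm e), map_zero]

/-- The span of the differences `ρ h v - v` with `h` satisfying `P`. -/
def Jp (ρ : Representation κ H V) (P : H → Prop) : Submodule κ V :=
  Submodule.span κ {m | ∃ h v, P h ∧ m = ρ h v - v}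

theorem mem_Jp (ρ : Representation κ H V) {P : H → Prop} {h : H} (hh : P h) (v : V) :
    ρ h v - v ∈ Jp ρ P := Submodule.subset_span ⟨h, v, hh, rfl⟩

theorem Jp_mono (ρ : Representation κ H V) {P Q : H → Prop} (h : ∀ g, P g → Q g) :
    Jp ρ P ≤ Jp ρ Q :=
  Submodule.span_mono fun _ ⟨g, v, hg, e⟩ => ⟨g, v, h g hg, e⟩

/-- A linear map sends `Jp` into `N` as soon as it does so on generators. -/
theorem Jp_le {ρ : Representation κ H V} {P : H → Prop} {f : V →ₗ[κ] W} {N : Submodule κ W}
    (h : ∀ g v, P g → f (ρ g v) - f v ∈ N) {z : V} (hz : z ∈ Jp ρ P) : f z ∈ N := by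
  have : Jp ρ P ≤ N.comap f := Submodule.span_le.2 fun _ ⟨g, v, hg, e⟩ => by
    rw [e]
    show f _ ∈ N
    rw [map_sub]
    exact h g v hg
  exact this hz

/-- A map that is equivariant for the elements satisfying `P` preserves `Jp`. -/
theorem map_Jp {ρ : Representation κ H V} {σ : Representation κ H W} {P : H → Prop}
    {f : V →ₗ[κ] W} (h : ∀ g v, P g → f (ρ g v) = σ g (f v)) {z : V} (hz : z ∈ Jp ρ P) :
    f z ∈ Jp σ P :=
  Jp_le (fun g v hg => by rw [h g v hg]; exact mem_Jp σ hg _) hz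

variable {S : Type*}

/-- Put `s` in front of every list. -/
noncomputable def cons (κ : Type*) [CommRing κ] (V : Type*) [AddCommGroup V] [Module κ V]
    (s : S) : (List S →₀ V) →ₗ[κ] (List S →₀ V) :=
  Finsupp.lmapDomain V κ (s :: ·)

@[simp] theorem cons_single (s : S) (l : List S) (v : V) :
    cons κ V s (Finsupp.single l v) = Finsupp.single (s :: l) v := by
  simp [cons]

/-- The boundary of one list. -/
noncomputable def bd1 (κ : Type*) [CommRing κ] (V : Type*) [AddCommGroup V] [Module κ V] :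
    List S → V →ₗ[κ] (List S →₀ V)
  | [] => 0
  | s :: l => Finsupp.lsingle l - cons κ V s ∘ₗ bd1 κ V l

/-- The boundary operator. -/
noncomputable def bd (κ : Type*) [CommRing κ] {V : Type*} [AddCommGroup V] [Module κ V] :
    (List S →₀ V) →ₗ[κ] (List S →₀ V) := Finsupp.lsum κ (bd1 κ V)

theorem bd_single (l : List S) (v : V) : bd κ (Finsupp.single l v) = bd1 κ V l v := by
  simp [bd]

@[simp] theorem bd_nil (v : V) : bd κ (Finsupp.single ([] : List S) v) = 0 := by
  rw [bd_single]; rfl

theorem bd_single_cons (s : S) (l : List S) (v : V) : bd κ (Finsupp.single (s :: l) v) =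
    Finsupp.single l v - cons κ V s (bd κ (Finsupp.single l v)) := by
  rw [bd_single, bd_single]; rfl

theorem bd_cons (s : S) (z : List S →₀ V) : bd κ (cons κ V s z) = z - cons κ V s (bd κ z) := by
  induction z using Finsupp.induction_linear with
  | zero => simp
  | add a b ha hb => simp only [map_add, ha, hb]; abel
  | single l v => rw [cons_single, bd_single_cons]

theorem bd_bd (z : List S →₀ V) : bd κ (bd κ z) = 0 := by
  induction z using Finsupp.induction_linear with
  | zero => simp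
  | add a b ha hb => simp [ha, hb]
  | single l v =>
    induction l with
    | nil => simp
    | cons s l ih => rw [bd_single_cons, map_sub, bd_cons, ih]; simp

/-- The boundary of a list is supported on its faces. -/
theorem bd_single_mem (l : List S) (v : V) : bd κ (Finsupp.single l v) ∈
    Finsupp.supported V κ {l' : List S | l'.Sublist l ∧ l'.length + 1 = l.length} := by
  induction l with
  | nil => simp
  | cons s l ih =>
    rw [bd_single_cons]
    refine Submodule.sub_mem _ (Finsupp.single_mem_supported _ _ ⟨by simp, rfl⟩) ?_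
    have := Finsupp.supported_comap_lmapDomain V κ (s :: ·)
      {l' : List S | l'.Sublist (s :: l) ∧ l'.length + 1 = (s :: l).length}
    refine this (Finsupp.supported_mono ?_ ih)
    rintro l' ⟨h1, h2⟩
    exact ⟨h1.cons_cons s, by simp [h2]⟩

/-- To show that a linear map sends the chains supported on `A` into `N` it is enough to look at
single lists. -/
theorem map_supported {α : Type*} {A : Set α} {f : (α →₀ V) →ₗ[κ] W} {N : Submodule κ W}
    (h : ∀ l ∈ A, ∀ v, f (Finsupp.single l v) ∈ N) {z : α →₀ V}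
    (hz : z ∈ Finsupp.supported V κ A) : f z ∈ N := by
  rw [← Finsupp.sum_single z, Finsupp.sum, map_sum]
  exact Submodule.sum_mem _ fun l hl => h l (hz hl) _

/-- Two linear maps agree on the chains supported on `A` if they agree on single lists. -/
theorem eq_on_supported {α : Type*} {A : Set α} {f g : (α →₀ V) →ₗ[κ] W}
    (h : ∀ l ∈ A, ∀ v, f (Finsupp.single l v) = g (Finsupp.single l v)) {z : α →₀ V}
    (hz : z ∈ Finsupp.supported V κ A) : f z = g z := by
  have := map_supported (f := f - g) (N := ⊥) (fun l hl v => by simp [h l hl v]) hz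
  simpa [sub_eq_zero] using this

/-- Chains of lists of length at least `j`. -/
def Gd (κ : Type*) [CommRing κ] {V : Type*} [AddCommGroup V] [Module κ V] (j : ℕ) :
    Submodule κ (List S →₀ V) :=
  Finsupp.supported V κ {l | j ≤ l.length}

/-- The entries of the list are pairwise related. -/
def Fix (r : S → S → Prop) (l : List S) : Prop := ∀ a ∈ l, ∀ b ∈ l, r a b

/-- Chains of lists whose entries are pairwise related. -/
def Fx (κ : Type*) [CommRing κ] {V : Type*} [AddCommGroup V] [Module κ V] (r : S → S → Prop) :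
    Submodule κ (List S →₀ V) :=
  Finsupp.supported V κ {l | Fix r l}

theorem Gd_anti {i j : ℕ} (h : i ≤ j) : (Gd κ j : Submodule κ (List S →₀ V)) ≤ Gd κ i :=
  Finsupp.supported_mono fun _ hl => h.trans hl

theorem mem_Gd_zero (z : List S →₀ V) : z ∈ Gd κ 0 := fun _ _ => Nat.zero_le _

theorem single_mem_Gd {j : ℕ} {l : List S} (h : j ≤ l.length) (v : V) :
    Finsupp.single l v ∈ Gd κ j := Finsupp.single_mem_supported _ _ h

theorem single_mem_Fx {r : S → S → Prop} {l : List S} (h : Fix r l) (v : V) :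
    Finsupp.single l v ∈ Fx κ r := Finsupp.single_mem_supported _ _ h

theorem bd_mem_Gd {j : ℕ} {z : List S →₀ V} (hz : z ∈ Gd κ (j + 1)) : bd κ z ∈ Gd κ j :=
  map_supported (fun l hl v => Finsupp.supported_mono (fun l' (h : _ ∧ _) => by
    have h1 : j + 1 ≤ l.length := hl
    show j ≤ l'.length
    omega) (bd_single_mem l v)) hz

theorem Fix.sublist {r : S → S → Prop} {l l' : List S} (h : Fix r l) (hs : l'.Sublist l) :
    Fix r l' := fun a ha b hb => h a (hs.subset ha) b (hs.subset hb)

theorem bd_mem_Fx {r : S → S → Prop} {z : List S →₀ V} (hz : z ∈ Fx κ r) : bd κ z ∈ Fx κ r :=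
  map_supported (fun l hl v => Finsupp.supported_mono (fun _ (h : _ ∧ _) => Fix.sublist hl h.1)
    (bd_single_mem l v)) hz

theorem cons_mem_Gd {j : ℕ} (s : S) {z : List S →₀ V} (hz : z ∈ Gd κ j) :
    cons κ V s z ∈ Gd κ (j + 1) :=
  map_supported (fun l hl v => by
    rw [cons_single]
    exact single_mem_Gd (Nat.succ_le_succ hl) v) hz

/-- Change of coefficients. -/
noncomputable def Em {α : Type*} (f : V →ₗ[κ] W) : (α →₀ V) →ₗ[κ] (α →₀ W) :=
  Finsupp.mapRange.linearMap f

@[simp] theorem Em_single {α : Type*} (f : V →ₗ[κ] W) (l : α) (v : V) :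
    Em f (Finsupp.single l v) = Finsupp.single l (f v) := by
  simp [Em]

@[simp] theorem Em_apply {α : Type*} (f : V →ₗ[κ] W) (z : α →₀ V) (l : α) :
    Em f z l = f (z l) := rfl

theorem Em_cons (f : V →ₗ[κ] W) (s : S) (z : List S →₀ V) :
    Em f (cons κ V s z) = cons κ W s (Em f z) := by
  induction z using Finsupp.induction_linear with
  | zero => simp
  | add a b ha hb => simp [ha, hb]
  | single l v => simp

theorem Em_bd (f : V →ₗ[κ] W) (z : List S →₀ V) : Em f (bd κ z) = bd κ (Em f z) := by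
  induction z using Finsupp.induction_linear with
  | zero => simp
  | add a b ha hb => simp [ha, hb]
  | single l v =>
    rw [Em_single]
    induction l with
    | nil => simp
    | cons s l ih => rw [bd_single_cons, bd_single_cons, map_sub, Em_cons, ih, Em_single]

theorem Em_mem_supported {α : Type*} {A : Set α} (f : V →ₗ[κ] W) {z : α →₀ V}
    (hz : z ∈ Finsupp.supported V κ A) : Em f z ∈ Finsupp.supported W κ A :=
  map_supported (fun l hl v => by
    rw [Em_single]
    exact Finsupp.single_mem_supported _ _ hl) hz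

theorem Em_pr {Y : Type*} [MulAction H Y] {ρ : Representation κ H V} {σ : Representation κ H W}
    {f : V →ₗ[κ] W} {h : H} (hf : ∀ v, f (ρ h v) = σ h (f v)) (z : Y →₀ V) :
    Em f (pr Y ρ h z) = pr Y σ h (Em f z) := by
  induction z using Finsupp.induction_linear with
  | zero => simp
  | add a b ha hb => simp [ha, hb]
  | single l v => simp [hf]

variable [MulAction H S]

theorem pr_cons (ρ : Representation κ H V) (h : H) (s : S) (z : List S →₀ V) :
    pr (List S) ρ h (cons κ V s z) = cons κ V (h • s) (pr (List S) ρ h z) := by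
  induction z using Finsupp.induction_linear with
  | zero => simp
  | add a b ha hb => simp [ha, hb]
  | single l v => simp

theorem pr_bd (ρ : Representation κ H V) (h : H) (z : List S →₀ V) :
    pr (List S) ρ h (bd κ z) = bd κ (pr (List S) ρ h z) := by
  induction z using Finsupp.induction_linear with
  | zero => simp
  | add a b ha hb => simp [ha, hb]
  | single l v =>
    rw [pr_single]
    induction l with
    | nil => simp
    | cons s l ih =>
      rw [smul_cons, bd_single_cons, bd_single_cons, map_sub, pr_cons, ih, pr_single]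

theorem pr_mem_Gd (ρ : Representation κ H V) (h : H) {j : ℕ} {z : List S →₀ V}
    (hz : z ∈ Gd κ j) : pr (List S) ρ h z ∈ Gd κ j :=
  map_supported (fun l hl v => by
    rw [pr_single]
    exact single_mem_Gd (by rw [length_smul]; exact hl) _) hz

/-- `r` is an invariant symmetric transitive relation, and two points fixed by the same
nontrivial element are related. -/
structure Rel (H : Type*) [Group H] {S : Type*} [MulAction H S] (r : S → S → Prop) : Prop where
  symm : ∀ a b, r a b → r b a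
  trans : ∀ a b c, r a b → r b c → r a c
  inv : ∀ (h : H) a b, r a b → r (h • a) (h • b)
  free : ∀ (h : H) a b, h ≠ 1 → h • a = a → h • b = b → r a b

theorem Rel.fix_smul {r : S → S → Prop} (hr : Rel H r) (h : H) {l : List S} (hl : Fix r l) :
    Fix r (h • l) := by
  intro a ha b hb
  obtain ⟨a', ha', rfl⟩ := mem_smul_list.1 ha
  obtain ⟨b', hb', rfl⟩ := mem_smul_list.1 hb
  exact hr.inv h _ _ (hl a' ha' b' hb')

theorem Rel.fix_smul_iff {r : S → S → Prop} (hr : Rel H r) (h : H) {l : List S} :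
    Fix r (h • l) ↔ Fix r l :=
  ⟨fun hl => by simpa using hr.fix_smul h⁻¹ hl, hr.fix_smul h⟩

theorem Rel.eq_one {r : S → S → Prop} (hr : Rel H r) {h : H} {l : List S} (hl : ¬ Fix r l)
    (e : h • l = l) : h = 1 := by
  by_contra hh
  exact hl fun a ha b hb => hr.free h a b hh (fix_of_smul_list e a ha) (fix_of_smul_list e b hb)

theorem Rel.subgroup {r : S → S → Prop} (hr : Rel H r) (C : Subgroup H) : Rel C r where
  symm := hr.symm
  trans := hr.trans
  inv h := hr.inv (h : H)
  free h a b hh := hr.free (h : H) a b fun e => hh (Subtype.ext e)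

/-- There is a map from lists to the group that is equivariant on the lists that are not fixed. -/
theorem Rel.exists_label {r : S → S → Prop} (hr : Rel H r) :
    ∃ e : List S → H, ∀ (h : H) l, ¬ Fix r l → e (h • l) = h * e l := by
  classical
  obtain ⟨f, -, hf⟩ := exists_equi_raw (H := H) (X := {l : List S // ¬ Fix r l}) (S := H)
    (fun h l => ⟨h • l.1, fun c => l.2 ((hr.fix_smul_iff h).1 c)⟩) (fun h g => h * g)
    (fun l => Subtype.ext (one_smul H l.1)) (fun g h l => Subtype.ext (mul_smul g h l.1))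
    mul_assoc (fun _ _ => True) (fun _ _ _ _ => trivial)
    (fun l => ⟨1, trivial, fun h e => by
      rw [hr.eq_one l.2 (congrArg Subtype.val e), mul_one]⟩)
  refine ⟨fun l => if hl : Fix r l then 1 else f ⟨l, hl⟩, fun h l hl => ?_⟩
  have hl' : ¬ Fix r (h • l) := fun c => hl ((hr.fix_smul_iff h).1 c)
  simp only [dif_neg hl, dif_neg hl']
  exact hf h ⟨l, hl⟩

theorem pr_mem_Fx {r : S → S → Prop} (hr : Rel H r) (ρ : Representation κ H V) (h : H)
    {z : List S →₀ V} (hz : z ∈ Fx κ r) : pr (List S) ρ h z ∈ Fx κ r :=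
  map_supported (fun l hl v => by
    rw [pr_single]
    exact single_mem_Fx (hr.fix_smul h hl) _) hz

/-- The chains that are neglected. -/
noncomputable def NN (ρ : Representation κ H V) (r : S → S → Prop) (P : H → Prop) :
    Submodule κ (List S →₀ V) := Fx κ r ⊔ Jp (pr (List S) ρ) P

theorem Fx_le_NN (ρ : Representation κ H V) (r : S → S → Prop) (P : H → Prop) :
    Fx κ r ≤ NN ρ r P := le_sup_left

theorem Jp_le_NN (ρ : Representation κ H V) (r : S → S → Prop) (P : H → Prop) :
    Jp (pr (List S) ρ) P ≤ NN ρ r P := le_sup_right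

theorem NN_mono (ρ : Representation κ H V) (r : S → S → Prop) {P Q : H → Prop}
    (h : ∀ g, P g → Q g) : NN ρ r P ≤ NN ρ r Q := sup_le_sup_left (Jp_mono _ h) _

theorem bd_mem_Jp {ρ : Representation κ H V} {P : H → Prop} {z : List S →₀ V}
    (hz : z ∈ Jp (pr (List S) ρ) P) : bd κ z ∈ Jp (pr (List S) ρ) P :=
  map_Jp (fun g v _ => (pr_bd ρ g v).symm) hz

/-- A linear map sends `NN` into `N` as soon as it does so on both parts. -/
theorem NN_le {ρ : Representation κ H V} {r : S → S → Prop} {P : H → Prop}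
    {f : (List S →₀ V) →ₗ[κ] W} {N : Submodule κ W} (h1 : ∀ z ∈ Fx κ r, f z ∈ N)
    (h2 : ∀ z ∈ Jp (pr (List S) ρ) P, f z ∈ N) {z : List S →₀ V} (hz : z ∈ NN ρ r P) :
    f z ∈ N := by
  obtain ⟨a, ha, b, hb, rfl⟩ := Submodule.mem_sup.1 hz
  rw [map_add]
  exact N.add_mem (h1 a ha) (h2 b hb)

theorem bd_mem_NN {ρ : Representation κ H V} {r : S → S → Prop} {P : H → Prop}
    {z : List S →₀ V} (hz : z ∈ NN ρ r P) : bd κ z ∈ NN ρ r P :=
  NN_le (fun _ h => Fx_le_NN ρ r P (bd_mem_Fx h)) (fun _ h => Jp_le_NN ρ r P (bd_mem_Jp h)) hz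

theorem Em_mem_NN {ρ : Representation κ H V} {σ : Representation κ H W} {r : S → S → Prop}
    {P : H → Prop} {f : V →ₗ[κ] W} (hf : ∀ h v, P h → f (ρ h v) = σ h (f v))
    {z : List S →₀ V} (hz : z ∈ NN ρ r P) : Em f z ∈ NN σ r P :=
  NN_le (fun _ h => Fx_le_NN σ r P (Em_mem_supported f h))
    (fun _ h => Jp_le_NN σ r P (map_Jp (fun g v hg => Em_pr (fun w => hf g w hg) v) h)) hz

/-- The relative homology vanishes for lists of length at least `j`. -/
def Van (ρ : Representation κ H V) (r : S → S → Prop) (P : H → Prop) (j : ℕ) : Prop :=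
  ∀ i, j ≤ i → ∀ z ∈ Gd κ i, bd κ z ∈ NN ρ r P → ∃ a ∈ Gd κ (i + 1), z - bd κ a ∈ NN ρ r P

theorem Van.mono {ρ : Representation κ H V} {r : S → S → Prop} {P : H → Prop} {j k : ℕ}
    (h : Van ρ r P j) (hjk : j ≤ k) : Van ρ r P k := fun i hi => h i (hjk.trans hi)

theorem NN_subgroup (ρ : Representation κ H V) (r : S → S → Prop) (C : Subgroup H) :
    NN (H := C) (ρ.comp C.subtype) r (fun _ => True) = NN ρ r (· ∈ C) := by
  have e : ∀ (c : C) (z : List S →₀ V),
      pr (H := C) (List S) (ρ.comp C.subtype) c z = pr (List S) ρ c z := fun _ _ => rfl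
  unfold NN Jp
  congr 2
  ext m
  constructor
  · rintro ⟨h, v, -, rfl⟩
    exact ⟨h, v, h.2, by rw [e]⟩
  · rintro ⟨h, v, hh, rfl⟩
    exact ⟨⟨h, hh⟩, v, trivial, by rw [e]⟩

theorem Van_subgroup (ρ : Representation κ H V) (r : S → S → Prop) (C : Subgroup H) (j : ℕ) :
    Van (H := C) (ρ.comp C.subtype) r (fun _ => True) j ↔ Van ρ r (· ∈ C) j := by
  unfold Van
  rw [NN_subgroup]

/-- Vanishing passes to retracts. -/
theorem Van.retract {ρ : Representation κ H V} {σ : Representation κ H W} {r : S → S → Prop}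
    {P : H → Prop} {j : ℕ} (h : Van σ r P j) (f : V →ₗ[κ] W) (g : W →ₗ[κ] V) (hf : Equi ρ σ f)
    (hg : Equi σ ρ g) (hgf : ∀ v, g (f v) = v) : Van ρ r P j := by
  intro i hi z hz hb
  obtain ⟨a, ha, h1⟩ := h i hi (Em f z) (Em_mem_supported f hz)
    (by rw [← Em_bd]; exact Em_mem_NN (fun h v _ => hf h v) hb)
  refine ⟨Em g a, Em_mem_supported g ha, ?_⟩
  have h2 := Em_mem_NN (σ := ρ) (fun h v _ => hg h v) h1
  have e : Em g (Em f z) = z := by
    ext l
    simp [hgf]
  rwa [map_sub, e, Em_bd] at h2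

/-- Vanishing passes along equivariant bijections. -/
theorem Van.of_bijective {ρ : Representation κ H V} {σ : Representation κ H W}
    {r : S → S → Prop} {P : H → Prop} {j : ℕ} (h : Van ρ r P j) (f : V →ₗ[κ] W)
    (hf : Equi ρ σ f) (hb : Function.Bijective f) : Van σ r P j := by
  let e := LinearEquiv.ofBijective f hb
  refine h.retract e.symm.toLinearMap f (fun g w => ?_) hf fun w => e.apply_symm_apply w
  apply e.injective
  show e (e.symm _) = f (ρ g (e.symm w))
  rw [hf, e.apply_symm_apply]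
  exact congrArg _ (e.apply_symm_apply w).symm

end Pool.Agent.MP_f7db47_al.Cv

end

section

/-! Cyclic quotients, resolutions, wreath products and tensor induction. -/

open scoped TensorProduct

namespace Pool.Agent.MP_f7db47_al.Cv

section cyc
variable {κ : Type*} [CommRing κ] {Γ : Type*} [Group Γ]
variable {V : Type*} [AddCommGroup V] [Module κ V]

/-- `π` maps `Γ` onto the cyclic group of order `p` and is split by `T`. -/
structure Cyc (p : ℕ) (π : Γ →* Multiplicative (ZMod p)) (T : Γ) : Prop where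
  gen : π T = Multiplicative.ofAdd 1
  pow : T ^ p = 1

/-- The norm of `T`. -/
noncomputable def NT (ρ : Representation κ Γ V) (T : Γ) (p : ℕ) : V →ₗ[κ] V :=
  ∑ m ∈ Finset.range p, ρ (T ^ m)

/-- The operator `1 - T`. -/
noncomputable def sg (ρ : Representation κ Γ V) (T : Γ) : V →ₗ[κ] V := 1 - ρ T

/-- The differentials of the periodic resolution. -/
noncomputable def th (ρ : Representation κ Γ V) (T : Γ) (p n : ℕ) : V →ₗ[κ] V :=
  if n % 2 = 0 then NT ρ T p else sg ρ T

theorem NT_apply (ρ : Representation κ Γ V) (T : Γ) (p : ℕ) (v : V) :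
    NT ρ T p v = ∑ m ∈ Finset.range p, ρ (T ^ m) v := by
  simp [NT, LinearMap.sum_apply]

theorem sg_apply (ρ : Representation κ Γ V) (T : Γ) (v : V) : sg ρ T v = v - ρ T v := rfl

theorem sg_NT (ρ : Representation κ Γ V) {T : Γ} {p : ℕ} (hT : T ^ p = 1) (v : V) :
    sg ρ T (NT ρ T p v) = 0 := by
  have h : ∀ m, ρ T (ρ (T ^ m) v) = ρ (T ^ (m + 1)) v := fun m => by
    rw [pow_succ', map_mul]; rfl
  rw [sg_apply, NT_apply, map_sum, ← Finset.sum_sub_distrib]
  simp only [h]
  rw [Finset.sum_range_sub' (fun m => ρ (T ^ m) v), hT, pow_zero, sub_self]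

theorem NT_sg (ρ : Representation κ Γ V) {T : Γ} {p : ℕ} (hT : T ^ p = 1) (v : V) :
    NT ρ T p (sg ρ T v) = 0 := by
  have h : ∀ m, ρ (T ^ m) (ρ T v) = ρ (T ^ (m + 1)) v := fun m => by
    rw [pow_succ, map_mul]; rfl
  rw [sg_apply, NT_apply]
  simp only [map_sub, h]
  rw [Finset.sum_range_sub' (fun m => ρ (T ^ m) v), hT, pow_zero, sub_self]

theorem th_th (ρ : Representation κ Γ V) {T : Γ} {p : ℕ} (hT : T ^ p = 1) (n : ℕ) (v : V) :
    th ρ T p (n + 1) (th ρ T p n v) = 0 := by
  unfold th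
  by_cases h : n % 2 = 0
  · rw [if_pos h, if_neg (by omega)]
    exact sg_NT ρ hT v
  · rw [if_neg h, if_pos (by omega)]
    exact NT_sg ρ hT v

/-- A linear map that commutes with `T` modulo a `T`-invariant submodule commutes with `th`
modulo that submodule. -/
theorem map_th {Γ' W : Type*} [Group Γ'] [AddCommGroup W] [Module κ W]
    {ρ : Representation κ Γ V} {σ : Representation κ Γ' W} {T : Γ} {T' : Γ'}
    {f : V →ₗ[κ] W} {N : Submodule κ W} (hN : ∀ w ∈ N, σ T' w ∈ N)
    (hf : ∀ v, f (ρ T v) - σ T' (f v) ∈ N) (p n : ℕ) (v : V) :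
    f (th ρ T p n v) - th σ T' p n (f v) ∈ N := by
  have key : ∀ m v, f (ρ (T ^ m) v) - σ (T' ^ m) (f v) ∈ N := by
    intro m
    induction m with
    | zero => intro v; simp
    | succ m ih =>
      intro v
      have h1 := hf (ρ (T ^ m) v)
      have h2 := hN _ (ih v)
      have := N.add_mem h1 h2
      rw [map_sub, sub_add_sub_cancel] at this
      rw [pow_succ', pow_succ', map_mul, map_mul]
      exact this
  unfold th
  split_ifs
  · rw [NT_apply, NT_apply, map_sum, ← Finset.sum_sub_distrib]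
    exact N.sum_mem fun m _ => key m v
  · rw [sg_apply, sg_apply, map_sub]
    have := N.neg_mem (hf v)
    convert this using 1
    abel

theorem map_th_eq {Γ' W : Type*} [Group Γ'] [AddCommGroup W] [Module κ W]
    {ρ : Representation κ Γ V} {σ : Representation κ Γ' W} {T : Γ} {T' : Γ'}
    {f : V →ₗ[κ] W} (hf : ∀ v, f (ρ T v) = σ T' (f v)) (p n : ℕ) (v : V) :
    f (th ρ T p n v) = th σ T' p n (f v) := by
  have := map_th (ρ := ρ) (σ := σ) (T := T) (T' := T') (f := f) (N := ⊥)
    (fun w hw => by rw [Submodule.mem_bot] at hw ⊢; rw [hw, map_zero])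
    (fun v => by rw [hf, sub_self]; exact Submodule.zero_mem _) p n v
  rwa [Submodule.mem_bot, sub_eq_zero] at this

/-- A `T`-invariant submodule is invariant under `th`. -/
theorem th_mem {ρ : Representation κ Γ V} {T : Γ} {N : Submodule κ V}
    (hN : ∀ w ∈ N, ρ T w ∈ N) (p n : ℕ) {v : V} (hv : v ∈ N) : th ρ T p n v ∈ N := by
  have key : ∀ m, ρ (T ^ m) v ∈ N := by
    intro m
    induction m with
    | zero => simpa using hv
    | succ m ih => rw [pow_succ', map_mul]; exact hN _ ih
  unfold th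
  split_ifs
  · rw [NT_apply]
    exact N.sum_mem fun m _ => key m
  · rw [sg_apply]
    exact N.sub_mem hv (hN _ hv)

end cyc

/-- The free `G`-set on `B`. -/
@[ext] structure FB (G B : Type) where
  g : G
  b : B

instance FB.act {G B : Type} [Group G] : MulAction G (FB G B) where
  smul h y := ⟨h * y.g, y.b⟩
  one_smul y := FB.ext (one_mul y.g) rfl
  mul_smul g h y := FB.ext (mul_assoc g h y.g) rfl

@[simp] theorem FB.smul_g {G B : Type} [Group G] (h : G) (y : FB G B) : (h • y).g = h * y.g := rfl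

@[simp] theorem FB.smul_b {G B : Type} [Group G] (h : G) (y : FB G B) : (h • y).b = y.b := rfl

/-- The free representation on `B`. -/
noncomputable def FR (κ : Type) [Field κ] (G B : Type) [Group G] :
    Representation κ G (FB G B →₀ κ) := pr (FB G B) (Representation.trivial κ G κ)

theorem ker_le_comap {κ : Type*} [CommRing κ] {H : Type*} [Group H] {V W : Type*}
    [AddCommGroup V] [Module κ V] [AddCommGroup W] [Module κ W] {ρ : Representation κ H V}
    {σ : Representation κ H W} {f : V →ₗ[κ] W} (hf : Equi ρ σ f) (g : H) :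
    LinearMap.ker f ≤ (LinearMap.ker f).comap (ρ g) := fun v hv => by
  show f (ρ g v) = 0
  rw [hf, LinearMap.mem_ker.1 hv, map_zero]

/-- The representation `σ` has a projective resolution of length at most `n`. -/
def Res {κ : Type} [Field κ] {G : Type} [Group G] :
    ℕ → {K : Type} → [AddCommGroup K] → [Module κ K] → Representation κ G K → Prop
  | 0, K, _, _, σ => ∃ (B : Type) (i : K →ₗ[κ] (FB G B →₀ κ)) (q : (FB G B →₀ κ) →ₗ[κ] K),
      Equi σ (FR κ G B) i ∧ Equi (FR κ G B) σ q ∧ ∀ v, q (i v) = v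
  | n + 1, K, _, _, σ => ∃ (B : Type) (f : (FB G B →₀ κ) →ₗ[κ] K) (hf : Equi (FR κ G B) σ f),
      Function.Surjective f ∧ Res n (K := LinearMap.ker f)
        ((FR κ G B).subrepresentation (LinearMap.ker f) (ker_le_comap hf))

/-- The wreath product of `G` with the cyclic group of order `p`. -/
@[ext] structure Wr (p : ℕ) (G : Type*) where
  x : ZMod p → G
  k : ZMod p

namespace Wr
variable {p : ℕ} {G : Type*} [Group G]

instance : Mul (Wr p G) := ⟨fun a b => ⟨fun i => a.x i * b.x (i - a.k), a.k + b.k⟩⟩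
instance : One (Wr p G) := ⟨⟨fun _ => 1, 0⟩⟩
instance : Inv (Wr p G) := ⟨fun a => ⟨fun i => (a.x (i + a.k))⁻¹, -a.k⟩⟩

@[simp] theorem mul_x (a b : Wr p G) (i : ZMod p) : (a * b).x i = a.x i * b.x (i - a.k) := rfl
@[simp] theorem mul_k (a b : Wr p G) : (a * b).k = a.k + b.k := rfl
@[simp] theorem one_x (i : ZMod p) : (1 : Wr p G).x i = 1 := rfl
@[simp] theorem one_k : (1 : Wr p G).k = 0 := rfl
@[simp] theorem inv_x (a : Wr p G) (i : ZMod p) : a⁻¹.x i = (a.x (i + a.k))⁻¹ := rfl
@[simp] theorem inv_k (a : Wr p G) : a⁻¹.k = -a.k := rfl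

instance : Group (Wr p G) :=
  Group.ofLeftAxioms
    (fun a b c => Wr.ext (funext fun i => by simp [mul_assoc, sub_sub]) (by simp [add_assoc]))
    (fun a => Wr.ext (funext fun i => by simp) (by simp))
    (fun a => Wr.ext (funext fun i => by simp) (by simp))

/-- The projection to the cyclic group. -/
def deg (p : ℕ) (G : Type*) [Group G] : Wr p G →* Multiplicative (ZMod p) where
  toFun a := Multiplicative.ofAdd a.k
  map_one' := rfl
  map_mul' _ _ := rfl

@[simp] theorem deg_apply (a : Wr p G) : deg p G a = Multiplicative.ofAdd a.k := rfl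

theorem deg_eq_one (a : Wr p G) : deg p G a = 1 ↔ a.k = 0 := Iff.rfl

/-- The shift. -/
def sh (p : ℕ) (G : Type*) [Group G] : Wr p G := ⟨fun _ => 1, 1⟩

@[simp] theorem sh_x (i : ZMod p) : (sh p G).x i = 1 := rfl
@[simp] theorem sh_k : (sh p G).k = 1 := rfl

@[simp] theorem pow_k (a : Wr p G) (m : ℕ) : (a ^ m).k = m * a.k := by
  induction m with
  | zero => simp
  | succ m ih => rw [pow_succ, mul_k, ih]; push_cast; ring

@[simp] theorem sh_pow_x (m : ℕ) (i : ZMod p) : (sh p G ^ m).x i = 1 := by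
  induction m generalizing i with
  | zero => simp
  | succ m ih => rw [pow_succ, mul_x, ih]; simp

theorem sh_pow : sh p G ^ p = 1 := Wr.ext (funext fun i => by simp) (by simp)

theorem cyc : Cyc p (deg p G) (sh p G) := ⟨rfl, sh_pow⟩

/-- The action on positions. -/
instance posAct : MulAction (Wr p G) (ZMod p) where
  smul a i := i + a.k
  one_smul i := add_zero i
  mul_smul a b i := by
    show i + (a.k + b.k) = i + b.k + a.k
    ring

theorem smul_pos (a : Wr p G) (i : ZMod p) : a • i = i + a.k := rfl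

end Wr

/-- The `p`-th power of a `G`-set. -/
def Pw (p : ℕ) (Y : Type*) := ZMod p → Y

instance Pw.act {p : ℕ} {G Y : Type*} [Group G] [MulAction G Y] :
    MulAction (Wr p G) (Pw p Y) where
  smul a y := fun i => a.x i • y (i - a.k)
  one_smul y := funext fun i => by
    show (1 : G) • y (i - 0) = y i
    simp
  mul_smul a b y := funext fun i => by
    show (a.x i * b.x (i - a.k)) • y (i - (a.k + b.k)) =
      a.x i • b.x (i - a.k) • y (i - a.k - b.k)
    rw [mul_smul, sub_sub]

theorem Pw.smul_apply {p : ℕ} {G Y : Type*} [Group G] [MulAction G Y] (a : Wr p G) (y : Pw p Y)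
    (i : ZMod p) : (a • y) i = a.x i • y (i - a.k) := rfl

/-- Cyclic words of length `p`. -/
def Om (p : ℕ) (G : Type*) := ZMod p → G

instance Om.act {p : ℕ} {G : Type*} [Group G] : MulAction (Wr p G) (Om p G) where
  smul a ω := fun i => a.x i * ω (i - a.k) * (a.x (i + 1))⁻¹
  one_smul ω := funext fun i => by
    show (1 : G) * ω (i - 0) * (1 : G)⁻¹ = ω i
    simp
  mul_smul a b ω := funext fun i => by
    show a.x i * b.x (i - a.k) * ω (i - (a.k + b.k)) * (a.x (i + 1) * b.x (i + 1 - a.k))⁻¹ =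
      a.x i * (b.x (i - a.k) * ω (i - a.k - b.k) * (b.x (i - a.k + 1))⁻¹) * (a.x (i + 1))⁻¹
    rw [sub_sub, show i - a.k + 1 = i + 1 - a.k by ring]
    group

theorem Om.smul_apply {p : ℕ} {G : Type*} [Group G] (a : Wr p G) (ω : Om p G) (i : ZMod p) :
    (a • ω) i = a.x i * ω (i - a.k) * (a.x (i + 1))⁻¹ := rfl

/-- The constant word. -/
def Om.cst (p : ℕ) {G : Type*} (c : G) : Om p G := fun _ => c

/-- The elements of the base group that are trivial outside `U`. -/
def WU {p : ℕ} {G : Type*} [Group G] (U : Set (ZMod p)) (w : Wr p G) : Prop :=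
  w.k = 0 ∧ ∀ j, j ∉ U → w.x j = 1

/-- The positions `i + 1, …, i + N - 1`. -/
def Win {p : ℕ} (N : ℕ) (i : ZMod p) : Set (ZMod p) := {j | ∃ m : ℕ, 1 ≤ m ∧ m < N ∧ j = i + m}

/-- The permutation representation on cyclic words. -/
noncomputable def OmR (κ : Type*) [CommRing κ] (p : ℕ) (G : Type*) [Group G] :
    Representation κ (Wr p G) (Om p G →₀ κ) :=
  pr (Om p G) (Representation.trivial κ (Wr p G) κ)

section ti
variable {κ : Type*} [CommRing κ] {G : Type*} [Group G]
variable {K K' : Type*} [AddCommGroup K] [Module κ K] [AddCommGroup K'] [Module κ K']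

/-- The translation of positions. -/
def trans {p : ℕ} (k : ZMod p) : ZMod p ≃ ZMod p where
  toFun i := i + k
  invFun i := i - k
  left_inv i := add_sub_cancel_right i k
  right_inv i := sub_add_cancel i k

/-- The operator of one element on the tensor power. -/
noncomputable def TI1 (p : ℕ) (σ : Representation κ G K) (w : Wr p G) :
    (⨂[κ] _ : ZMod p, K) →ₗ[κ] (⨂[κ] _ : ZMod p, K) :=
  PiTensorProduct.map (fun i => σ (w.x i)) ∘ₗ
    (PiTensorProduct.reindex κ (fun _ : ZMod p => K) (trans w.k)).toLinearMap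

theorem TI1_tprod (p : ℕ) (σ : Representation κ G K) (w : Wr p G) (v : ZMod p → K) :
    TI1 p σ w (PiTensorProduct.tprod κ v) =
      PiTensorProduct.tprod κ fun i => σ (w.x i) (v (i - w.k)) := by
  simp [TI1, trans]

/-- Tensor induction. -/
noncomputable def TI (p : ℕ) (σ : Representation κ G K) :
    Representation κ (Wr p G) (⨂[κ] _ : ZMod p, K) where
  toFun := TI1 p σ
  map_one' := by
    ext v
    simp [TI1_tprod]
    congr 1
    funext i
    rw [sub_zero]
  map_mul' a b := by
    ext v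
    simp [TI1_tprod]
    congr 1
    funext i
    rw [sub_sub]

theorem TI_tprod (p : ℕ) (σ : Representation κ G K) (w : Wr p G) (v : ZMod p → K) :
    TI p σ w (PiTensorProduct.tprod κ v) =
      PiTensorProduct.tprod κ fun i => σ (w.x i) (v (i - w.k)) := TI1_tprod p σ w v

/-- The tensor power of a linear map. -/
noncomputable def TIm (p : ℕ) (f : K →ₗ[κ] K') :
    (⨂[κ] _ : ZMod p, K) →ₗ[κ] (⨂[κ] _ : ZMod p, K') := PiTensorProduct.map fun _ => f

theorem TIm_tprod (p : ℕ) (f : K →ₗ[κ] K') (v : ZMod p → K) :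
    TIm p f (PiTensorProduct.tprod κ v) = PiTensorProduct.tprod κ fun i => f (v i) := by
  simp [TIm]

theorem TIm_equi (p : ℕ) {σ : Representation κ G K} {σ' : Representation κ G K'}
    {f : K →ₗ[κ] K'} (hf : Equi σ σ' f) : Equi (TI p σ) (TI p σ') (TIm p f) := by
  intro w z
  have : TIm p f ∘ₗ TI p σ w = TI p σ' w ∘ₗ TIm p f := by
    ext v
    simp [TI_tprod, TIm_tprod, hf _]
  exact LinearMap.congr_fun this z

/-- Tensor induction restricted along `ψ`. -/
noncomputable def TIr {p : ℕ} {Γ : Type*} [Group Γ] (ψ : Γ →* Wr p G)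
    (σ : Representation κ G K) : Representation κ Γ (⨂[κ] _ : ZMod p, K) := (TI p σ).comp ψ

theorem TIr_apply {p : ℕ} {Γ : Type*} [Group Γ] (ψ : Γ →* Wr p G) (σ : Representation κ G K)
    (γ : Γ) : TIr ψ σ γ = TI p σ (ψ γ) := rfl

theorem TIr_tprod {p : ℕ} {Γ : Type*} [Group Γ] (ψ : Γ →* Wr p G) (σ : Representation κ G K)
    (γ : Γ) (v : ZMod p → K) : TIr ψ σ γ (PiTensorProduct.tprod κ v) =
      PiTensorProduct.tprod κ fun i => σ ((ψ γ).x i) (v (i - (ψ γ).k)) := TI_tprod p σ _ v

theorem TIm_equi' {p : ℕ} {Γ : Type*} [Group Γ] (ψ : Γ →* Wr p G) {σ : Representation κ G K}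
    {σ' : Representation κ G K'} {f : K →ₗ[κ] K'} (hf : Equi σ σ' f) :
    Equi (TIr ψ σ) (TIr ψ σ') (TIm p f) := fun γ z => TIm_equi p hf (ψ γ) z

end ti

end Pool.Agent.MP_f7db47_al.Cv

end

section

namespace Pool.Agent.MP_f7db47_al.Cv

variable {p : ℕ} {G : Type*} [Group G]

/-- The stabiliser of the constant word. -/
abbrev Gam (p : ℕ) (g : G) : Subgroup (Wr p G) := MulAction.stabilizer (Wr p G) (Om.cst p g)

theorem mem_Gam {g : G} {w : Wr p G} : w ∈ Gam p g ↔ ∀ i, w.x i * g * (w.x (i + 1))⁻¹ = g :=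
  ⟨fun h i => congrFun h i, fun h => funext h⟩

/-- The shift as an element of the stabiliser. -/
def GamT (p : ℕ) (g : G) : Gam p g := ⟨Wr.sh p G, mem_Gam.2 fun i => by simp⟩

/-- Two points are fixed by the same nontrivial element. -/
def GamR (p : ℕ) (g : G) (s s' : Pw p G) : Prop :=
  ∃ γ : Gam p g, γ ≠ 1 ∧ γ • s = s ∧ γ • s' = s'

theorem Gam_succ {g : G} (γ : Gam p g) (i : ZMod p) :
    (γ : Wr p G).x (i + 1) = g⁻¹ * (γ : Wr p G).x i * g := by
  have h := mem_Gam.1 γ.2 i
  rw [mul_inv_eq_iff_eq_mul] at h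
  rw [mul_assoc, h, inv_mul_cancel_left]

theorem Gam_add {g : G} (γ : Gam p g) (i : ZMod p) (m : ℕ) :
    (γ : Wr p G).x (i + m) = (g ^ m)⁻¹ * (γ : Wr p G).x i * g ^ m := by
  induction m with
  | zero => simp
  | succ m ih =>
    rw [Nat.cast_succ, ← add_assoc, Gam_succ, ih, pow_succ]
    group

theorem Gam_one_of_fix {w : Wr p G} {s : Pw p G} (hk : w.k = 0) (hs : w • s = s) : w = 1 := by
  refine Wr.ext (funext fun i => ?_) hk
  have h := congrFun hs i
  rw [Pw.smul_apply, hk, sub_zero, smul_eq_mul] at h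
  simpa using h

theorem Gam_eq_of_fix {a b : Wr p G} {s : Pw p G} (hk : a.k = b.k) (ha : a • s = s)
    (hb : b • s = s) : a = b := by
  have h : a⁻¹ * b = 1 := Gam_one_of_fix (s := s) (by simp [hk])
    (by rw [mul_smul, hb, inv_smul_eq_iff, ha])
  exact inv_mul_eq_one.1 h

theorem Gam_pow_fix {a : Wr p G} {s : Pw p G} (ha : a • s = s) (m : ℕ) : a ^ m • s = s :=
  (MulAction.stabilizer (Wr p G) s).pow_mem ha m

theorem Gam_pow_k [Fact p.Prime] {a : Wr p G} (hk : a.k ≠ 0) (j : ZMod p) :
    (a ^ (j / a.k).val).k = j := by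
  rw [Wr.pow_k, ZMod.natCast_zmod_val, div_mul_cancel₀ _ hk]

theorem Gam_k_ne {g : G} {γ : Gam p g} (h : γ ≠ 1) {s : Pw p G} (hs : γ • s = s) :
    (γ : Wr p G).k ≠ 0 := fun hk => h (Subtype.ext (Gam_one_of_fix hk hs))

theorem Gam_pow_x {a : Wr p G} (hk : a.k = 0) (m : ℕ) (i : ZMod p) : (a ^ m).x i = a.x i ^ m := by
  induction m with
  | zero => simp
  | succ m ih => rw [pow_succ', pow_succ', Wr.mul_x, hk, sub_zero, ih]

theorem Gam_comm [NeZero p] {g : G} (γ : Gam p g) (i : ZMod p) :
    (γ : Wr p G).x i ∈ Subgroup.centralizer ({g ^ p} : Set G) := by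
  rw [Subgroup.mem_centralizer_iff]
  rintro _ rfl
  have h := Gam_add γ i p
  rw [ZMod.natCast_self, add_zero, mul_assoc, eq_inv_mul_iff_mul_eq] at h
  exact h

/-- The stabiliser lies in the wreath product of the centraliser. -/
def GamPsi (p : ℕ) [NeZero p] (g : G) :
    Gam p g →* Wr p (Subgroup.centralizer ({g ^ p} : Set G)) where
  toFun γ := ⟨fun i => ⟨(γ : Wr p G).x i, Gam_comm γ i⟩, (γ : Wr p G).k⟩
  map_one' := rfl
  map_mul' _ _ := rfl

/-- The degree on the stabiliser. -/
abbrev GamPi (p : ℕ) [NeZero p] (g : G) : Gam p g →* Multiplicative (ZMod p) :=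
  (Wr.deg p _).comp (GamPsi p g)

theorem GamPi_eq_one [NeZero p] {g : G} (γ : Gam p g) :
    GamPi p g γ = 1 ↔ (γ : Wr p G).k = 0 := Iff.rfl

theorem GamPsi_injective [NeZero p] (g : G) : Function.Injective (GamPsi p g) := by
  intro a b h
  have hk : (GamPsi p g a).k = (GamPsi p g b).k := congrArg Wr.k h
  refine Subtype.ext (Wr.ext (funext fun i => ?_) hk)
  exact congrArg Subtype.val (congrFun (congrArg Wr.x h) i)

theorem Gam_cyc [NeZero p] (g : G) : Cyc p (GamPi p g) (GamT p g) := by
  exact ⟨rfl, Subtype.ext Wr.sh_pow⟩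

theorem Gam_ker [NeZero p] (g : G) :
    ∃ φ : (GamPi p g).ker →* Subgroup.centralizer ({g ^ p} : Set G), Function.Injective φ := by
  refine ⟨MonoidHom.mk' (fun c => (GamPsi p g c.1).x 0) fun a b => ?_, ?_⟩
  · have ha : (GamPsi p g a.1).k = 0 := a.2
    rw [Subgroup.coe_mul, map_mul, Wr.mul_x, ha, sub_zero]
  · rw [injective_iff_map_eq_one]
    intro c hc
    have h0 : (c.1 : Wr p G).x 0 = 1 := congrArg Subtype.val hc
    refine Subtype.ext (Subtype.ext (Wr.ext (funext fun i => ?_) c.2))
    have h := Gam_add c.1 0 i.val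
    rw [ZMod.natCast_zmod_val, zero_add, h0] at h
    simpa using h

theorem Gam_rel [Fact p.Prime] (g : G) : Rel (Gam p g) (GamR p g) := by
  refine ⟨?_, ?_, ?_, fun h a b hh ha hb => ⟨h, hh, ha, hb⟩⟩
  · rintro a b ⟨γ, h, ha, hb⟩
    exact ⟨γ, h, hb, ha⟩
  · rintro a b c ⟨γ, h, ha, hb⟩ ⟨δ, h', hb', hc⟩
    refine ⟨γ, h, ha, ?_⟩
    have hk := Gam_k_ne h' hb'
    have e := Gam_eq_of_fix (Gam_pow_k hk (γ : Wr p G).k) (Gam_pow_fix hb' _) hb
    show (γ : Wr p G) • c = c
    rw [← e]
    exact Gam_pow_fix hc _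
  · rintro h a b ⟨γ, hγ, ha, hb⟩
    refine ⟨h * γ * h⁻¹, by simpa using hγ, ?_, ?_⟩
    · rw [mul_smul, inv_smul_smul, mul_smul, ha]
    · rw [mul_smul, inv_smul_smul, mul_smul, hb]

theorem Gam_k0 [Fact p.Prime] {g : G}
    (hnt : ∀ t : Subgroup.centralizer ({g ^ p} : Set G), t ^ p = 1 → t = 1) (γ : Gam p g)
    (hγ : γ ^ p = 1) (hk : (γ : Wr p G).k = 0) : γ = 1 := by
  refine Subtype.ext (Wr.ext (funext fun i => ?_) hk)
  have h1 : (γ : Wr p G) ^ p = 1 := congrArg Subtype.val hγ
  have h2 := Gam_pow_x hk p i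
  rw [h1] at h2
  exact congrArg Subtype.val (hnt ⟨_, Gam_comm γ i⟩ (Subtype.ext h2.symm))

theorem Gam_fix [Fact p.Prime] (g : G)
    (hnt : ∀ t : Subgroup.centralizer ({g ^ p} : Set G), t ^ p = 1 → t = 1) (γ : Gam p g)
    (hγ : γ ^ p = 1) : ∃ s : Pw p G, γ • s = s := by
  by_cases hk : (γ : Wr p G).k = 0
  · exact ⟨fun _ => 1, by rw [Gam_k0 hnt γ hγ hk, one_smul]⟩
  have h1 : (γ : Wr p G) ^ p = 1 := congrArg Subtype.val hγ
  refine ⟨fun i => ((γ : Wr p G) ^ (i / (γ : Wr p G).k).val).x i, funext fun i => ?_⟩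
  show ((γ : Wr p G) * (γ : Wr p G) ^ ((i - (γ : Wr p G).k) / (γ : Wr p G).k).val).x i =
    ((γ : Wr p G) ^ (i / (γ : Wr p G).k).val).x i
  rw [← pow_succ', pow_eq_pow_mod _ h1, pow_eq_pow_mod (i / (γ : Wr p G).k).val h1]
  congr 2
  refine (ZMod.natCast_eq_natCast_iff _ _ _).1 ?_
  rw [Nat.cast_succ, ZMod.natCast_zmod_val, ZMod.natCast_zmod_val, sub_div, div_self hk,
    sub_add_cancel]

theorem Gam_tor [Fact p.Prime] (g : G)
    (hnt : ∀ t : Subgroup.centralizer ({g ^ p} : Set G), t ^ p = 1 → t = 1) (γ : Gam p g)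
    (hγ : γ ^ p = 1) (s : Pw p G) (h : GamR p g (γ • s) s) : γ • s = s := by
  obtain ⟨δ, hδ, h1, h2⟩ := h
  have hk := Gam_k_ne hδ h2
  have hc : γ⁻¹ * δ * γ = δ := by
    refine Subtype.ext (Gam_eq_of_fix (s := s) (by simp) ?_ h2)
    show (γ⁻¹ * δ * γ) • s = s
    rw [mul_smul, mul_smul, h1, inv_smul_smul]
  have hc' : Commute γ δ := by
    rw [mul_assoc, inv_mul_eq_iff_eq_mul] at hc
    exact hc.symm
  have hp : δ ^ p = 1 :=
    Subtype.ext (Gam_one_of_fix (s := s) (by simp) (Gam_pow_fix h2 p))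
  set m := ((γ : Wr p G).k / (δ : Wr p G).k).val with hm
  have he : γ * (δ ^ m)⁻¹ = 1 := by
    refine Gam_k0 hnt _ ?_ ?_
    · rw [(hc'.pow_right m).inv_right.mul_pow, hγ, inv_pow, ← pow_mul, mul_comm m, pow_mul, hp]
      simp
    · have := Gam_pow_k hk (γ : Wr p G).k
      rw [Subgroup.coe_mul, Subgroup.coe_inv, Subgroup.coe_pow, Wr.mul_k, Wr.inv_k, hm, this,
        add_neg_cancel]
  rw [mul_inv_eq_one.1 he]
  exact Gam_pow_fix h2 m

/-- The points whose associated word is constant and conjugate to `g`. -/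
def Lam (p : ℕ) (g : G) (s : Pw p G) : Prop :=
  ∃ c, IsConj c g ∧ ∀ i, (s i)⁻¹ * g * s (i + 1) = c

theorem Lam_smul (g : G) (γ : Gam p g) (s : Pw p G) : Lam p g (γ • s) ↔ Lam p g s := by
  have key : ∀ i, ((γ • s) i)⁻¹ * g * (γ • s) (i + 1) =
      (s (i - (γ : Wr p G).k))⁻¹ * g * s (i - (γ : Wr p G).k + 1) := fun i => by
    show ((γ : Wr p G).x i * s (i - (γ : Wr p G).k))⁻¹ * g *
      ((γ : Wr p G).x (i + 1) * s (i + 1 - (γ : Wr p G).k)) = _
    rw [Gam_succ, add_sub_right_comm]
    group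
  constructor
  · rintro ⟨c, hc, h⟩
    refine ⟨c, hc, fun i => ?_⟩
    have := h (i + (γ : Wr p G).k)
    rwa [key, add_sub_cancel_right] at this
  · rintro ⟨c, hc, h⟩
    exact ⟨c, hc, fun i => by rw [key, h]⟩

theorem Lam_of_GamR [Fact p.Prime] (g : G) {s s' : Pw p G} (h : GamR p g s s')
    (hs : Lam p g s) : Lam p g s' := by
  obtain ⟨γ, hγ, h1, h2⟩ := h
  obtain ⟨c, hc, hs⟩ := hs
  have hk := Gam_k_ne hγ h1
  obtain ⟨δ, hδ, h3, h4⟩ : ∃ δ : Wr p G, δ.k = 1 ∧ δ • s = s ∧ δ • s' = s' :=
    ⟨_, Gam_pow_k hk 1, Gam_pow_fix h1 _, Gam_pow_fix h2 _⟩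
  have h5 : ∀ i, (s (i + 1))⁻¹ * s' (i + 1) = (s i)⁻¹ * s' i := fun i => by
    have e1 := congrFun h3 (i + 1)
    have e2 := congrFun h4 (i + 1)
    rw [Pw.smul_apply, hδ, add_sub_cancel_right, smul_eq_mul] at e1 e2
    rw [← e1, ← e2]
    group
  have h6 : ∀ m : ℕ, (s m)⁻¹ * s' m = (s 0)⁻¹ * s' 0 := fun m => by
    induction m with
    | zero => simp
    | succ m ih => rw [Nat.cast_succ, h5, ih]
  obtain ⟨t, ht⟩ : ∃ t, ∀ i, s' i = s i * t := ⟨(s 0)⁻¹ * s' 0, fun i => by
    have := h6 i.val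
    rw [ZMod.natCast_zmod_val] at this
    rw [← this, mul_inv_cancel_left]⟩
  refine ⟨t⁻¹ * c * t, IsConj.trans (isConj_iff.2 ⟨t, by group⟩) hc, fun i => ?_⟩
  rw [ht, ht, ← hs i]
  group

end Pool.Agent.MP_f7db47_al.Cv

end

section

namespace Pool.Agent.MP_f7db47_al.Cv

variable {κ : Type*} [CommRing κ] {H : Type*} [Group H] {S : Type*} [MulAction H S]
variable {V' V V'' : Type*} [AddCommGroup V'] [Module κ V'] [AddCommGroup V] [Module κ V]
  [AddCommGroup V''] [Module κ V'']

open Classical in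
/-- The normal form of a chain modulo the neglected chains. -/
noncomputable def LES_nf (ρ : Representation κ H V) (r : S → S → Prop) (e : List S → H) :
    (List S →₀ V) →ₗ[κ] (List S →₀ V) :=
  Finsupp.lsum κ fun l => if Fix r l then 0 else Finsupp.lsingle ((e l)⁻¹ • l) ∘ₗ ρ (e l)⁻¹

section
variable {ρ' : Representation κ H V'} {ρ : Representation κ H V} {ρ'' : Representation κ H V''}
  {r : S → S → Prop} {e : List S → H}

theorem LES_pos {l : List S} (h : Fix r l) (v : V) : LES_nf ρ r e (Finsupp.single l v) = 0 := by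
  simp [LES_nf, h]

theorem LES_neg {l : List S} (h : ¬ Fix r l) (v : V) :
    LES_nf ρ r e (Finsupp.single l v) = pr (List S) ρ (e l)⁻¹ (Finsupp.single l v) := by
  simp [LES_nf, h]

theorem LES_zero (hr : Rel H r) (he : ∀ (h : H) l, ¬ Fix r l → e (h • l) = h * e l)
    {z : List S →₀ V} (hz : z ∈ NN ρ r fun _ => True) : LES_nf ρ r e z = 0 := by
  rw [← Submodule.mem_bot κ]
  refine NN_le (fun z hz => map_supported (fun l hl v => LES_pos hl v) hz)
    (fun z hz => Jp_le (fun g z _ => ?_) hz) hz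
  rw [Submodule.mem_bot, sub_eq_zero]
  induction z using Finsupp.induction_linear with
  | zero => simp
  | add a b ha hb => simp only [map_add, ha, hb]
  | single l v =>
    by_cases hl : Fix r l
    · rw [pr_single, LES_pos hl, LES_pos (hr.fix_smul g hl)]
    · rw [LES_neg hl, pr_single, LES_neg fun c => hl ((hr.fix_smul_iff g).1 c), he g l hl,
        ← pr_single, ← Module.End.mul_apply, ← map_mul, mul_inv_rev, inv_mul_cancel_right]

theorem LES_sub (z : List S →₀ V) : z - LES_nf ρ r e z ∈ NN ρ r fun _ => True := by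
  induction z using Finsupp.induction_linear with
  | zero => simp
  | add a b ha hb =>
    rw [map_add, add_sub_add_comm]
    exact Submodule.add_mem _ ha hb
  | single l v =>
    by_cases hl : Fix r l
    · rw [LES_pos hl, sub_zero]
      exact Fx_le_NN _ _ _ (single_mem_Fx hl v)
    · rw [LES_neg hl, ← neg_sub]
      exact Submodule.neg_mem _ (Jp_le_NN _ _ _ (mem_Jp _ trivial _))

theorem LES_Gd {i : ℕ} {z : List S →₀ V} (hz : z ∈ Gd κ i) : LES_nf ρ r e z ∈ Gd κ i :=
  map_supported (fun l hl v => by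
    by_cases h : Fix r l
    · rw [LES_pos h]
      exact Submodule.zero_mem _
    · rw [LES_neg h]
      exact pr_mem_Gd _ _ (single_mem_Gd hl v)) hz

theorem LES_Em {f : V' →ₗ[κ] V} (hf : Equi ρ' ρ f) (z : List S →₀ V') :
    Em f (LES_nf ρ' r e z) = LES_nf ρ r e (Em f z) := by
  induction z using Finsupp.induction_linear with
  | zero => simp
  | add a b ha hb => simp only [map_add, ha, hb]
  | single l v =>
    by_cases h : Fix r l
    · rw [Em_single, LES_pos h, LES_pos h, map_zero]
    · rw [LES_neg h, Em_pr (hf _), Em_single, LES_neg h]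

theorem LES_inj (hr : Rel H r) {f : V' →ₗ[κ] V} (hf : Equi ρ' ρ f) (finj : Function.Injective f)
    {z : List S →₀ V'} (hz : Em f z ∈ NN ρ r fun _ => True) : z ∈ NN ρ' r fun _ => True := by
  obtain ⟨e, he⟩ := hr.exists_label
  have h1 := LES_zero hr he hz
  rw [← LES_Em hf] at h1
  have h2 : LES_nf ρ' r e z = 0 := by
    ext l
    exact finj (by simpa using DFunLike.congr_fun h1 l)
  have h3 := LES_sub (ρ := ρ') (r := r) (e := e) z
  rwa [h2, sub_zero] at h3

omit [MulAction H S] in
theorem LES_lift (f : V' →ₗ[κ] V) {i : ℕ} {z : List S →₀ V} (hz : z ∈ Gd κ i)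
    (h : ∀ l, ∃ v, f v = z l) : ∃ z' ∈ Gd κ i, Em f z' = z := by
  choose v hv using h
  refine ⟨∑ l ∈ z.support, Finsupp.single l (v l),
    Submodule.sum_mem _ fun l hl => single_mem_Gd (hz hl) _, ?_⟩
  simp only [map_sum, Em_single, hv]
  exact Finsupp.sum_single z

theorem LES_ex (hr : Rel H r) {f : V' →ₗ[κ] V} {g : V →ₗ[κ] V''} (hg : Equi ρ ρ'' g)
    (hex : Function.Exact f g) {i : ℕ} {z : List S →₀ V} (hz : z ∈ Gd κ i)
    (h : Em g z ∈ NN ρ'' r fun _ => True) :
    ∃ z' ∈ Gd κ i, z - Em f z' ∈ NN ρ r fun _ => True := by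
  obtain ⟨e, he⟩ := hr.exists_label
  have h1 := LES_zero hr he h
  rw [← LES_Em hg] at h1
  obtain ⟨z', h2, h3⟩ := LES_lift f (LES_Gd (ρ := ρ) (r := r) (e := e) hz) fun l =>
    (hex _).1 (by simpa using DFunLike.congr_fun h1 l)
  exact ⟨z', h2, h3 ▸ LES_sub z⟩

end

theorem Van.x2 {ρ' : Representation κ H V'} {ρ : Representation κ H V}
    {ρ'' : Representation κ H V''} {r : S → S → Prop} (hr : Rel H r) (f : V' →ₗ[κ] V)
    (g : V →ₗ[κ] V'') (hf : Equi ρ' ρ f) (hg : Equi ρ ρ'' g) (finj : Function.Injective f)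
    (gsurj : Function.Surjective g) (hex : Function.Exact f g) {j : ℕ}
    (h1 : Van ρ' r (fun _ => True) j) (h3 : Van ρ'' r (fun _ => True) j) :
    Van ρ r (fun _ => True) j := by
  intro i hi z hz hb
  obtain ⟨a'', ha'', e1⟩ := h3 i hi (Em g z) (Em_mem_supported g hz)
    (by rw [← Em_bd]; exact Em_mem_NN (fun h v _ => hg h v) hb)
  obtain ⟨a, ha, rfl⟩ := LES_lift g ha'' fun l => gsurj _
  rw [← Em_bd, ← map_sub] at e1
  obtain ⟨z', hz', e2⟩ := LES_ex hr hg hex (Submodule.sub_mem _ hz (bd_mem_Gd ha)) e1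
  have e3 := bd_mem_NN e2
  rw [map_sub, map_sub, bd_bd, sub_zero, ← Em_bd] at e3
  obtain ⟨a', ha', e4⟩ := h1 i hi z' hz' (LES_inj hr hf finj
    (by simpa using Submodule.sub_mem _ hb e3))
  refine ⟨a + Em f a', Submodule.add_mem _ ha (Em_mem_supported f ha'), ?_⟩
  have e5 := Submodule.add_mem _ e2 (Em_mem_NN (σ := ρ) (fun h v _ => hf h v) e4)
  rw [map_sub, Em_bd] at e5
  rw [map_add]
  convert e5 using 1
  abel

theorem Van.x3 {ρ' : Representation κ H V'} {ρ : Representation κ H V}
    {ρ'' : Representation κ H V''} {r : S → S → Prop} (hr : Rel H r) (f : V' →ₗ[κ] V)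
    (g : V →ₗ[κ] V'') (hf : Equi ρ' ρ f) (hg : Equi ρ ρ'' g) (finj : Function.Injective f)
    (gsurj : Function.Surjective g) (hex : Function.Exact f g) {j : ℕ}
    (h1 : Van ρ' r (fun _ => True) j) (h2 : Van ρ r (fun _ => True) (j + 1)) :
    Van ρ'' r (fun _ => True) (j + 1) := by
  intro i hi z'' hz'' hb
  obtain ⟨i, rfl⟩ : ∃ i', i = i' + 1 := ⟨i - 1, by omega⟩
  obtain ⟨z, hz, rfl⟩ := LES_lift g hz'' fun l => gsurj _
  rw [← Em_bd] at hb
  obtain ⟨z', hz', e2⟩ := LES_ex hr hg hex (bd_mem_Gd hz) hb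
  have e3 := bd_mem_NN e2
  rw [map_sub, bd_bd, zero_sub, ← Em_bd, Submodule.neg_mem_iff] at e3
  obtain ⟨a', ha', e4⟩ := h1 i (by omega) z' hz' (LES_inj hr hf finj e3)
  have e5 := Submodule.add_mem _ e2 (Em_mem_NN (σ := ρ) (fun h v _ => hf h v) e4)
  rw [map_sub, Em_bd, sub_add_sub_cancel, ← map_sub] at e5
  obtain ⟨a, ha, e6⟩ := h2 (i + 1) hi _ (Submodule.sub_mem _ hz (Em_mem_supported f ha')) e5
  refine ⟨Em g a, Em_mem_supported g ha, ?_⟩
  have e7 := Em_mem_NN (σ := ρ'') (fun h v _ => hg h v) e6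
  have e8 : Em g (Em f a') = 0 := by
    ext l
    simpa using hex.apply_apply_eq_zero _
  rwa [map_sub, map_sub, e8, sub_zero, Em_bd] at e7

end Pool.Agent.MP_f7db47_al.Cv

end

section

namespace Pool.Agent.MP_f7db47_al.Cv

variable {κ : Type*} [CommRing κ] {H : Type*} [Group H] {S : Type*} [MulAction H S]
variable {V : Type*} [AddCommGroup V] [Module κ V]

/-- The cone with a vertex that depends on the point of `Y` and on the list. -/
noncomputable def ConeOp (κ : Type*) [CommRing κ] (V : Type*) [AddCommGroup V] [Module κ V]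
    {S Y : Type*} (c : Y → List S → S) :
    (List S →₀ (Y →₀ V)) →ₗ[κ] (List S →₀ (Y →₀ V)) :=
  Finsupp.lsum κ fun l => Finsupp.lsum κ fun y =>
    Finsupp.lsingle (c y l :: l) ∘ₗ Finsupp.lsingle y

theorem Cone_single {S Y : Type*} (c : Y → List S → S) (l : List S) (y : Y) (v : V) :
    ConeOp κ V c (Finsupp.single l (Finsupp.single y v)) =
      Finsupp.single (c y l :: l) (Finsupp.single y v) := by
  rw [ConeOp, Finsupp.lsum_single, Finsupp.lsum_single]
  rfl

theorem Cone_mem {S Y : Type*} (c : Y → List S → S) {A B : Set (List S)}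
    (h : ∀ l ∈ A, ∀ y, c y l :: l ∈ B) {z : List S →₀ (Y →₀ V)}
    (hz : z ∈ Finsupp.supported (Y →₀ V) κ A) :
    ConeOp κ V c z ∈ Finsupp.supported (Y →₀ V) κ B := by
  refine map_supported (fun l hl m => ?_) hz
  induction m using Finsupp.induction_linear with
  | zero => simp
  | add a b ha hb =>
    rw [Finsupp.single_add, map_add]
    exact Submodule.add_mem _ ha hb
  | single y v =>
    rw [Cone_single]
    exact Finsupp.single_mem_supported _ _ (h l hl y)

theorem Cone_Gd {S Y : Type*} (c : Y → List S → S) {j : ℕ} {z : List S →₀ (Y →₀ V)}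
    (hz : z ∈ Gd κ j) : ConeOp κ V c z ∈ Gd κ (j + 1) :=
  Cone_mem c (fun _ hl _ => Nat.succ_le_succ hl) hz

theorem Cone_bd {S Y : Type*} (c : Y → List S → S) {A : Set (List S)}
    (h : ∀ l ∈ A, ∀ l' : List S, l'.Sublist l → l'.length + 1 = l.length → ∀ y, c y l' = c y l)
    {z : List S →₀ (Y →₀ V)} (hz : z ∈ Finsupp.supported (Y →₀ V) κ A) :
    bd κ (ConeOp κ V c z) = z - ConeOp κ V c (bd κ z) := by
  refine eq_on_supported (f := bd κ ∘ₗ ConeOp κ V c) (g := LinearMap.id - ConeOp κ V c ∘ₗ bd κ)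
    (fun l hl m => ?_) hz
  induction m using Finsupp.induction_linear with
  | zero => simp
  | add a b ha hb => rw [Finsupp.single_add, map_add, map_add, ha, hb]
  | single y v =>
    have e : bd κ (Finsupp.single l (Finsupp.single y v)) =
        Em (Finsupp.lsingle y : V →ₗ[κ] (Y →₀ V)) (bd κ (Finsupp.single l v)) := by
      rw [Em_bd, Em_single, Finsupp.lsingle_apply]
    have e2 := eq_on_supported
      (f := ConeOp κ V c ∘ₗ Em (Finsupp.lsingle y : V →ₗ[κ] (Y →₀ V)))
      (g := cons κ (Y →₀ V) (c y l) ∘ₗ Em (Finsupp.lsingle y : V →ₗ[κ] (Y →₀ V)))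
      (fun l' hl' w => by
        rw [LinearMap.comp_apply, LinearMap.comp_apply, Em_single, Finsupp.lsingle_apply,
          Cone_single, cons_single, h l hl l' hl'.1 hl'.2]) (bd_single_mem l v)
    rw [LinearMap.comp_apply, LinearMap.comp_apply] at e2
    rw [LinearMap.comp_apply, LinearMap.sub_apply, LinearMap.comp_apply, LinearMap.id_apply,
      Cone_single, bd_single_cons, e, e2]

theorem Cone_Jp {Y : Type*} [MulAction H Y] (ρ : Representation κ H V) (c : Y → List S → S)
    (h : ∀ (g : H) y l, c (g • y) (g • l) = g • c y l) {P : H → Prop}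
    {z : List S →₀ (Y →₀ V)} (hz : z ∈ Jp (pr (List S) (pr Y ρ)) P) :
    ConeOp κ V c z ∈ Jp (pr (List S) (pr Y ρ)) P := by
  refine map_Jp (fun g z _ => ?_) hz
  induction z using Finsupp.induction_linear with
  | zero => simp
  | add a b ha hb => simp only [map_add, ha, hb]
  | single l m =>
    induction m using Finsupp.induction_linear with
    | zero => simp
    | add a b ha hb => simp only [Finsupp.single_add, map_add, ha, hb]
    | single y v => simp only [pr_single, Cone_single, h, smul_cons]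

/-- The part of a chain on the lists with pairwise related entries. -/
theorem Cone_filter (ρ : Representation κ H V) {r : S → S → Prop} (hr : Rel H r) {P : H → Prop}
    {j : ℕ} {z : List S →₀ V} (hz : z ∈ Gd κ j) (hN : z ∈ NN ρ r P) :
    ∃ φ ∈ Finsupp.supported V κ {l | Fix r l ∧ j ≤ l.length}, z - φ ∈ Jp (pr (List S) ρ) P := by
  classical
  obtain ⟨f, hf⟩ : ∃ f : (List S →₀ V) →ₗ[κ] (List S →₀ V), ∀ l v,
      f (Finsupp.single l v) = if Fix r l then Finsupp.single l v else 0 :=
    ⟨Finsupp.lsum κ fun l => if Fix r l then Finsupp.lsingle l else 0, fun l v => by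
      rw [Finsupp.lsum_single]
      split_ifs <;> rfl⟩
  refine ⟨f z, map_supported (fun l hl v => ?_) hz, ?_⟩
  · rw [hf]
    split_ifs with h
    · exact Finsupp.single_mem_supported _ _ ⟨h, hl⟩
    · exact Submodule.zero_mem _
  · refine NN_le (f := LinearMap.id - f) (fun a ha => ?_) (fun a ha => ?_) hN
    · refine map_supported (fun l hl v => ?_) ha
      rw [LinearMap.sub_apply, hf, if_pos (show Fix r l from hl), LinearMap.id_apply, sub_self]
      exact Submodule.zero_mem _
    · refine Submodule.sub_mem _ ha (map_Jp (fun g z _ => ?_) ha)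
      induction z using Finsupp.induction_linear with
      | zero => simp
      | add a b ha hb => simp only [map_add, ha, hb]
      | single l v =>
        rw [pr_single, hf, hf, hr.fix_smul_iff]
        split_ifs
        · rw [pr_single]
        · rw [map_zero]

open Pointwise in
theorem Cone_point {Y : Type*} [MulAction H Y] {r : S → S → Prop} (hr : Rel H r)
    (h0 : ∀ y : Y, ∃ s : S, ∀ h : H, h • y = y → h • s = s)
    (hY : ∀ (h : H) (y : Y) (s : S), h • y = y → r (h • s) s → h • s = s) :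
    ∃ b : Y → S → S, (∀ (g : H) y s, b (g • y) (g • s) = g • b y s) ∧
      (∀ y s, r s s → r (b y s) s) ∧ ∀ y s s', r s s' → b y s = b y s' := by
  have e : ∀ (g : H) (s : S), g • {t | r t s} = {t | r t (g • s)} := by
    intro g s
    ext t
    rw [Set.mem_smul_set_iff_inv_smul_mem]
    exact ⟨fun h => by simpa using hr.inv g _ _ h, fun h => by simpa using hr.inv g⁻¹ _ _ h⟩
  obtain ⟨b, h1, h2⟩ := exists_equi (H := H) (X := Y × Set S) (S := S)
    (fun x t => ∀ s, r s s → x.2 = {t | r t s} → t ∈ x.2)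
    (fun g x t h s hs he => Set.smul_mem_smul_set (h (g⁻¹ • s) (hr.inv _ _ _ hs) (by
      rw [← e, ← he, Prod.smul_snd, inv_smul_smul])))
    (fun x => by
      by_cases hx : ∃ s, r s s ∧ x.2 = {t | r t s}
      · obtain ⟨s, hs, he⟩ := hx
        have hm : s ∈ x.2 := by
          rw [he]
          exact hs
        refine ⟨s, fun _ _ _ => hm, fun g hg => hY g x.1 s (congrArg Prod.fst hg) ?_⟩
        have h3 : g • s ∈ (g • x).2 := Set.smul_mem_smul_set hm
        rwa [hg, he] at h3
      · obtain ⟨s, hs⟩ := h0 x.1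
        exact ⟨s, fun t ht he => absurd ⟨t, ht, he⟩ hx,
          fun g hg => hs g (congrArg Prod.fst hg)⟩)
  refine ⟨fun y s => b (y, {t | r t s}), fun g y s => ?_,
    fun y s hs => h1 (y, {t | r t s}) s hs rfl, fun y s s' h => ?_⟩
  · rw [← h2, Prod.smul_mk, e]
  · have : {t | r t s} = {t | r t s'} :=
      Set.ext fun t => ⟨fun ht => hr.trans _ _ _ ht h, fun ht => hr.trans _ _ _ ht (hr.symm _ _ h)⟩
    simp only [this]

theorem van_perm {Y : Type*} [MulAction H Y] (ρ : Representation κ H V) {r : S → S → Prop}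
    (hr : Rel H r) (h0 : ∀ y : Y, ∃ s : S, ∀ h : H, h • y = y → h • s = s)
    (hY : ∀ (h : H) (y : Y) (s : S), h • y = y → r (h • s) s → h • s = s) :
    Van (pr Y ρ) r (fun _ => True) 3 := by
  obtain ⟨s0, -, hs0⟩ := exists_equi (H := H) (X := Y) (S := S) (fun _ _ => True)
    (fun _ _ _ _ => trivial) fun y => (h0 y).imp fun _ h => ⟨trivial, h⟩
  obtain ⟨b, b1, b2, b3⟩ := Cone_point hr h0 hY
  obtain ⟨c, c0, c1⟩ : ∃ c : Y → List S → S, (∀ y, c y [] = s0 y) ∧
      ∀ y s l, c y (s :: l) = b y s :=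
    ⟨fun y l => List.casesOn l (s0 y) fun s _ => b y s, fun _ => rfl, fun _ _ _ => rfl⟩
  have c2 : ∀ (g : H) y l, c (g • y) (g • l) = g • c y l := by
    intro g y l
    cases l with
    | nil => rw [smul_nil, c0, c0, hs0]
    | cons s l => rw [smul_cons, c1, c1, b1]
  intro i hi z hz hb
  obtain ⟨j, rfl⟩ : ∃ j, i = j + 1 := ⟨i - 1, by omega⟩
  obtain ⟨φ, h1, h2⟩ := Cone_filter (pr Y ρ) hr (bd_mem_Gd hz) hb
  have h3 : ConeOp κ V c φ ∈ Gd κ (j + 1) :=
    Cone_Gd c (Finsupp.supported_mono (fun _ hl => hl.2) h1)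
  have h4 : ConeOp κ V c φ ∈ Fx κ r := by
    refine Cone_mem c (fun l hl y => ?_) h1
    obtain ⟨hl1, hl2⟩ := hl
    cases l with
    | nil =>
      simp only [List.length_nil] at hl2
      omega
    | cons s l =>
      have k : ∀ a ∈ c y (s :: l) :: s :: l, r a s := by
        intro a ha
        rcases List.mem_cons.1 ha with rfl | ha
        · rw [c1]
          exact b2 y s (hl1 s List.mem_cons_self s List.mem_cons_self)
        · exact hl1 a ha s List.mem_cons_self
      exact fun a ha a' ha' => hr.trans _ _ _ (k a ha) (hr.symm _ _ (k a' ha'))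
  have h5 : bd κ (ConeOp κ V c φ) = φ - ConeOp κ V c (bd κ φ) := by
    refine Cone_bd c (fun l hl l' hs he y => ?_) h1
    obtain ⟨hl1, hl2⟩ := hl
    cases l with
    | nil => simp at he
    | cons s l =>
      cases l' with
      | nil =>
        simp only [List.length_nil] at he
        omega
      | cons s' l' =>
        rw [c1, c1]
        exact b3 y _ _ (hl1 s' (hs.subset List.mem_cons_self) s List.mem_cons_self)
  have h6 : bd κ φ ∈ Jp (pr (List S) (pr Y ρ)) fun _ => True := by
    have h7 := Submodule.neg_mem _ (bd_mem_Jp h2)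
    rwa [map_sub, bd_bd, zero_sub, neg_neg] at h7
  have h7 : bd κ (z - ConeOp κ V c φ) ∈ Jp (pr (List S) (pr Y ρ)) fun _ => True := by
    have h8 := Submodule.add_mem _ h2 (Cone_Jp ρ c c2 h6)
    rw [map_sub, h5]
    convert h8 using 1
    abel
  have h8 := Submodule.sub_mem _ hz h3
  refine ⟨ConeOp κ V (fun y _ => s0 y) (z - ConeOp κ V c φ), Cone_Gd _ h8, ?_⟩
  rw [Cone_bd (fun y _ => s0 y) (fun _ _ _ _ _ _ => rfl) h8]
  have h9 := Submodule.add_mem _ (Fx_le_NN (pr Y ρ) r (fun _ => True) h4)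
    (Jp_le_NN (pr Y ρ) r _ (Cone_Jp ρ (fun y _ => s0 y) (fun g y _ => hs0 g y) h7))
  convert h9 using 1
  abel

end Pool.Agent.MP_f7db47_al.Cv

end

section

namespace Pool.Agent.MP_f7db47_al.Cv

open TensorProduct

section
variable {κ : Type} [Field κ] {G : Type} [Group G] {H : Type*} [Group H]
variable {V : Type*} [AddCommGroup V] [Module κ V]

/-- The tensor product of a restricted representation with `ρ`. -/
noncomputable def VanC_T (φ : H →* G) (ρ : Representation κ H V) {K : Type} [AddCommGroup K]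
    [Module κ K] (σ : Representation κ G K) : Representation κ H (K ⊗[κ] V) :=
  Representation.tprod (σ.comp φ) ρ

theorem VanC_T_tmul (φ : H →* G) (ρ : Representation κ H V) {K : Type} [AddCommGroup K]
    [Module κ K] (σ : Representation κ G K) (h : H) (x : K) (v : V) :
    VanC_T φ ρ σ h (x ⊗ₜ v) = σ (φ h) x ⊗ₜ ρ h v := rfl

theorem VanC_equi (φ : H →* G) (ρ : Representation κ H V) {K K' : Type} [AddCommGroup K]
    [Module κ K] [AddCommGroup K'] [Module κ K'] {σ : Representation κ G K}
    {σ' : Representation κ G K'} {f : K →ₗ[κ] K'} (hf : Equi σ σ' f) :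
    Equi (VanC_T φ ρ σ) (VanC_T φ ρ σ') (f.rTensor V) := by
  intro h z
  induction z using TensorProduct.induction_on with
  | zero => simp
  | add a b ha hb => simp only [map_add, ha, hb]
  | tmul x v =>
    rw [VanC_T_tmul, LinearMap.rTensor_tmul, LinearMap.rTensor_tmul, VanC_T_tmul, hf]

theorem VanC_free (φ : H →* G) (hφ : Function.Injective φ) {S : Type*} [MulAction H S]
    [Nonempty S] {r : S → S → Prop} (hr : Rel H r) (ρ : Representation κ H V) (B : Type) :
    Van (VanC_T φ ρ (FR κ G B)) r (fun _ => True) 3 := by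
  classical
  let : MulAction H (FB G B) := MulAction.compHom (FB G B) φ
  have hfree : ∀ (h : H) (y : FB G B), h • y = y → h = 1 := fun h y e => by
    have e1 : φ h * y.g = y.g := congrArg FB.g e
    apply hφ
    rw [map_one]
    exact mul_eq_right.1 e1
  have h1 : Van (pr (FB G B) ρ) r (fun _ => True) 3 :=
    van_perm ρ hr
      (fun y => ⟨Classical.arbitrary S, fun h e => by rw [hfree h y e, one_smul]⟩)
      (fun h y s e _ => by rw [hfree h y e, one_smul])
  refine h1.of_bijective (finsuppScalarLeft κ V (FB G B)).symm.toLinearMap ?_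
    (finsuppScalarLeft κ V (FB G B)).symm.bijective
  intro h z
  induction z using Finsupp.induction_linear with
  | zero => simp
  | add a b ha hb => simp only [map_add, ha, hb]
  | single y v =>
    rw [pr_single, LinearEquiv.coe_coe, finsuppScalarLeft_symm_apply_single,
      finsuppScalarLeft_symm_apply_single, VanC_T_tmul, FR, pr_single]
    rfl

theorem VanC_step (φ : H →* G) {S : Type*} [MulAction H S] {r : S → S → Prop} (hr : Rel H r)
    (ρ : Representation κ H V) {K' K K'' : Type} [AddCommGroup K'] [Module κ K'] [AddCommGroup K]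
    [Module κ K] [AddCommGroup K''] [Module κ K''] {σ' : Representation κ G K'}
    {σ : Representation κ G K} {σ'' : Representation κ G K''} (f : K' →ₗ[κ] K) (g : K →ₗ[κ] K'')
    (hf : Equi σ' σ f) (hg : Equi σ σ'' g) (finj : Function.Injective f)
    (gsurj : Function.Surjective g) (hex : Function.Exact f g) {j : ℕ}
    (h1 : Van (VanC_T φ ρ σ') r (fun _ => True) j)
    (h2 : Van (VanC_T φ ρ σ) r (fun _ => True) (j + 1)) :
    Van (VanC_T φ ρ σ'') r (fun _ => True) (j + 1) :=
  Van.x3 hr (f.rTensor V) (g.rTensor V) (VanC_equi φ ρ hf) (VanC_equi φ ρ hg)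
    (Module.Flat.rTensor_preserves_injective_linearMap f finj)
    (LinearMap.rTensor_surjective V gsurj) (rTensor_exact V hex gsurj) h1 h2

theorem VanC_res (φ : H →* G) (hφ : Function.Injective φ) {S : Type*} [MulAction H S]
    [Nonempty S] {r : S → S → Prop} (hr : Rel H r) (ρ : Representation κ H V) (n : ℕ) :
    ∀ {K : Type} [AddCommGroup K] [Module κ K] (σ : Representation κ G K), Res n σ →
      Van (VanC_T φ ρ σ) r (fun _ => True) (n + 3) := by
  induction n with
  | zero =>
    intro K _ _ σ hσ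
    obtain ⟨B, i, q, hi, hq, hqi⟩ := hσ
    refine (VanC_free φ hφ hr ρ B).retract (i.rTensor V) (q.rTensor V) (VanC_equi φ ρ hi)
      (VanC_equi φ ρ hq) fun z => ?_
    have e : q ∘ₗ i = LinearMap.id := LinearMap.ext hqi
    rw [← LinearMap.comp_apply, ← LinearMap.rTensor_comp, e, LinearMap.rTensor_id,
      LinearMap.id_apply]
  | succ n ih =>
    intro K _ _ σ hσ
    obtain ⟨B, f, hf, hs, hk⟩ := hσ
    have h1 := ih _ hk
    have hsub : Equi (V := LinearMap.ker f)
        ((FR κ G B).subrepresentation (LinearMap.ker f) (ker_le_comap hf)) (FR κ G B)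
        (LinearMap.ker f).subtype := by
      intro g v
      rfl
    exact VanC_step (K' := LinearMap.ker f) φ hr ρ (LinearMap.ker f).subtype f hsub hf
      Subtype.val_injective hs (LinearMap.exact_subtype_ker_map f) h1
      ((VanC_free φ hφ hr ρ B).mono (by omega))

end

theorem vanC {κ : Type} [Field κ] {G : Type} [Group G] {D : ℕ}
    (hD : Res D (Representation.trivial κ G κ)) {H : Type*} [Group H] (φ : H →* G)
    (hφ : Function.Injective φ) {S : Type*} [MulAction H S] [Nonempty S] {r : S → S → Prop}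
    (hr : Rel H r) {V : Type*} [AddCommGroup V] [Module κ V] (ρ : Representation κ H V) :
    Van ρ r (fun _ => True) (D + 3) := by
  refine (VanC_res φ hφ hr ρ D _ hD).of_bijective (TensorProduct.lid κ V).toLinearMap ?_
    (TensorProduct.lid κ V).bijective
  intro h z
  induction z using TensorProduct.induction_on with
  | zero => simp
  | add a b ha hb => simp only [map_add, ha, hb]
  | tmul x v => simp [VanC_T_tmul]

end Pool.Agent.MP_f7db47_al.Cv

end

section

namespace Pool.Agent.MP_f7db47_al.Cv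

section aux
open CategoryTheory

variable {κ : Type} [Field κ] {G : Type} [Group G]

theorem ResPd_FR (B : Type) (h : G) (y : FB G B) (a : κ) :
    FR κ G B h (Finsupp.single y a) = Finsupp.single (h • y) a := by
  simp [FR]

/-- The equivariant map with prescribed values on the generators. -/
noncomputable def ResPd_lift {B V : Type} [AddCommGroup V] [Module κ V] (σ : Representation κ G V)
    (s : B → V) : (FB G B →₀ κ) →ₗ[κ] V :=
  Finsupp.linearCombination κ fun y => σ y.g (s y.b)

theorem ResPd_lift_single {B V : Type} [AddCommGroup V] [Module κ V] (σ : Representation κ G V)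
    (s : B → V) (y : FB G B) (a : κ) :
    ResPd_lift σ s (Finsupp.single y a) = a • σ y.g (s y.b) := by
  simp [ResPd_lift]

theorem ResPd_lift_equi {B V : Type} [AddCommGroup V] [Module κ V] (σ : Representation κ G V)
    (s : B → V) : Equi (FR κ G B) σ (ResPd_lift σ s) := by
  intro h z
  induction z using Finsupp.induction_linear with
  | zero => simp
  | add a b ha hb => simp [ha, hb]
  | single y a => rw [ResPd_FR, ResPd_lift_single, ResPd_lift_single]; simp

/-- An equivariant map as a morphism of representations. -/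
noncomputable def ResPd_hom {V W : Type} [AddCommGroup V] [Module κ V] [AddCommGroup W]
    [Module κ W] {ρ : Representation κ G V} {σ : Representation κ G W} (f : V →ₗ[κ] W)
    (hf : Equi ρ σ f) : Rep.of ρ ⟶ Rep.of σ :=
  Rep.ofHom ⟨f, fun g => LinearMap.ext fun v => hf g v⟩

theorem ResPd_proj (B : Type) : Projective (Rep.of (FR κ G B)) where
  factors {E X} f e he := by
    choose s hs using (Rep.epi_iff_surjective e).1 he
    refine ⟨ResPd_hom (ResPd_lift E.ρ fun b => s (f.hom (Finsupp.single ⟨1, b⟩ 1)))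
      (ResPd_lift_equi _ _), ?_⟩
    refine Rep.hom_ext (Representation.IntertwiningMap.ext (LinearMap.ext fun z => ?_))
    show e.hom (ResPd_lift E.ρ (fun b => s (f.hom (Finsupp.single ⟨1, b⟩ 1))) z) = f.hom z
    induction z using Finsupp.induction_linear with
    | zero => simp
    | add a b ha hb => rw [map_add, map_add, map_add, ha, hb]
    | single y a =>
      rw [ResPd_lift_single, map_smul, Rep.hom_comm_apply, hs, ← Rep.hom_comm_apply, ← map_smul]
      congr 1
      show a • FR κ G B y.g (Finsupp.single ⟨1, y.b⟩ 1) = Finsupp.single y a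
      rw [ResPd_FR, Finsupp.smul_single, smul_eq_mul, mul_one]
      congr 1
      exact FB.ext (mul_one _) rfl

theorem ResPd_surj (K : Rep.{0} κ G) :
    Function.Surjective (ResPd_lift K.ρ (id : K.V → K.V)) := fun v =>
  ⟨Finsupp.single ⟨1, v⟩ 1, by rw [ResPd_lift_single]; simp⟩

variable {V : Type} [AddCommGroup V] [Module κ V]

theorem ResPd_step (ρ : Representation κ G V) (K : Rep.{0} κ G) (f : V →ₗ[κ] K.V)
    (hf : Equi ρ K.ρ f) (hs : Function.Surjective f) (hP : Projective (Rep.of ρ)) (n : ℕ)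
    (h : HasProjectiveDimensionLE K (n + 1)) :
    HasProjectiveDimensionLE (Rep.of (X := LinearMap.ker f)
      (ρ.subrepresentation (LinearMap.ker f) (ker_le_comap hf))) n := by
  let q : Rep.of ρ ⟶ K := ResPd_hom _ hf
  let i : Rep.of (X := LinearMap.ker f)
      (ρ.subrepresentation (LinearMap.ker f) (ker_le_comap hf)) ⟶ Rep.of ρ :=
    ResPd_hom (V := LinearMap.ker f) (LinearMap.ker f).subtype fun _ _ => rfl
  let S : ShortComplex (Rep.{0} κ G) := ShortComplex.mk i q
    (Rep.hom_ext (Representation.IntertwiningMap.ext (LinearMap.ext fun z => z.2)))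
  have hS : S.ShortExact :=
    { exact := by
        rw [← S.exact_map_iff_of_faithful (forget₂ _ (ModuleCat κ)),
          ShortComplex.moduleCat_exact_iff]
        intro x hx
        exact ⟨⟨x, hx⟩, rfl⟩
      mono_f := (Rep.mono_iff_injective i).2 Subtype.val_injective
      epi_g := (Rep.epi_iff_surjective q).2 hs }
  exact (hS.hasProjectiveDimensionLT_X₃_iff n hP).1 h

theorem ResPd_range (σ : Representation κ G V) (t : G) (m : ℕ) (x : V) :
    σ (t ^ m) x - x ∈ LinearMap.range (sg σ t) := by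
  induction m with
  | zero => simp
  | succ m ih =>
    have h1 : σ (t ^ (m + 1)) x - x = -(sg σ t (σ (t ^ m) x)) + (σ (t ^ m) x - x) := by
      rw [sg_apply, pow_succ', map_mul, Module.End.mul_apply]
      abel
    rw [h1]
    exact Submodule.add_mem _ (Submodule.neg_mem _ ⟨_, rfl⟩) ih

theorem ResPd_inv (σ : Representation κ G V) (t : G) (p : ℕ) (x : V) :
    ∑ m ∈ Finset.range p, σ (t ^ m)⁻¹ x = σ (t ^ (p - 1))⁻¹ (NT σ t p x) := by
  rw [NT_apply, map_sum,
    ← Finset.sum_range_reflect (fun m => σ (t ^ (p - 1))⁻¹ (σ (t ^ m) x)) p]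
  refine Finset.sum_congr rfl fun m hm => ?_
  have h1 : p - 1 = m + (p - 1 - m) := by
    have := Finset.mem_range.1 hm
    omega
  have h2 : (t ^ (p - 1))⁻¹ * t ^ (p - 1 - m) = (t ^ m)⁻¹ := by
    conv_lhs => rw [show t ^ (p - 1) = t ^ (p - 1 - m) * t ^ m by
      rw [← pow_add, add_comm, ← h1]]
    group
  rw [← Module.End.mul_apply, ← map_mul, h2]

/-- Exactness of the periodic complex. -/
def ResPd_P (σ : Representation κ G V) (t : G) (p : ℕ) : Prop :=
  ∀ n v, th σ t p n v = 0 → ∃ w, v = th σ t p (n + 1) w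

theorem ResPd_higman (σ : Representation κ G V) (t : G) (p : ℕ) (e : V →ₗ[κ] V)
    (he : ∀ v, ∑ m ∈ Finset.range p, σ (t ^ m) (e (σ (t ^ m)⁻¹ v)) = v) : ResPd_P σ t p := by
  intro n v hv
  unfold th at hv ⊢
  by_cases h : n % 2 = 0
  · rw [if_pos h] at hv
    rw [if_neg (by omega)]
    have h1 : ∑ m ∈ Finset.range p, e (σ (t ^ m)⁻¹ v) = 0 := by
      rw [← map_sum, ResPd_inv, hv, map_zero, map_zero]
    have h2 : ∑ m ∈ Finset.range p, (σ (t ^ m) (e (σ (t ^ m)⁻¹ v)) - e (σ (t ^ m)⁻¹ v)) ∈
        LinearMap.range (sg σ t) := Submodule.sum_mem _ fun m _ => ResPd_range σ t m _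
    rw [Finset.sum_sub_distrib, he, h1, sub_zero] at h2
    obtain ⟨w, hw⟩ := h2
    exact ⟨w, hw.symm⟩
  · rw [if_neg h, sg_apply, sub_eq_zero] at hv
    rw [if_pos (by omega)]
    have h1 : ∀ m, σ (t ^ m) v = v := by
      intro m
      induction m with
      | zero => simp
      | succ m ih => rw [pow_succ, map_mul, Module.End.mul_apply, ← hv, ih]
    have h2 : ∀ m, σ (t ^ m)⁻¹ v = v := by
      intro m
      conv_lhs => rw [← h1 m]
      rw [← Module.End.mul_apply, ← map_mul, inv_mul_cancel, map_one, Module.End.one_apply]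
    refine ⟨e v, ?_⟩
    rw [NT_apply]
    conv_lhs => rw [← he v]
    simp only [h2]

theorem ResPd_free {t : G} {p : ℕ} (hp : 0 < p) (ho : orderOf t = p) (B : Type) :
    ResPd_P (FR κ G B) t p := by
  classical
  obtain ⟨T, hT, -⟩ := (Subgroup.zpowers t).exists_isComplement_right 1
  rw [Subgroup.isComplement_iff_existsUnique_inv_mul_mem] at hT
  have hfin : IsOfFinOrder t := orderOf_pos_iff.1 (ho ▸ hp)
  refine ResPd_higman _ t p
    (Finsupp.lsum κ fun y : FB G B => if y.g ∈ T then Finsupp.lsingle y else 0) fun v => ?_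
  induction v using Finsupp.induction_linear with
  | zero => simp
  | add a b ha hb => simp only [map_add, Finset.sum_add_distrib, ha, hb]
  | single y a =>
    obtain ⟨s, hs, hu⟩ := hT y.g
    have hs2 : (s : G) ∈ Subgroup.zpowers t := s.2
    rw [hfin.mem_zpowers_iff_mem_range_orderOf, ho, Finset.mem_image] at hs2
    obtain ⟨m, hm, hms⟩ := hs2
    rw [Finset.sum_eq_single m]
    · rw [ResPd_FR, Finsupp.lsum_single, if_pos (by rw [FB.smul_g, hms]; exact hs),
        Finsupp.lsingle_apply, ResPd_FR, smul_inv_smul]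
    · intro j hj hjm
      rw [ResPd_FR, Finsupp.lsum_single, if_neg, LinearMap.zero_apply, map_zero]
      intro hc
      have h1 := hu ⟨t ^ j, Subgroup.npow_mem_zpowers t j⟩ hc
      have h2 : t ^ j = t ^ m := by rw [hms, ← h1]
      exact hjm (pow_injOn_Iio_orderOf (by rw [ho]; exact Finset.mem_range.1 hj)
        (by rw [ho]; exact Finset.mem_range.1 hm) h2)
    · intro h
      exact absurd hm h

theorem ResPd_th2 (σ : Representation κ G V) (t : G) (p n : ℕ) :
    th σ t p (n + 1 + 1) = th σ t p n := by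
  unfold th
  rw [show (n + 1 + 1) % 2 = n % 2 by omega]

theorem ResPd_res {t : G} {p : ℕ} (hp : 0 < p) (ho : orderOf t = p) (n : ℕ) :
    ∀ {K : Type} [AddCommGroup K] [Module κ K] (σ : Representation κ G K), Res n σ →
      ResPd_P σ t p := by
  have ht : t ^ p = 1 := ho ▸ pow_orderOf_eq_one t
  induction n with
  | zero =>
    rintro K _ _ σ ⟨B, i, q, hi, hq, hqi⟩ j v hv
    obtain ⟨w, hw⟩ := ResPd_free (κ := κ) hp ho B j (i v)
      (by rw [← map_th_eq (hi t), hv, map_zero])
    exact ⟨q w, by rw [← map_th_eq (hq t), ← hw, hqi]⟩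
  | succ n ih =>
    rintro K _ _ σ ⟨B, f, hf, hs, hr⟩ j v hv
    obtain ⟨u, rfl⟩ := hs v
    have hsub : ∀ (m : ℕ) (x : LinearMap.ker f),
        (LinearMap.ker f).subtype (th ((FR κ G B).subrepresentation (LinearMap.ker f)
          (ker_le_comap hf)) t p m x) = th (FR κ G B) t p m x :=
      fun m x => map_th_eq (f := (LinearMap.ker f).subtype) (fun _ => rfl) p m x
    have hk : th (FR κ G B) t p j u ∈ LinearMap.ker f := by
      rw [LinearMap.mem_ker, map_th_eq (hf t), hv]
    obtain ⟨w, hw⟩ := ih _ hr (j + 1) ⟨_, hk⟩ (by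
      apply Subtype.ext
      exact (hsub (j + 1) ⟨_, hk⟩).trans (th_th _ ht j u))
    have h1 : th (FR κ G B) t p j u = th (FR κ G B) t p j w := by
      have h2 := congrArg (LinearMap.ker f).subtype hw
      rw [hsub, ResPd_th2] at h2
      exact h2
    obtain ⟨z, hz⟩ := ResPd_free (κ := κ) hp ho B j (u - w) (by rw [map_sub, h1, sub_self])
    refine ⟨f z, ?_⟩
    rw [← map_th_eq (hf t), ← hz, map_sub, LinearMap.mem_ker.1 w.2, sub_zero]

end aux

theorem res_of_pd {κ : Type} [Field κ] {G : Type} [Group G] (n : ℕ) (K : Rep.{0} κ G)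
    (h : CategoryTheory.HasProjectiveDimensionLE K n) : Res n K.ρ := by
  induction n generalizing K with
  | zero =>
    have hP := (CategoryTheory.projective_iff_hasProjectiveDimensionLE_zero K).2 h
    let q : Rep.of (FR κ G K.V) ⟶ K := ResPd_hom _ (ResPd_lift_equi K.ρ id)
    have : CategoryTheory.Epi q := (Rep.epi_iff_surjective q).2 (ResPd_surj K)
    obtain ⟨i, hi⟩ := hP.factors (CategoryTheory.CategoryStruct.id K) q
    refine ⟨K.V, i.hom.toLinearMap, ResPd_lift K.ρ id, fun g v => Rep.hom_comm_apply i g v,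
      ResPd_lift_equi K.ρ id, fun v => ?_⟩
    exact congrArg (fun φ : K ⟶ K => φ.hom v) hi
  | succ n ih =>
    have hf := ResPd_lift_equi K.ρ (id : K.V → K.V)
    refine ⟨K.V, ResPd_lift K.ρ id, hf, ResPd_surj K, ?_⟩
    exact ih (Rep.of (X := LinearMap.ker (ResPd_lift K.ρ id)) _)
      (ResPd_step (FR κ G K.V) K _ hf (ResPd_surj K) (ResPd_proj K.V) n h)

theorem res_zmod {p : ℕ} [Fact p.Prime] {G : Type} [Group G] (n : ℕ)
    (h : CategoryTheory.HasProjectiveDimensionLE (Rep.trivial (ZMod p) G (ZMod p)) n) :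
    Res n (Representation.trivial (ZMod p) G (ZMod p)) :=
  res_of_pd n (Rep.trivial (ZMod p) G (ZMod p)) h

/-- A group of finite cohomological dimension mod `p` has no element of order `p`. -/
theorem no_torsion {κ : Type} [Field κ] {G : Type} [Group G] {p : ℕ} (hp : p.Prime)
    (h0 : (p : κ) = 0) {n : ℕ} (h : Res n (Representation.trivial κ G κ)) (t : G)
    (ht : t ^ p = 1) : t = 1 := by
  by_contra h1
  have : Fact p.Prime := ⟨hp⟩
  obtain ⟨w, hw⟩ := ResPd_res hp.pos (orderOf_eq_prime ht h1) n _ h 1 1 (by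
    unfold th
    rw [if_neg (by omega), sg_apply]
    simp)
  unfold th at hw
  rw [if_pos (by omega), NT_apply] at hw
  simp [h0] at hw

end Pool.Agent.MP_f7db47_al.Cv

end

section

namespace Pool.Agent.MP_f7db47_al.Cv

/-- A chain map from the periodic resolution to the complex of lists. -/
theorem exists_eps {κ : Type*} [CommRing κ] {H : Type*} [Group H] {S : Type*} [MulAction H S]
    {p : ℕ} {T : H} (hT : T ^ p = 1) (s : S) :
    ∃ ε : ℕ → List S →₀ κ, ε 0 = Finsupp.single [] 1 ∧
      (∀ n, ε n ∈ Finsupp.supported κ κ {l : List S | l.length = n}) ∧ bd κ (ε 1) = ε 0 ∧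
      ∀ n, 1 ≤ n → bd κ (ε (n + 1)) =
        th (pr (List S) (Representation.trivial κ H κ)) T p n (ε n) := by
  let ρ := pr (List S) (Representation.trivial κ H κ)
  let ε : ℕ → List S →₀ κ := fun n => Nat.rec (Finsupp.single [] 1)
    (fun n e => cons κ κ s (if n = 0 then e else th ρ T p n e)) n
  have e0 : ε 0 = Finsupp.single [] 1 := rfl
  have e1 : ε 1 = cons κ κ s (ε 0) := rfl
  have e2 : ∀ n, ε (n + 1 + 1) = cons κ κ s (th ρ T p (n + 1) (ε (n + 1))) := fun n => rfl
  have hb1 : bd κ (ε 1) = ε 0 := by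
    rw [e1, bd_cons, e0, bd_nil, map_zero, sub_zero]
  have hc : ∀ n z, bd κ (th ρ T p n z) = th ρ T p n (bd κ z) := fun n z =>
    map_th_eq (fun v => (pr_bd _ T v).symm) p n z
  have hcons : ∀ n, ∀ z ∈ Finsupp.supported κ κ {l : List S | l.length = n},
      cons κ κ s z ∈ Finsupp.supported κ κ {l : List S | l.length = n + 1} := fun n z hz =>
    map_supported (fun l hl v => by
      rw [cons_single]
      exact Finsupp.single_mem_supported _ _ (congrArg (· + 1) hl)) hz
  have hpr : ∀ n, ∀ z ∈ Finsupp.supported κ κ {l : List S | l.length = n},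
      ρ T z ∈ Finsupp.supported κ κ {l : List S | l.length = n} := fun n z hz =>
    map_supported (fun l hl v => by
      rw [pr_single]
      exact Finsupp.single_mem_supported _ _ ((length_smul T l).trans hl)) hz
  refine ⟨ε, e0, fun n => ?_, hb1, fun n hn => ?_⟩
  · induction n with
    | zero => exact Finsupp.single_mem_supported _ _ rfl
    | succ n ih =>
      cases n with
      | zero => exact hcons _ _ ih
      | succ n => exact hcons _ _ (th_mem (hpr _) p _ ih)
  · obtain ⟨n, rfl⟩ := Nat.exists_eq_add_of_le' hn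
    clear hn
    induction n with
    | zero =>
      rw [e2, bd_cons, hc, show bd κ (ε (0 + 1)) = ε 0 from hb1, e0]
      have : th ρ T p (0 + 1) (Finsupp.single [] 1) = 0 := by
        unfold th
        rw [if_neg (by omega), sg_apply, pr_single]
        simp
      rw [this, map_zero, sub_zero]
    | succ n ih => rw [e2, bd_cons, hc, ih, th_th _ hT, map_zero, sub_zero]

section AQ
variable {κ : Type*} [CommRing κ] {p : ℕ} {G : Type*} [Group G]

/-- The cone operator attached to a map from words to points. -/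
noncomputable def AQ_cone (κ : Type*) [CommRing κ] (f : Om p G → Pw p G) :
    (List (Pw p G) →₀ (Om p G →₀ κ)) →ₗ[κ] (List (Pw p G) →₀ (Om p G →₀ κ)) :=
  Finsupp.lsum κ fun l => Finsupp.lsum κ fun ω => Finsupp.lsingle (f ω :: l) ∘ₗ Finsupp.lsingle ω

omit [Group G] in
theorem AQ_cone_single (f : Om p G → Pw p G) (l : List (Pw p G)) (ω : Om p G) (a : κ) :
    AQ_cone κ f (Finsupp.single l (Finsupp.single ω a)) =
      Finsupp.single (f ω :: l) (Finsupp.single ω a) := by
  rw [AQ_cone, Finsupp.lsum_single, Finsupp.lsum_single]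
  rfl

theorem AQ_ext {W : Type*} [AddCommGroup W] [Module κ W] {α β : Type*}
    {f g : (α →₀ (β →₀ κ)) →ₗ[κ] W}
    (h : ∀ l ω a, f (Finsupp.single l (Finsupp.single ω a)) =
      g (Finsupp.single l (Finsupp.single ω a))) (z : α →₀ (β →₀ κ)) : f z = g z := by
  have : f = g := Finsupp.lhom_ext' fun l => Finsupp.lhom_ext fun ω a => h l ω a
  rw [this]

theorem AQ_cone_cons (f : Om p G → Pw p G) (ω : Om p G) (z : List (Pw p G) →₀ κ) :
    AQ_cone κ f (Em (κ := κ) (Finsupp.lsingle ω) z) =
      cons κ _ (f ω) (Em (κ := κ) (Finsupp.lsingle ω) z) := by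
  induction z using Finsupp.induction_linear with
  | zero => simp
  | add a b ha hb => simp only [map_add, ha, hb]
  | single l v => rw [Em_single, Finsupp.lsingle_apply, AQ_cone_single, cons_single]

theorem AQ_bd_cone (f : Om p G → Pw p G) (z : List (Pw p G) →₀ (Om p G →₀ κ)) :
    bd κ (AQ_cone κ f z) = z - AQ_cone κ f (bd κ z) := by
  refine AQ_ext (f := bd κ ∘ₗ AQ_cone κ f) (g := LinearMap.id - AQ_cone κ f ∘ₗ bd κ)
    (fun l ω a => ?_) z
  show bd κ (AQ_cone κ f _) = _ - AQ_cone κ f (bd κ _)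
  have e : bd κ (Finsupp.single l (Finsupp.single ω a)) =
      Em (κ := κ) (Finsupp.lsingle ω) (bd κ (Finsupp.single l a)) := by
    rw [Em_bd, Em_single, Finsupp.lsingle_apply]
  rw [AQ_cone_single, bd_single_cons, e, AQ_cone_cons f ω]
  rfl

theorem AQ_cone_Gd (f : Om p G → Pw p G) {j : ℕ} {z : List (Pw p G) →₀ (Om p G →₀ κ)}
    (hz : z ∈ Gd κ j) : AQ_cone κ f z ∈ Gd κ (j + 1) := by
  refine map_supported (fun l hl v => ?_) hz
  induction v using Finsupp.induction_linear with
  | zero => simp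
  | add a b ha hb =>
    rw [Finsupp.single_add, map_add]
    exact Submodule.add_mem _ ha hb
  | single ω a =>
    rw [AQ_cone_single]
    exact single_mem_Gd (Nat.succ_le_succ hl) _

theorem AQ_cone_equi (f f' : Om p G → Pw p G) (w : Wr p G) (h : ∀ ω, f' (w • ω) = w • f ω)
    (z : List (Pw p G) →₀ (Om p G →₀ κ)) :
    AQ_cone κ f' (pr (List (Pw p G)) (OmR κ p G) w z) =
      pr (List (Pw p G)) (OmR κ p G) w (AQ_cone κ f z) := by
  refine AQ_ext (f := AQ_cone κ f' ∘ₗ pr (List (Pw p G)) (OmR κ p G) w)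
    (g := pr (List (Pw p G)) (OmR κ p G) w ∘ₗ AQ_cone κ f) (fun l ω a => ?_) z
  simp only [LinearMap.comp_apply, AQ_cone_single, pr_single, OmR, smul_cons, h]

theorem AQ_free [NeZero p] (w : Wr p G) (hk : w.k = 0) (j : ZMod p) (hj : w.x j = 1)
    (ω : Om p G) (h : w • ω = ω) : w = 1 := by
  have h1 : ∀ m : ℕ, w.x (j + m) = 1 := by
    intro m
    induction m with
    | zero => simpa using hj
    | succ m ih =>
      have := congrFun h (j + m)
      rw [Om.smul_apply, ih, hk, sub_zero, one_mul, mul_eq_left, inv_eq_one] at this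
      rw [Nat.cast_succ, ← add_assoc, this]
  refine Wr.ext (funext fun i => ?_) hk
  have := h1 (i - j).val
  rwa [ZMod.natCast_zmod_val, add_sub_cancel] at this

theorem AQ_exists_rho [NeZero p] : ∃ ρ : ZMod p → Om p G → Pw p G,
    ∀ (w : Wr p G) (j : ZMod p) (ω : Om p G), w.x (j + w.k) = 1 →
      ρ (j + w.k) (w • ω) = w • ρ j ω := by
  obtain ⟨f, -, hf⟩ := exists_equi_raw (H := Wr p G) (X := (ZMod p × G) × Om p G) (S := Pw p G)
    (fun w x => ((x.1.1 + w.k, w.x (x.1.1 + w.k) * x.1.2), w • x.2)) (fun w s => w • s)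
    (fun x => by simp) (fun a b x => by
      have e : x.1.1 + (a.k + b.k) = x.1.1 + b.k + a.k := by ring
      simp [mul_smul, mul_assoc, e]) (fun a b s => mul_smul a b s) (fun _ _ => True)
    (fun _ _ _ _ => trivial) (fun x => ⟨fun _ => 1, trivial, fun w hw => by
      have h1 : x.1.1 + w.k = x.1.1 := congrArg (fun y => y.1.1) hw
      have h2 : w.x (x.1.1 + w.k) * x.1.2 = x.1.2 := congrArg (fun y => y.1.2) hw
      have h3 : w • x.2 = x.2 := congrArg Prod.snd hw
      rw [AQ_free w (add_eq_left.1 h1) _ (mul_eq_right.1 h2) _ h3]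
      exact one_smul (Wr p G) _⟩)
  refine ⟨fun j ω => f ((j, 1), ω), fun w j ω hw => ?_⟩
  have := hf w ((j, 1), ω)
  simp only [hw, mul_one] at this
  exact this

/-- The positions attached to a list. -/
def AQ_U (N : ℕ) (a : List (ZMod p)) : Set (ZMod p) := {j | ∃ i ∈ a, j ∈ Win N i}

theorem AQ_exists_out [NeZero p] (N n₀ : ℕ) (hN : 1 ≤ N) (hn : 1 ≤ n₀) (hp : n₀ * N ≤ p)
    (a : List (ZMod p)) (ha : a.length ≤ n₀) : ∃ j, j ∉ AQ_U N a := by
  classical
  by_contra h
  push Not at h
  have h1 : (Finset.univ : Finset (ZMod p)) ⊆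
      a.toFinset.biUnion fun i => (Finset.Ico 1 N).image fun m : ℕ => i + m := by
    intro j _
    obtain ⟨i, hi, m, h1, h2, rfl⟩ := h j
    exact Finset.mem_biUnion.2 ⟨i, List.mem_toFinset.2 hi,
      Finset.mem_image.2 ⟨m, Finset.mem_Ico.2 ⟨h1, h2⟩, rfl⟩⟩
  have h2 := (Finset.card_le_card h1).trans (Finset.card_biUnion_le_card_mul _ _ (N - 1)
    fun i _ => Finset.card_image_le.trans (by simp))
  rw [Finset.card_univ, ZMod.card] at h2
  have h3 : a.toFinset.card * (N - 1) ≤ n₀ * (N - 1) :=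
    Nat.mul_le_mul_right _ ((List.toFinset_card_le a).trans ha)
  obtain ⟨M, rfl⟩ := Nat.exists_eq_add_of_le' hN
  rw [Nat.add_sub_cancel] at h2 h3
  rw [Nat.mul_succ] at hp
  omega

theorem AQ_exists_j [NeZero p] (G : Type*) [Group G] (N n₀ : ℕ) (hN : 1 ≤ N) (hn : 1 ≤ n₀)
    (hp : n₀ * N ≤ p) : ∃ j : List (ZMod p) → ZMod p,
      (∀ a, a ≠ [] → a.length ≤ n₀ → j a ∉ AQ_U N a) ∧
      ∀ (w : Wr p G) a, a ≠ [] → j (w • a) = j a + w.k := by
  obtain ⟨f, hf1, hf2⟩ := exists_equi (H := Wr p G) (X := ZMod p × List (ZMod p)) (S := ZMod p)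
    (fun x j => (x.1 :: x.2).length ≤ n₀ → j ∉ AQ_U N (x.1 :: x.2))
    (fun w x j h hl hj => by
      have e : ((w • x).1 :: (w • x).2) = w • (x.1 :: x.2) := rfl
      rw [e] at hl hj
      rw [length_smul] at hl
      obtain ⟨i, hi, m, h1, h2, h3⟩ := hj
      obtain ⟨i', hi', rfl⟩ := mem_smul_list.1 hi
      refine h hl ⟨i', hi', m, h1, h2, ?_⟩
      rw [Wr.smul_pos, Wr.smul_pos] at h3
      linear_combination h3)
    (fun x => by
      have hfix : ∀ (j : ZMod p) (w : Wr p G), w • x = x → w • j = j := fun j w hw => by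
        have h1 : x.1 + w.k = x.1 := congrArg Prod.fst hw
        rw [Wr.smul_pos, add_eq_left.1 h1, add_zero]
      by_cases hl : (x.1 :: x.2).length ≤ n₀
      · obtain ⟨j, hj⟩ := AQ_exists_out N n₀ hN hn hp _ hl
        exact ⟨j, fun _ => hj, hfix j⟩
      · exact ⟨0, fun h => absurd h hl, hfix 0⟩)
  refine ⟨fun a => match a with
    | [] => 0
    | i :: a => f (i, a), fun a ha hl => ?_, fun w a ha => ?_⟩
  · cases a with
    | nil => exact absurd rfl ha
    | cons i a => exact hf1 (i, a) hl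
  · cases a with
    | nil => exact absurd rfl ha
    | cons i a => exact hf2 w (i, a)

end AQ

theorem exists_Y {κ : Type*} [CommRing κ] {p : ℕ} [NeZero p] {G : Type*} [Group G] (N n₀ : ℕ)
    (hN : 1 ≤ N) (hn : 1 ≤ n₀) (hp : n₀ * N ≤ p) (τ : Om p G →₀ κ)
    (hT : OmR κ p G (Wr.sh p G) τ = τ)
    (hJ : ∀ i : ZMod p, τ ∈ Jp (OmR κ p G) (WU (Win N i))) :
    ∃ Y : ℕ → List (Pw p G) →₀ (Om p G →₀ κ),
      Y 0 = Finsupp.single [(fun _ => 1 : ZMod p → G)] τ ∧ (∀ n, Y n ∈ Gd κ n) ∧
      bd κ (Y 1) - Y 0 ∈ Jp (pr (List (Pw p G)) (OmR κ p G)) (fun w => w.k = 0) ∧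
      ∀ n, 1 ≤ n → n < n₀ →
        bd κ (Y (n + 1)) - th (pr (List (Pw p G)) (OmR κ p G)) (Wr.sh p G) p n (Y n) ∈
          Jp (pr (List (Pw p G)) (OmR κ p G)) (fun w => w.k = 0) := by
  obtain ⟨ε, e0, eL, e1, e2⟩ := exists_eps (κ := κ) (Wr.sh_pow (p := p) (G := G)) (0 : ZMod p)
  obtain ⟨ρ, hρ⟩ := AQ_exists_rho (p := p) (G := G)
  obtain ⟨j, hj1, hj2⟩ := AQ_exists_j G N n₀ hN hn hp
  let y0 : List (Pw p G) →₀ (Om p G →₀ κ) := Finsupp.single [(fun _ => 1 : ZMod p → G)] τ
  let q : ℕ → (List (ZMod p) →₀ κ) →ₗ[κ] (List (Pw p G) →₀ (Om p G →₀ κ)) := fun n =>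
    Nat.rec (Finsupp.linearCombination κ fun _ => y0)
      (fun _ q => Finsupp.linearCombination κ fun a =>
        AQ_cone κ (ρ (j a)) (q (bd κ (Finsupp.single a 1)))) n
  have q0 : ∀ a c, q 0 (Finsupp.single a c) = c • y0 := fun a c =>
    Finsupp.linearCombination_single _ _ _
  have q1 : ∀ n a c, q (n + 1) (Finsupp.single a c) =
      AQ_cone κ (ρ (j a)) (q n (bd κ (Finsupp.single a c))) := fun n a c => by
    refine (Finsupp.linearCombination_single _ _ _).trans ?_
    rw [← map_smul, ← map_smul, ← map_smul, Finsupp.smul_single, smul_eq_mul, mul_one]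
  have qG : ∀ n z, q n z ∈ Gd κ n := by
    intro n
    induction n with
    | zero => exact fun z => mem_Gd_zero _
    | succ n ih =>
      intro z
      induction z using Finsupp.induction_linear with
      | zero => simp
      | add a b ha hb =>
        rw [map_add]
        exact Submodule.add_mem _ ha hb
      | single a c =>
        rw [q1]
        exact AQ_cone_Gd _ (ih _)
  have hy0 : pr (List (Pw p G)) (OmR κ p G) (Wr.sh p G) y0 = y0 := by
    refine (pr_single _ _ _ _).trans ?_
    rw [hT]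
    congr 1
    exact congrArg (fun s : Pw p G => [s]) (funext fun i => mul_one (1 : G))
  have qT : ∀ n z, q n (pr (List (ZMod p)) (Representation.trivial κ (Wr p G) κ) (Wr.sh p G) z) =
      pr (List (Pw p G)) (OmR κ p G) (Wr.sh p G) (q n z) := by
    intro n
    induction n with
    | zero =>
      intro z
      induction z using Finsupp.induction_linear with
      | zero => simp
      | add a b ha hb => simp only [map_add, ha, hb]
      | single a c => rw [pr_single, q0, q0, map_smul, hy0]; rfl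
    | succ n ih =>
      intro z
      induction z using Finsupp.induction_linear with
      | zero => simp
      | add a b ha hb => simp only [map_add, ha, hb]
      | single a c =>
        by_cases ha : a = []
        · subst ha
          rw [pr_single, smul_nil, q1, q1, bd_nil, bd_nil]
          simp
        · rw [q1, ← AQ_cone_equi (ρ (j a)) (ρ (j (Wr.sh p G • a))) (Wr.sh p G)
            (fun ω => by rw [hj2 _ a ha]; exact hρ _ _ _ rfl), ← ih, pr_bd, pr_single, q1]
  have hcone : ∀ a : List (ZMod p), a ≠ [] → a.length ≤ n₀ →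
      ∀ z ∈ Jp (pr (List (Pw p G)) (OmR κ p G)) (WU (AQ_U N a)),
      AQ_cone κ (ρ (j a)) z ∈ Jp (pr (List (Pw p G)) (OmR κ p G)) (WU (AQ_U N a)) := by
    intro a ha hl z hz
    refine map_Jp (fun w v hw => AQ_cone_equi _ _ w (fun ω => ?_) v) hz
    have := hρ w (j a) ω (by rw [hw.1, add_zero]; exact hw.2 _ (hj1 a ha hl))
    rwa [hw.1, add_zero] at this
  have main : ∀ n, n + 1 ≤ n₀ → ∀ a : List (ZMod p), a.length = n + 1 → ∀ c,
      bd κ (q (n + 1) (Finsupp.single a c)) - q n (bd κ (Finsupp.single a c)) ∈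
        Jp (pr (List (Pw p G)) (OmR κ p G)) (WU (AQ_U N a)) := by
    intro n
    induction n with
    | zero =>
      intro hn a ha c
      obtain ⟨i, rfl⟩ := List.length_eq_one_iff.1 ha
      rw [q1, AQ_bd_cone, sub_sub_cancel_left]
      refine Submodule.neg_mem _ (hcone [i] (by simp) (by simpa using hn) _ ?_)
      rw [bd_single_cons, bd_nil, map_zero, sub_zero, q0, map_smul]
      refine Submodule.smul_mem _ _ ?_
      have e : bd κ y0 = Finsupp.lsingle (R := κ) [] τ := by
        refine (bd_single_cons _ _ _).trans ?_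
        rw [bd_nil, map_zero, sub_zero]
        rfl
      rw [e]
      refine Jp_mono _ (P := WU (Win N i)) (fun w hw => ⟨hw.1, fun k hk => hw.2 k fun h =>
        hk ⟨i, by simp, h⟩⟩) (map_Jp (fun w v _ => ?_) (hJ i))
      exact (pr_single (OmR κ p G) w ([] : List (Pw p G)) v).symm
    | succ n ih =>
      intro hn a ha c
      rw [q1 (n + 1), AQ_bd_cone, sub_sub_cancel_left]
      refine Submodule.neg_mem _ (hcone a (by rintro rfl; simp at ha) (by omega) _ ?_)
      have h1 := map_supported (f := bd κ ∘ₗ q (n + 1) - q n ∘ₗ bd κ)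
        (N := Jp (pr (List (Pw p G)) (OmR κ p G)) (WU (AQ_U N a)))
        (fun l (hl : _ ∧ _) v => Jp_mono _ (P := WU (AQ_U N l))
          (fun w hw => ⟨hw.1, fun k hk => hw.2 k fun ⟨i, hi, h⟩ => hk ⟨i, hl.1.subset hi, h⟩⟩)
          (ih (by omega) l (by omega) v)) (bd_single_mem a c)
      rwa [LinearMap.sub_apply, LinearMap.comp_apply, LinearMap.comp_apply, bd_bd, map_zero,
        sub_zero] at h1
  have main2 : ∀ n, n + 1 ≤ n₀ → bd κ (q (n + 1) (ε (n + 1))) - q n (bd κ (ε (n + 1))) ∈
      Jp (pr (List (Pw p G)) (OmR κ p G)) (fun w => w.k = 0) := fun n hn =>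
    map_supported (f := bd κ ∘ₗ q (n + 1) - q n ∘ₗ bd κ)
      (fun l hl v => Jp_mono _ (fun w hw => hw.1) (main n hn l hl v)) (eL (n + 1))
  refine ⟨fun n => q n (ε n), ?_, fun n => qG n _, ?_, fun n h1 h2 => ?_⟩
  · show q 0 (ε 0) = y0
    rw [e0, q0, one_smul]
  · have := main2 0 hn
    rwa [e1] at this
  · have := main2 n h2
    rwa [e2 n h1, map_th_eq (ρ := pr (List (ZMod p)) (Representation.trivial κ (Wr p G) κ))
      (σ := pr (List (Pw p G)) (OmR κ p G)) (T := Wr.sh p G) (T' := Wr.sh p G) (f := q n)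
      (qT n)] at this

end Pool.Agent.MP_f7db47_al.Cv

end
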