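import Pool.Agent.Mg.Ff7db47a.G5b1285
import Pool.Agent.MP_f7db47_al.Cv.DStmt

section

namespace Pool.Agent.MP_f7db47_al.Cv

section
variable {κ : Type*} [CommRing κ] {p : ℕ} {G : Type*} [Group G]

/-- The orbit of the constant word. -/
def Phi_Orb (p : ℕ) (g : G) (ω : Om p G) : Prop := ∃ x : Wr p G, x • ω = Om.cst p g

/-- A pure shift in the stabiliser. -/
def Phi_sh (g : G) (t : ZMod p) : Gam p g := ⟨⟨fun _ => 1, t⟩, mem_Gam.2 fun i => by simp⟩

theorem Phi_Orb_smul (g : G) (u : Wr p G) (ω : Om p G) :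
    Phi_Orb p g (u • ω) ↔ Phi_Orb p g ω :=
  ⟨fun ⟨x, hx⟩ => ⟨x * u, by rw [mul_smul, hx]⟩,
    fun ⟨x, hx⟩ => ⟨x * u⁻¹, by rw [mul_smul, inv_smul_smul, hx]⟩⟩

theorem Phi_choice (p : ℕ) (g : G) : ∃ X : Om p G → Wr p G,
    ∀ ω, Phi_Orb p g ω → (X ω).k = 0 ∧ X ω • ω = Om.cst p g := by
  have h : ∀ ω, ∃ x : Wr p G, Phi_Orb p g ω → x.k = 0 ∧ x • ω = Om.cst p g := by
    intro ω
    by_cases h : Phi_Orb p g ω
    · obtain ⟨x, hx⟩ := h
      refine ⟨(Phi_sh g (-x.k) : Gam p g) * x, fun _ => ⟨neg_add_cancel _, ?_⟩⟩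
      rw [mul_smul, hx]
      exact (Phi_sh g (-x.k)).2
    · exact ⟨1, fun h' => (h h').elim⟩
  choose X hX using h
  exact ⟨X, hX⟩

open Classical in
/-- The map attached to a choice of group elements. -/
noncomputable def Phi_map (κ : Type*) [CommRing κ] (g : G) (X : Om p G → Wr p G) :
    (List (Pw p G) →₀ (Om p G →₀ κ)) →ₗ[κ] (List (Pw p G) →₀ κ) :=
  Finsupp.lsum κ fun l => Finsupp.lsum κ fun ω =>
    if Phi_Orb p g ω then Finsupp.lsingle (X ω • l) else 0

theorem Phi_pos {g : G} (X : Om p G → Wr p G) (l : List (Pw p G)) {ω : Om p G}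
    (h : Phi_Orb p g ω) (a : κ) :
    Phi_map κ g X (Finsupp.single l (Finsupp.single ω a)) = Finsupp.single (X ω • l) a := by
  simp [Phi_map, h]

theorem Phi_neg {g : G} (X : Om p G → Wr p G) (l : List (Pw p G)) {ω : Om p G}
    (h : ¬ Phi_Orb p g ω) (a : κ) :
    Phi_map κ g X (Finsupp.single l (Finsupp.single ω a)) = 0 := by
  simp [Phi_map, h]

theorem Phi_mem {α β W : Type*} [AddCommGroup W] [Module κ W] {f : (α →₀ (β →₀ κ)) →ₗ[κ] W}
    {N : Submodule κ W} {A : Set α}
    (h : ∀ l ∈ A, ∀ ω a, f (Finsupp.single l (Finsupp.single ω a)) ∈ N)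
    {z : α →₀ (β →₀ κ)} (hz : z ∈ Finsupp.supported _ κ A) : f z ∈ N := by
  refine map_supported (fun l hl v => ?_) hz
  induction v using Finsupp.induction_linear with
  | zero => simp
  | add a b ha hb =>
    rw [Finsupp.single_add, map_add]
    exact N.add_mem ha hb
  | single ω a => exact h l hl ω a

theorem Phi_mem' {α β W : Type*} [AddCommGroup W] [Module κ W] {f : (α →₀ (β →₀ κ)) →ₗ[κ] W}
    {N : Submodule κ W} (h : ∀ l ω a, f (Finsupp.single l (Finsupp.single ω a)) ∈ N)
    (z : α →₀ (β →₀ κ)) : f z ∈ N :=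
  Phi_mem (A := Set.univ) (fun l _ => h l) fun _ _ => trivial

theorem Phi_Em_pos {g : G} (X : Om p G → Wr p G) {ω : Om p G} (h : Phi_Orb p g ω)
    (y : List (Pw p G) →₀ κ) :
    Phi_map κ g X (Em (Finsupp.lsingle ω : κ →ₗ[κ] (Om p G →₀ κ)) y) =
      pr (List (Pw p G)) (Representation.trivial κ (Wr p G) κ) (X ω) y := by
  induction y using Finsupp.induction_linear with
  | zero => simp
  | add a b ha hb => simp only [map_add, ha, hb]
  | single l a =>
    rw [Em_single, pr_single]
    exact Phi_pos X l h a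

theorem Phi_Em_neg {g : G} (X : Om p G → Wr p G) {ω : Om p G} (h : ¬ Phi_Orb p g ω)
    (y : List (Pw p G) →₀ κ) :
    Phi_map κ g X (Em (Finsupp.lsingle ω : κ →ₗ[κ] (Om p G →₀ κ)) y) = 0 := by
  induction y using Finsupp.induction_linear with
  | zero => simp
  | add a b ha hb => simp only [map_add, ha, hb, add_zero]
  | single l a =>
    rw [Em_single]
    exact Phi_neg X l h a

theorem Phi_bd (g : G) (X : Om p G → Wr p G) (z : List (Pw p G) →₀ (Om p G →₀ κ)) :
    Phi_map κ g X (bd κ z) = bd κ (Phi_map κ g X z) := by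
  have := Phi_mem' (f := Phi_map κ g X ∘ₗ bd κ - bd κ ∘ₗ Phi_map κ g X) (N := ⊥) (fun l ω a => by
    have e : Finsupp.single l (Finsupp.single ω a) =
        Em (Finsupp.lsingle ω : κ →ₗ[κ] (Om p G →₀ κ)) (Finsupp.single l a) := by
      rw [Em_single]
      rfl
    rw [Submodule.mem_bot, LinearMap.sub_apply, LinearMap.comp_apply, LinearMap.comp_apply,
      sub_eq_zero, e, ← Em_bd]
    by_cases h : Phi_Orb p g ω
    · rw [Phi_Em_pos X h, Phi_Em_pos X h, pr_bd]
    · rw [Phi_Em_neg X h, Phi_Em_neg X h, map_zero]) z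
  simpa [sub_eq_zero] using this

theorem Phi_tr {g : G} {X : Om p G → Wr p G}
    (hX : ∀ ω, Phi_Orb p g ω → (X ω).k = 0 ∧ X ω • ω = Om.cst p g) (u : Wr p G)
    (l : List (Pw p G)) (ω : Om p G) (a : κ) : ∃ γ : Gam p g, (γ : Wr p G).k = u.k ∧
      Phi_map κ g X (pr (List (Pw p G)) (OmR κ p G) u (Finsupp.single l (Finsupp.single ω a))) =
        pr (List (Pw p G)) (Representation.trivial κ (Gam p g) κ) γ
          (Phi_map κ g X (Finsupp.single l (Finsupp.single ω a))) := by
  have e : pr (List (Pw p G)) (OmR κ p G) u (Finsupp.single l (Finsupp.single ω a)) =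
      Finsupp.single (u • l) (Finsupp.single (u • ω) a) := by
    rw [pr_single, OmR, pr_single]
    rfl
  rw [e]
  by_cases h : Phi_Orb p g ω
  · have h' := (Phi_Orb_smul g u ω).2 h
    refine ⟨⟨X (u • ω) * u * (X ω)⁻¹, ?_⟩, ?_, ?_⟩
    · rw [MulAction.mem_stabilizer_iff]
      conv_lhs => rw [← (hX ω h).2]
      rw [mul_smul, inv_smul_smul, mul_smul, (hX _ h').2]
    · simp [(hX ω h).1, (hX _ h').1]
    · rw [Phi_pos X _ h, Phi_pos X _ h', pr_single]
      congr 1
      change X (u • ω) • u • l = (X (u • ω) * u * (X ω)⁻¹) • X ω • l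
      rw [mul_smul, inv_smul_smul, mul_smul]
  · refine ⟨Phi_sh g u.k, rfl, ?_⟩
    rw [Phi_neg X _ h, Phi_neg X _ (fun c => h ((Phi_Orb_smul g u ω).1 c)), map_zero]

end

open Classical in
/-- Passing from the wreath product to the stabiliser of the constant word. -/
theorem exists_Phi {κ : Type*} [CommRing κ] {p : ℕ} [NeZero p] {G : Type*} [Group G] (g : G) :
    ∃ Φ : (List (Pw p G) →₀ (Om p G →₀ κ)) →ₗ[κ] (List (Pw p G) →₀ κ),
      (∀ z, Φ (bd κ z) = bd κ (Φ z)) ∧ (∀ n, ∀ z ∈ Gd κ n, Φ z ∈ Gd κ n) ∧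
      (∀ z ∈ Jp (pr (List (Pw p G)) (OmR κ p G)) (fun w => w.k = 0),
        Φ z ∈ Jp (pr (List (Pw p G)) (Representation.trivial κ (Gam p g) κ))
          fun γ => GamPi p g γ = 1) ∧
      (∀ n z, Φ (th (pr (List (Pw p G)) (OmR κ p G)) (Wr.sh p G) p n z) -
          th (pr (List (Pw p G)) (Representation.trivial κ (Gam p g) κ)) (GamT p g) p n (Φ z) ∈
        Jp (pr (List (Pw p G)) (Representation.trivial κ (Gam p g) κ))
          fun γ => GamPi p g γ = 1) ∧
      ∀ (ω : Om p G) (a : κ),
        (Φ (Finsupp.single [(fun _ => 1 : ZMod p → G)] (Finsupp.single ω a)) = 0 ∧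
          ¬ ∃ c, IsConj c g ∧ ω = Om.cst p c) ∨
        ∃ s : Pw p G, Φ (Finsupp.single [(fun _ => 1 : ZMod p → G)] (Finsupp.single ω a)) =
          Finsupp.single [s] a ∧ (Lam p g s ↔ ∃ c, IsConj c g ∧ ω = Om.cst p c) := by
  obtain ⟨X, hX⟩ := Phi_choice p g
  refine ⟨Phi_map κ g X, Phi_bd g X, fun n z hz => ?_, fun z hz => ?_, fun n z => ?_,
    fun ω a => ?_⟩
  · refine Phi_mem (fun l hl ω a => ?_) hz
    by_cases h : Phi_Orb p g ω
    · rw [Phi_pos X l h]
      exact single_mem_Gd (by rw [length_smul]; exact hl) a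
    · rw [Phi_neg X l h]
      exact Submodule.zero_mem _
  · refine Jp_le (fun u v hu => ?_) hz
    refine Phi_mem' (f := Phi_map κ g X ∘ₗ pr (List (Pw p G)) (OmR κ p G) u - Phi_map κ g X)
      (fun l ω a => ?_) v
    obtain ⟨γ, h1, h2⟩ := Phi_tr hX u l ω a
    rw [LinearMap.sub_apply, LinearMap.comp_apply, h2]
    exact mem_Jp _ (P := fun γ => GamPi p g γ = 1) ((GamPi_eq_one γ).2 (h1.trans hu)) _
  · refine map_th (fun w hw => ?_) (fun v => ?_) p n z
    · refine Jp_le (fun γ v hγ => ?_) hw
      have := mem_Jp (pr (List (Pw p G)) (Representation.trivial κ (Gam p g) κ))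
        (P := fun γ => GamPi p g γ = 1) (h := GamT p g * γ * (GamT p g)⁻¹)
        (by rw [map_mul, map_mul, hγ, map_inv, mul_one, mul_inv_cancel])
        (pr (List (Pw p G)) (Representation.trivial κ (Gam p g) κ) (GamT p g) v)
      rwa [← Module.End.mul_apply, ← map_mul, inv_mul_cancel_right, map_mul,
        Module.End.mul_apply] at this
    · refine Phi_mem' (f := Phi_map κ g X ∘ₗ pr (List (Pw p G)) (OmR κ p G) (Wr.sh p G) -
        pr (List (Pw p G)) (Representation.trivial κ (Gam p g) κ) (GamT p g) ∘ₗ Phi_map κ g X)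
        (fun l ω a => ?_) v
      obtain ⟨γ, h1, h2⟩ := Phi_tr hX (Wr.sh p G) l ω a
      rw [LinearMap.sub_apply, LinearMap.comp_apply, LinearMap.comp_apply, h2]
      have := mem_Jp (pr (List (Pw p G)) (Representation.trivial κ (Gam p g) κ))
        (P := fun γ => GamPi p g γ = 1) (h := γ * (GamT p g)⁻¹)
        ((GamPi_eq_one _).2 (by
          change (γ : Wr p G).k + -(Wr.sh p G).k = 0
          rw [h1, add_neg_cancel]))
        (pr (List (Pw p G)) (Representation.trivial κ (Gam p g) κ) (GamT p g)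
          (Phi_map κ g X (Finsupp.single l (Finsupp.single ω a))))
      rwa [← Module.End.mul_apply, ← map_mul, inv_mul_cancel_right] at this
  · by_cases h : Phi_Orb p g ω
    · right
      let o : Pw p G := fun _ => 1
      refine ⟨X ω • o, Phi_pos X [o] h a, ?_⟩
      have h1 : ∀ i, ((X ω • o) i)⁻¹ * g * (X ω • o) (i + 1) = ω i := by
        intro i
        have h2 : (X ω).x i * ω (i - (X ω).k) * ((X ω).x (i + 1))⁻¹ = g := congrFun (hX ω h).2 i
        rw [(hX ω h).1, sub_zero] at h2
        change ((X ω).x i * 1)⁻¹ * g * ((X ω).x (i + 1) * 1) = ω i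
        rw [← h2]
        group
      refine exists_congr fun c => and_congr_right fun _ => ?_
      simp only [h1]
      exact ⟨fun h => funext h, fun h i => congrFun h i⟩
    · left
      refine ⟨Phi_neg X _ h a, ?_⟩
      rintro ⟨c, hc, rfl⟩
      obtain ⟨y, hy⟩ := isConj_iff.1 hc
      exact h ⟨⟨fun _ => y, 0⟩, funext fun _ => hy⟩

open Classical in
/-- The functional that detects the class of `g`. -/
theorem exists_lam {κ : Type*} [CommRing κ] {p : ℕ} [Fact p.Prime] (h0 : (p : κ) = 0)
    {G : Type*} [Group G] (g : G) :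
    ∃ lam : (List (Pw p G) →₀ κ) →ₗ[κ] κ,
      (∀ (s : Pw p G) (a : κ), lam (Finsupp.single [s] a) = if Lam p g s then a else 0) ∧
      (∀ z ∈ Jp (pr (List (Pw p G)) (Representation.trivial κ (Gam p g) κ))
        (fun γ => GamPi p g γ = 1), lam z = 0) ∧
      (∀ b, lam (NT (pr (List (Pw p G)) (Representation.trivial κ (Gam p g) κ))
        (GamT p g) p b) = 0) ∧
      ∀ f ∈ Fx κ (GamR p g), lam (bd κ f) = 0 := by
  let Q : List (Pw p G) → Prop := fun l => ∃ s, l = [s] ∧ Lam p g s
  let lam : (List (Pw p G) →₀ κ) →ₗ[κ] κ :=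
    Finsupp.lsum κ fun l => if Q l then LinearMap.id else 0
  have hl : ∀ l a, lam (Finsupp.single l a) = if Q l then a else 0 := by
    intro l a
    by_cases h : Q l <;> simp [lam, h]
  have hQ : ∀ s, Q [s] ↔ Lam p g s := fun s =>
    ⟨fun ⟨t, e, ht⟩ => by rwa [List.singleton_injective e], fun h => ⟨s, rfl, h⟩⟩
  have hlen : ∀ l, Q l → l.length = 1 := by
    rintro _ ⟨s, rfl, -⟩
    rfl
  have hQs : ∀ (γ : Gam p g) l, Q (γ • l) ↔ Q l := by
    intro γ l
    by_cases h : l.length = 1
    · obtain ⟨s, rfl⟩ := List.length_eq_one_iff.1 h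
      exact (hQ (γ • s)).trans ((Lam_smul g γ s).trans (hQ s).symm)
    · exact ⟨fun c => (h ((length_smul γ l).symm.trans (hlen _ c))).elim,
        fun c => (h (hlen _ c)).elim⟩
  have hinv : ∀ (γ : Gam p g) z,
      lam (pr (List (Pw p G)) (Representation.trivial κ (Gam p g) κ) γ z) = lam z := by
    intro γ z
    induction z using Finsupp.induction_linear with
    | zero => simp
    | add a b ha hb => simp only [map_add, ha, hb]
    | single l a =>
      rw [pr_single, hl, hl]
      exact if_congr (hQs γ l) rfl rfl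
  refine ⟨lam, fun s a => ?_, fun z hz => ?_, fun b => ?_, fun f hf => ?_⟩
  · rw [hl]
    exact if_congr (hQ s) rfl rfl
  · exact Jp_le (N := ⊥) (fun γ v _ => by rw [hinv, sub_self]; exact Submodule.zero_mem _) hz
  · rw [NT_apply, map_sum]
    simp only [hinv, Finset.sum_const, Finset.card_range, nsmul_eq_mul, h0, zero_mul]
  · refine map_supported (f := lam ∘ₗ bd κ) (N := ⊥) (fun l hf a => ?_) hf
    rw [LinearMap.comp_apply]
    by_cases h : l.length = 2
    · obtain ⟨s, t, rfl⟩ := List.length_eq_two.1 h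
      have h1 : Lam p g s ↔ Lam p g t :=
        ⟨Lam_of_GamR g (hf s (by simp) t (by simp)), Lam_of_GamR g (hf t (by simp) s (by simp))⟩
      rw [bd_single_cons, bd_single_cons, bd_nil, map_zero, sub_zero, cons_single, map_sub, hl, hl,
        Submodule.mem_bot, sub_eq_zero]
      exact if_congr ((hQ t).trans (h1.symm.trans (hQ s).symm)) rfl rfl
    · refine map_supported (fun l' hl' b => ?_) (bd_single_mem l a)
      rw [hl, if_neg]
      · exact Submodule.zero_mem _
      · intro c
        have h2 := hlen _ c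
        have h3 := hl'.2
        omega

end Pool.Agent.MP_f7db47_al.Cv

end

section

/-! Prisms, jumps, the bar construction on units and the trace map. -/

open scoped TensorProduct

namespace Pool.Agent.MP_f7db47_al.Cv

section lists
variable (κ : Type*) [CommRing κ] {X Y : Type*}

/-- The map induced on chains of lists. -/
noncomputable def lm (f : X → Y) : (List X →₀ κ) →ₗ[κ] (List Y →₀ κ) :=
  Finsupp.lmapDomain κ κ (List.map f)

@[simp] theorem lm_single (f : X → Y) (l : List X) (c : κ) :
    lm κ f (Finsupp.single l c) = Finsupp.single (l.map f) c := by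
  simp [lm]

/-- The prism over one list. -/
noncomputable def prism1 (f g : X → Y) : List X → (List Y →₀ κ)
  | [] => 0
  | s :: l => Finsupp.single (f s :: g s :: l.map g) 1 - cons κ κ (f s) (prism1 f g l)

/-- The prism operator. -/
noncomputable def prism (f g : X → Y) : (List X →₀ κ) →ₗ[κ] (List Y →₀ κ) :=
  Finsupp.linearCombination κ (prism1 κ f g)

theorem prism_single (f g : X → Y) (l : List X) (c : κ) :
    prism κ f g (Finsupp.single l c) = c • prism1 κ f g l :=
  Finsupp.linearCombination_single _ _ _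

/-- Deleting the entry at position `j`. -/
noncomputable def er {V : Type*} [AddCommGroup V] [Module κ V] (j : ℕ) :
    (List X →₀ V) →ₗ[κ] (List X →₀ V) := Finsupp.lmapDomain V κ fun l => l.eraseIdx j

@[simp] theorem er_single {V : Type*} [AddCommGroup V] [Module κ V] (j : ℕ) (l : List X) (v : V) :
    er κ j (Finsupp.single l v) = Finsupp.single (l.eraseIdx j) v := by
  simp [er]

/-- Chains of lists of length exactly `m`. -/
def Ln {V : Type*} [AddCommGroup V] [Module κ V] (m : ℕ) : Submodule κ (List X →₀ V) :=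
  Finsupp.supported V κ {l | l.length = m}

theorem bd_eq_sum {V : Type*} [AddCommGroup V] [Module κ V] (l : List X) (v : V) :
    bd κ (Finsupp.single l v) =
      ∑ j ∈ Finset.range l.length, (-1 : κ) ^ j • Finsupp.single (l.eraseIdx j) v := by
  induction l with
  | nil => simp
  | cons s l ih =>
    rw [bd_single_cons, ih, List.length_cons, Finset.sum_range_succ', map_sum, sub_eq_neg_add,
      ← Finset.sum_neg_distrib]
    simp [pow_succ]

theorem bd_eq_sum_er {V : Type*} [AddCommGroup V] [Module κ V] {m : ℕ} {z : List X →₀ V}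
    (hz : z ∈ Ln κ m) : bd κ z = ∑ j ∈ Finset.range m, (-1 : κ) ^ j • er κ j z := by
  have := eq_on_supported (f := bd κ) (g := ∑ j ∈ Finset.range m, (-1 : κ) ^ j • er κ j)
    (fun l (hl : l.length = m) v => by
      rw [bd_eq_sum, hl]
      simp [LinearMap.sum_apply]) hz
  rw [this]
  simp [LinearMap.sum_apply]

end lists

section pw
variable {p : ℕ} {X : Type*}

/-- The constant point. -/
def cstP (p : ℕ) (x : X) : Pw p X := fun _ => x

/-- Replace the entries at the positions `j, …, j + t - 1` by `x`. -/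
def fill (j : ZMod p) (x : X) (t : ℕ) (s : Pw p X) : Pw p X :=
  fun i => if (i - j).val < t then x else s i

/-- A contraction of the complex of lists that changes one position at a time. -/
noncomputable def hh (κ : Type*) [CommRing κ] (j : ZMod p) (x : X) :
    (List (Pw p X) →₀ κ) →ₗ[κ] (List (Pw p X) →₀ κ) :=
  ∑ t ∈ Finset.range p, prism κ (fill j x (t + 1)) (fill j x t) +
    cons κ κ (cstP p x) ∘ₗ lm κ (fill j x p)

open Classical in
/-- The number of places where two consecutive entries differ. -/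
noncomputable def jmp : List X → ℕ
  | a :: b :: l => (if a = b then 0 else 1) + jmp (b :: l)
  | _ => 0

/-- The entries at position `i`. -/
def col (L : List (Pw p X)) (i : ZMod p) : List X := L.map fun s => s i

/-- The number of jumps of the cyclic word attached to a list. -/
noncomputable def JJ [NeZero p] (L : List (Pw p X)) : ℕ :=
  ∑ i : ZMod p, jmp (col L i ++ (col L (i + 1)).take 1)

/-- Chains of lists with values in `E` and at most `r` jumps. -/
def Sparse (κ : Type*) [CommRing κ] [NeZero p] (E : Set X) (r : ℕ) :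
    Submodule κ (List (Pw p X) →₀ κ) :=
  Finsupp.supported κ κ {L | (∀ s ∈ L, ∀ i, s i ∈ E) ∧ JJ L ≤ r}

/-- Diagonal elements of the base group. -/
def Dg {U : Type*} [Group U] (w : Wr p U) : Prop := w.k = 0 ∧ ∃ u, ∀ i, w.x i = u

/-- The representation on chains of lists of points. -/
noncomputable abbrev LR (κ : Type*) [CommRing κ] (p : ℕ) (U : Type*) [Group U] :
    Representation κ (Wr p U) (List (Pw p U) →₀ κ) :=
  pr (List (Pw p U)) (Representation.trivial κ (Wr p U) κ)

/-- The representation on chains of lists of points with cyclic words as coefficients. -/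
noncomputable abbrev ER (κ : Type*) [CommRing κ] (p : ℕ) (G : Type*) [Group G] :
    Representation κ (Wr p G) (List (Pw p G) →₀ (Om p G →₀ κ)) :=
  pr (List (Pw p G)) (OmR κ p G)

/-- The ordered product over all positions. -/
def oprod (p : ℕ) {M : Type*} [Monoid M] (x : ZMod p → M) : M :=
  (List.ofFn fun i : Fin p => x ((i : ℕ) : ZMod p)).prod

/-- Put `p` lists of the same length together. -/
def zipL {G : Type*} [One G] (t : ZMod p → List G) : List (Pw p G) :=
  (List.range (t 0).length).map fun j i => (t i).getD j 1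

/-- `x` is a product of at most `r` elements of `A`. -/
def Wd {G : Type*} [Group G] (A : Set G) (r : ℕ) (x : G) : Prop :=
  ∃ l : List G, (∀ y ∈ l, y ∈ A) ∧ l.length ≤ r ∧ l.prod = x

end pw

/-- Chains whose coefficients are supported on the elements that satisfy `P`. -/
noncomputable def OnO (κ : Type*) [CommRing κ] {α β : Type*} (P : β → Prop) : Submodule κ (α →₀ (β →₀ κ)) :=
  Submodule.span κ {z | ∃ l ω a, P ω ∧ z = Finsupp.single l (Finsupp.single ω a)}

theorem single_mem_OnO {κ : Type*} [CommRing κ] {α β : Type*} {P : β → Prop} (l : α) {ω : β}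
    (h : P ω) (a : κ) : Finsupp.single l (Finsupp.single ω a) ∈ OnO κ P :=
  Submodule.subset_span ⟨l, ω, a, h, rfl⟩

theorem OnO_le {κ : Type*} [CommRing κ] {α β W : Type*} [AddCommGroup W] [Module κ W]
    {P : β → Prop} {f : (α →₀ (β →₀ κ)) →ₗ[κ] W} {N : Submodule κ W}
    (h : ∀ l ω a, P ω → f (Finsupp.single l (Finsupp.single ω a)) ∈ N) {z : α →₀ (β →₀ κ)}
    (hz : z ∈ OnO κ P) : f z ∈ N := by
  have : OnO κ P ≤ N.comap f := Submodule.span_le.2 fun _ ⟨l, ω, a, hP, e⟩ => by
    rw [e]
    exact h l ω a hP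
  exact this hz

theorem OnO_mono {κ : Type*} [CommRing κ] {α β : Type*} {P Q : β → Prop} (h : ∀ ω, P ω → Q ω) :
    (OnO κ P : Submodule κ (α →₀ (β →₀ κ))) ≤ OnO κ Q :=
  Submodule.span_mono fun _ ⟨l, ω, a, hP, e⟩ => ⟨l, ω, a, h ω hP, e⟩

section bar
variable (κ : Type*) [CommRing κ] {R : Type*} [Ring R] [Algebra κ R] {G : Type*} [Group G]

/-- The left action of the group ring on lists with coefficients in the group ring. -/
noncomputable def La (a : MonoidAlgebra R G) :
    (List G →₀ MonoidAlgebra R G) →ₗ[κ] (List G →₀ MonoidAlgebra R G) :=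
  a.coeff.sum fun g M => Em (LinearMap.mulLeft κ (MonoidAlgebra.single g M)) ∘ₗ
    Finsupp.lmapDomain (MonoidAlgebra R G) κ (g • ·)

/-- The right action. -/
noncomputable def Ra (a : MonoidAlgebra R G) :
    (List G →₀ MonoidAlgebra R G) →ₗ[κ] (List G →₀ MonoidAlgebra R G) :=
  Em (LinearMap.mulRight κ a)

@[simp] theorem La_zero : La κ (0 : MonoidAlgebra R G) = 0 := by
  simp [La]

theorem La_add (a b : MonoidAlgebra R G) : La κ (a + b) = La κ a + La κ b := by
  unfold La
  rw [MonoidAlgebra.coeff_add, Finsupp.sum_add_index']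
  · intro g
    ext l x
    simp
  · intro g M N
    refine Finsupp.lhom_ext fun l x => ?_
    simp [MonoidAlgebra.single_add, add_mul, Finsupp.single_add]

theorem La_single (g : G) (M : R) (t : List G) (b : MonoidAlgebra R G) :
    La κ (MonoidAlgebra.single g M) (Finsupp.single t b) =
      Finsupp.single (g • t) (MonoidAlgebra.single g M * b) := by
  unfold La
  rw [MonoidAlgebra.coeff_single, Finsupp.sum_single_index]
  · simp
  · ext l x
    simp

@[simp] theorem Ra_single (a : MonoidAlgebra R G) (t : List G) (b : MonoidAlgebra R G) :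
    Ra κ a (Finsupp.single t b) = Finsupp.single t (b * a) := by
  simp [Ra]

/-- The element `u 0 ⊗ (u 0)⁻¹ u 1 ⊗ … ⊗ (u m)⁻¹` of the bar construction. -/
noncomputable def QQ : List (MonoidAlgebra R G)ˣ → (List G →₀ MonoidAlgebra R G)
  | [] => Finsupp.single [] 1
  | u :: l => La κ u.val (cons κ _ 1 (La κ (u⁻¹).val (QQ l)))

/-- The positions as residues. -/
def posEquiv (p : ℕ) [NeZero p] : Fin p ≃ ZMod p where
  toFun i := ((i : ℕ) : ZMod p)
  invFun i := ⟨i.val, ZMod.val_lt i⟩
  left_inv i := Fin.ext (ZMod.val_cast_of_lt i.2)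
  right_inv i := ZMod.natCast_zmod_val i

open Classical in
/-- The trace of the cyclic product of coefficients. -/
noncomputable def muI (G : Type*) [Group G] (p : ℕ) [NeZero p] (tr : R →ₗ[κ] κ) :
    (⨂[κ] _ : ZMod p, MonoidAlgebra R G) →ₗ[κ] ((ZMod p → G) →₀ κ) :=
  Em (tr ∘ₗ PiTensorProduct.lift
      ((MultilinearMap.mkPiAlgebraFin κ p R).domDomCongr (posEquiv p))) ∘ₗ
    (PiTensorProduct.ofFinsuppEquiv (R := κ) (κ := fun _ : ZMod p => G)
      (M := fun _ : ZMod p => R)).toLinearMap ∘ₗ
    PiTensorProduct.map fun _ : ZMod p =>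
      (MonoidAlgebra.coeffLinearEquiv κ : MonoidAlgebra R G ≃ₗ[κ] (G →₀ R)).toLinearMap

theorem muI_tprod (p : ℕ) [NeZero p] (tr : R →ₗ[κ] κ) (ω : ZMod p → G) (M : ZMod p → R) :
    muI κ G p tr (PiTensorProduct.tprod κ fun i => MonoidAlgebra.single (ω i) (M i)) =
      Finsupp.single ω (tr (oprod p M)) := by
  classical
  simp only [muI, LinearMap.comp_apply, LinearEquiv.coe_coe,
    PiTensorProduct.ofFinsuppEquiv_tprod_single, PiTensorProduct.map_tprod,
    MonoidAlgebra.coeffLinearEquiv_apply, MonoidAlgebra.coeff_single, Em_single,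
    PiTensorProduct.lift.tprod]
  rfl

/-- The same map with values in chains of cyclic words. -/
noncomputable def muO (G : Type*) [Group G] (p : ℕ) [NeZero p] (tr : R →ₗ[κ] κ) :
    (⨂[κ] _ : ZMod p, MonoidAlgebra R G) →ₗ[κ] (Om p G →₀ κ) := muI κ G p tr

theorem muO_tprod (p : ℕ) [NeZero p] (tr : R →ₗ[κ] κ) (ω : Om p G) (M : ZMod p → R) :
    muO κ G p tr (PiTensorProduct.tprod κ fun i => MonoidAlgebra.single (ω i) (M i)) =
      Finsupp.single ω (tr (oprod p M)) := muI_tprod κ p tr ω M

open Classical in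
/-- The cyclic tensor product followed by the trace. -/
noncomputable def mu (p : ℕ) [NeZero p] (tr : R →ₗ[κ] κ) :
    MultilinearMap κ (fun _ : ZMod p => List G →₀ MonoidAlgebra R G)
      (List (Pw p G) →₀ (Om p G →₀ κ)) :=
  ((Finsupp.lsum κ fun t : ZMod p → List G => Finsupp.lsingle (zipL t) ∘ₗ muO κ G p tr) ∘ₗ
    (PiTensorProduct.ofFinsuppEquiv (R := κ) (κ := fun _ : ZMod p => List G)
      (M := fun _ : ZMod p => MonoidAlgebra R G)).toLinearMap).compMultilinearMap
    (PiTensorProduct.tprod κ)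

theorem mu_single (p : ℕ) [NeZero p] (tr : R →ₗ[κ] κ) (t : ZMod p → List G) (ω : Om p G)
    (M : ZMod p → R) :
    mu κ p tr (fun i => Finsupp.single (t i) (MonoidAlgebra.single (ω i) (M i))) =
      Finsupp.single (zipL t) (Finsupp.single ω (tr (oprod p M))) := by
  classical
  simp only [mu, LinearMap.compMultilinearMap_apply, LinearMap.comp_apply, LinearEquiv.coe_coe,
    PiTensorProduct.ofFinsuppEquiv_tprod_single, Finsupp.lsum_single, Finsupp.lsingle_apply,
    muO_tprod]

/-- An element written as a sum over pairs (list, group element). -/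
theorem eq_sum_pairs (b : List G →₀ MonoidAlgebra R G) :
    b = ∑ x ∈ b.support.sigma fun t => (b t).coeff.support,
      Finsupp.single x.1 (MonoidAlgebra.single x.2 ((b x.1).coeff x.2)) := by
  rw [Finset.sum_sigma]
  conv_lhs => rw [← Finsupp.sum_single b, Finsupp.sum]
  refine Finset.sum_congr rfl fun t _ => ?_
  rw [← Finsupp.single_finsetSum]
  congr 1
  exact (MonoidAlgebra.sum_coeff_single (b t)).symm

/-- To show that a multilinear map takes a value in `N` it is enough to look at the terms. -/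
theorem multi_mem {ι : Type*} [Fintype ι] {W : Type*} [AddCommGroup W] [Module κ W]
    (f : MultilinearMap κ (fun _ : ι => List G →₀ MonoidAlgebra R G) W) (N : Submodule κ W)
    (b : ι → List G →₀ MonoidAlgebra R G)
    (h : ∀ (t : ι → List G) (ω : ι → G), (∀ i, (b i (t i)).coeff (ω i) ≠ 0) →
      f (fun i => Finsupp.single (t i)
        (MonoidAlgebra.single (ω i) ((b i (t i)).coeff (ω i)))) ∈ N) : f b ∈ N := by
  classical
  have e : b = fun i => ∑ x ∈ (b i).support.sigma fun t => (b i t).coeff.support,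
      Finsupp.single x.1 (MonoidAlgebra.single x.2 ((b i x.1).coeff x.2)) :=
    funext fun i => eq_sum_pairs (b i)
  rw [e, f.map_sum_finset]
  refine N.sum_mem fun r hr => h (fun i => (r i).1) (fun i => (r i).2) fun i => ?_
  exact Finsupp.mem_support_iff.1 (Finset.mem_sigma.1 (Fintype.mem_piFinset.1 hr i)).2

/-- The trace map on chains of lists of points. -/
noncomputable def TrP (p : ℕ) [NeZero p] (tr : R →ₗ[κ] κ) :
    (List (Pw p (MonoidAlgebra R G)ˣ) →₀ κ) →ₗ[κ] (List (Pw p G) →₀ (Om p G →₀ κ)) :=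
  Finsupp.linearCombination κ fun L => mu κ p tr fun i => QQ κ (col L i)

theorem TrP_single (p : ℕ) [NeZero p] (tr : R →ₗ[κ] κ) (L : List (Pw p (MonoidAlgebra R G)ˣ))
    (c : κ) : TrP κ p tr (Finsupp.single L c) = c • mu κ p tr fun i => QQ κ (col L i) :=
  Finsupp.linearCombination_single _ _ _

end bar

section lam
variable {κ : Type*} [CommRing κ] {p : ℕ} {G : Type*} [Group G]

/-- The list and the word are fixed by an element of degree one. -/
def Per (L : List (Pw p G)) (ω : Om p G) : Prop :=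
  ∃ w : Wr p G, w.k = 1 ∧ w • L = L ∧ w • ω = ω

open Classical in
/-- The value of `F` on a periodic list. -/
noncomputable def lamv (F : List G → G → κ) : List (Pw p G) → Om p G → κ
  | [], _ => 0
  | s :: L, ω => if Per (s :: L) ω then F (col (s :: L) 0) (ω 0 * s 1 * (s 0)⁻¹) else 0

/-- The functional attached to `F`. -/
noncomputable def LamW (p : ℕ) (F : List G → G → κ) :
    (List (Pw p G) →₀ (Om p G →₀ κ)) →ₗ[κ] κ :=
  Finsupp.lsum κ fun L => Finsupp.linearCombination κ (lamv F L)

theorem LamW_single (F : List G → G → κ) (L : List (Pw p G)) (ω : Om p G) (a : κ) :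
    LamW p F (Finsupp.single L (Finsupp.single ω a)) = a * lamv F L ω := by
  rw [LamW, Finsupp.lsum_single, Finsupp.linearCombination_single, smul_eq_mul]

/-- A homogeneous cocycle supported on the class of `g`. -/
structure Coc (F : List G → G → κ) (g : G) : Prop where
  inv : ∀ (h : G) t c, F (h • t) (h * c * h⁻¹) = F t c
  supp : ∀ t c, F t c ≠ 0 → IsConj c g
  nil : ∀ c, F [] c = 0
  coc : ∀ t c, Finsupp.linearCombination κ (fun t' => F t' c) (bd κ (Finsupp.single t 1)) = 0

/-- The homogeneous form of a Hochschild cochain. -/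
def toF {n : ℕ} (φ : (Fin (n + 1) → G) → ℤ) (t : List G) (c : G) : ℤ :=
  if t.length = n + 1 then
    φ (Fin.cons ((t.getD n 1)⁻¹ * c * t.getD 0 1)
      fun j : Fin n => (t.getD j 1)⁻¹ * t.getD (j + 1) 1)
  else 0

end lam

/-- The differential of the inhomogeneous bar complex. -/
noncomputable def dI {U : Type*} [Group U] (n : ℕ) :
    ((Fin (n + 1) → U) →₀ ℤ) →ₗ[ℤ] ((Fin n → U) →₀ ℤ) :=
  Finsupp.lsum ℤ fun u => Finsupp.lsingle (fun i : Fin n => u i.succ) +
    ∑ j : Fin (n + 1), (-1 : ℤ) ^ ((j : ℕ) + 1) • Finsupp.lsingle (Fin.contractNth j (· * ·) u)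

theorem dI_single {U : Type*} [Group U] (n : ℕ) (u : Fin (n + 1) → U) (a : ℤ) :
    dI n (Finsupp.single u a) = Finsupp.single (fun i : Fin n => u i.succ) a +
      ∑ j : Fin (n + 1), (-1 : ℤ) ^ ((j : ℕ) + 1) •
        Finsupp.single (Fin.contractNth j (· * ·) u) a := by
  simp [dI, LinearMap.sum_apply]

/-- From inhomogeneous to homogeneous chains. -/
noncomputable def HC (κ : Type*) [CommRing κ] {U : Type*} [Group U] (n : ℕ) :
    ((Fin n → U) →₀ ℤ) →ₗ[ℤ] (List U →₀ κ) :=
  Finsupp.linearCombination ℤ fun u => Finsupp.single (List.ofFn (Fin.partialProd u)) 1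

theorem HC_single (κ : Type*) [CommRing κ] {U : Type*} [Group U] (n : ℕ) (u : Fin n → U)
    (a : ℤ) : HC κ n (Finsupp.single u a) =
      Finsupp.single (List.ofFn (Fin.partialProd u)) (a : κ) := by
  simp [HC]

/-- Change of coefficient ring on invertible matrices over the group ring. -/
noncomputable def glMap {k k' : Type*} [CommRing k] [CommRing k'] (G : Type*) [Group G]
    (ι : Type*) [Fintype ι] [DecidableEq ι] (f : k →+* k') :
    GL ι (MonoidAlgebra k G) →* GL ι (MonoidAlgebra k' G) :=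
  Units.map ((MonoidAlgebra.mapRingHom G f).mapMatrix (m := ι)).toMonoidHom

theorem glMap_coeff {k k' : Type*} [CommRing k] [CommRing k'] {G : Type*} [Group G]
    {ι : Type*} [Fintype ι] [DecidableEq ι] (f : k →+* k') (u : GL ι (MonoidAlgebra k G))
    (a b : ι) (c : G) :
    ((glMap G ι f u).val a b).coeff c = f ((u.val a b).coeff c) :=
  MonoidAlgebra.coeff_mapRingHom f _ c

end Pool.Agent.MP_f7db47_al.Cv

end

section

namespace Pool.Agent.MP_f7db47_al.Cv

variable {κ : Type*} [CommRing κ] {X Y : Type*} {p : ℕ}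

theorem DPrism_lm_cons (f : X → Y) (s : X) (z : List X →₀ κ) :
    lm κ f (cons κ κ s z) = cons κ κ (f s) (lm κ f z) := by
  induction z using Finsupp.induction_linear with
  | zero => simp
  | add a b ha hb => simp only [map_add, ha, hb]
  | single l v => simp

theorem DPrism_cons (f g : X → Y) (s : X) (z : List X →₀ κ) :
    prism κ f g (cons κ κ s z) =
      cons κ κ (f s) (cons κ κ (g s) (lm κ g z)) - cons κ κ (f s) (prism κ f g z) := by
  induction z using Finsupp.induction_linear with
  | zero => simp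
  | add a b ha hb => simp only [map_add, ha, hb]; abel
  | single l v =>
    rw [cons_single, prism_single, prism_single, prism1, lm_single, cons_single, cons_single,
      smul_sub, map_smul, Finsupp.smul_single, smul_eq_mul, mul_one]

theorem DPrism_nil (f g : X → Y) (c : κ) : prism κ f g (Finsupp.single [] c) = 0 := by
  rw [prism_single, prism1, smul_zero]

theorem DPrism_lm_id (z : List X →₀ κ) : lm κ (fun s : X => s) z = z := by
  induction z using Finsupp.induction_linear with
  | zero => simp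
  | add a b ha hb => simp only [map_add, ha, hb]
  | single l v => simp

theorem DPrism_lm_lm {Z : Type*} (f : X → Y) (h : Y → Z) (z : List X →₀ κ) :
    lm κ h (lm κ f z) = lm κ (fun s => h (f s)) z := by
  induction z using Finsupp.induction_linear with
  | zero => simp
  | add a b ha hb => simp only [map_add, ha, hb]
  | single l v => simp [Function.comp_def]

theorem DPrism_lm_prism {Z : Type*} (f g : X → Y) (h : Y → Z) (z : List X →₀ κ) :
    lm κ h (prism κ f g z) = prism κ (fun s => h (f s)) (fun s => h (g s)) z := by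
  induction z using Finsupp.induction_linear with
  | zero => simp
  | add a b ha hb => simp only [map_add, ha, hb]
  | single l v =>
    induction l with
    | nil => rw [DPrism_nil, DPrism_nil, map_zero]
    | cons s l ih =>
      rw [← cons_single (κ := κ), DPrism_cons, DPrism_cons, map_sub, DPrism_lm_cons,
        DPrism_lm_cons, DPrism_lm_cons, ih, DPrism_lm_lm]

theorem DPrism_prism_lm {Z : Type*} (f g : Y → Z) (h : X → Y) (z : List X →₀ κ) :
    prism κ f g (lm κ h z) = prism κ (fun s => f (h s)) (fun s => g (h s)) z := by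
  induction z using Finsupp.induction_linear with
  | zero => simp
  | add a b ha hb => simp only [map_add, ha, hb]
  | single l v =>
    induction l with
    | nil => rw [lm_single, List.map_nil, DPrism_nil, DPrism_nil]
    | cons s l ih =>
      rw [← cons_single (κ := κ), DPrism_lm_cons, DPrism_cons, DPrism_cons, ih, DPrism_lm_lm]

theorem DPrism_Gd1 (f g : X → Y) (l : List X) : prism1 κ f g l ∈ Gd κ (l.length + 1) := by
  induction l with
  | nil => exact Submodule.zero_mem _
  | cons s l ih =>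
    rw [prism1]
    exact Submodule.sub_mem _ (single_mem_Gd (by simp) _) (cons_mem_Gd _ ih)

theorem DPrism_Gd (f g : X → Y) {m : ℕ} {z : List X →₀ κ} (hz : z ∈ Gd κ m) :
    prism κ f g z ∈ Gd κ (m + 1) :=
  map_supported (fun l hl v => by
    rw [prism_single]
    exact Submodule.smul_mem _ _ (Gd_anti (Nat.succ_le_succ hl) (DPrism_Gd1 f g l))) hz

theorem DPrism_lm_Gd (f : X → Y) {m : ℕ} {z : List X →₀ κ} (hz : z ∈ Gd κ m) :
    lm κ f z ∈ Gd κ m :=
  map_supported (fun l hl v => by
    rw [lm_single]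
    exact single_mem_Gd (by rw [List.length_map]; exact hl) _) hz

theorem DPrism_LR {U : Type*} [Group U] (w : Wr p U) (z : List (Pw p U) →₀ κ) :
    LR κ p U w z = lm κ (fun s => w • s) z := by
  induction z using Finsupp.induction_linear with
  | zero => simp
  | add a b ha hb => simp only [map_add, ha, hb]
  | single l v =>
    rw [pr_single, lm_single]
    rfl

theorem DPrism_fill {U : Type*} [Group U] (w : Wr p U) (u : U) (hw : ∀ i, w.x i = u) (j : ZMod p)
    (x : U) (t : ℕ) (s : Pw p U) : w • fill j x t s = fill (j + w.k) (u * x) t (w • s) := by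
  funext i
  rw [Pw.smul_apply]
  unfold fill
  rw [Pw.smul_apply, sub_sub, add_comm w.k j, hw]
  split_ifs <;> rfl

theorem lm_bd (f : X → Y) (z : List X →₀ κ) : lm κ f (bd κ z) = bd κ (lm κ f z) := by
  induction z using Finsupp.induction_linear with
  | zero => simp
  | add a b ha hb => simp only [map_add, ha, hb]
  | single l v =>
    induction l with
    | nil => simp
    | cons s l ih =>
      rw [← cons_single (κ := κ), bd_cons, DPrism_lm_cons, bd_cons, map_sub, DPrism_lm_cons, ih]

theorem prism_bd (f g : X → Y) (z : List X →₀ κ) :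
    bd κ (prism κ f g z) + prism κ f g (bd κ z) = lm κ g z - lm κ f z := by
  induction z using Finsupp.induction_linear with
  | zero => simp
  | add a b ha hb =>
    simp only [map_add]
    rw [add_add_add_comm, ha, hb]
    abel
  | single l v =>
    induction l with
    | nil => simp [DPrism_nil]
    | cons s l ih =>
      have h := congrArg (cons κ κ (f s)) ih
      rw [map_add, map_sub] at h
      rw [← cons_single (κ := κ), bd_cons, DPrism_cons, map_sub, map_sub, DPrism_cons, bd_cons,
        bd_cons, bd_cons, DPrism_lm_cons, DPrism_lm_cons, map_sub, lm_bd,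
        eq_sub_of_add_eq h]
      abel

theorem hh_bd [NeZero p] (j : ZMod p) (x : X) (z : List (Pw p X) →₀ κ) :
    bd κ (hh κ j x z) = z - hh κ j x (bd κ z) := by
  have h0 : lm κ (fill j x 0) z = z := by
    have e : fill j x 0 = fun s : Pw p X => s := by
      funext s i
      simp [fill]
    rw [e, DPrism_lm_id]
  have h1 : ∑ t ∈ Finset.range p, bd κ (prism κ (fill j x (t + 1)) (fill j x t) z) +
      ∑ t ∈ Finset.range p, prism κ (fill j x (t + 1)) (fill j x t) (bd κ z) =
      z - lm κ (fill j x p) z := by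
    rw [← Finset.sum_add_distrib, Finset.sum_congr rfl fun t _ => prism_bd _ _ z,
      Finset.sum_range_sub' (fun t => lm κ (fill j x t) z), h0]
  simp only [hh, LinearMap.add_apply, LinearMap.comp_apply, LinearMap.sum_apply, map_add, map_sum]
  rw [bd_cons, lm_bd, eq_sub_of_add_eq h1]
  abel

theorem hh_Gd (j : ZMod p) (x : X) {m : ℕ} {z : List (Pw p X) →₀ κ} (hz : z ∈ Gd κ m) :
    hh κ j x z ∈ Gd κ (m + 1) := by
  simp only [hh, LinearMap.add_apply, LinearMap.comp_apply, LinearMap.sum_apply]
  exact Submodule.add_mem _ (Submodule.sum_mem _ fun t _ => DPrism_Gd _ _ hz)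
    (cons_mem_Gd _ (DPrism_lm_Gd _ hz))

theorem hh_equi {U : Type*} [Group U] (w : Wr p U) (u : U) (hw : ∀ i, w.x i = u) (j : ZMod p)
    (x : U) (z : List (Pw p U) →₀ κ) :
    LR κ p U w (hh κ j x z) = hh κ (j + w.k) (u * x) (LR κ p U w z) := by
  have hc : w • cstP p x = cstP p (u * x) := by
    funext i
    rw [Pw.smul_apply, hw]
    rfl
  rw [DPrism_LR, DPrism_LR]
  simp only [hh, LinearMap.add_apply, LinearMap.comp_apply, LinearMap.sum_apply, map_add, map_sum,
    DPrism_lm_prism, DPrism_prism_lm, DPrism_lm_cons, DPrism_lm_lm, DPrism_fill w u hw, hc]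

end Pool.Agent.MP_f7db47_al.Cv

end

section

namespace Pool.Agent.MP_f7db47_al.Cv

theorem DJump_prism1 (κ : Type*) [CommRing κ] {X Y : Type*} (f g : X → Y) (l : List X) :
    prism1 κ f g l ∈ Finsupp.supported κ κ
      {M | ∃ A s B, l = A ++ s :: B ∧ M = A.map f ++ f s :: g s :: B.map g} := by
  induction l with
  | nil => exact Submodule.zero_mem _
  | cons s l ih =>
    rw [prism1]
    refine Submodule.sub_mem _ (Finsupp.single_mem_supported _ _ ⟨[], s, l, rfl, rfl⟩) ?_
    refine map_supported (fun M hM v => ?_) ih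
    obtain ⟨A, s', B, rfl, rfl⟩ := hM
    rw [cons_single]
    exact Finsupp.single_mem_supported _ _ ⟨s :: A, s', B, rfl, rfl⟩

open Classical in
theorem DJump_cons {X : Type*} (a b : X) (l : List X) :
    jmp (a :: b :: l) = (if a = b then 0 else 1) + jmp (b :: l) := by
  rw [jmp]

theorem DJump_one {X : Type*} (a : X) : jmp [a] = 0 := by
  simp [jmp]

theorem DJump_nil {X : Type*} : jmp ([] : List X) = 0 := by
  simp [jmp]

theorem DJump_append {X : Type*} (A : List X) (a : X) (B : List X) :
    jmp (A ++ a :: B) = jmp (A ++ [a]) + jmp (a :: B) := by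
  induction A with
  | nil => simp [DJump_one]
  | cons c A ih =>
    cases A with
    | nil => simp only [List.cons_append, List.nil_append, DJump_cons, DJump_one, add_zero]
    | cons d A =>
      simp only [List.cons_append] at ih ⊢
      rw [DJump_cons, DJump_cons, ih, add_assoc]

theorem DJump_const {X : Type*} (x : X) (l : List X) (h : ∀ y ∈ l, y = x) : jmp l = 0 := by
  induction l with
  | nil => exact DJump_nil
  | cons a l ih =>
    cases l with
    | nil => exact DJump_one a
    | cons b l =>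
      rw [DJump_cons, ih fun y hy => h y (List.mem_cons_of_mem _ hy), h a (by simp),
        h b (by simp)]
      simp

theorem DJump_last {X : Type*} (a : X) (l : List X) (y y' : X) :
    jmp (a :: (l ++ [y])) ≤ jmp (a :: (l ++ [y'])) + 1 := by
  induction l generalizing a with
  | nil =>
    simp only [List.nil_append, DJump_cons, DJump_one]
    split_ifs <;> omega
  | cons b l ih =>
    simp only [List.cons_append, DJump_cons]
    have := ih b
    omega

theorem DJump_succ {p : ℕ} [NeZero p] (i j : ZMod p) (h : i + 1 ≠ j) :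
    (i + 1 - j).val = (i - j).val + 1 := by
  have hlt := ZMod.val_lt (i - j)
  have e : i + 1 - j = (((i - j).val + 1 : ℕ) : ZMod p) := by
    push_cast
    rw [ZMod.natCast_zmod_val]
    ring
  rcases Nat.lt_or_ge ((i - j).val + 1) p with h1 | h1
  · rw [e, ZMod.val_cast_of_lt h1]
  · exfalso
    have h2 : (i - j).val + 1 = p := by omega
    rw [h2, ZMod.natCast_self] at e
    exact h (sub_eq_zero.1 e)

theorem DJump_wrap {p : ℕ} [NeZero p] (i j : ZMod p) (h : i + 1 = j) :
    (i - j).val + 1 = p := by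
  have hlt := ZMod.val_lt (i - j)
  by_contra hne
  have h1 : (i - j).val + 1 < p := by omega
  have e : (((i - j).val + 1 : ℕ) : ZMod p) = 0 := by
    push_cast
    rw [ZMod.natCast_zmod_val, ← h]
    ring
  have := ZMod.val_cast_of_lt h1
  rw [e, ZMod.val_zero] at this
  omega

theorem DJump_col {X : Type*} {p : ℕ} [NeZero p] (j : ZMod p) (x : X) {t : ℕ} (ht : t < p)
    (A : List (Pw p X)) (s : Pw p X) (B : List (Pw p X)) (s0 : Pw p X) (i : ZMod p) :
    jmp (col (A.map (fill j x (t + 1)) ++ fill j x (t + 1) s :: fill j x t s ::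
        B.map (fill j x t)) i ++ [fill j x (t + 1) s0 (i + 1)]) ≤
      jmp (col (A ++ s :: B) i ++ [s0 (i + 1)]) + (if i = j + t then 1 else 0) +
        (if i = j - 1 then 1 else 0) := by
  have hlast : t ≤ (i - j).val → jmp (s i :: (col B i ++ [fill j x (t + 1) s0 (i + 1)])) ≤
      jmp (s i :: (col B i ++ [s0 (i + 1)])) + (if i = j - 1 then 1 else 0) := by
    intro h
    by_cases hij : i = j - 1
    · rw [if_pos hij]
      exact DJump_last _ _ _ _
    · have hne : i + 1 ≠ j := fun e => hij (by rw [← e]; ring)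
      have e : fill j x (t + 1) s0 (i + 1) = s0 (i + 1) := by
        unfold fill
        rw [DJump_succ i j hne, if_neg (by omega)]
      rw [e, if_neg hij, add_zero]
  have hold : jmp (col (A ++ s :: B) i ++ [s0 (i + 1)]) =
      jmp (col A i ++ [s i]) + jmp (s i :: (col B i ++ [s0 (i + 1)])) := by
    rw [← DJump_append]
    simp [col]
  rcases lt_trichotomy (i - j).val t with h | h | h
  · have hne : i + 1 ≠ j := fun e => by
      have := DJump_wrap i j e
      omega
    have h1 : ∀ u : Pw p X, fill j x (t + 1) u i = x := fun u => by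
      unfold fill
      rw [if_pos (by omega)]
    have h2 : ∀ u : Pw p X, fill j x t u i = x := fun u => by
      unfold fill
      rw [if_pos h]
    have h3 : fill j x (t + 1) s0 (i + 1) = x := by
      unfold fill
      rw [DJump_succ i j hne, if_pos (by omega)]
    rw [DJump_const x]
    · exact Nat.zero_le _
    · intro y hy
      simp only [col, List.map_append, List.map_cons, List.map_map, List.mem_append,
        List.mem_map, List.mem_cons, Function.comp_apply, h1, h2, h3, List.not_mem_nil,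
        or_false] at hy
      rcases hy with (⟨_, _, e⟩ | e | e | ⟨_, _, e⟩) | e
      all_goals simp [e]
  · have h1 : ∀ u : Pw p X, fill j x (t + 1) u i = x := fun u => by
      unfold fill
      rw [if_pos (by omega)]
    have h2 : ∀ u : Pw p X, fill j x t u i = u i := fun u => by
      unfold fill
      rw [if_neg (by omega)]
    have hi : i = j + t := by
      rw [← h, ZMod.natCast_zmod_val]
      ring
    have e : col (A.map (fill j x (t + 1)) ++ fill j x (t + 1) s :: fill j x t s ::
        B.map (fill j x t)) i ++ [fill j x (t + 1) s0 (i + 1)] =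
        A.map (fun _ => x) ++ x :: s i :: (col B i ++ [fill j x (t + 1) s0 (i + 1)]) := by
      simp [col, Function.comp_def, h1, h2]
    rw [e, DJump_append, DJump_const x (_ ++ [x]), DJump_cons, hold, if_pos hi]
    · have := hlast h.ge
      split_ifs at this ⊢ <;> omega
    · intro y hy
      simp only [List.mem_append, List.mem_map, List.mem_cons, List.not_mem_nil, or_false] at hy
      rcases hy with ⟨_, _, e⟩ | e
      all_goals simp [e]
  · have h1 : ∀ u : Pw p X, fill j x (t + 1) u i = u i := fun u => by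
      unfold fill
      rw [if_neg (by omega)]
    have h2 : ∀ u : Pw p X, fill j x t u i = u i := fun u => by
      unfold fill
      rw [if_neg (by omega)]
    have e : col (A.map (fill j x (t + 1)) ++ fill j x (t + 1) s :: fill j x t s ::
        B.map (fill j x t)) i ++ [fill j x (t + 1) s0 (i + 1)] =
        col A i ++ s i :: s i :: (col B i ++ [fill j x (t + 1) s0 (i + 1)]) := by
      simp [col, Function.comp_def, h1, h2]
    rw [e, DJump_append, DJump_cons, if_pos rfl, hold]
    have := hlast h.le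
    omega

theorem DJump_JJ {X : Type*} {p : ℕ} [NeZero p] (j : ZMod p) (x : X) {t : ℕ} (ht : t < p)
    (A : List (Pw p X)) (s : Pw p X) (B : List (Pw p X)) :
    JJ (A.map (fill j x (t + 1)) ++ fill j x (t + 1) s :: fill j x t s :: B.map (fill j x t)) ≤
      JJ (A ++ s :: B) + 2 := by
  obtain ⟨s0, h1, h2⟩ : ∃ s0 : Pw p X, (∀ i, (col (A ++ s :: B) i).take 1 = [s0 i]) ∧
      ∀ i, (col (A.map (fill j x (t + 1)) ++ fill j x (t + 1) s :: fill j x t s ::
        B.map (fill j x t)) i).take 1 = [fill j x (t + 1) s0 i] := by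
    cases A with
    | nil => exact ⟨s, fun i => by simp [col], fun i => by simp [col]⟩
    | cons a A => exact ⟨a, fun i => by simp [col], fun i => by simp [col]⟩
  unfold JJ
  simp only [h1, h2]
  refine (Finset.sum_le_sum fun i _ => DJump_col j x ht A s B s0 i).trans (le_of_eq ?_)
  rw [Finset.sum_add_distrib, Finset.sum_add_distrib]
  simp

theorem DJump_fill {X : Type*} {p : ℕ} {E : Set X} (j : ZMod p) {x : X} (hx : x ∈ E) (t : ℕ)
    {s : Pw p X} (hs : ∀ i, s i ∈ E) (i : ZMod p) : fill j x t s i ∈ E := by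
  unfold fill
  split_ifs
  · exact hx
  · exact hs i

variable {κ : Type*} [CommRing κ] {X : Type*} {p : ℕ} [NeZero p]

theorem Sparse_mono (E : Set X) {r r' : ℕ} (h : r ≤ r') :
    (Sparse κ E r : Submodule κ (List (Pw p X) →₀ κ)) ≤ Sparse κ E r' :=
  Finsupp.supported_mono fun _ hL => ⟨hL.1, hL.2.trans h⟩

theorem nil_mem_Sparse (E : Set X) (r : ℕ) (c : κ) :
    Finsupp.single ([] : List (Pw p X)) c ∈ Sparse κ E r := by
  refine Finsupp.single_mem_supported _ _ ⟨by simp, ?_⟩
  simp [JJ, col, DJump_nil]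

theorem hh_sparse {E : Set X} {r : ℕ} (j : ZMod p) {x : X} (hx : x ∈ E)
    {z : List (Pw p X) →₀ κ} (hz : z ∈ Sparse κ E r) : hh κ j x z ∈ Sparse κ E (r + 2) := by
  refine map_supported (fun L hL c => ?_) hz
  rw [hh, LinearMap.add_apply, LinearMap.sum_apply]
  refine Submodule.add_mem _ (Submodule.sum_mem _ fun t ht => ?_) ?_
  · rw [prism_single]
    refine Submodule.smul_mem _ _ (Finsupp.supported_mono ?_ (DJump_prism1 κ _ _ L))
    rintro M ⟨A, s, B, rfl, rfl⟩
    refine ⟨fun u hu => ?_, (DJump_JJ j x (Finset.mem_range.1 ht) A s B).trans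
      (Nat.add_le_add_right hL.2 2)⟩
    simp only [List.mem_append, List.mem_map, List.mem_cons] at hu
    rcases hu with ⟨a, ha, rfl⟩ | rfl | rfl | ⟨a, ha, rfl⟩
    · exact DJump_fill j hx _ (hL.1 a (by simp [ha]))
    · exact DJump_fill j hx _ (hL.1 s (by simp))
    · exact DJump_fill j hx _ (hL.1 s (by simp))
    · exact DJump_fill j hx _ (hL.1 a (by simp [ha]))
  · rw [LinearMap.comp_apply, lm_single, cons_single]
    have hf : ∀ (u : Pw p X) i, fill j x p u i = x := fun u i => by
      unfold fill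
      rw [if_pos (ZMod.val_lt _)]
    have hall : ∀ u ∈ cstP p x :: L.map (fill j x p), ∀ i, u i = x := by
      intro u hu i
      rcases List.mem_cons.1 hu with rfl | hu
      · rfl
      · obtain ⟨a, _, rfl⟩ := List.mem_map.1 hu
        exact hf a i
    refine Finsupp.single_mem_supported _ _ ⟨fun u hu i => by rw [hall u hu i]; exact hx, ?_⟩
    have : JJ (cstP p x :: L.map (fill j x p)) = 0 := by
      refine Finset.sum_eq_zero fun i _ => DJump_const x _ fun y hy => ?_
      rcases List.mem_append.1 hy with hy | hy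
      · obtain ⟨u, hu, rfl⟩ := List.mem_map.1 hy
        exact hall u hu i
      · obtain ⟨u, hu, rfl⟩ := List.mem_map.1 (List.mem_of_mem_take hy)
        exact hall u hu (i + 1)
    rw [this]
    exact Nat.zero_le _

end Pool.Agent.MP_f7db47_al.Cv

end

section

namespace Pool.Agent.MP_f7db47_al.Cv

variable {κ : Type*} [CommRing κ] {R : Type*} [Ring R] [Algebra κ R] {G : Type*} [Group G]
variable {p : ℕ} [NeZero p] {tr : R →ₗ[κ] κ}

omit [NeZero p] in
theorem DMu_oprod {M : Type*} [Monoid M] (x : ZMod p → M) :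
    oprod p x = ((List.range p).map fun i : ℕ => x (i : ZMod p)).prod := by
  unfold oprod
  congr 1
  refine List.ext_getElem (by simp) fun i h1 h2 => by simp

theorem DMu_prod {M : Type*} [Monoid M] (a b : ℕ → M) (q : ℕ) :
    ((List.range (q + 1)).map fun i => b i * a i).prod =
      b 0 * (((List.range q).map fun i => a i * b (i + 1)).prod * a q) := by
  induction q with
  | zero => simp
  | succ q ih => rw [List.prod_range_succ, ih, List.prod_range_succ]; simp only [mul_assoc]

theorem DMu_bal (htr : ∀ a b, tr (a * b) = tr (b * a)) (M N : ZMod p → R) :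
    tr (oprod p fun i => N i * M i) = tr (oprod p fun i => M i * N (i + 1)) := by
  obtain ⟨q, hq⟩ := Nat.exists_eq_succ_of_ne_zero (NeZero.ne p)
  have h0 : (q : ZMod p) + 1 = 0 := by
    rw [← Nat.cast_succ, ← hq, ZMod.natCast_self]
  rw [DMu_oprod, DMu_oprod, congrArg List.range hq,
    DMu_prod (fun i => M (i : ZMod p)) (fun i => N (i : ZMod p)) q, List.prod_range_succ, htr, h0]
  simp only [Nat.cast_succ, Nat.cast_zero, mul_assoc]

omit [NeZero p] in
theorem DMu_len {m : ℕ} {b : List G →₀ MonoidAlgebra R G} (hb : b ∈ Ln κ m) {t : List G} {ω : G}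
    (h : (b t).coeff ω ≠ 0) : t.length = m :=
  hb (Finsupp.mem_support_iff.2 fun e => h (by rw [e]; rfl))

omit [NeZero p] in
theorem DMu_er {m : ℕ} {t : ZMod p → List G} (h : ∀ i, (t i).length = m) {j : ℕ} (hj : j < m) :
    (zipL t).eraseIdx j = zipL fun i => (t i).eraseIdx j := by
  refine List.ext_getElem (by simp [zipL, List.length_eraseIdx, h, hj]) fun n h1 h2 => ?_
  rw [List.getElem_eraseIdx]
  funext i
  split_ifs with h3 <;> simp [zipL, List.getElem?_eraseIdx, h3]

omit [NeZero p] in
theorem DMu_smul {m : ℕ} {t : ZMod p → List G} (h : ∀ i, (t i).length = m) (w : Wr p G) :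
    w • zipL t = zipL fun i => w.x i • t (i - w.k) := by
  refine List.ext_getElem (by simp [zipL, h]) fun n h1 h2 => ?_
  have h3 : n < m := by simpa [zipL, h] using h1
  funext i
  simp [zipL, smul_list, Pw.smul_apply, List.getElem?_eq_getElem (h (i - w.k) ▸ h3)]

omit [NeZero p] in
theorem DMu_ER (w : Wr p G) (L : List (Pw p G)) (ω : Om p G) (c : κ) :
    ER κ p G w (Finsupp.single L (Finsupp.single ω c)) =
      Finsupp.single (w • L) (Finsupp.single (w • ω) c) := by
  rw [pr_single, OmR, pr_single]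
  rfl

theorem DMu_multi0 {ι : Type*} [Fintype ι] {W : Type*} [AddCommGroup W] [Module κ W]
    (f g : MultilinearMap κ (fun _ : ι => List G →₀ MonoidAlgebra R G) W) (N : Submodule κ W)
    (b : ι → List G →₀ MonoidAlgebra R G)
    (h : ∀ (t : ι → List G) (ω : ι → G), (∀ i, (b i (t i)).coeff (ω i) ≠ 0) →
      f (fun i => Finsupp.single (t i) (MonoidAlgebra.single (ω i) ((b i (t i)).coeff (ω i)))) -
      g (fun i => Finsupp.single (t i) (MonoidAlgebra.single (ω i) ((b i (t i)).coeff (ω i)))) ∈ N) :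
    f b - g b ∈ N := multi_mem κ (f - g) N b h

theorem DMu_multi (f g : MultilinearMap κ (fun _ : ZMod p => List G →₀ MonoidAlgebra R G)
      (List (Pw p G) →₀ (Om p G →₀ κ))) (N : Submodule κ (List (Pw p G) →₀ (Om p G →₀ κ)))
    (b : ZMod p → List G →₀ MonoidAlgebra R G)
    (h : ∀ (t : ZMod p → List G) (ω : Om p G), (∀ i, (b i (t i)).coeff (ω i) ≠ 0) →
      f (fun i => Finsupp.single (t i) (MonoidAlgebra.single (ω i) ((b i (t i)).coeff (ω i)))) -
      g (fun i => Finsupp.single (t i) (MonoidAlgebra.single (ω i) ((b i (t i)).coeff (ω i)))) ∈ N) :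
    f b - g b ∈ N := DMu_multi0 (W := List (Pw p G) →₀ (Om p G →₀ κ)) f g N b fun t ω => h t ω

theorem DMu_multi1 {ι : Type*} [Fintype ι] {W : Type*} [AddCommGroup W] [Module κ W]
    (f g : MultilinearMap κ (fun _ : ι => List G →₀ MonoidAlgebra R G) W)
    (b : ι → List G →₀ MonoidAlgebra R G)
    (h : ∀ (t : ι → List G) (ω : ι → G), (∀ i, (b i (t i)).coeff (ω i) ≠ 0) →
      f (fun i => Finsupp.single (t i) (MonoidAlgebra.single (ω i) ((b i (t i)).coeff (ω i)))) =
      g (fun i => Finsupp.single (t i) (MonoidAlgebra.single (ω i) ((b i (t i)).coeff (ω i))))) :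
    f b = g b :=
  sub_eq_zero.1 ((Submodule.mem_bot κ).1 (DMu_multi0 f g ⊥ b fun t ω hh =>
    (Submodule.mem_bot κ).2 (sub_eq_zero.2 (h t ω hh))))

theorem DMu_eq (f g : MultilinearMap κ (fun _ : ZMod p => List G →₀ MonoidAlgebra R G)
      (List (Pw p G) →₀ (Om p G →₀ κ))) (b : ZMod p → List G →₀ MonoidAlgebra R G)
    (h : ∀ (t : ZMod p → List G) (ω : Om p G), (∀ i, (b i (t i)).coeff (ω i) ≠ 0) →
      f (fun i => Finsupp.single (t i) (MonoidAlgebra.single (ω i) ((b i (t i)).coeff (ω i)))) =
      g (fun i => Finsupp.single (t i) (MonoidAlgebra.single (ω i) ((b i (t i)).coeff (ω i))))) :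
    f b = g b := DMu_multi1 (W := List (Pw p G) →₀ (Om p G →₀ κ)) f g b fun t ω => h t ω

theorem DMu_bal1 (htr : ∀ a b, tr (a * b) = tr (b * a)) {m : ℕ}
    (b : ZMod p → List G →₀ MonoidAlgebra R G) (hb : ∀ i, b i ∈ Ln κ m)
    (g : ZMod p → G) (N : ZMod p → R) :
    (mu κ p tr fun i => La κ (MonoidAlgebra.single (g i) (N i)) (b i)) -
      (mu κ p tr fun i => Ra κ (MonoidAlgebra.single (g (i + 1)) (N (i + 1))) (b i)) ∈
      Jp (ER κ p G) fun w => w.k = 0 := by
  rw [← MultilinearMap.compLinearMap_apply (mu κ p tr) _ b,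
    ← MultilinearMap.compLinearMap_apply (mu κ p tr) _ b]
  refine DMu_multi
    ((mu κ p tr).compLinearMap fun i => La κ (MonoidAlgebra.single (g i) (N i)))
    ((mu κ p tr).compLinearMap fun i => Ra κ (MonoidAlgebra.single (g (i + 1)) (N (i + 1)))) _ b
    fun t ω h => ?_
  simp only [MultilinearMap.compLinearMap_apply, La_single, Ra_single,
    MonoidAlgebra.single_mul_single]
  obtain ⟨ω₁, e₁⟩ : ∃ ω₁ : Om p G, ∀ i, g i * ω i = ω₁ i := ⟨fun i => g i * ω i, fun _ => rfl⟩
  obtain ⟨ω₂, e₂⟩ : ∃ ω₂ : Om p G, ∀ i, ω i * g (i + 1) = ω₂ i :=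
    ⟨fun i => ω i * g (i + 1), fun _ => rfl⟩
  simp only [e₁, e₂]
  rw [mu_single κ p tr (fun i => g i • t i) ω₁, mu_single κ p tr t ω₂, DMu_bal htr]
  have h3 := mem_Jp (ER κ p G) (P := fun w => w.k = 0) (h := ⟨g, 0⟩) rfl
    (Finsupp.single (zipL t) (Finsupp.single ω₂
      (tr (oprod p fun i => (b i (t i)).coeff (ω i) * N (i + 1)))))
  have h4 : (⟨g, 0⟩ : Wr p G) • ω₂ = ω₁ := funext fun i => by
    rw [Om.smul_apply, ← e₁, ← e₂]
    simp [mul_assoc]
  rw [DMu_ER, DMu_smul fun i => DMu_len (hb i) (h i), h4] at h3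
  simpa only [sub_zero] using h3

omit [NeZero p] in
theorem DMu_La (a : MonoidAlgebra R G) (z : List G →₀ MonoidAlgebra R G) :
    La κ a z = ∑ g ∈ a.coeff.support, La κ (MonoidAlgebra.single g (a.coeff g)) z := by
  have h : ∀ (s : Finset G) (f : G → MonoidAlgebra R G),
      La κ (∑ g ∈ s, f g) z = ∑ g ∈ s, La κ (f g) z := fun s f => by
    classical
    induction s using Finset.induction_on with
    | empty => simp
    | insert x s hx ih => rw [Finset.sum_insert hx, Finset.sum_insert hx, La_add,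
        LinearMap.add_apply, ih]
  rw [← h]
  exact congrArg (fun c => La κ c z) (MonoidAlgebra.sum_coeff_single a).symm

omit [NeZero p] in
theorem DMu_Ra (a : MonoidAlgebra R G) (z : List G →₀ MonoidAlgebra R G) :
    Ra κ a z = ∑ g ∈ a.coeff.support, Ra κ (MonoidAlgebra.single g (a.coeff g)) z := by
  ext1 t
  simp only [Finsupp.finsetSum_apply, Ra, Em_apply, LinearMap.mulRight_apply]
  rw [← Finset.mul_sum]
  exact congrArg (fun c => z t * c) (MonoidAlgebra.sum_coeff_single a).symm

theorem DMu_Wd (A : Set G) (r : ℕ → ℕ) (x : ℕ → G) (h : ∀ i, Wd A (r i) (x i)) (n : ℕ) :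
    Wd A (∑ i ∈ Finset.range n, r i) ((List.range n).map x).prod := by
  induction n with
  | zero => exact ⟨[], by simp, le_rfl, rfl⟩
  | succ n ih =>
    obtain ⟨l, h1, h2, h3⟩ := ih
    obtain ⟨l', h4, h5, h6⟩ := h n
    refine ⟨l ++ l', fun y hy => (List.mem_append.1 hy).elim (h1 y) (h4 y), ?_, ?_⟩
    · rw [List.length_append, Finset.sum_range_succ]
      exact add_le_add h2 h5
    · rw [List.prod_append, List.prod_range_succ, h3, h6]

theorem tr_oprod_shift (htr : ∀ a b, tr (a * b) = tr (b * a)) (M : ZMod p → R) :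
    tr (oprod p fun i => M (i - 1)) = tr (oprod p M) := by
  have h := DMu_bal htr (fun _ => 1) fun i => M (i - 1)
  simpa only [mul_one, one_mul, add_sub_cancel_right] using h

theorem tr_oprod_bal (htr : ∀ a b, tr (a * b) = tr (b * a)) (M N : ZMod p → R) :
    tr (oprod p fun i => N i * M i) = tr (oprod p fun i => M i * N (i + 1)) := by
  exact DMu_bal htr M N

theorem mu_Ln {m : ℕ} (b : ZMod p → List G →₀ MonoidAlgebra R G) (hb : ∀ i, b i ∈ Ln κ m) :
    mu κ p tr b ∈ Ln κ m := by
  refine multi_mem κ (W := List (Pw p G) →₀ (Om p G →₀ κ)) (mu κ p tr) _ b fun t ω h => ?_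
  rw [mu_single κ p tr t ω]
  refine Finsupp.single_mem_supported _ _ ?_
  simpa [zipL] using DMu_len (hb 0) (h 0)

theorem mu_er {m : ℕ} (b : ZMod p → List G →₀ MonoidAlgebra R G) (hb : ∀ i, b i ∈ Ln κ m)
    (j : ℕ) (hj : j < m) : er κ j (mu κ p tr b) = mu κ p tr fun i => er κ j (b i) := by
  rw [← LinearMap.compMultilinearMap_apply (er κ j) (mu κ p tr) b,
    ← MultilinearMap.compLinearMap_apply (mu κ p tr) (fun _ => er κ j) b]
  refine DMu_eq _ _ b fun t ω h => ?_
  simp only [MultilinearMap.compLinearMap_apply,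
    LinearMap.compMultilinearMap_apply, er_single]
  rw [mu_single κ p tr t ω, mu_single κ p tr (fun i => (t i).eraseIdx j) ω, er_single,
    DMu_er (fun i => DMu_len (hb i) (h i)) hj]

theorem mu_sh (htr : ∀ a b, tr (a * b) = tr (b * a)) {m : ℕ}
    (b : ZMod p → List G →₀ MonoidAlgebra R G) (hb : ∀ i, b i ∈ Ln κ m) :
    ER κ p G (Wr.sh p G) (mu κ p tr b) = mu κ p tr fun i => b (i - 1) := by
  have h0 := MultilinearMap.domDomCongr_apply (trans (1 : ZMod p)).symm (mu κ p tr) b
  refine Eq.trans ?_ h0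
  rw [← LinearMap.compMultilinearMap_apply (ER κ p G (Wr.sh p G)) (mu κ p tr) b]
  refine DMu_eq _ _ b fun t ω h => ?_
  have h1 := mu_single κ p tr (fun i => t (i - 1)) (fun i => ω (i - 1))
    fun i => (b (i - 1) (t (i - 1))).coeff (ω (i - 1))
  rw [tr_oprod_shift htr fun i => (b i (t i)).coeff (ω i)] at h1
  rw [LinearMap.compMultilinearMap_apply, mu_single κ p tr t ω, DMu_ER,
    DMu_smul fun i => DMu_len (hb i) (h i), MultilinearMap.domDomCongr_apply]
  refine Eq.trans ?_ h1.symm
  have h2 : Wr.sh p G • ω = fun i => ω (i - 1) := funext fun i => by simp [Om.smul_apply]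
  rw [h2]
  simp

theorem mu_bal (htr : ∀ a b, tr (a * b) = tr (b * a)) {m : ℕ}
    (b : ZMod p → List G →₀ MonoidAlgebra R G) (hb : ∀ i, b i ∈ Ln κ m)
    (a : ZMod p → MonoidAlgebra R G) :
    (mu κ p tr fun i => La κ (a i) (b i)) - (mu κ p tr fun i => Ra κ (a (i + 1)) (b i)) ∈
      Jp (ER κ p G) fun w => w.k = 0 := by
  classical
  have h1 : (mu κ p tr fun i => Ra κ (a (i + 1)) (b i)) =
      (mu κ p tr).domDomCongr (trans (1 : ZMod p)) fun i => Ra κ (a i) (b (i - 1)) := by
    simp [trans]
  rw [h1, funext fun i => DMu_La (κ := κ) (a i) (b i),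
    funext fun i => DMu_Ra (κ := κ) (a i) (b (i - 1)), MultilinearMap.map_sum_finset,
    MultilinearMap.map_sum_finset]
  refine (Finset.sum_sub_distrib (G := List (Pw p G) →₀ (Om p G →₀ κ)) _ _).symm ▸ ?_
  refine Submodule.sum_mem _ fun g _ => ?_
  have h2 := DMu_bal1 htr b hb g fun i => (a i).coeff (g i)
  simpa [trans] using h2

theorem mu_OnO (A : Set G) (r : ZMod p → ℕ) (b : ZMod p → List G →₀ MonoidAlgebra R G)
    (hb : ∀ i t ω, (b i t).coeff ω ≠ 0 → Wd A (r i) ω) :
    mu κ p tr b ∈ OnO κ fun ω : Om p G => Wd A (∑ i, r i) (oprod p ω) := by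
  refine multi_mem κ (W := List (Pw p G) →₀ (Om p G →₀ κ)) (mu κ p tr) _ b fun t ω h => ?_
  rw [mu_single κ p tr t ω]
  refine single_mem_OnO _ ?_ _
  have h1 : ∑ i, r i = ∑ i ∈ Finset.range p, r (i : ZMod p) := by
    rw [← (posEquiv p).sum_comp r, Finset.sum_range]
    rfl
  rw [h1, DMu_oprod]
  exact DMu_Wd A _ _ (fun i => hb _ _ _ (h i)) p

end Pool.Agent.MP_f7db47_al.Cv

end

section

namespace Pool.Agent.MP_f7db47_al.Cv

variable {G : Type*} [Group G] {ι : Type*} [Fintype ι] [DecidableEq ι]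

omit [Group G] in
theorem DLift_fin {k : Type*} [CommRing k] {n : ℕ} (φ : (Fin (n + 1) → G) → ℤ)
    (a : Fin (n + 1) → Matrix ι ι (MonoidAlgebra k G)) :
    (Function.support fun t : Fin (n + 1) → G =>
      φ t • Matrix.trace (List.ofFn fun j => (a j).map fun x => x.coeff (t j)).prod).Finite := by
  classical
  refine (Fintype.piFinset fun j => Finset.univ.biUnion fun c : ι × ι =>
    (a j c.1 c.2).coeff.support).finite_toSet.subset fun t ht => ?_
  rw [Finset.mem_coe, Fintype.mem_piFinset]
  intro j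
  by_contra hj
  apply ht
  have h0 : ((a j).map fun x => x.coeff (t j)) = 0 := by
    ext r c
    by_contra h
    exact hj (Finset.mem_biUnion.2 ⟨(r, c), Finset.mem_univ _, Finsupp.mem_support_iff.2 h⟩)
  have h1 : (List.ofFn fun j => (a j).map fun x => x.coeff (t j)).prod = 0 :=
    List.prod_eq_zero (List.mem_ofFn.2 ⟨j, h0⟩)
  simp only [h1, Matrix.trace_zero, smul_zero]

omit [Group G] in
theorem DLift_tr {k k' : Type*} [CommRing k] [CommRing k'] (f : k →+* k') {n : ℕ}
    (φ : (Fin (n + 1) → G) → ℤ) (a : Fin (n + 1) → Matrix ι ι (MonoidAlgebra k G))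
    (a' : Fin (n + 1) → Matrix ι ι (MonoidAlgebra k' G))
    (h : ∀ j r c g, (a' j r c).coeff g = f ((a j r c).coeff g)) :
    trPair φ a' = f (trPair φ a) := by
  rw [trPair, trPair, map_finsum f (DLift_fin φ a)]
  refine finsum_congr fun t => ?_
  rw [map_zsmul, AddMonoidHom.map_trace, ← RingHom.mapMatrix_apply, map_list_prod, List.map_ofFn]
  congr 4
  funext j
  ext r c
  exact h j r c (t j)

omit [DecidableEq ι] [Fintype ι] in
theorem DLift_mat {k : Type*} [CommRing k] (k₀ : Subalgebra ℤ k)
    (M : Matrix ι ι (MonoidAlgebra k G)) (h : ∀ r c g, (M r c).coeff g ∈ k₀) :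
    ∃ M₀ : Matrix ι ι (MonoidAlgebra k₀ G),
      M₀.map (MonoidAlgebra.mapRingHom G k₀.val.toRingHom) = M := by
  refine ⟨fun r c => MonoidAlgebra.ofCoeff (Finsupp.onFinset (M r c).coeff.support
    (fun g => ⟨(M r c).coeff g, h r c g⟩) fun g hg => Finsupp.mem_support_iff.2 fun h0 =>
      hg (Subtype.ext h0)), ?_⟩
  ext r c g
  exact MonoidAlgebra.coeff_mapRingHom k₀.val.toRingHom _ g

theorem DLift_inj {k k' : Type*} [CommRing k] [CommRing k'] (f : k →+* k')
    (hf : Function.Injective f) :
    Function.Injective ((MonoidAlgebra.mapRingHom G f).mapMatrix (m := ι)) := by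
  intro M N h
  ext r c g
  apply hf
  rw [← MonoidAlgebra.coeff_mapRingHom, ← MonoidAlgebra.coeff_mapRingHom]
  exact congrArg (fun A : Matrix ι ι (MonoidAlgebra k' G) => (A r c).coeff g) h

theorem DLift_gl {k : Type*} [CommRing k] (k₀ : Subalgebra ℤ k) (v : GL ι (MonoidAlgebra k G))
    (h : ∀ r c g, (v.val r c).coeff g ∈ k₀) (h' : ∀ r c g, ((v⁻¹).val r c).coeff g ∈ k₀) :
    ∃ v₀ : GL ι (MonoidAlgebra k₀ G), glMap G ι k₀.val.toRingHom v₀ = v := by
  obtain ⟨M, hM⟩ := DLift_mat k₀ _ h
  obtain ⟨N, hN⟩ := DLift_mat k₀ _ h'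
  have hi := DLift_inj (G := G) (ι := ι) k₀.val.toRingHom Subtype.val_injective
  refine ⟨⟨M, N, hi ?_, hi ?_⟩, Units.ext hM⟩
  · rw [map_mul, map_one, RingHom.mapMatrix_apply, RingHom.mapMatrix_apply, hM, hN, Units.mul_inv]
  · rw [map_mul, map_one, RingHom.mapMatrix_apply, RingHom.mapMatrix_apply, hM, hN, Units.inv_mul]

omit [Group G] [DecidableEq ι] in
theorem DLift_cf {k : Type*} [CommRing k] (M : Matrix ι ι (MonoidAlgebra k G)) :
    {x : k | ∃ r c g, (M r c).coeff g = x}.Finite := by
  have : {x : k | ∃ r c g, (M r c).coeff g = x} = ⋃ r, ⋃ c, Set.range (M r c).coeff := by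
    ext x
    simp
  rw [this]
  exact Set.finite_iUnion fun r => Set.finite_iUnion fun c => Finsupp.finite_range _

theorem dennis_map {k k' : Type*} [CommRing k] [CommRing k'] (f : k →+* k') {n : ℕ}
    (φ : (Fin (n + 1) → G) → ℤ) (u : Fin n → GL ι (MonoidAlgebra k G)) :
    dennis φ (fun i => glMap G ι f (u i)) = f (dennis φ u) := by
  refine DLift_tr f φ _ _ fun j r c g => ?_
  refine Fin.cases ?_ (fun i => ?_) j
  · have h : (List.ofFn fun i => glMap G ι f (u i)).prod⁻¹ = glMap G ι f (List.ofFn u).prod⁻¹ := by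
      rw [map_inv, map_list_prod, List.map_ofFn]
      rfl
    rw [Fin.cons_zero, Fin.cons_zero, h, glMap_coeff]
  · rw [Fin.cons_succ, Fin.cons_succ, glMap_coeff]

theorem glMap_injective {k k' : Type*} [CommRing k] [CommRing k'] (f : k →+* k')
    (hf : Function.Injective f) : Function.Injective (glMap G ι f) := by
  intro u v h
  exact Units.ext (DLift_inj f hf (congrArg Units.val h))

theorem exists_lift {k : Type*} [CommRing k] {n : ℕ}
    (z : (Fin n → GL ι (MonoidAlgebra k G)) →₀ ℤ) :
    ∃ (k₀ : Subalgebra ℤ k) (_ : Algebra.FiniteType ℤ k₀)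
      (z₀ : (Fin n → GL ι (MonoidAlgebra k₀ G)) →₀ ℤ),
      z = Finsupp.mapDomain (fun u i => glMap G ι k₀.val.toRingHom (u i)) z₀ := by
  classical
  let S : Set k := ⋃ u ∈ (z.support : Set (Fin n → GL ι (MonoidAlgebra k G))), ⋃ i,
    ({x : k | ∃ r c g, ((u i).val r c).coeff g = x} ∪
      {x : k | ∃ r c g, (((u i)⁻¹).val r c).coeff g = x})
  have hS : S.Finite := z.support.finite_toSet.biUnion fun u _ => Set.finite_iUnion fun i =>
    (DLift_cf _).union (DLift_cf _)
  have key : ∀ u : Fin n → GL ι (MonoidAlgebra k G),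
      ∃ u₀ : Fin n → GL ι (MonoidAlgebra (Algebra.adjoin ℤ S) G), u ∈ z.support →
        (fun i => glMap G ι (Algebra.adjoin ℤ S).val.toRingHom (u₀ i)) = u := by
    intro u
    by_cases hu : u ∈ z.support
    · have h1 : ∀ i, ∃ v₀ : GL ι (MonoidAlgebra (Algebra.adjoin ℤ S) G),
          glMap G ι (Algebra.adjoin ℤ S).val.toRingHom v₀ = u i := fun i =>
        DLift_gl _ (u i)
          (fun r c g => Algebra.subset_adjoin
            (Set.mem_biUnion hu (Set.mem_iUnion.2 ⟨i, Or.inl ⟨r, c, g, rfl⟩⟩)))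
          fun r c g => Algebra.subset_adjoin
            (Set.mem_biUnion hu (Set.mem_iUnion.2 ⟨i, Or.inr ⟨r, c, g, rfl⟩⟩))
      choose u₀ h₀ using h1
      exact ⟨u₀, fun _ => funext h₀⟩
    · exact ⟨fun _ => 1, fun h => absurd h hu⟩
  choose L hL using key
  refine ⟨Algebra.adjoin ℤ S, Algebra.FiniteType.adjoin_of_finite hS, Finsupp.mapDomain L z, ?_⟩
  rw [← Finsupp.mapDomain_comp]
  exact ((Finsupp.mapDomain_congr (g := id) hL).trans Finsupp.mapDomain_id).symm

end Pool.Agent.MP_f7db47_al.Cv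

end
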