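import Pool.Agent.Mg.Ff7db47a.G7e969c
import Pool.Agent.Mg.Ff7db47a.G5b1285
import Mathlib

section

namespace Pool.Agent.MP_f7db47_al.Cv

variable {κ : Type*} [CommRing κ] {R : Type*} [Ring R] [Algebra κ R] {G : Type*} [Group G]

theorem La_one (z : List G →₀ MonoidAlgebra R G) : La κ 1 z = z := by
  induction z using Finsupp.induction_linear with
  | zero => simp
  | add x y hx hy => rw [map_add, hx, hy]
  | single t b =>
    have h := La_single κ (1 : G) (1 : R) t b
    rwa [← MonoidAlgebra.one_def, one_smul, one_mul] at h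

theorem La_mul (a b : MonoidAlgebra R G) (z : List G →₀ MonoidAlgebra R G) :
    La κ (a * b) z = La κ a (La κ b z) := by
  induction a using MonoidAlgebra.induction_linear with
  | zero => simp
  | add x y hx hy => rw [add_mul, La_add, La_add, LinearMap.add_apply, LinearMap.add_apply, hx, hy]
  | single g M =>
    induction b using MonoidAlgebra.induction_linear with
    | zero => simp
    | add x y hx hy =>
      rw [mul_add, La_add, La_add, LinearMap.add_apply, LinearMap.add_apply, hx, hy, map_add]
    | single h N =>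
      induction z using Finsupp.induction_linear with
      | zero => simp
      | add x y hx hy => rw [map_add, map_add, map_add, hx, hy]
      | single t c =>
        rw [MonoidAlgebra.single_mul_single, La_single, La_single, La_single, mul_smul,
          ← mul_assoc, MonoidAlgebra.single_mul_single]

theorem Ra_one (z : List G →₀ MonoidAlgebra R G) : Ra κ 1 z = z := by
  induction z using Finsupp.induction_linear with
  | zero => simp
  | add x y hx hy => rw [map_add, hx, hy]
  | single t b => rw [Ra_single, mul_one]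

theorem Ra_mul (a b : MonoidAlgebra R G) (z : List G →₀ MonoidAlgebra R G) :
    Ra κ (a * b) z = Ra κ b (Ra κ a z) := by
  induction z using Finsupp.induction_linear with
  | zero => simp
  | add x y hx hy => rw [map_add, map_add, map_add, hx, hy]
  | single t c => rw [Ra_single, Ra_single, Ra_single, mul_assoc]

theorem La_Ra (a b : MonoidAlgebra R G) (z : List G →₀ MonoidAlgebra R G) :
    La κ a (Ra κ b z) = Ra κ b (La κ a z) := by
  induction a using MonoidAlgebra.induction_linear with
  | zero => simp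
  | add x y hx hy => rw [La_add, LinearMap.add_apply, LinearMap.add_apply, hx, hy, map_add]
  | single g M =>
    induction z using Finsupp.induction_linear with
    | zero => simp
    | add x y hx hy => rw [map_add, map_add, map_add, map_add, hx, hy]
    | single t c => rw [Ra_single, La_single, La_single, Ra_single, mul_assoc]

theorem La_nil (a b : MonoidAlgebra R G) :
    La κ a (Finsupp.single [] b) = Finsupp.single [] (a * b) := by
  induction a using MonoidAlgebra.induction_linear with
  | zero => simp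
  | add x y hx hy => rw [La_add, LinearMap.add_apply, hx, hy, add_mul, Finsupp.single_add]
  | single g M => rw [La_single, smul_nil]

theorem La_Ln (a : MonoidAlgebra R G) {m : ℕ} {z : List G →₀ MonoidAlgebra R G}
    (hz : z ∈ Ln κ m) : La κ a z ∈ Ln κ m := by
  induction a using MonoidAlgebra.induction_linear with
  | zero => simp
  | add x y hx hy =>
    rw [La_add, LinearMap.add_apply]
    exact add_mem hx hy
  | single g M =>
    refine map_supported (fun l hl v => ?_) hz
    rw [La_single]
    exact Finsupp.single_mem_supported _ _ ((length_smul g l).trans hl)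

theorem Ra_Ln (a : MonoidAlgebra R G) {m : ℕ} {z : List G →₀ MonoidAlgebra R G}
    (hz : z ∈ Ln κ m) : Ra κ a z ∈ Ln κ m :=
  Em_mem_supported _ hz

theorem DQ_cons_Ln (s : G) {m : ℕ} {z : List G →₀ MonoidAlgebra R G} (hz : z ∈ Ln κ m) :
    cons κ _ s z ∈ Ln κ (m + 1) := by
  refine map_supported (fun l hl v => ?_) hz
  rw [cons_single]
  exact Finsupp.single_mem_supported _ _ (congrArg (· + 1) hl)

theorem QQ_Ln (l : List (MonoidAlgebra R G)ˣ) : QQ κ l ∈ Ln κ l.length := by
  induction l with
  | nil => exact Finsupp.single_mem_supported _ _ rfl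
  | cons u l ih => exact La_Ln _ (DQ_cons_Ln _ (La_Ln _ ih))

theorem DQ_er_La (j : ℕ) (a : MonoidAlgebra R G) (z : List G →₀ MonoidAlgebra R G) :
    er κ j (La κ a z) = La κ a (er κ j z) := by
  induction a using MonoidAlgebra.induction_linear with
  | zero => simp
  | add x y hx hy => rw [La_add, LinearMap.add_apply, LinearMap.add_apply, map_add, hx, hy]
  | single g M =>
    induction z using Finsupp.induction_linear with
    | zero => simp
    | add x y hx hy => rw [map_add, map_add, map_add, map_add, hx, hy]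
    | single t c =>
      rw [La_single, er_single, er_single, La_single, smul_list, smul_list, List.eraseIdx_map]

theorem DQ_er_zero (s : G) (z : List G →₀ MonoidAlgebra R G) : er κ 0 (cons κ _ s z) = z := by
  induction z using Finsupp.induction_linear with
  | zero => simp
  | add x y hx hy => rw [map_add, map_add, hx, hy]
  | single t c => rw [cons_single, er_single, List.eraseIdx_cons_zero]

theorem DQ_er_succ (j : ℕ) (s : G) (z : List G →₀ MonoidAlgebra R G) :
    er κ (j + 1) (cons κ _ s z) = cons κ _ s (er κ j z) := by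
  induction z using Finsupp.induction_linear with
  | zero => simp
  | add x y hx hy => rw [map_add, map_add, map_add, map_add, hx, hy]
  | single t c => rw [cons_single, er_single, er_single, cons_single, List.eraseIdx_cons_succ]

theorem DQ_Ra_cons (a : MonoidAlgebra R G) (s : G) (z : List G →₀ MonoidAlgebra R G) :
    Ra κ a (cons κ _ s z) = cons κ _ s (Ra κ a z) := Em_cons _ s z

theorem DQ_La_La (u : (MonoidAlgebra R G)ˣ) (z : List G →₀ MonoidAlgebra R G) :
    La κ u.val (La κ (u⁻¹).val z) = z := by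
  rw [← La_mul, Units.mul_inv, La_one]

theorem DQ_La_La' (u : (MonoidAlgebra R G)ˣ) (z : List G →₀ MonoidAlgebra R G) :
    La κ (u⁻¹).val (La κ u.val z) = z := by
  rw [← La_mul, Units.inv_mul, La_one]

theorem QQ_er (l : List (MonoidAlgebra R G)ˣ) (j : ℕ) (hj : j < l.length) :
    er κ j (QQ κ l) = QQ κ (l.eraseIdx j) := by
  induction l generalizing j with
  | nil => simp at hj
  | cons u l ih =>
    rcases j with _ | j
    · rw [QQ, DQ_er_La, DQ_er_zero, DQ_La_La, List.eraseIdx_cons_zero]
    · rw [QQ, DQ_er_La, DQ_er_succ, DQ_er_La, ih j (by simpa using hj), List.eraseIdx_cons_succ, QQ]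

theorem QQ_smul (u : (MonoidAlgebra R G)ˣ) (l : List (MonoidAlgebra R G)ˣ) :
    QQ κ (u • l) = La κ u.val (Ra κ (u⁻¹).val (QQ κ l)) := by
  induction l with
  | nil => rw [smul_nil, QQ, Ra_single, La_nil, one_mul, Units.mul_inv]
  | cons v l ih =>
    rw [smul_cons, smul_eq_mul, QQ, QQ, ih, mul_inv_rev, Units.val_mul, Units.val_mul, La_mul,
      La_mul, DQ_La_La', ← La_Ra, DQ_Ra_cons, ← La_Ra]

/-- Chains all of whose coefficients are supported on elements satisfying `P`. -/
def DQ_S (R : Type*) [Ring R] (P : G → Prop) : AddSubmonoid (List G →₀ MonoidAlgebra R G) where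
  carrier := {z | ∀ t ω, (z t).coeff ω ≠ 0 → P ω}
  zero_mem' := fun t ω h => by simp at h
  add_mem' := fun {x y} hx hy t ω h => by
    by_cases h1 : (x t).coeff ω = 0
    · refine hy t ω fun h2 => h ?_
      simp [h1, h2]
    · exact hx t ω h1

theorem DQ_single {P : G → Prop} (t : List G) {b : MonoidAlgebra R G}
    (h : ∀ ω, b.coeff ω ≠ 0 → P ω) : Finsupp.single t b ∈ DQ_S R P := by
  classical
  intro t' ω h1
  rw [Finsupp.single_apply] at h1
  split_ifs at h1
  · exact h ω h1
  · simp at h1

theorem DQ_single' {P : G → Prop} (t : List G) {ω : G} (h : P ω) (M : R) :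
    Finsupp.single t (MonoidAlgebra.single ω M) ∈ DQ_S R P := by
  refine DQ_single t fun ω' h1 => ?_
  rw [MonoidAlgebra.coeff_single] at h1
  rw [(Finsupp.single_apply_ne_zero.1 h1).1]
  exact h

theorem DQ_le {P Q : G → Prop}
    {f : (List G →₀ MonoidAlgebra R G) →ₗ[κ] (List G →₀ MonoidAlgebra R G)}
    (h : ∀ t ω M, P ω → f (Finsupp.single t (MonoidAlgebra.single ω M)) ∈ DQ_S R Q)
    {z : List G →₀ MonoidAlgebra R G} (hz : z ∈ DQ_S R P) : f z ∈ DQ_S R Q := by
  rw [eq_sum_pairs z, map_sum]
  refine sum_mem fun x hx => h _ _ _ (hz x.1 x.2 ?_)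
  exact Finsupp.mem_support_iff.1 (Finset.mem_sigma.1 hx).2

theorem DQ_cons {P : G → Prop} (s : G) {z : List G →₀ MonoidAlgebra R G} (hz : z ∈ DQ_S R P) :
    cons κ _ s z ∈ DQ_S R P :=
  DQ_le (fun t ω M h => by rw [cons_single]; exact DQ_single' _ h M) hz

theorem DQ_La {P Q : G → Prop} (a : MonoidAlgebra R G)
    (h : ∀ c ω, a.coeff c ≠ 0 → P ω → Q (c * ω)) {z : List G →₀ MonoidAlgebra R G}
    (hz : z ∈ DQ_S R P) : La κ a z ∈ DQ_S R Q := by
  refine DQ_le (fun t ω M hω => ?_) hz
  rw [La, Finsupp.sum, LinearMap.sum_apply]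
  refine sum_mem fun c hc => ?_
  rw [LinearMap.comp_apply, Finsupp.lmapDomain_apply, Finsupp.mapDomain_single, Em_single,
    LinearMap.mulLeft_apply, MonoidAlgebra.single_mul_single]
  exact DQ_single' _ (h c ω (Finsupp.mem_support_iff.1 hc) hω) _

theorem DQ_wd_mul {A : Set G} {r s : ℕ} {x y : G} (hx : Wd A r x) (hy : Wd A s y) :
    Wd A (r + s) (x * y) := by
  obtain ⟨l, h1, h2, rfl⟩ := hx
  obtain ⟨l', h3, h4, rfl⟩ := hy
  refine ⟨l ++ l', fun z hz => (List.mem_append.1 hz).elim (h1 z) (h3 z), ?_, List.prod_append⟩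
  rw [List.length_append]
  omega

theorem DQ_wd {E : Set (MonoidAlgebra R G)ˣ} {A : Set G}
    (hA : ∀ a ∈ E, ∀ b ∈ E, ∀ c, (a⁻¹ * b).val.coeff c ≠ 0 → c ∈ A)
    {a b : (MonoidAlgebra R G)ˣ} [Decidable (a = b)] (ha : a ∈ E) (hb : b ∈ E) {c : G}
    (h : (a⁻¹ * b).val.coeff c ≠ 0) : Wd A (if a = b then 0 else 1) c := by
  split_ifs with h1
  · rw [h1, inv_mul_cancel, Units.val_one, MonoidAlgebra.one_def, MonoidAlgebra.coeff_single] at h
    exact ⟨[], by simp, le_rfl, (Finsupp.single_apply_ne_zero.1 h).1.symm⟩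
  · exact ⟨[c], by simpa using hA a ha b hb c h, le_rfl, by simp⟩

theorem QQ_supp {E : Set (MonoidAlgebra R G)ˣ} {A : Set G}
    (hA : ∀ a ∈ E, ∀ b ∈ E, ∀ c, (a⁻¹ * b).val.coeff c ≠ 0 → c ∈ A)
    (u : (MonoidAlgebra R G)ˣ) (l : List (MonoidAlgebra R G)ˣ) (v : (MonoidAlgebra R G)ˣ)
    (hl : ∀ x ∈ u :: l, x ∈ E) (hv : v ∈ E) (t : List G) (ω : G)
    (h : (La κ (u⁻¹).val (Ra κ v.val (QQ κ (u :: l))) t).coeff ω ≠ 0) :
    Wd A (jmp (u :: l ++ [v])) ω := by
  suffices H : La κ (u⁻¹).val (Ra κ v.val (QQ κ (u :: l))) ∈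
      DQ_S R (Wd A (jmp (u :: l ++ [v]))) from H t ω h
  clear h
  induction l generalizing u with
  | nil =>
    rw [QQ, ← La_Ra, DQ_La_La', DQ_Ra_cons, ← La_Ra, QQ, Ra_single, La_nil, one_mul,
      ← Units.val_mul]
    refine DQ_cons _ (DQ_single _ fun c hc => ?_)
    exact @DQ_wd R _ G _ E A hA u v (Classical.propDecidable _) (hl u (by simp)) hv c hc
  | cons u' l ih =>
    have h1 := ih u' fun x hx => hl x (List.mem_cons_of_mem _ hx)
    rw [QQ, ← La_Ra, DQ_La_La', DQ_Ra_cons, ← La_Ra,
      ← DQ_La_La (κ := κ) u' (Ra κ v.val (QQ κ (u' :: l))), ← La_mul, ← Units.val_mul]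
    refine DQ_cons _ (DQ_La _ (fun c ω hc hω => ?_) h1)
    exact DQ_wd_mul (@DQ_wd R _ G _ E A hA u u' (Classical.propDecidable _) (hl u (by simp))
      (hl u' (by simp)) c hc) hω

end Pool.Agent.MP_f7db47_al.Cv

end

section

namespace Pool.Agent.MP_f7db47_al.Cv

/-- The sum over the words of length `n` with letters in `S`. -/
def TauSm {G M : Type*} [AddCommGroup M] (S : Finset G) : ℕ → (List G → M) → M
  | 0, F => F []
  | n + 1, F => ∑ g ∈ S, TauSm S n fun l => F (g :: l)

section
variable {G M M' : Type*} [AddCommGroup M] [AddCommGroup M'] (S : Finset G)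

theorem Tau_map {Φ : Type*} [FunLike Φ M M'] [AddMonoidHomClass Φ M M'] (f : Φ) (n : ℕ)
    (F : List G → M) : f (TauSm S n F) = TauSm S n fun l => f (F l) := by
  induction n generalizing F with
  | zero => rfl
  | succ n ih => simp only [TauSm, map_sum, ih]

theorem Tau_add (n m : ℕ) (F : List G → M) :
    TauSm S (n + m) F = TauSm S n fun l => TauSm S m fun l' => F (l ++ l') := by
  induction n generalizing F with
  | zero => simp [TauSm]
  | succ n ih => rw [Nat.succ_add]; simp only [TauSm, ih, List.cons_append]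

theorem Tau_sum (n : ℕ) (F : G → List G → M) :
    TauSm S n (fun l => ∑ g ∈ S, F g l) = ∑ g ∈ S, TauSm S n (F g) := by
  induction n generalizing F with
  | zero => rfl
  | succ n ih =>
    simp only [TauSm]
    rw [Finset.sum_comm]
    exact Finset.sum_congr rfl fun a _ => ih fun g l => F g (a :: l)

theorem Tau_sub (B : AddSubgroup M) (n : ℕ) {F F' : List G → M}
    (h : ∀ l, l.length = n → F l - F' l ∈ B) : TauSm S n F - TauSm S n F' ∈ B := by
  induction n generalizing F F' with
  | zero => exact h [] rfl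
  | succ n ih =>
    simp only [TauSm, ← Finset.sum_sub_distrib]
    exact sum_mem fun g _ => ih fun l hl => h _ (congrArg (· + 1) hl)

theorem Tau_congr (n : ℕ) {F F' : List G → M} (h : ∀ l, l.length = n → F l = F' l) :
    TauSm S n F = TauSm S n F' :=
  sub_eq_zero.1 (AddSubgroup.mem_bot.1 (Tau_sub S ⊥ n fun l hl => by simp [h l hl]))

theorem Tau_mem (B : AddSubgroup M) (n : ℕ) {F : List G → M}
    (h : ∀ l, l.length = n → F l ∈ B) : TauSm S n F ∈ B := by
  induction n generalizing F with
  | zero => exact h [] rfl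
  | succ n ih => exact sum_mem fun g _ => ih fun l hl => h _ (congrArg (· + 1) hl)

theorem Tau_pow {R : Type*} [Ring R] (f : G → R) (n : ℕ) :
    TauSm S n (fun l => (l.map f).prod) = (∑ g ∈ S, f g) ^ n := by
  induction n with
  | zero => simp [TauSm]
  | succ n ih =>
    rw [pow_succ', Finset.sum_mul, ← ih]
    exact Finset.sum_congr rfl fun g _ => (Tau_map S (AddMonoidHom.mulLeft (f g)) n _).symm

end

section
variable {p : ℕ} {G : Type*} [Group G]

/-- The cyclic word of a list. -/
def TauW (p : ℕ) (l : List G) : Om p G := fun i => l.getD i.val 1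

theorem Tau_shift {n : ℕ} (l : List G) (hl : l.length = n) (g : G) :
    Wr.sh (n + 1) G • TauW (n + 1) (l ++ [g]) = TauW (n + 1) (g :: l) := by
  funext i
  rw [Om.smul_apply]
  simp only [Wr.sh_x, Wr.sh_k, one_mul, inv_one, mul_one, TauW]
  obtain ⟨m, hm, rfl⟩ : ∃ m < n + 1, i = (m : ℕ) := ⟨i.val, ZMod.val_lt i, by simp⟩
  rw [ZMod.val_cast_of_lt hm]
  cases m with
  | zero =>
    rw [show ((0 : ℕ) : ZMod (n + 1)) - 1 = (n : ℕ) by
      rw [sub_eq_iff_eq_add, ← Nat.cast_succ, ZMod.natCast_self, Nat.cast_zero],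
      ZMod.val_cast_of_lt (Nat.lt_succ_self n), ← hl]
    simp
  | succ m =>
    rw [Nat.cast_succ, add_sub_cancel_right, ZMod.val_cast_of_lt (by omega), List.getD_cons_succ,
      List.getD_append _ _ _ _ (by omega)]

theorem Tau_cst [NeZero p] (l : List G) (hl : l.length = p) (c : G) :
    TauW p l = Om.cst p c ↔ ∀ g ∈ l, g = c := by
  refine ⟨fun h g hg => ?_, fun h => funext fun i => ?_⟩
  · obtain ⟨m, hm, rfl⟩ := List.getElem_of_mem hg
    have := congrFun h (m : ℕ)
    rwa [TauW, ZMod.val_cast_of_lt (hl ▸ hm), List.getD_eq_getElem _ _ hm] at this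
  · have hi : i.val < l.length := hl ▸ ZMod.val_lt i
    rw [TauW, List.getD_eq_getElem _ _ hi]
    exact h _ (List.getElem_mem hi)

/-- The normal form of a word. -/
def TauN (p : ℕ) (l' : List G) (c : G) : Om p G :=
  fun j => if j.val < l'.length then l'.getD j.val 1 else if j.val + 1 < p then 1 else c

theorem Tau_merge [Fact p.Prime] (l' l : List G) (hl : l'.length + l.length = p)
    (h1 : 1 ≤ l.length) : ∃ x : Wr p G, WU (Win l.length (l'.length : ZMod p)) x ∧
      x • TauW p (l' ++ l) = TauN p l' l.prod := by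
  refine ⟨⟨fun j => (l.take (j.val - l'.length)).prod, 0⟩, ⟨rfl, fun j hj => ?_⟩,
    funext fun j => ?_⟩
  · have := ZMod.val_lt j
    by_cases h : l'.length < j.val
    · refine absurd ⟨j.val - l'.length, by omega, by omega, ?_⟩ hj
      rw [← Nat.cast_add, Nat.add_sub_cancel' h.le, ZMod.natCast_zmod_val]
    · simp only [show j.val - l'.length = 0 by omega, List.take_zero, List.prod_nil]
  · have hj := ZMod.val_lt j
    rw [Om.smul_apply]
    simp only [sub_zero, TauW, TauN]
    rw [ZMod.val_add, ZMod.val_one]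
    split_ifs with h h'
    · rw [Nat.mod_eq_of_lt (by omega), show j.val - l'.length = 0 by omega,
        show j.val + 1 - l'.length = 0 by omega, List.getD_append _ _ _ _ h]
      simp
    · rw [Nat.mod_eq_of_lt h', List.getD_append_right _ _ _ _ (by omega),
        List.getD_eq_getElem _ _ (by omega), ← List.prod_take_succ,
        show j.val + 1 - l'.length = j.val - l'.length + 1 by omega, mul_inv_cancel]
    · rw [show j.val + 1 = p by omega, Nat.mod_self, List.getD_append_right _ _ _ _ (by omega),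
        List.getD_eq_getElem _ _ (by omega), ← List.prod_take_succ,
        List.take_of_length_le (by omega)]
      simp

theorem Tau_conj {κ : Type*} [CommRing κ] {N : ℕ} {i : ZMod p} {z : Om p G →₀ κ}
    (hz : z ∈ Jp (OmR κ p G) (WU (Win N i))) :
    OmR κ p G (Wr.sh p G) z ∈ Jp (OmR κ p G) (WU (Win N (i + 1))) := by
  refine Jp_le (fun g v hg => ?_) hz
  have : OmR κ p G (Wr.sh p G) (OmR κ p G g v) =
      OmR κ p G (Wr.sh p G * g * (Wr.sh p G)⁻¹) (OmR κ p G (Wr.sh p G) v) := by
    rw [← Module.End.mul_apply, ← Module.End.mul_apply, ← map_mul, ← map_mul,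
      inv_mul_cancel_right]
  rw [this]
  refine mem_Jp _ ⟨by simp [hg.1], fun j hj => ?_⟩ _
  have := hg.2 (j - 1) fun ⟨m, h1, h2, h3⟩ => hj ⟨m, h1, h2, by linear_combination h3⟩
  simp [this]

theorem Tau_single {A : Type*} [Ring A] (f : G → A) (l : List G) :
    (l.map fun g => MonoidAlgebra.single g (f g)).prod =
      MonoidAlgebra.single l.prod (l.map f).prod := by
  induction l with
  | nil => rfl
  | cons g l ih => simp [ih, MonoidAlgebra.single_mul_single]

omit [Group G] in
theorem Tau_ite {A : Type*} [Ring A] [DecidableEq G] (f : G → A) (c : G) (l : List G) :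
    (l.map fun g => if g = c then f g else 0).prod =
      if ∀ g ∈ l, g = c then (l.map f).prod else 0 := by
  induction l with
  | nil => simp
  | cons g l ih =>
    rw [List.map_cons, List.prod_cons, ih]
    by_cases h : g = c <;> simp [h]

end

theorem exists_tau {p : ℕ} [Fact p.Prime] {G : Type*} [Group G] {ι : Type} [Fintype ι]
    [DecidableEq ι] (ν : MonoidAlgebra (Matrix ι ι (ZMod p)) G) (N : ℕ) (hN : 1 ≤ N)
    (hp : N ≤ p) (hν : ν ^ N = 0) :
    ∃ τ : Om p G →₀ ZMod p, OmR (ZMod p) p G (Wr.sh p G) τ = τ ∧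
      (∀ c : G, τ (Om.cst p c) = Matrix.trace (ν.coeff c)) ∧
      ∀ i : ZMod p, τ ∈ Jp (OmR (ZMod p) p G) (WU (Win N i)) := by
  classical
  have hρ : ∀ (x : Wr p G) (w : Om p G) (t : ZMod p),
      OmR (ZMod p) p G x (Finsupp.single w t) = Finsupp.single (x • w) t := fun x w t =>
    pr_single _ x w t
  set S := ν.coeff.support
  set τ : Om p G →₀ ZMod p := TauSm S p fun l =>
    Finsupp.single (TauW p l) (Matrix.trace (l.map ν.coeff).prod) with hτ
  have h1 : OmR (ZMod p) p G (Wr.sh p G) τ = τ := by
    obtain ⟨n, rfl⟩ : ∃ n, p = n + 1 :=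
      Nat.exists_eq_succ_of_ne_zero (Fact.out : p.Prime).ne_zero
    conv_lhs => rw [hτ, Tau_map, Tau_add]
    rw [hτ]
    simp only [TauSm]
    rw [Tau_sum]
    refine Finset.sum_congr rfl fun g _ => Tau_congr S n fun l hl => ?_
    rw [hρ, Tau_shift l hl, List.map_append, List.prod_append, Matrix.trace_mul_comm]
    simp
  have h2 : τ ∈ Jp (OmR (ZMod p) p G) (WU (Win N ((p - N : ℕ) : ZMod p))) := by
    rw [hτ]
    conv => enter [2, 2]; rw [← Nat.sub_add_cancel hp]
    rw [Tau_add]
    refine Tau_mem S (Jp _ _).toAddSubgroup _ fun l' hl' => ?_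
    let Λ : MonoidAlgebra (Matrix ι ι (ZMod p)) G →+ (Om p G →₀ ZMod p) :=
      (Finsupp.liftAddHom fun c => (Finsupp.singleAddHom (TauN p l' c)).comp
        ((Matrix.traceAddMonoidHom ι (ZMod p)).comp
          (AddMonoidHom.mulLeft (l'.map ν.coeff).prod))).comp
        MonoidAlgebra.coeffAddEquiv.toAddMonoidHom
    have hΛ : ∀ c a, Λ (MonoidAlgebra.single c a) =
        Finsupp.single (TauN p l' c) (Matrix.trace ((l'.map ν.coeff).prod * a)) := fun c a =>
      Finsupp.liftAddHom_apply_single _ c a
    have h0 := Tau_pow S (fun g => MonoidAlgebra.single g (ν.coeff g)) N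
    rw [show ∑ g ∈ S, MonoidAlgebra.single g (ν.coeff g) = ν from ν.sum_coeff_single, hν] at h0
    have h3 := Tau_map S Λ N fun l => (l.map fun g => MonoidAlgebra.single g (ν.coeff g)).prod
    rw [h0, map_zero] at h3
    rw [← neg_mem_iff, ← zero_sub, h3]
    refine Tau_sub S _ N fun l hl => ?_
    obtain ⟨x, hx, e⟩ := Tau_merge (p := p) l' l (by omega) (by omega)
    rw [Tau_single, hΛ, ← e, ← hρ, List.map_append, List.prod_append]
    rw [hl, hl'] at hx
    exact mem_Jp _ hx _
  refine ⟨τ, h1, fun c => ?_, fun i => ?_⟩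
  · have h0 := Tau_pow S (fun g => if g = c then ν.coeff g else 0) p
    rw [Finset.sum_ite_eq', show (if c ∈ S then ν.coeff c else 0) = ν.coeff c by
      split_ifs with h
      · rfl
      · exact (Finsupp.notMem_support_iff.1 h).symm] at h0
    rw [← ZMod.pow_card (Matrix.trace _), ← ZMod.trace_pow_card, ← h0]
    refine (Tau_map S (Finsupp.applyAddHom (M := ZMod p) (Om.cst p c)) p _).trans
      ((Tau_congr S p fun l hl => ?_).trans
        (Tau_map S (Matrix.traceAddMonoidHom ι (ZMod p)) p _).symm)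
    rw [Finsupp.applyAddHom_apply, Finsupp.single_apply, Tau_ite, Tau_cst l hl]
    split_ifs
    · rfl
    · exact (map_zero _).symm
  · have h3 : ∀ k : ℕ, τ ∈ Jp (OmR (ZMod p) p G) (WU (Win N (((p - N : ℕ) : ZMod p) + k))) := by
      intro k
      induction k with
      | zero => simpa using h2
      | succ k ih =>
        rw [← h1, Nat.cast_succ, ← add_assoc]
        exact Tau_conj ih
    have := h3 (i - (p - N : ℕ)).val
    rwa [ZMod.natCast_zmod_val, add_sub_cancel] at this

end Pool.Agent.MP_f7db47_al.Cv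

end

section

/-! Definitions used in the statement about Nil groups and curves. -/

namespace Pool.Agent.MP_f7db47_al.Cv

/-- For every `g` of infinite order the mod `p` cohomological dimension of the centraliser of
`g ^ p` is small compared with `p`, for suitable primes `p`. -/
def SmallCent (H : Type) [Group H] : Prop :=
  ∀ g : H, ¬ IsOfFinOrder g → ∀ N : ℕ, ∃ p D : ℕ, p.Prime ∧ N * (D + 1) ≤ p ∧
    CategoryTheory.HasProjectiveDimensionLE
      (Rep.trivial (ZMod p) (Subgroup.centralizer ({g ^ p} : Set H)) (ZMod p)) D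

/-- Products of elementary matrices. -/
def Elem (ι : Type) [Fintype ι] [DecidableEq ι] (R : Type*) [Ring R] :
    Submonoid (Matrix ι ι R) :=
  Submonoid.closure {M | ∃ (i j : ι) (c : R), i ≠ j ∧ M = 1 + Matrix.single i j c}

end Pool.Agent.MP_f7db47_al.Cv

end

section

/-! Class sums, logarithmic derivatives and the subgroup generated by `(1+ab)(1+ba)⁻¹`. -/

namespace Pool.Agent.MP_f7db47_al.Cv

section csum
variable {A B : Type*} [Ring A] [Ring B] {G : Type*}

open Classical in
/-- The sum of the coefficients at the elements that satisfy `P`. -/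
noncomputable def csum (P : G → Prop) : MonoidAlgebra A G →+ A where
  toFun x := x.coeff.sum fun c a => if P c then a else 0
  map_zero' := by simp
  map_add' x y := by
    rw [MonoidAlgebra.coeff_add, Finsupp.sum_add_index']
    · simp
    · intro c a b
      split_ifs <;> simp

open Classical in
theorem csum_apply (P : G → Prop) (x : MonoidAlgebra A G) :
    csum P x = x.coeff.sum fun c a => if P c then a else 0 := rfl

open Classical in
theorem csum_single (P : G → Prop) (c : G) (a : A) :
    csum P (MonoidAlgebra.single c a) = if P c then a else 0 := by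
  rw [csum_apply, MonoidAlgebra.coeff_single, Finsupp.sum_single_index]
  simp

theorem csum_map (P : G → Prop) (f : A →+ B) (x : MonoidAlgebra A G) :
    csum P (MonoidAlgebra.map f x) = f (csum P x) := by
  classical
  rw [csum_apply, csum_apply, MonoidAlgebra.coeff_map, Finsupp.sum_mapRange_index (by simp),
    map_finsuppSum]
  refine Finsupp.sum_congr fun c _ => ?_
  split_ifs <;> simp

/-- The sum of the coefficients over the conjugacy class of `g`. -/
noncomputable def cs [Group G] (g : G) : MonoidAlgebra A G →+ A := csum fun c => IsConj c g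

end csum

/-- The class sums of the trace of nilpotent elements vanish. -/
def TT (k : Type*) [CommRing k] {G : Type*} [Group G] (g : G) : Prop :=
  ∀ (ι : Type) [Fintype ι] [DecidableEq ι] (ν : MonoidAlgebra (Matrix ι ι k) G),
    IsNilpotent ν → Matrix.trace (cs g ν) = 0

/-- The subgroup generated by the elements `(1 + a b) (1 + b a)⁻¹`. -/
def VW (B : Type*) [Ring B] : Subgroup Bˣ :=
  Subgroup.closure {u | ∃ (v w : Bˣ) (a b : B),
    (v : B) = 1 + a * b ∧ (w : B) = 1 + b * a ∧ u = v * w⁻¹}

theorem VW_map {B B' : Type*} [Ring B] [Ring B'] (f : B →+* B') {u : Bˣ} (hu : u ∈ VW B) :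
    Units.map (f : B →* B') u ∈ VW B' := by
  have : VW B ≤ (VW B').comap (Units.map (f : B →* B')) := by
    refine (Subgroup.closure_le _).2 ?_
    rintro _ ⟨v, w, a, b, hv, hw, rfl⟩
    refine Subgroup.subset_closure ⟨Units.map (f : B →* B') v, Units.map (f : B →* B') w,
      f a, f b, ?_, ?_, by simp⟩
    · simp [hv]
    · simp [hw]
  exact this hu

/-- The Euler derivation on power series. -/
noncomputable def eul {R : Type*} [Ring R] (f : PowerSeries R) : PowerSeries R :=
  PowerSeries.mk fun n => n • PowerSeries.coeff n f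

/-- The logarithmic derivative of an invertible matrix of power series, read through `φ`. -/
noncomputable def ell {R Q : Type*} [Ring R] [AddCommGroup Q] (φ : R →+ Q) {ι : Type} [Fintype ι]
    [DecidableEq ι] (u : (Matrix ι ι (PowerSeries R))ˣ) : ℕ → Q := fun n =>
  φ (PowerSeries.coeff n (Matrix.trace
    ((↑u⁻¹ : Matrix ι ι (PowerSeries R)) * (u : Matrix ι ι (PowerSeries R)).map eul)))

end Pool.Agent.MP_f7db47_al.Cv

end

section

namespace Pool.Agent.MP_f7db47_al.Cv

/-- The product of the first `n` letters of a word. -/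
def Tors_P {p : ℕ} {G : Type*} [Group G] (w : Om p G) : ℕ → G
  | 0 => 1
  | n + 1 => Tors_P w n * w (n : ZMod p)

theorem Tors_P_base {p : ℕ} {G : Type*} [Group G] (a : Wr p G) (ha : a.k = 0) (w : Om p G)
    (n : ℕ) : Tors_P (a • w) n = a.x 0 * Tors_P w n * (a.x (n : ZMod p))⁻¹ := by
  induction n with
  | zero => simp [Tors_P]
  | succ n ih =>
    rw [Tors_P, Tors_P, ih, Om.smul_apply, ha, sub_zero, Nat.cast_succ]
    group

theorem Tors_sh_apply {p : ℕ} {G : Type*} [Group G] (w : Om p G) (i : ZMod p) :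
    (Wr.sh p G • w) i = w (i - 1) := by
  rw [Om.smul_apply]
  simp

theorem Tors_P_sh {p : ℕ} {G : Type*} [Group G] (w : Om p G) (n : ℕ) :
    Tors_P (Wr.sh p G • w) n * w ((n : ZMod p) - 1) = w (-1) * Tors_P w n := by
  induction n with
  | zero => simp [Tors_P]
  | succ n ih =>
    rw [Tors_P, Tors_P, Tors_sh_apply, ih, Nat.cast_succ, add_sub_cancel_right, mul_assoc]

theorem Tors_P_cst {p : ℕ} {G : Type*} [Group G] (c : G) (n : ℕ) :
    Tors_P (Om.cst p c) n = c ^ n := by
  induction n with
  | zero => simp [Tors_P]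
  | succ n ih => rw [Tors_P, ih, pow_succ]; rfl

theorem Tors_conj_base {p : ℕ} {G : Type*} [Group G] (a : Wr p G) (ha : a.k = 0) (w : Om p G) :
    IsConj (Tors_P w p) (Tors_P (a • w) p) := by
  rw [Tors_P_base a ha, ZMod.natCast_self]
  exact isConj_iff.2 ⟨_, rfl⟩

theorem Tors_conj_sh {p : ℕ} {G : Type*} [Group G] (w : Om p G) :
    IsConj (Tors_P w p) (Tors_P (Wr.sh p G • w) p) := by
  have h := Tors_P_sh w p
  rw [ZMod.natCast_self, zero_sub] at h
  refine isConj_iff.2 ⟨w (-1), ?_⟩
  rw [← h, mul_inv_cancel_right]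

theorem Tors_fixed {p : ℕ} [Fact p.Prime] {G : Type*} [Group G] {w : Om p G}
    (h : Wr.sh p G • w = w) : w = Om.cst p (w 0) := by
  have key : ∀ n : ℕ, w (n : ZMod p) = w 0 := by
    intro n
    induction n with
    | zero => simp
    | succ n ih =>
      have := Tors_sh_apply w ((n : ZMod p) + 1)
      rw [h, add_sub_cancel_right] at this
      rw [Nat.cast_succ, this, ih]
  funext i
  have := key i.val
  rw [ZMod.natCast_zmod_val] at this
  exact this

theorem Tors_card {p : ℕ} [Fact p.Prime] {H X : Type*} [Group H] [MulAction H X] (T : H)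
    (hT : T ^ p = 1) (s : Finset X) (hs : ∀ x ∈ s, T • x ∈ s) (hf : ∀ x ∈ s, T • x ≠ x) :
    (s.card : ZMod p) = 0 := by
  classical
  let f : Function.End s := fun x => ⟨T • x.1, hs _ x.2⟩
  have hpow : ∀ (n : ℕ) (x : s), ((f ^ n) x).1 = T ^ n • x.1 := by
    intro n
    induction n with
    | zero => intro x; simp [Function.End.one_def]
    | succ n ih =>
      intro x
      rw [pow_succ, pow_succ, Function.End.mul_def, Function.comp_apply, ih, mul_smul]
  have h1 : f ^ p ^ 1 = 1 := by
    funext x
    apply Subtype.ext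
    rw [pow_one, hpow, hT, one_smul]
    rfl
  have h2 := Equiv.Perm.card_fixedPoints_modEq h1
  have h3 : Fintype.card (Function.fixedPoints f) = 0 := by
    rw [Fintype.card_eq_zero_iff]
    exact ⟨fun x => hf _ x.1.2 (congrArg Subtype.val x.2)⟩
  rw [h3, Fintype.card_coe] at h2
  rw [(ZMod.natCast_eq_natCast_iff _ _ _).2 h2, Nat.cast_zero]

theorem Tors_sum {p : ℕ} [Fact p.Prime] {H X : Type*} [Group H] [MulAction H X] (T : H)
    (hT : T ^ p = 1) (s : Finset X) (hs : ∀ x ∈ s, T • x ∈ s) (hf : ∀ x ∈ s, T • x ≠ x)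
    (F : X → ZMod p) (hF : ∀ x, F (T • x) = F x) : ∑ x ∈ s, F x = 0 := by
  classical
  have := Finset.sum_comp (s := s) (fun v : ZMod p => v) F
  rw [this]
  refine Finset.sum_eq_zero fun v _ => ?_
  rw [nsmul_eq_mul, Tors_card T hT, zero_mul]
  · intro x hx
    rw [Finset.mem_filter] at hx ⊢
    exact ⟨hs x hx.1, by rw [hF, hx.2]⟩
  · intro x hx
    exact hf x (Finset.mem_filter.1 hx).1

theorem modp_pow {p : ℕ} [Fact p.Prime] {G : Type*} [Group G] (g : G) {ι : Type} [Fintype ι]
    [DecidableEq ι] (ν : MonoidAlgebra (Matrix ι ι (ZMod p)) G) (hν : ν ^ p = 0) :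
    Matrix.trace (csum (fun c => IsConj (c ^ p) (g ^ p)) ν) = 0 := by
  classical
  obtain ⟨τ, h1, h2, h3⟩ := exists_tau ν p (Fact.out : p.Prime).one_le le_rfl hν
  let μ : Om p G → Prop := fun w => IsConj (Tors_P w p) (g ^ p)
  let L : (Om p G →₀ ZMod p) →ₗ[ZMod p] ZMod p :=
    Finsupp.lsum (ZMod p) fun w => if μ w then LinearMap.id else 0
  have hL : ∀ w v, L (Finsupp.single w v) = if μ w then v else 0 := by
    intro w v
    simp only [L, Finsupp.lsum_single]
    split_ifs <;> rfl
  have hμ : ∀ (a : Wr p G) w, IsConj (Tors_P w p) (Tors_P (a • w) p) → (μ (a • w) ↔ μ w) :=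
    fun a w h => ⟨fun h' => h.trans h', fun h' => h.symm.trans h'⟩
  have hL0 : L τ = 0 := by
    refine (Submodule.mem_bot (ZMod p)).1 (Jp_le (f := L) (N := ⊥) (fun a v ha => ?_) (h3 0))
    rw [Submodule.mem_bot, sub_eq_zero]
    induction v using Finsupp.induction_linear with
    | zero => simp
    | add a b ha hb => rw [map_add, map_add, map_add, ha, hb]
    | single w v =>
      rw [OmR, pr_single, hL, hL, hμ a w (Tors_conj_base a ha.1 w)]
      rfl
  let F : Om p G → ZMod p := fun w => if μ w then τ w else 0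
  have hLF : L τ = ∑ w ∈ τ.support, F w := by
    conv_lhs => rw [← Finsupp.sum_single τ, Finsupp.sum, map_sum]
    exact Finset.sum_congr rfl fun w _ => hL w _
  have hτ : ∀ w, τ (Wr.sh p G • w) = τ w := by
    intro w
    conv_lhs => rw [← h1]
    exact pr_apply _ _ _ _
  have hF : ∀ w, F (Wr.sh p G • w) = F w := by
    intro w
    simp only [F, hτ, hμ _ w (Tors_conj_sh w)]
  have hfree : ∑ w ∈ τ.support.filter (fun w => ¬ Wr.sh p G • w = w), F w = 0 := by
    refine Tors_sum (Wr.sh p G) Wr.sh_pow _ (fun w hw => ?_)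
      (fun w hw => (Finset.mem_filter.1 hw).2) F hF
    rw [Finset.mem_filter, Finsupp.mem_support_iff] at hw ⊢
    exact ⟨by rw [hτ]; exact hw.1, fun e => hw.2 (MulAction.injective _ e)⟩
  rw [hLF, ← Finset.sum_filter_add_sum_filter_not τ.support (fun w => Wr.sh p G • w = w), hfree,
    add_zero] at hL0
  rw [← hL0, csum_apply, Finsupp.sum, Matrix.trace_sum]
  symm
  refine Finset.sum_of_injOn (fun w => w 0) ?_ ?_ ?_ ?_
  · intro w hw w' hw' e
    rw [Finset.mem_coe, Finset.mem_filter] at hw hw'
    rw [Tors_fixed hw.2, Tors_fixed hw'.2]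
    exact congrArg _ e
  · intro w hw
    rw [Finset.mem_coe, Finset.mem_filter, Finsupp.mem_support_iff, Tors_fixed hw.2, h2] at hw
    rw [Finset.mem_coe, Finsupp.mem_support_iff]
    intro e
    apply hw.1
    rw [e, Matrix.trace_zero]
  · intro c _ hc
    have : τ (Om.cst p c) = 0 := by
      by_contra h0
      refine hc ⟨Om.cst p c, ?_, rfl⟩
      rw [Finset.mem_coe, Finset.mem_filter, Finsupp.mem_support_iff]
      exact ⟨h0, funext fun i => Tors_sh_apply _ i⟩
    rw [h2] at this
    split_ifs
    · exact this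
    · exact Matrix.trace_zero _ _
  · intro w hw
    have e := Tors_fixed (Finset.mem_filter.1 hw).2
    have e1 : μ w ↔ IsConj (w 0 ^ p) (g ^ p) := by
      simp only [μ]
      conv_lhs => rw [e, Tors_P_cst]
    have e2 : τ w = Matrix.trace (ν.coeff (w 0)) := by
      conv_lhs => rw [e, h2]
    simp only [F, e1, e2]
    split_ifs
    · rfl
    · exact (Matrix.trace_zero _ _).symm

theorem Tors_conj_iff {G : Type*} [Group G] {g c : G} {p : ℕ} (hp : p.Prime)
    (hg : IsOfFinOrder g) (h1 : orderOf g < p) (h2 : orderOf c < p) :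
    IsConj (c ^ p) (g ^ p) ↔ IsConj c g := by
  refine ⟨fun h => ?_, fun h => h.pow p⟩
  have hc : IsOfFinOrder c := (IsConj.isOfFinOrder h.symm hg.pow).of_pow hp.ne_zero
  have c1 : p.Coprime (orderOf g) := (Nat.coprime_of_lt_prime hg.orderOf_pos.ne' h1 hp)
  have c2 : p.Coprime (orderOf c) := (Nat.coprime_of_lt_prime hc.orderOf_pos.ne' h2 hp)
  have c3 : p.Coprime (orderOf (c, g)) := by
    rw [Prod.orderOf]
    exact Nat.Coprime.of_dvd_right (Nat.lcm_dvd_mul _ _) (c2.mul_right c1)
  obtain ⟨m, hm⟩ := exists_pow_eq_self_of_coprime c3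
  have e1 : (c ^ p) ^ m = c := congrArg Prod.fst hm
  have e2 : (g ^ p) ^ m = g := congrArg Prod.snd hm
  have := h.pow m
  rwa [e1, e2] at this

theorem TT_int_of_finOrder {G : Type*} [Group G] {g : G} (hg : IsOfFinOrder g) : TT ℤ g := by
  classical
  intro ι _ _ ν ⟨n, hn⟩
  obtain ⟨p, hB, hp⟩ := Nat.exists_infinite_primes (n + (Matrix.trace (cs g ν)).natAbs +
    orderOf g + (∑ c ∈ ν.coeff.support, orderOf c) + 1)
  have : Fact p.Prime := ⟨hp⟩
  let f : Matrix ι ι ℤ →+* Matrix ι ι (ZMod p) := RingHom.mapMatrix (Int.castRingHom (ZMod p))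
  have h0 : (MonoidAlgebra.mapRingHom G f ν) ^ p = 0 := by
    rw [← map_pow, pow_eq_zero_of_le (by omega) hn, map_zero]
  have h1 := modp_pow g _ h0
  have h2 : csum (fun c => IsConj (c ^ p) (g ^ p)) ν = cs g ν := by
    rw [cs, csum_apply, csum_apply]
    refine Finsupp.sum_congr fun c hc => ?_
    have : orderOf c ≤ ∑ c ∈ ν.coeff.support, orderOf c :=
      Finset.single_le_sum (f := fun c => orderOf c) (fun _ _ => Nat.zero_le _) hc
    rw [Tors_conj_iff hp hg (by omega) (by omega)]
  rw [MonoidAlgebra.coe_mapRingHom, csum_map, h2] at h1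
  have h3 : ((Matrix.trace (cs g ν) : ℤ) : ZMod p) = 0 := by
    rw [← h1]
    simp [f, Matrix.trace]
  rw [ZMod.intCast_zmod_eq_zero_iff_dvd] at h3
  exact Int.eq_zero_of_dvd_of_natAbs_lt_natAbs h3 (by rw [Int.natAbs_natCast]; omega)

end Pool.Agent.MP_f7db47_al.Cv

end

section

namespace Pool.Agent.MP_f7db47_al.Cv

section
variable {R : Type*} [Ring R] {G : Type*} [Group G] {Q : Type*} [AddCommGroup Q]

/-- The pairing on one group ring element. -/
noncomputable def DPair_in (T : R →+ Q) (f : G → ℤ) : MonoidAlgebra R G →+ Q where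
  toFun x := x.coeff.sum fun ω M => f ω • T M
  map_zero' := by simp
  map_add' a b := by
    rw [MonoidAlgebra.coeff_add, Finsupp.sum_add_index']
    · intro g
      simp
    · intro g M N
      rw [map_add, smul_add]

omit [Group G] in
theorem DPair_in_single (T : R →+ Q) (f : G → ℤ) (ω : G) (M : R) :
    DPair_in T f (MonoidAlgebra.single ω M) = f ω • T M := by
  show (MonoidAlgebra.single ω M).coeff.sum (fun ω M => f ω • T M) = _
  rw [MonoidAlgebra.coeff_single, Finsupp.sum_single_index]
  simp

/-- The pairing on chains. -/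
noncomputable def DPair_th (T : R →+ Q) (ψ : List G → G → ℤ) :
    (List G →₀ MonoidAlgebra R G) →+ Q :=
  Finsupp.liftAddHom fun t => DPair_in T (ψ t)

theorem DPair_th_single (T : R →+ Q) (ψ : List G → G → ℤ) (t : List G)
    (x : MonoidAlgebra R G) : DPair_th T ψ (Finsupp.single t x) = DPair_in T (ψ t) x := by
  simp [DPair_th]

theorem DPair_th_apply (T : R →+ Q) (ψ : List G → G → ℤ) (z : List G →₀ MonoidAlgebra R G) :
    DPair_th T ψ z = z.sum fun t x => x.coeff.sum fun ω M => ψ t ω • T M := by
  rw [DPair_th, Finsupp.liftAddHom_apply]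
  rfl

variable (κ : Type*) [CommRing κ] [Algebra κ R]

theorem DPair_th_cons (T : R →+ Q) (ψ : List G → G → ℤ) (z : List G →₀ MonoidAlgebra R G) :
    DPair_th T ψ (cons κ _ 1 z) = DPair_th T (fun t ω => ψ (1 :: t) ω) z := by
  induction z using Finsupp.induction_linear with
  | zero => simp
  | add a b ha hb => simp only [map_add, ha, hb]
  | single t x => rw [cons_single, DPair_th_single, DPair_th_single]

theorem DPair_th_La_single (T : R →+ Q) (ψ : List G → G → ℤ) (g : G) (M : R)
    (z : List G →₀ MonoidAlgebra R G) :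
    DPair_th T ψ (La κ (MonoidAlgebra.single g M) z) =
      DPair_th (T.comp (AddMonoidHom.mulLeft M)) (fun t ω => ψ (g • t) (g * ω)) z := by
  induction z using Finsupp.induction_linear with
  | zero => simp
  | add a b ha hb => simp only [map_add, ha, hb]
  | single t x =>
    rw [La_single, DPair_th_single, DPair_th_single]
    induction x using MonoidAlgebra.induction_linear with
    | zero => simp
    | add a b ha hb => simp only [mul_add, map_add, ha, hb]
    | single ω N =>
      rw [MonoidAlgebra.single_mul_single, DPair_in_single, DPair_in_single]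
      rfl

theorem DPair_La_sum {ι : Type*} (s : Finset ι) (a : ι → MonoidAlgebra R G) :
    La κ (∑ i ∈ s, a i) = ∑ i ∈ s, La κ (a i) := by
  classical
  induction s using Finset.induction_on with
  | empty => simp
  | insert i s hi ih => rw [Finset.sum_insert hi, Finset.sum_insert hi, La_add, ih]

theorem DPair_th_La (T : R →+ Q) (ψ : List G → G → ℤ) (a : MonoidAlgebra R G)
    (z : List G →₀ MonoidAlgebra R G) :
    DPair_th T ψ (La κ a z) = ∑ g ∈ a.coeff.support,
      DPair_th (T.comp (AddMonoidHom.mulLeft (a.coeff g))) (fun t ω => ψ (g • t) (g * ω)) z := by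
  conv_lhs => rw [← MonoidAlgebra.sum_coeff_single a, Finsupp.sum, DPair_La_sum]
  rw [LinearMap.sum_apply, map_sum]
  exact Finset.sum_congr rfl fun g _ => DPair_th_La_single κ T ψ g _ z

/-- The normalised bar element. -/
noncomputable def DPair_bar :
    List (MonoidAlgebra R G) → MonoidAlgebra R G → (List G →₀ MonoidAlgebra R G)
  | [], b => cons κ _ 1 (Finsupp.single [] b)
  | a :: l, b => cons κ _ 1 (La κ a (DPair_bar l b))

theorem DPair_QQ {n : ℕ} (u : Fin n → (MonoidAlgebra R G)ˣ) (v : (MonoidAlgebra R G)ˣ) :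
    QQ κ (List.ofFn fun i => v * Fin.partialProd u i) =
      La κ v.val (DPair_bar κ (List.ofFn fun i => (u i).val) ((v * (List.ofFn u).prod)⁻¹).val) := by
  induction n generalizing v with
  | zero =>
    simp only [List.ofFn_succ, List.ofFn_zero, Fin.partialProd_zero, mul_one, List.prod_nil, QQ,
      DPair_bar, La_nil]
  | succ n ih =>
    rw [List.ofFn_succ, List.ofFn_succ (f := fun i => (u i).val), List.ofFn_succ (f := u)]
    simp only [Fin.partialProd_zero, mul_one, Fin.partialProd_succ', ← mul_assoc, QQ, DPair_bar,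
      List.prod_cons]
    rw [ih (Fin.tail u) (v * u 0), ← La_mul, Units.val_mul, ← mul_assoc, Units.inv_mul, one_mul]
    rfl

omit [Group G] in
theorem DPair_sum_cons {n : ℕ} (S : Fin (n + 1) → Finset G) (F : (Fin (n + 1) → G) → Q) :
    ∑ t ∈ Fintype.piFinset S, F t =
      ∑ c ∈ S 0, ∑ g ∈ Fintype.piFinset fun j : Fin n => S j.succ, F (Fin.cons c g) := by
  classical
  rw [← Finset.sum_product']
  refine Finset.sum_bij' (fun t _ => (t 0, Fin.tail t)) (fun x _ => Fin.cons x.1 x.2) ?_ ?_ ?_ ?_ ?_
  · intro t ht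
    rw [Fin.mem_piFinset_iff_zero_tail] at ht
    exact Finset.mem_product.2 ht
  · intro x hx
    rw [Fin.mem_piFinset_iff_zero_tail]
    rw [Fin.cons_zero, Fin.tail_cons]
    exact Finset.mem_product.1 hx
  · intro t _
    exact Fin.cons_self_tail t
  · intro x _
    simp
  · intro t _
    simp

theorem DPair_th_bar {n : ℕ} (a : Fin n → MonoidAlgebra R G) (b : MonoidAlgebra R G)
    (T : R →+ Q) (ψ : List G → G → ℤ) :
    DPair_th T ψ (DPair_bar κ (List.ofFn a) b) =
      ∑ g ∈ Fintype.piFinset fun j => (a j).coeff.support, ∑ c ∈ b.coeff.support,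
        ψ (List.ofFn (Fin.partialProd g)) ((List.ofFn g).prod * c) •
          T ((List.ofFn fun j => (a j).coeff (g j)).prod * b.coeff c) := by
  induction n generalizing T ψ with
  | zero =>
    rw [List.ofFn_zero, DPair_bar, cons_single, DPair_th_single, Fintype.piFinset_of_isEmpty,
      Finset.univ_unique, Finset.sum_singleton]
    simp only [List.ofFn_succ, List.ofFn_zero, Fin.partialProd_zero, List.prod_nil, one_mul]
    rfl
  | succ n ih =>
    rw [List.ofFn_succ, DPair_bar, DPair_th_cons, DPair_th_La, DPair_sum_cons]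
    refine Finset.sum_congr rfl fun g0 _ => ?_
    rw [ih]
    refine Finset.sum_congr rfl fun g _ => Finset.sum_congr rfl fun c _ => ?_
    have e1 : List.ofFn (Fin.partialProd (Fin.cons g0 g : Fin (n + 1) → G)) =
        1 :: g0 • List.ofFn (Fin.partialProd g) := by
      rw [List.ofFn_succ, smul_list, List.map_ofFn]
      simp only [Fin.partialProd_zero, Fin.partialProd_succ', Fin.cons_zero, Fin.tail_cons]
      rfl
    rw [e1, List.ofFn_succ (f := (Fin.cons g0 g : Fin (n + 1) → G)),
      List.ofFn_succ (f := fun j => (a j).coeff ((Fin.cons g0 g : Fin (n + 1) → G) j))]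
    simp only [Fin.cons_zero, Fin.cons_succ, List.prod_cons, mul_assoc]
    rfl

theorem DPair_toF {n : ℕ} (φ : (Fin (n + 1) → G) → ℤ) (g : Fin n → G) (c : G) :
    toF φ (List.ofFn (Fin.partialProd g)) ((List.ofFn g).prod * c) = φ (Fin.cons c g) := by
  have h : ∀ i : Fin (n + 1), (List.ofFn (Fin.partialProd g)).getD i 1 = Fin.partialProd g i := by
    intro i
    rw [List.getD_eq_getElem _ _ (by simpa using i.2), List.getElem_ofFn]
  have hl : Fin.partialProd g (Fin.last n) = (List.ofFn g).prod := by
    simp [Fin.partialProd, List.take_of_length_le]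
  rw [toF, if_pos (List.length_ofFn ..)]
  congr 2
  · have h1 := h (Fin.last n)
    have h0 := h 0
    rw [Fin.val_last] at h1
    rw [Fin.val_zero] at h0
    rw [h1, h0, hl, Fin.partialProd_zero, inv_mul_cancel_left, mul_one]
  · funext j
    have h1 := h j.castSucc
    have h2 := h j.succ
    rw [Fin.val_castSucc] at h1
    rw [Fin.val_succ] at h2
    rw [h1, h2, Fin.partialProd_right_inv]

end

theorem pair_QQ (κ : Type*) [CommRing κ] {R : Type*} [Ring R] [Algebra κ R] {G : Type*} [Group G]
    {Q : Type*} [AddCommGroup Q] (T : R →+ Q) (hT : ∀ a b, T (a * b) = T (b * a)) {n : ℕ}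
    (φ : (Fin (n + 1) → G) → ℤ) (u : Fin n → (MonoidAlgebra R G)ˣ) :
    ((QQ κ (List.ofFn (Fin.partialProd u))).sum fun t x =>
        x.coeff.sum fun ω M => toF φ t ω • T M) =
      ∑ᶠ t : Fin (n + 1) → G, φ t • T (List.ofFn fun j =>
        ((Fin.cons ((List.ofFn u).prod⁻¹).val fun i => (u i).val :
          Fin (n + 1) → MonoidAlgebra R G) j).coeff (t j)).prod := by
  classical
  have hq := DPair_QQ κ u 1
  simp only [one_mul, Units.val_one, La_one] at hq
  rw [← DPair_th_apply]
  have hq' : QQ κ (List.ofFn (Fin.partialProd u)) = DPair_bar κ (List.ofFn fun i => (u i).val)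
      ((List.ofFn u).prod⁻¹).val := hq
  rw [hq', DPair_th_bar]
  generalize ((List.ofFn u).prod⁻¹).val = b
  rw [finsum_eq_sum_of_support_subset (s := Fintype.piFinset fun j =>
    ((Fin.cons b fun i => (u i).val : Fin (n + 1) → MonoidAlgebra R G) j).coeff.support)]
  · rw [DPair_sum_cons, Finset.sum_comm]
    simp only [Fin.cons_zero, Fin.cons_succ]
    refine Finset.sum_congr rfl fun c _ => Finset.sum_congr rfl fun g _ => ?_
    rw [DPair_toF, hT, List.ofFn_succ]
    simp only [Fin.cons_zero, Fin.cons_succ, List.prod_cons]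
  · intro t ht
    rw [Finset.mem_coe, Fintype.mem_piFinset]
    intro j
    rw [Finsupp.mem_support_iff]
    intro h0
    apply ht
    have h1 : (List.ofFn fun j => ((Fin.cons b fun i => (u i).val :
        Fin (n + 1) → MonoidAlgebra R G) j).coeff (t j)).prod = 0 :=
      List.prod_eq_zero (List.mem_ofFn.2 ⟨j, h0⟩)
    show φ t • T _ = 0
    rw [h1, map_zero, smul_zero]

end Pool.Agent.MP_f7db47_al.Cv

end
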