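import Pool.Agent.Mg.Ff7db47a.G7e969c
import Pool.Agent.Mg.Ff7db47a.G5b1285

section

namespace Pool.Agent.MP_f7db47_al.Cv

variable {κ : Type*} [CommRing κ] {p : ℕ} {G : Type*} [Group G] {F : List G → G → κ} {g : G}

theorem DLam_per_smul (w : Wr p G) {L : List (Pw p G)} {ω : Om p G} (h : Per L ω) :
    Per (w • L) (w • ω) := by
  obtain ⟨v, hk, h1, h2⟩ := h
  refine ⟨w * v * w⁻¹, by simp [hk], ?_, ?_⟩
  · rw [mul_smul, inv_smul_smul, mul_smul, h1]
  · rw [mul_smul, inv_smul_smul, mul_smul, h2]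

theorem DLam_per_iff (w : Wr p G) (L : List (Pw p G)) (ω : Om p G) :
    Per (w • L) (w • ω) ↔ Per L ω :=
  ⟨fun h => by simpa using DLam_per_smul w⁻¹ h, DLam_per_smul w⟩

theorem DLam_col_base {u : Wr p G} (hu : u.k = 0) (L : List (Pw p G)) :
    col (u • L) 0 = u.x 0 • col L 0 := by
  simp only [col, smul_list, List.map_map]
  refine List.map_congr_left fun s _ => ?_
  simp only [Function.comp_apply, Pw.smul_apply, hu, sub_zero]

theorem DLam_base (hF : Coc F g) {u : Wr p G} (hu : u.k = 0) (L : List (Pw p G))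
    (ω : Om p G) : lamv F (u • L) (u • ω) = lamv F L ω := by
  cases L with
  | nil => rfl
  | cons s L =>
    have e : lamv F (u • (s :: L)) (u • ω) = lamv F (u • s :: u • L) (u • ω) := rfl
    rw [e, lamv, lamv, ← smul_cons, DLam_per_iff, DLam_col_base hu]
    split_ifs
    · rw [← hF.inv (u.x 0) (col (s :: L) 0)]
      congr 1
      rw [Om.smul_apply, Pw.smul_apply, Pw.smul_apply, hu, sub_zero, sub_zero, zero_add,
        smul_eq_mul, smul_eq_mul]
      group
    · rfl

theorem DLam_not_per {L : List (Pw p G)} {ω : Om p G} (h : ¬ Per L ω) : lamv F L ω = 0 := by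
  cases L with
  | nil => rfl
  | cons s L => rw [lamv, if_neg h]

theorem DLam_prod {u : Wr p G} (hu : u.k = 0) (ω : Om p G) (n : ℕ) :
    (List.ofFn fun i : Fin n => (u • ω) ((i : ℕ) : ZMod p)).prod =
      u.x 0 * (List.ofFn fun i : Fin n => ω ((i : ℕ) : ZMod p)).prod * (u.x (n : ZMod p))⁻¹ := by
  induction n with
  | zero => simp
  | succ n ih =>
    rw [List.ofFn_succ', List.ofFn_succ', List.prod_concat, List.prod_concat]
    simp only [Fin.val_castSucc, Fin.val_last]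
    rw [ih, Om.smul_apply, hu, sub_zero, Nat.cast_succ]
    group

theorem DLam_face (hF : Coc F g) {δ : Wr p G} (hk : δ.k = 1)
    (hδ : δ • Om.cst p g = Om.cst p g) {l : List (Pw p G)} (hl : ∀ t ∈ l, δ • t = t) :
    lamv F l (Om.cst p g) = F (col l 0) (g * δ.x 1) := by
  cases l with
  | nil => exact (hF.nil _).symm
  | cons t l =>
    have hP : Per (t :: l) (Om.cst p g) := by
      refine ⟨δ, hk, ?_, hδ⟩
      rw [smul_list]
      exact (List.map_congr_left hl).trans (List.map_id' _)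
    have h1 := congrFun (hl t (by simp)) 1
    rw [Pw.smul_apply, hk, sub_self, smul_eq_mul] at h1
    rw [lamv, if_pos hP, ← h1]
    congr 1
    show g * (δ.x 1 * t 0) * (t 0)⁻¹ = g * δ.x 1
    group

theorem lamv_smul [NeZero p] (hF : Coc F g) (w : Wr p G) (L : List (Pw p G)) (ω : Om p G) :
    lamv F (w • L) (w • ω) = lamv F L ω := by
  by_cases h : Per L ω
  · obtain ⟨v, hk, h1, h2⟩ := h
    have e1 : (v ^ w.k.val)⁻¹ • L = L :=
      (MulAction.stabilizer (Wr p G) L).inv_mem ((MulAction.stabilizer (Wr p G) L).pow_mem h1 _)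
    have e2 : (v ^ w.k.val)⁻¹ • ω = ω :=
      (MulAction.stabilizer (Wr p G) ω).inv_mem ((MulAction.stabilizer (Wr p G) ω).pow_mem h2 _)
    have hu : (w * (v ^ w.k.val)⁻¹).k = 0 := by
      rw [Wr.mul_k, Wr.inv_k, Wr.pow_k, hk, ZMod.natCast_zmod_val, mul_one, add_neg_cancel]
    have := DLam_base hF hu L ω
    rwa [mul_smul, mul_smul, e1, e2] at this
  · rw [DLam_not_per h, DLam_not_per fun c => h ((DLam_per_iff w L ω).1 c)]

theorem LamW_inv [NeZero p] (hF : Coc F g) (w : Wr p G)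
    (z : List (Pw p G) →₀ (Om p G →₀ κ)) : LamW p F (ER κ p G w z) = LamW p F z := by
  have := Phi_mem' (f := LamW p F ∘ₗ ER κ p G w - LamW p F) (N := ⊥) (fun l ω a => by
    have e : ER κ p G w (Finsupp.single l (Finsupp.single ω a)) =
        Finsupp.single (w • l) (Finsupp.single (w • ω) a) := by
      rw [pr_single, OmR, pr_single]
      rfl
    rw [Submodule.mem_bot, LinearMap.sub_apply, LinearMap.comp_apply, e, LamW_single,
      LamW_single, lamv_smul hF, sub_self]) z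
  simpa [sub_eq_zero] using this

theorem lamv_off [NeZero p] (hF : Coc F g) (L : List (Pw p G)) {ω : Om p G}
    (h : ¬ Phi_Orb p g ω) : lamv F L ω = 0 := by
  by_contra h0
  apply h
  cases L with
  | nil => exact (h0 rfl).elim
  | cons s L =>
    have hP : Per (s :: L) ω := by
      by_contra c
      exact h0 (DLam_not_per c)
    rw [lamv, if_pos hP] at h0
    obtain ⟨y, hy⟩ := isConj_iff.1 (hF.supp _ _ h0)
    obtain ⟨v, hk, h1, h2⟩ := hP
    have hs : v • s = s := fix_of_smul_list h1 s (by simp)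
    have a1 : ∀ i, s (i + 1) = v.x (i + 1) * s i := fun i => by
      have := congrFun hs (i + 1)
      rw [Pw.smul_apply, hk, add_sub_cancel_right, smul_eq_mul] at this
      exact this.symm
    have a2 : ∀ i, ω (i + 1) = v.x (i + 1) * ω i * (v.x (i + 1 + 1))⁻¹ := fun i => by
      have := congrFun h2 (i + 1)
      rw [Om.smul_apply, hk, add_sub_cancel_right] at this
      exact this.symm
    have a3 : ∀ m : ℕ, (s m)⁻¹ * ω m * s (m + 1) = (s 0)⁻¹ * ω 0 * s 1 := fun m => by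
      induction m with
      | zero => simp
      | succ m ih =>
        rw [← ih, Nat.cast_succ, a1 ((m : ZMod p) + 1), a2]
        conv_lhs => rw [a1 (m : ZMod p)]
        conv_rhs => rw [a1 (m : ZMod p)]
        group
    refine ⟨⟨fun i => y * s 0 * (s i)⁻¹, 0⟩, funext fun i => ?_⟩
    have a4 := a3 i.val
    rw [ZMod.natCast_zmod_val] at a4
    show y * s 0 * (s i)⁻¹ * ω (i - 0) * (y * s 0 * (s (i + 1))⁻¹)⁻¹ = g
    have a5 : y * s 0 * (s i)⁻¹ * ω i * (y * s 0 * (s (i + 1))⁻¹)⁻¹ =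
        y * s 0 * ((s i)⁻¹ * ω i * s (i + 1)) * (s 0)⁻¹ * y⁻¹ := by group
    rw [sub_zero, a5, a4, ← hy]
    group

theorem LamW_bd [Fact p.Prime] (hF : Coc F g) {L : List (Pw p G)} (hL : Fix (GamR p g) L)
    (a : κ) : LamW p F (bd κ (Finsupp.single L (Finsupp.single (Om.cst p g) a))) = 0 := by
  rcases eq_or_ne L [] with rfl | hne
  · rw [bd_nil, map_zero]
  obtain ⟨s, hs⟩ := List.exists_mem_of_ne_nil L hne
  obtain ⟨γ, hγ, hγs, -⟩ := hL s hs s hs
  have hk := Gam_k_ne hγ hγs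
  obtain ⟨δ, hδk, hδ, hδs⟩ : ∃ δ : Wr p G, δ.k = 1 ∧ δ • Om.cst p g = Om.cst p g ∧ δ • s = s :=
    ⟨_, Gam_pow_k hk 1, (Gam p g).pow_mem γ.2 _, Gam_pow_fix hγs _⟩
  have hall : ∀ t ∈ L, δ • t = t := fun t ht => by
    obtain ⟨γ', hγ', h1, h2⟩ := hL s hs t ht
    have hk' := Gam_k_ne hγ' h1
    rw [Gam_eq_of_fix (hδk.trans (Gam_pow_k hk' 1).symm) hδs (Gam_pow_fix h1 _)]
    exact Gam_pow_fix h2 _
  have hc := hF.coc (col L 0) (g * δ.x 1)
  rw [bd_eq_sum, map_sum] at hc
  rw [bd_eq_sum, map_sum, ← mul_zero a, ← hc, Finset.mul_sum]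
  have hlen : (col L 0).length = L.length := List.length_map _
  rw [hlen]
  refine Finset.sum_congr rfl fun j _ => ?_
  rw [map_smul, map_smul, LamW_single, Finsupp.linearCombination_single,
    DLam_face hF hδk hδ fun t ht => hall t (List.mem_of_mem_eraseIdx ht), col, col,
    List.eraseIdx_map, one_smul, smul_eq_mul, smul_eq_mul]
  ring

theorem orb_conj [NeZero p] {ω : Om p G} (h : Phi_Orb p g ω) : IsConj (oprod p ω) (g ^ p) := by
  obtain ⟨X, hX⟩ := Phi_choice p g
  obtain ⟨h1, h2⟩ := hX ω h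
  have h3 := DLam_prod h1 ω p
  rw [h2, ZMod.natCast_self] at h3
  have h4 : (List.ofFn fun i : Fin p => Om.cst p g ((i : ℕ) : ZMod p)).prod = g ^ p := by
    simp [Om.cst]
  rw [h4] at h3
  exact isConj_iff.2 ⟨_, h3.symm⟩

end Pool.Agent.MP_f7db47_al.Cv

end

section

namespace Pool.Agent.MP_f7db47_al.Cv

variable {κ : Type*} [CommRing κ] {Γ : Type*} [Group Γ] {S : Type*} [MulAction Γ S]
variable {V : Type*} [AddCommGroup V] [Module κ V]
variable {p : ℕ} [NeZero p] {π : Γ →* Multiplicative (ZMod p)} {T : Γ}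

set_option linter.unusedSectionVars false

theorem Desc_pi_pow (hc : Cyc p π T) (m : ℕ) : π (T ^ m) = Multiplicative.ofAdd (m : ZMod p) := by
  rw [map_pow, hc.gen, ← ofAdd_nsmul, nsmul_one]

theorem Desc_pr_Jp (ρ : Representation κ Γ V) (γ : Γ) {z : V}
    (hz : z ∈ Jp ρ fun c => π c = 1) : ρ γ z ∈ Jp ρ fun c => π c = 1 := by
  refine Jp_le (f := ρ γ) (fun c v hc => ?_) hz
  have e : ρ γ (ρ c v) = ρ (γ * c * γ⁻¹) (ρ γ v) := by
    rw [← Module.End.mul_apply, ← Module.End.mul_apply, ← map_mul, ← map_mul,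
      inv_mul_cancel_right]
  rw [e]
  exact mem_Jp ρ (by simp [hc]) _

theorem Desc_pr_NN {r : S → S → Prop} (hr : Rel Γ r) (ρ : Representation κ Γ V) (γ : Γ)
    {z : List S →₀ V} (hz : z ∈ NN ρ r fun c => π c = 1) :
    pr (List S) ρ γ z ∈ NN ρ r fun c => π c = 1 :=
  NN_le (f := pr (List S) ρ γ) (fun _ h => Fx_le_NN _ _ _ (pr_mem_Fx hr ρ γ h))
    (fun _ h => Jp_le_NN _ _ _ (Desc_pr_Jp _ γ h)) hz

theorem Desc_pow_sub (ρ : Representation κ Γ V) (T : Γ) (m : ℕ) (v : V) :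
    ∃ w, ρ (T ^ m) v - v = sg ρ T w := by
  induction m with
  | zero => exact ⟨0, by simp⟩
  | succ m ih =>
    obtain ⟨w, hw⟩ := ih
    refine ⟨w - ρ (T ^ m) v, ?_⟩
    rw [map_sub, ← hw, sg_apply, pow_succ', map_mul, Module.End.mul_apply]
    abel

/-- The Higman operator. -/
theorem Desc_higman (hc : Cyc p π T) {r : S → S → Prop} (hr : Rel Γ r)
    (ρ : Representation κ Γ V) : ∃ e : (List S →₀ V) →ₗ[κ] (List S →₀ V),
      (∀ z ∈ NN ρ r fun c => π c = 1, e z ∈ NN ρ r fun c => π c = 1) ∧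
      ∀ z, z - ∑ m ∈ Finset.range p, pr (List S) ρ (T ^ m) (e (pr (List S) ρ (T ^ m)⁻¹ z)) ∈
        NN ρ r fun c => π c = 1 := by
  classical
  obtain ⟨lab, hlab⟩ := hr.exists_label
  let e : (List S →₀ V) →ₗ[κ] (List S →₀ V) := Finsupp.lsum κ fun l =>
    if ¬ Fix r l ∧ π (lab l) = 1 then Finsupp.lsingle l else 0
  have he : ∀ l v, e (Finsupp.single l v) =
      if ¬ Fix r l ∧ π (lab l) = 1 then Finsupp.single l v else 0 := by
    intro l v
    simp only [e, Finsupp.lsum_single]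
    split_ifs <;> rfl
  refine ⟨e, fun z hz => NN_le (fun z hz => ?_) (fun z hz => ?_) hz, fun z => ?_⟩
  · refine map_supported (fun l hl v => ?_) hz
    rw [he, if_neg fun h => h.1 hl]
    exact Submodule.zero_mem _
  · refine Jp_le_NN _ _ _ (map_Jp (fun c z hc => ?_) hz)
    induction z using Finsupp.induction_linear with
    | zero => simp
    | add a b ha hb => simp [ha, hb]
    | single l v =>
      rw [pr_single, he, he]
      by_cases hl : Fix r l
      · rw [if_neg fun h => h.1 (hr.fix_smul c hl), if_neg fun h => h.1 hl, map_zero]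
      · have h1 : (¬ Fix r (c • l) ∧ π (lab (c • l)) = 1) ↔ (¬ Fix r l ∧ π (lab l) = 1) := by
          rw [hr.fix_smul_iff, hlab c l hl, map_mul, hc, one_mul]
        by_cases h2 : ¬ Fix r l ∧ π (lab l) = 1
        · rw [if_pos h2, if_pos (h1.2 h2), pr_single]
        · rw [if_neg h2, if_neg fun h => h2 (h1.1 h), map_zero]
  · induction z using Finsupp.induction_linear with
    | zero => simp
    | add a b ha hb =>
      have := Submodule.add_mem _ ha hb
      convert this using 1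
      simp only [map_add, Finset.sum_add_distrib]
      abel
    | single l v =>
      by_cases hl : Fix r l
      · refine Submodule.sub_mem _ (Fx_le_NN _ _ _ (single_mem_Fx hl v))
          (Submodule.sum_mem _ fun m _ => ?_)
        rw [pr_single, he, if_neg fun h => h.1 (hr.fix_smul _ hl), map_zero]
        exact Submodule.zero_mem _
      · have hcond : ∀ m : ℕ, (¬ Fix r ((T ^ m)⁻¹ • l) ∧ π (lab ((T ^ m)⁻¹ • l)) = 1) ↔
            (m : ZMod p) = (π (lab l)).toAdd := by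
          intro m
          rw [hr.fix_smul_iff, hlab _ l hl, map_mul, map_inv, Desc_pi_pow hc, inv_mul_eq_one]
          exact ⟨fun h => congrArg Multiplicative.toAdd h.2,
            fun h => ⟨hl, congrArg Multiplicative.ofAdd h⟩⟩
        rw [Finset.sum_eq_single (π (lab l)).toAdd.val]
        · rw [pr_single, he, if_pos ((hcond _).2 (ZMod.natCast_zmod_val _)), pr_single,
            smul_inv_smul, ← Module.End.mul_apply, ← map_mul, mul_inv_cancel, map_one]
          simp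
        · intro m hm hne
          rw [pr_single, he, if_neg, map_zero]
          intro h
          apply hne
          rw [← (hcond m).1 h, ZMod.val_cast_of_lt (Finset.mem_range.1 hm)]
        · intro h
          exact absurd (Finset.mem_range.2 (ZMod.val_lt _)) h

theorem Desc_sum_inv (hT : T ^ p = 1) (ρ : Representation κ Γ V) (v : V) :
    ∑ m ∈ Finset.range p, ρ (T ^ m)⁻¹ v = NT ρ T p v := by
  obtain ⟨q, rfl⟩ := Nat.exists_eq_succ_of_ne_zero (NeZero.ne p)
  rw [NT_apply, Finset.sum_range_succ', Finset.sum_range_succ', ← Finset.sum_range_reflect]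
  congr 1
  · refine Finset.sum_congr rfl fun m hm => ?_
    have hm' := Finset.mem_range.1 hm
    have : (T ^ (q - 1 - m + 1))⁻¹ = T ^ (m + 1) := by
      rw [inv_eq_iff_mul_eq_one, ← pow_add, ← hT]
      congr 1
      omega
    rw [this]
  · simp

/-- Modulo the neglected chains the complex is free over the cyclic group. -/
theorem th_exact (hc : Cyc p π T) {r : S → S → Prop} (hr : Rel Γ r) (ρ : Representation κ Γ V)
    (n : ℕ) (z : List S →₀ V) (hz : th (pr (List S) ρ) T p n z ∈ NN ρ r fun γ => π γ = 1) :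
    ∃ b, z - th (pr (List S) ρ) T p (n + 1) b ∈ NN ρ r fun γ => π γ = 1 := by
  obtain ⟨e, he1, he2⟩ := Desc_higman hc hr ρ
  unfold th at hz ⊢
  by_cases hn : n % 2 = 0
  · rw [if_pos hn] at hz
    rw [if_neg (by omega)]
    choose w hw using fun m => Desc_pow_sub (pr (List S) ρ) T m (e (pr (List S) ρ (T ^ m)⁻¹ z))
    refine ⟨∑ m ∈ Finset.range p, w m, ?_⟩
    have h1 := he1 _ hz
    rw [← Desc_sum_inv hc.pow, map_sum] at h1
    have h2 := Submodule.add_mem _ (he2 z) h1
    convert h2 using 1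
    rw [map_sum, ← Finset.sum_congr rfl fun m _ => hw m, Finset.sum_sub_distrib]
    abel
  · rw [if_neg hn] at hz
    rw [if_pos (by omega)]
    refine ⟨e z, ?_⟩
    have h0 : ∀ m : ℕ, z - pr (List S) ρ (T ^ m) z ∈ NN ρ r fun γ => π γ = 1 := by
      intro m
      induction m with
      | zero => simp
      | succ m ih =>
        have := Submodule.add_mem _ hz (Desc_pr_NN hr ρ T ih)
        rw [sg_apply, map_sub, sub_add_sub_cancel] at this
        rwa [pow_succ', map_mul]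
    have h1 : ∀ m : ℕ, pr (List S) ρ (T ^ m) (e (pr (List S) ρ (T ^ m)⁻¹ z)) -
        pr (List S) ρ (T ^ m) (e z) ∈ NN ρ r fun γ => π γ = 1 := by
      intro m
      rw [← map_sub, ← map_sub]
      refine Desc_pr_NN hr ρ _ (he1 _ ?_)
      have := Desc_pr_NN hr ρ (T ^ m)⁻¹ (h0 m)
      rwa [map_sub, ← Module.End.mul_apply _ (pr (List S) ρ (T ^ m)), ← map_mul, inv_mul_cancel,
        map_one, Module.End.one_apply] at this
    have h2 := Submodule.add_mem _ (he2 z)
      (Submodule.sum_mem _ fun m (_ : m ∈ Finset.range p) => h1 m)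
    rwa [Finset.sum_sub_distrib, sub_add_sub_cancel, ← NT_apply] at h2

theorem Desc_NN_top (hc : Cyc p π T) {r : S → S → Prop} (ρ : Representation κ Γ V)
    {z : List S →₀ V} (hz : z ∈ NN ρ r fun _ => True) :
    ∃ b, z - sg (pr (List S) ρ) T b ∈ NN ρ r fun γ => π γ = 1 := by
  have : z ∈ (NN ρ r fun γ => π γ = 1) ⊔ LinearMap.range (sg (pr (List S) ρ) T) := by
    refine NN_le (f := LinearMap.id) (fun z h => Submodule.mem_sup_left (Fx_le_NN _ _ _ h))
      (fun z h => Jp_le (f := LinearMap.id) (fun γ v _ => ?_) h) hz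
    have hk : π ((T ^ (π γ).toAdd.val)⁻¹ * γ) = 1 := by
      rw [map_mul, map_inv, Desc_pi_pow hc, ZMod.natCast_zmod_val]
      simp
    obtain ⟨w, hw⟩ := Desc_pow_sub (pr (List S) ρ) T (π γ).toAdd.val
      (pr (List S) ρ ((T ^ (π γ).toAdd.val)⁻¹ * γ) v)
    rw [← Module.End.mul_apply, ← map_mul, mul_inv_cancel_left] at hw
    have h1 := Submodule.add_mem _
      (Submodule.mem_sup_right (S := NN ρ r fun γ => π γ = 1) 
        (LinearMap.mem_range_self (sg (pr (List S) ρ) T) w))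
      (Submodule.mem_sup_left (Jp_le_NN ρ r _ (mem_Jp (pr (List S) ρ) hk v)))
    rwa [← hw, sub_add_sub_cancel] at h1
  obtain ⟨a, ha, _, ⟨b, rfl⟩, rfl⟩ := Submodule.mem_sup.1 this
  exact ⟨b, by simpa using ha⟩

theorem Desc_bd_th (ρ : Representation κ Γ V) (n : ℕ) (z : List S →₀ V) :
    bd κ (th (pr (List S) ρ) T p n z) = th (pr (List S) ρ) T p n (bd κ z) :=
  map_th_eq (fun v => (pr_bd ρ T v).symm) p n z

theorem Desc_extend (hc : Cyc p π T) {r : S → S → Prop} (hr : Rel Γ r)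
    (ρ : Representation κ Γ V) (y : ℕ → List S →₀ V) (n₀ : ℕ) (hn : 2 ≤ n₀)
    (hG : ∀ n, y n ∈ Gd κ n)
    (h2 : ∀ n, 1 ≤ n → n < n₀ → bd κ (y (n + 1)) - th (pr (List S) ρ) T p n (y n) ∈
      NN ρ r fun γ => π γ = 1)
    (hC : Van ρ r (fun γ => π γ = 1) n₀) (d : ℕ) :
    ∃ y' : ℕ → List S →₀ V, y' 1 = y 1 ∧ (∀ n, y' n ∈ Gd κ n) ∧
      ∀ n, 1 ≤ n → n < n₀ + d → bd κ (y' (n + 1)) - th (pr (List S) ρ) T p n (y' n) ∈
        NN ρ r fun γ => π γ = 1 := by
  induction d with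
  | zero => exact ⟨y, rfl, hG, h2⟩
  | succ d ih =>
    obtain ⟨y', e1, hG', h'⟩ := ih
    obtain ⟨m, hm⟩ : ∃ m, n₀ + d = m + 1 := ⟨n₀ + d - 1, by omega⟩
    have hb : bd κ (th (pr (List S) ρ) T p (m + 1) (y' (m + 1))) ∈ NN ρ r fun γ => π γ = 1 := by
      have := th_mem (ρ := pr (List S) ρ) (T := T) (fun w hw => Desc_pr_NN hr ρ T hw) p (m + 1)
        (h' m (by omega) (by omega))
      rwa [map_sub, th_th _ hc.pow, sub_zero, ← Desc_bd_th] at this
    obtain ⟨a, ha, h3⟩ := hC (m + 1) (by omega) _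
      (th_mem (fun w hw => pr_mem_Gd ρ T hw) p (m + 1) (hG' (m + 1))) hb
    refine ⟨Function.update y' (m + 2) a, Function.update_of_ne (show 1 ≠ m + 2 by omega) _ _ ▸ e1, fun n => ?_,
      fun n h1 h2 => ?_⟩
    · by_cases e : n = m + 2
      · rw [e, Function.update_self]
        exact ha
      · rw [Function.update_of_ne e]
        exact hG' n
    · rw [Function.update_of_ne (show n ≠ m + 2 by omega)]
      by_cases e : n = m + 1
      · rw [e, Function.update_self]
        simpa using Submodule.neg_mem _ h3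
      · rw [Function.update_of_ne (by omega)]
        exact h' n h1 (by omega)

theorem descend (hc : Cyc p π T) {r : S → S → Prop} (hr : Rel Γ r) (ρ : Representation κ Γ V)
    (y : ℕ → List S →₀ V) (n₀ m₁ : ℕ) (hn : 2 ≤ n₀) (hG : ∀ n, y n ∈ Gd κ n)
    (h1 : bd κ (y 1) - y 0 ∈ Jp (pr (List S) ρ) fun γ => π γ = 1)
    (h2 : ∀ n, 1 ≤ n → n < n₀ → bd κ (y (n + 1)) - th (pr (List S) ρ) T p n (y n) ∈
      Jp (pr (List S) ρ) fun γ => π γ = 1)
    (hC : Van ρ r (fun γ => π γ = 1) n₀) (hΓ : Van ρ r (fun _ => True) m₁) :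
    ∃ b, ∃ f ∈ Fx κ r, y 0 - NT (pr (List S) ρ) T p b - bd κ f ∈
      Jp (pr (List S) ρ) fun γ => π γ = 1 := by
  obtain ⟨y', e1, hG', h'⟩ := Desc_extend hc hr ρ y n₀ hn hG
    (fun n a b => Jp_le_NN _ _ _ (h2 n a b)) hC (2 * m₁ + 2)
  have step : ∀ n, 1 ≤ n → n < n₀ + (2 * m₁ + 2) →
      (∃ a b, y' (n + 1) - bd κ a - th (pr (List S) ρ) T p (n + 2) b ∈
        NN ρ r fun γ => π γ = 1) →
      ∃ a b, y' n - bd κ a - th (pr (List S) ρ) T p (n + 1) b ∈ NN ρ r fun γ => π γ = 1 := by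
    rintro n h1 h2 ⟨a, b, hab⟩
    have h3 := bd_mem_NN hab
    have e : th (pr (List S) ρ) T p (n + 2) = th (pr (List S) ρ) T p n := by
      unfold th
      rw [Nat.add_mod_right]
    rw [map_sub, map_sub, bd_bd, sub_zero, Desc_bd_th, e] at h3
    have h4 := Submodule.sub_mem _ h3 (h' n h1 h2)
    rw [sub_sub_sub_cancel_left, ← map_sub] at h4
    obtain ⟨b', hb'⟩ := th_exact hc hr ρ n _ h4
    exact ⟨b, b', hb'⟩
  have top : ∃ a b, y' (2 * m₁ + 2) - bd κ a - th (pr (List S) ρ) T p (2 * m₁ + 2 + 1) b ∈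
      NN ρ r fun γ => π γ = 1 := by
    have h3 := NN_mono ρ r (Q := fun _ => True) (fun _ _ => trivial)
      (h' (2 * m₁ + 1) (by omega) (by omega))
    have h4 : th (pr (List S) ρ) T p (2 * m₁ + 1) (y' (2 * m₁ + 1)) ∈ NN ρ r fun _ => True := by
      unfold th
      rw [if_neg (by omega), sg_apply, ← neg_sub]
      exact Submodule.neg_mem _ (Jp_le_NN _ _ _ (mem_Jp _ trivial _))
    have h5 := Submodule.add_mem _ h3 h4
    rw [sub_add_cancel] at h5
    obtain ⟨a, -, ha⟩ := hΓ (2 * m₁ + 2) (by omega) _ (hG' _) h5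
    obtain ⟨b, hb⟩ := Desc_NN_top hc ρ ha
    refine ⟨a, b, ?_⟩
    unfold th
    rwa [if_neg (by omega)]
  have down : ∀ d n, 1 ≤ n → n + d = 2 * m₁ + 2 →
      ∃ a b, y' n - bd κ a - th (pr (List S) ρ) T p (n + 1) b ∈ NN ρ r fun γ => π γ = 1 := by
    intro d
    induction d with
    | zero =>
      intro n _ e
      rw [add_zero] at e
      rw [e]
      exact top
    | succ d ih =>
      intro n h1 e
      exact step n h1 (by omega) (ih (n + 1) (by omega) (by omega))
  obtain ⟨a, b, hab⟩ := down (2 * m₁ + 1) 1 le_rfl (by omega)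
  obtain ⟨f, hf, j, hj, e⟩ := Submodule.mem_sup.1 hab
  refine ⟨bd κ b, f, hf, ?_⟩
  have e2 := congrArg (bd κ) e
  rw [map_add, map_sub, map_sub, bd_bd, sub_zero, Desc_bd_th, e1] at e2
  have e3 : th (pr (List S) ρ) T p (1 + 1) = NT (pr (List S) ρ) T p := by
    unfold th
    rw [if_pos rfl]
  rw [e3] at e2
  have h6 := Submodule.sub_mem _ (bd_mem_Jp hj) h1
  convert h6 using 1
  rw [eq_sub_of_add_eq' e2]
  abel

end Pool.Agent.MP_f7db47_al.Cv

end

section

namespace Pool.Agent.MP_f7db47_al.Cv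

universe u

variable {κ : Type*} [CommRing κ] {Γ : Type*} [Group Γ] {S : Type*} [MulAction Γ S]
variable {p : ℕ} [NeZero p] {π : Γ →* Multiplicative (ZMod p)} {T : Γ}

/-- The sum of the inverse powers of `T`. -/
noncomputable def TrN {W : Type*} [AddCommGroup W] [Module κ W] (σ : Representation κ Γ W)
    (T : Γ) (p : ℕ) : W →ₗ[κ] W := ∑ m ∈ Finset.range p, σ (T ^ m)⁻¹

theorem TrN_apply {W : Type*} [AddCommGroup W] [Module κ W] (σ : Representation κ Γ W)
    (T : Γ) (p : ℕ) (v : W) : TrN σ T p v = ∑ m ∈ Finset.range p, σ (T ^ m)⁻¹ v := by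
  simp only [TrN, LinearMap.sum_apply]

theorem Tr_mul {W : Type*} [AddCommGroup W] [Module κ W] (σ : Representation κ Γ W) (g h : Γ)
    (v : W) : σ g (σ h v) = σ (g * h) v := by
  rw [map_mul]; rfl

theorem TrN_T (hc : Cyc p π T) {W : Type*} [AddCommGroup W] [Module κ W]
    (σ : Representation κ Γ W) (v : W) : TrN σ T p (σ T v) = TrN σ T p v := by
  have h := Finset.sum_range_sub (fun m => σ ((T ^ m)⁻¹ * T) v) p
  have e : ∀ m : ℕ, (T ^ (m + 1))⁻¹ * T = (T ^ m)⁻¹ := fun m => by group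
  simp only [e, hc.pow, pow_zero, sub_self, Finset.sum_sub_distrib, sub_eq_zero] at h
  rw [TrN_apply, TrN_apply, h]
  exact Finset.sum_congr rfl fun m _ => Tr_mul σ _ _ v

theorem TrN_pow (hc : Cyc p π T) {W : Type*} [AddCommGroup W] [Module κ W]
    (σ : Representation κ Γ W) (k : ℕ) (v : W) : TrN σ T p (σ (T ^ k) v) = TrN σ T p v := by
  induction k with
  | zero => simp
  | succ k ih => rw [pow_succ', ← Tr_mul, TrN_T hc, ih]

theorem TrN_Jp (hc : Cyc p π T) {W : Type*} [AddCommGroup W] [Module κ W]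
    (σ : Representation κ Γ W) (γ : Γ) (v : W) :
    TrN σ T p (σ γ v) - TrN σ T p v ∈ Jp σ fun γ => π γ = 1 := by
  obtain ⟨k, hk⟩ : ∃ k : ℕ, π (T ^ k) = π γ := by
    refine ⟨(π γ).toAdd.val, ?_⟩
    rw [map_pow, hc.gen, ← ofAdd_nsmul, nsmul_eq_mul, mul_one, ZMod.natCast_zmod_val]
    rfl
  have e : σ γ v = σ (γ * (T ^ k)⁻¹) (σ (T ^ k) v) := by
    rw [Tr_mul, inv_mul_cancel_right]
  have hπ : π (γ * (T ^ k)⁻¹) = 1 := by rw [map_mul, map_inv, hk, mul_inv_cancel]
  rw [e, ← TrN_pow hc σ k v]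
  generalize γ * (T ^ k)⁻¹ = c at hπ
  generalize σ (T ^ k) v = w
  rw [TrN_apply, TrN_apply, ← Finset.sum_sub_distrib]
  refine Submodule.sum_mem _ fun m _ => ?_
  have e2 : σ (T ^ m)⁻¹ (σ c w) = σ ((T ^ m)⁻¹ * c * T ^ m) (σ (T ^ m)⁻¹ w) := by
    rw [Tr_mul, Tr_mul, mul_inv_cancel_right]
  rw [e2]
  refine mem_Jp σ ?_ _
  show π _ = 1
  rw [map_mul, map_mul, hπ, mul_one, map_inv, inv_mul_cancel]

/-- Transfer. -/
theorem Van.tr (hc : Cyc p π T) {r : S → S → Prop} (hr : Rel Γ r) {V : Type*} [AddCommGroup V]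
    [Module κ V] (ρ : Representation κ Γ V) (e : V →ₗ[κ] V)
    (he2 : ∀ c, π c = 1 → ∀ v, e (ρ c v) = ρ c (e v))
    (he3 : ∀ v, ∑ m ∈ Finset.range p, ρ (T ^ m) (e (ρ (T ^ m)⁻¹ v)) = v) {j : ℕ}
    (hC : Van ρ r (fun γ => π γ = 1) j) : Van ρ r (fun _ => True) j := by
  intro i hi z hz hb
  have hN : ∀ w ∈ NN ρ r (fun _ => True),
      TrN (pr (List S) ρ) T p w ∈ NN ρ r (fun γ => π γ = 1) := by
    intro w hw
    refine NN_le (fun u hu => Fx_le_NN _ _ _ ?_) (fun u hu => Jp_le_NN _ _ _ ?_) hw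
    · rw [TrN_apply]
      exact Submodule.sum_mem _ fun m _ => pr_mem_Fx hr ρ _ hu
    · exact Jp_le (fun g v _ => TrN_Jp hc _ g v) hu
  have h1 : TrN (pr (List S) ρ) T p z ∈ Gd κ i := by
    rw [TrN_apply]
    exact Submodule.sum_mem _ fun m _ => pr_mem_Gd ρ _ hz
  have h2 : bd κ (TrN (pr (List S) ρ) T p z) = TrN (pr (List S) ρ) T p (bd κ z) := by
    rw [TrN_apply, TrN_apply, map_sum]
    exact Finset.sum_congr rfl fun m _ => (pr_bd ρ _ z).symm
  obtain ⟨a, ha, h3⟩ := hC i hi _ h1 (by rw [h2]; exact hN _ hb)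
  refine ⟨Em e a, Em_mem_supported e ha, ?_⟩
  have h4 := NN_mono ρ r (Q := fun _ => True) (fun _ _ => trivial)
    (Em_mem_NN (σ := ρ) (f := e) (fun c v hc' => he2 c hc' v) h3)
  rw [map_sub, Em_bd] at h4
  have h5 : ∀ w : List S →₀ V, ∑ m ∈ Finset.range p,
      pr (List S) ρ (T ^ m) (Em e (pr (List S) ρ (T ^ m)⁻¹ w)) = w := by
    intro w
    induction w using Finsupp.induction_linear with
    | zero => simp
    | add a b ha hb => simp only [map_add, Finset.sum_add_distrib, ha, hb]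
    | single l v =>
      simp only [pr_single, Em_single, smul_inv_smul]
      rw [← Finsupp.single_finsetSum, he3]
  have h6 : z - Em e (TrN (pr (List S) ρ) T p z) ∈ NN ρ r (fun _ => True) := by
    refine Jp_le_NN _ _ _ ?_
    have h7 : z - Em e (TrN (pr (List S) ρ) T p z) = ∑ m ∈ Finset.range p,
        (pr (List S) ρ (T ^ m) (Em e (pr (List S) ρ (T ^ m)⁻¹ z)) -
          Em e (pr (List S) ρ (T ^ m)⁻¹ z)) := by
      rw [Finset.sum_sub_distrib, h5, TrN_apply, map_sum]
    rw [h7]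
    exact Submodule.sum_mem _ fun m _ => mem_Jp _ trivial _
  have h8 := Submodule.add_mem _ h6 h4
  rwa [sub_add_sub_cancel] at h8

theorem Van.trsub (hc : Cyc p π T) {r : S → S → Prop} (hr : Rel Γ r) {M : Type u} [AddCommGroup M]
    [Module κ M] (ρ : Representation κ Γ M) (A B : Submodule κ M)
    (hA : ∀ g, A ≤ A.comap (ρ g)) (hB : ∀ g, B ≤ B.comap (ρ g)) (hBA : B ≤ A) (e : M →ₗ[κ] M)
    (eA : ∀ u ∈ A, e u ∈ A) (eB : ∀ u ∈ B, e u ∈ B)
    (he2 : ∀ c, π c = 1 → ∀ u ∈ A, e (ρ c u) - ρ c (e u) ∈ B)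
    (he3 : ∀ u ∈ A, ∑ m ∈ Finset.range p, ρ (T ^ m) (e (ρ (T ^ m)⁻¹ u)) - u ∈ B) {j : ℕ}
    (hC : ∀ (V : Type u) [AddCommGroup V] [Module κ V] (σ : Representation κ Γ V),
      Van σ r (fun γ => π γ = 1) j)
    (h : Van (V := B) (ρ.subrepresentation B hB) r (fun _ => True) j) :
    Van (V := A) (ρ.subrepresentation A hA) r (fun _ => True) j := by
  let B' : Submodule κ A := B.comap A.subtype
  let ρA : Representation κ Γ A := ρ.subrepresentation A hA
  have hB' : ∀ g, B' ≤ B'.comap (ρA g) := fun g u hu => hB g hu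
  let eA' : A →ₗ[κ] A := e.restrict eA
  have he' : B' ≤ B'.comap eA' := fun u hu => eB u hu
  have hQ : Van (ρA.quotient B' hB') r (fun _ => True) j := by
    refine Van.tr hc hr _ (B'.mapQ B' eA' he') (fun c hc' v => ?_) (fun v => ?_) (hC _ _)
    · obtain ⟨u, rfl⟩ := B'.mkQ_surjective v
      exact (Submodule.Quotient.eq B').2 (he2 c hc' u u.2)
    · obtain ⟨u, rfl⟩ := B'.mkQ_surjective v
      have e1 : ∀ m : ℕ, ρA.quotient B' hB' (T ^ m) (B'.mapQ B' eA' he'
          (ρA.quotient B' hB' (T ^ m)⁻¹ (B'.mkQ u))) =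
          B'.mkQ (ρA (T ^ m) (eA' (ρA (T ^ m)⁻¹ u))) := fun m => rfl
      simp only [e1]
      rw [← map_sum]
      refine (Submodule.Quotient.eq B').2 ?_
      show A.subtype _ ∈ B
      rw [map_sub, map_sum]
      exact he3 u u.2
  refine Van.x2 hr (Submodule.inclusion hBA) B'.mkQ (fun g v => rfl) (fun g v => rfl)
    (Submodule.inclusion_injective hBA) B'.mkQ_surjective (fun u => ?_) h hQ
  rw [Submodule.mkQ_apply, Submodule.Quotient.mk_eq_zero]
  constructor
  · intro hu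
    exact ⟨⟨u, hu⟩, rfl⟩
  · rintro ⟨v, rfl⟩
    exact v.2

end Pool.Agent.MP_f7db47_al.Cv

end

section

open scoped TensorProduct

namespace Pool.Agent.MP_f7db47_al.Cv

section aux

open PiTensorProduct

variable {κ : Type} [Field κ] {p : ℕ} [Fact p.Prime]
  {F K : Type} [AddCommGroup F] [Module κ F] [AddCommGroup K] [Module κ K]

open Classical in
/-- the positions where the vector lies in the kernel -/
noncomputable def TIFil_A (f : F →ₗ[κ] K) (v : ZMod p → F) : Finset (ZMod p) :=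
  Finset.univ.filter fun i => f (v i) = 0

theorem TIFil_memA {f : F →ₗ[κ] K} {v : ZMod p → F} {i : ZMod p} :
    i ∈ TIFil_A f v ↔ f (v i) = 0 := by
  simp [TIFil_A]

/-- the filtration -/
noncomputable def TIFil_F (p : ℕ) [Fact p.Prime] (f : F →ₗ[κ] K) (j : ℕ) :
    Submodule κ (⨂[κ] _ : ZMod p, F) :=
  Submodule.span κ {z | ∃ v : ZMod p → F, j ≤ (TIFil_A f v).card ∧ z = tprod κ v}

theorem TIFil_mem {f : F →ₗ[κ] K} {j : ℕ} {v : ZMod p → F} (h : j ≤ (TIFil_A f v).card) :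
    tprod κ v ∈ TIFil_F p f j := Submodule.subset_span ⟨v, h, rfl⟩

theorem TIFil_anti (f : F →ₗ[κ] K) {i j : ℕ} (h : i ≤ j) : TIFil_F p f j ≤ TIFil_F p f i :=
  Submodule.span_mono fun _ ⟨v, hv, e⟩ => ⟨v, h.trans hv, e⟩

theorem TIFil_le {f : F →ₗ[κ] K} {j : ℕ} {W : Type} [AddCommGroup W] [Module κ W]
    (g : (⨂[κ] _ : ZMod p, F) →ₗ[κ] W) {N : Submodule κ W}
    (h : ∀ v : ZMod p → F, j ≤ (TIFil_A f v).card → g (tprod κ v) ∈ N) :
    ∀ z ∈ TIFil_F p f j, g z ∈ N := by
  have : TIFil_F p f j ≤ N.comap g := Submodule.span_le.2 fun _ ⟨v, hv, e⟩ => e ▸ h v hv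
  exact this

/-- the projections -/
noncomputable def TIFil_e (f : F →ₗ[κ] K) (s : K →ₗ[κ] F) (J : Finset (ZMod p)) :
    (⨂[κ] _ : ZMod p, F) →ₗ[κ] (⨂[κ] _ : ZMod p, F) :=
  PiTensorProduct.map fun i => if i ∈ J then LinearMap.id - s ∘ₗ f else s ∘ₗ f

omit [Fact p.Prime] in
theorem TIFil_e_tprod (f : F →ₗ[κ] K) (s : K →ₗ[κ] F) (J : Finset (ZMod p)) (v : ZMod p → F) :
    TIFil_e f s J (tprod κ v) =
      tprod κ (J.piecewise (fun i => v i - s (f (v i))) fun i => s (f (v i))) := by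
  rw [TIFil_e, map_tprod]
  congr 1
  funext i
  by_cases h : i ∈ J <;> simp [h]

theorem TIFil_e_sum (f : F →ₗ[κ] K) (s : K →ₗ[κ] F) (z : ⨂[κ] _ : ZMod p, F) :
    ∑ J, TIFil_e f s J z = z := by
  induction z using PiTensorProduct.induction_on with
  | smul_tprod c v =>
    simp only [map_smul, TIFil_e_tprod]
    rw [← Finset.smul_sum, ← MultilinearMap.map_add_univ]
    congr 2
    funext i
    simp
  | add a b ha hb => simp only [map_add, Finset.sum_add_distrib, ha, hb]

theorem TIFil_e_mem {f : F →ₗ[κ] K} {s : K →ₗ[κ] F} (hs : ∀ k, f (s k) = k)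
    (J : Finset (ZMod p)) (z : ⨂[κ] _ : ZMod p, F) : TIFil_e f s J z ∈ TIFil_F p f J.card := by
  induction z using PiTensorProduct.induction_on with
  | smul_tprod c v =>
    rw [map_smul, TIFil_e_tprod]
    refine Submodule.smul_mem _ _ (TIFil_mem (Finset.card_le_card fun i hi => ?_))
    rw [TIFil_memA, Finset.piecewise_eq_of_mem _ _ _ hi, map_sub, hs, sub_self]
  | add a b ha hb => rw [map_add]; exact Submodule.add_mem _ ha hb

theorem TIFil_e_zero (f : F →ₗ[κ] K) (s : K →ₗ[κ] F) {J : Finset (ZMod p)} {v : ZMod p → F}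
    (h : ¬ TIFil_A f v ⊆ J) : TIFil_e f s J (tprod κ v) = 0 := by
  obtain ⟨i, hi, hJ⟩ := Finset.not_subset.1 h
  rw [TIFil_e_tprod]
  refine MultilinearMap.map_coord_zero _ i ?_
  rw [Finset.piecewise_eq_of_notMem _ _ _ hJ, TIFil_memA.1 hi, map_zero]

/-- the centre of a set of positions -/
def TIFil_c (j : ℕ) (J : Finset (ZMod p)) : ZMod p := (∑ i ∈ J, i) * (j : ZMod p)⁻¹

/-- the projection onto the sets of size `j` with centre zero -/
noncomputable def TIFil_E (p : ℕ) [Fact p.Prime] (f : F →ₗ[κ] K) (s : K →ₗ[κ] F) (j : ℕ) :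
    (⨂[κ] _ : ZMod p, F) →ₗ[κ] (⨂[κ] _ : ZMod p, F) :=
  ∑ J ∈ Finset.univ.filter fun J : Finset (ZMod p) => J.card = j ∧ TIFil_c j J = 0, TIFil_e f s J

theorem TIFil_key {f : F →ₗ[κ] K} {s : K →ₗ[κ] F} (hs : ∀ k, f (s k) = k) {j : ℕ}
    {v : ZMod p → F} (h : j ≤ (TIFil_A f v).card) :
    TIFil_E p f s j (tprod κ v) -
      (if (TIFil_A f v).card = j ∧ TIFil_c j (TIFil_A f v) = 0 then tprod κ v else 0) ∈
        TIFil_F p f (j + 1) := by
  have h1 : ∀ J ∈ Finset.univ.filter fun J : Finset (ZMod p) => J.card = j ∧ TIFil_c j J = 0,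
      J ≠ TIFil_A f v → TIFil_e f s J (tprod κ v) = 0 := fun J hJ hne =>
    TIFil_e_zero f s fun hsub => hne (Finset.eq_of_subset_of_card_le hsub
      ((Finset.mem_filter.1 hJ).2.1.le.trans h)).symm
  rw [TIFil_E, LinearMap.sum_apply]
  split_ifs with hc
  · rw [Finset.sum_eq_single_of_mem (TIFil_A f v) (by simpa using hc) h1,
      ← neg_sub, Submodule.neg_mem_iff]
    nth_rewrite 1 [← TIFil_e_sum f s (tprod κ v)]
    rw [← Finset.sum_erase_eq_sub (Finset.mem_univ _)]
    refine Submodule.sum_mem _ fun J hJ => ?_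
    by_cases hsub : TIFil_A f v ⊆ J
    · refine TIFil_anti f ?_ (TIFil_e_mem hs J _)
      rw [← hc.1]
      exact Finset.card_lt_card ⟨hsub, fun h2 => (Finset.mem_erase.1 hJ).1 (h2.antisymm hsub)⟩
    · rw [TIFil_e_zero f s hsub]
      exact Submodule.zero_mem _
  · rw [sub_zero, Finset.sum_eq_zero fun J hJ => h1 J hJ fun e => hc (e ▸ (Finset.mem_filter.1 hJ).2)]
    exact Submodule.zero_mem _

variable {G : Type*} [Group G] {Γ : Type*} [Group Γ] {ρ : Representation κ G F}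
  {σ : Representation κ G K} {f : F →ₗ[κ] K}

theorem TIFil_act (hf : Equi ρ σ f) (w : Wr p G) (v : ZMod p → F) :
    TIFil_A f (fun i => ρ (w.x i) (v (i - w.k))) =
      (TIFil_A f v).map (trans w.k).toEmbedding := by
  ext i
  rw [Finset.mem_map_equiv, TIFil_memA, TIFil_memA, hf]
  refine ⟨fun h => ?_, fun h => ?_⟩
  · have := congrArg (σ (w.x i)⁻¹) h
    rwa [map_zero, Representation.inv_self_apply] at this
  · have h2 : f (v (i - w.k)) = 0 := h
    rw [h2, map_zero]

theorem TIFil_inv (ψ : Γ →* Wr p G) (hf : Equi ρ σ f) (j : ℕ) (γ : Γ) :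
    TIFil_F p f j ≤ (TIFil_F p f j).comap (TIr ψ ρ γ) :=
  TIFil_le (TIr ψ ρ γ) fun v hv => by
    rw [TIr_tprod]
    exact TIFil_mem (by rwa [TIFil_act hf, Finset.card_map])

theorem TIFil_c_map {j : ℕ} (h0 : 0 < j) (hp : j < p) {J : Finset (ZMod p)} (hJ : J.card = j)
    (k : ZMod p) : TIFil_c j (J.map (trans k).toEmbedding) = TIFil_c j J + k := by
  have h1 : (j : ZMod p) ≠ 0 := fun h =>
    absurd (Nat.le_of_dvd h0 ((ZMod.natCast_eq_zero_iff j p).1 h)) (not_le.2 hp)
  have h2 : ∑ i ∈ J, (trans k).toEmbedding i = ∑ i ∈ J, (i + k) := rfl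
  rw [TIFil_c, TIFil_c, Finset.sum_map, h2, Finset.sum_add_distrib, Finset.sum_const, hJ,
    nsmul_eq_mul]
  field_simp

theorem TIFil_key2 (ψ : Γ →* Wr p G) (hf : Equi ρ σ f) {s : K →ₗ[κ] F} (hs : ∀ k, f (s k) = k)
    {j : ℕ} (h0 : 0 < j) (hp : j < p) {v : ZMod p → F} (h : j ≤ (TIFil_A f v).card) (γ : Γ) :
    TIFil_E p f s j (TIr ψ ρ γ (tprod κ v)) -
      TIr ψ ρ γ (if (TIFil_A f v).card = j ∧ TIFil_c j (TIFil_A f v) + (ψ γ).k = 0 then tprod κ v
        else 0) ∈ TIFil_F p f (j + 1) := by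
  have h1 := TIFil_key hs (j := j) (v := fun i => ρ ((ψ γ).x i) (v (i - (ψ γ).k)))
    (by rwa [TIFil_act hf, Finset.card_map])
  rw [TIFil_act hf, Finset.card_map, ← TIr_tprod] at h1
  rw [apply_ite (TIr ψ ρ γ), map_zero]
  by_cases hc : (TIFil_A f v).card = j
  · rwa [TIFil_c_map h0 hp hc] at h1
  · rw [if_neg fun e => hc e.1] at h1 ⊢
    exact h1

theorem TIFil_step {S : Type*} [MulAction Γ S] (ψ : Γ →* Wr p G) {T : Γ}
    (hc : Cyc p ((Wr.deg p G).comp ψ) T) {r : S → S → Prop} (hr : Rel Γ r) (hf : Equi ρ σ f)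
    {s : K →ₗ[κ] F} (hs : ∀ k, f (s k) = k) {n j : ℕ} (h0 : 0 < j) (hp : j < p)
    (hC : ∀ (V : Type) [AddCommGroup V] [Module κ V] (τ : Representation κ Γ V),
      Van τ r (fun γ => (Wr.deg p G).comp ψ γ = 1) n)
    (h : Van (V := TIFil_F p f (j + 1))
      ((TIr ψ ρ).subrepresentation _ (TIFil_inv ψ hf (j + 1))) r (fun _ => True) n) :
    Van (V := TIFil_F p f j) ((TIr ψ ρ).subrepresentation _ (TIFil_inv ψ hf j)) r
      (fun _ => True) n := by
  refine Van.trsub hc hr (TIr ψ ρ) _ _ _ _ (TIFil_anti f j.le_succ) (TIFil_E p f s j)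
    (fun u _ => ?_) (TIFil_le _ fun v hv => ?_) (fun c hk => ?_) ?_ hC h
  · rw [TIFil_E, LinearMap.sum_apply]
    refine Submodule.sum_mem _ fun J hJ => ?_
    have := TIFil_e_mem hs J u
    rwa [(Finset.mem_filter.1 hJ).2.1] at this
  · have := TIFil_key hs (j.le_succ.trans hv)
    rwa [if_neg fun e => by omega, sub_zero] at this
  · refine TIFil_le (TIFil_E p f s j ∘ₗ TIr ψ ρ c - TIr ψ ρ c ∘ₗ TIFil_E p f s j) fun v hv => ?_
    have h1 := TIFil_key2 ψ hf hs h0 hp hv c
    have h2 : (ψ c).k = 0 := hk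
    rw [h2, add_zero] at h1
    have h3 := Submodule.sub_mem _ h1 (TIFil_inv ψ hf (j + 1) c (TIFil_key hs hv))
    rw [map_sub, sub_sub_sub_cancel_right] at h3
    exact h3
  · have hT : (ψ T).k = 1 := Multiplicative.ofAdd.injective hc.gen
    have key := TIFil_le (f := f) (j := j) (N := TIFil_F p f (j + 1))
      (∑ m ∈ Finset.range p, TIr ψ ρ (T ^ m) ∘ₗ TIFil_E p f s j ∘ₗ TIr ψ ρ (T ^ m)⁻¹ -
        LinearMap.id) fun v hv => by
      have h1 : ∀ m ∈ Finset.range p,
          TIr ψ ρ (T ^ m) (TIFil_E p f s j (TIr ψ ρ (T ^ m)⁻¹ (tprod κ v))) -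
            (if (TIFil_A f v).card = j ∧ TIFil_c j (TIFil_A f v) = m then tprod κ v else 0) ∈
              TIFil_F p f (j + 1) := fun m _ => by
        have h2 := TIFil_inv ψ hf (j + 1) (T ^ m) (TIFil_key2 ψ hf hs h0 hp hv (T ^ m)⁻¹)
        rw [Submodule.mem_comap, map_sub, Representation.self_inv_apply, map_inv ψ, map_pow ψ,
          Wr.inv_k, Wr.pow_k, hT, mul_one] at h2
        simpa only [add_neg_eq_zero] using h2
      have h2 := Submodule.sum_mem _ h1
      rw [Finset.sum_sub_distrib] at h2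
      rw [LinearMap.sub_apply, LinearMap.sum_apply, LinearMap.id_apply]
      by_cases h3 : (TIFil_A f v).card = j
      · rwa [Finset.sum_eq_single_of_mem (f := fun m : ℕ => if (TIFil_A f v).card = j ∧
            TIFil_c j (TIFil_A f v) = m then tprod κ v else 0) (TIFil_c j (TIFil_A f v)).val
          (Finset.mem_range.2 (ZMod.val_lt _)) fun m hm hne => if_neg fun e => hne (by
            rw [e.2, ZMod.val_cast_of_lt (Finset.mem_range.1 hm)]),
          if_pos ⟨h3, (ZMod.natCast_zmod_val _).symm⟩] at h2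
      · rw [Finset.sum_eq_zero (f := fun m : ℕ => if (TIFil_A f v).card = j ∧
            TIFil_c j (TIFil_A f v) = m then tprod κ v else 0) fun m _ => if_neg fun e => h3 e.1,
          sub_zero] at h2
        exact Submodule.sub_mem _ h2 (TIFil_mem (by omega))
    intro u hu
    have := key u hu
    rwa [LinearMap.sub_apply, LinearMap.sum_apply, LinearMap.id_apply] at this

omit [Fact p.Prime] in
theorem TIFil_left {K' : Type} [AddCommGroup K'] [Module κ K'] (a : K →ₗ[κ] K') (b : K' →ₗ[κ] K)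
    (h : ∀ k, b (a k) = k) (z : ⨂[κ] _ : ZMod p, K) : TIm p b (TIm p a z) = z := by
  induction z using PiTensorProduct.induction_on with
  | smul_tprod c v => simp only [map_smul, TIm_tprod, h]
  | add x y hx hy => rw [map_add, map_add, hx, hy]

theorem TIFil_top {S : Type*} [MulAction Γ S] (ψ : Γ →* Wr p G) {r : S → S → Prop}
    (hf : Equi ρ σ f) {s : K →ₗ[κ] F} (hs : ∀ k, f (s k) = k) {n : ℕ}
    (hK : Van (TIr ψ (K := LinearMap.ker f)
      (ρ.subrepresentation (LinearMap.ker f) (ker_le_comap hf))) r (fun _ => True) n) :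
    Van (V := TIFil_F p f p) ((TIr ψ ρ).subrepresentation _ (TIFil_inv ψ hf p)) r
      (fun _ => True) n := by
  have h1 : ∀ z, TIm p (LinearMap.ker f).subtype z ∈ TIFil_F p f p := fun z => by
    induction z using PiTensorProduct.induction_on with
    | smul_tprod c v =>
      rw [map_smul, TIm_tprod]
      refine Submodule.smul_mem _ _ (TIFil_mem ?_)
      rw [Finset.eq_univ_of_forall (s := TIFil_A f fun i => (LinearMap.ker f).subtype (v i))
        fun i => TIFil_memA.2 (v i).2, Finset.card_univ, ZMod.card]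
    | add x y hx hy => rw [map_add]; exact Submodule.add_mem _ hx hy
  refine hK.of_bijective ((TIm p (LinearMap.ker f).subtype).codRestrict _ h1)
    (fun γ z => Subtype.ext (TIm_equi' ψ (fun _ _ => rfl) γ z)) ⟨fun x y e => ?_, fun z => ?_⟩
  · have h2 : ∀ x, (LinearMap.id - s ∘ₗ f : F →ₗ[κ] F) x ∈ LinearMap.ker f := fun x => by
      simp [hs]
    have h3 := TIFil_left (p := p) (LinearMap.ker f).subtype
      ((LinearMap.id - s ∘ₗ f).codRestrict _ h2) fun k => Subtype.ext (by simp)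
    have h4 : TIm p (LinearMap.ker f).subtype x = TIm p (LinearMap.ker f).subtype y :=
      congrArg Subtype.val e
    rw [← h3 x, h4, h3]
  · obtain ⟨y, hy⟩ := TIFil_le (f := f) (j := p) LinearMap.id
      (N := LinearMap.range (TIm p (LinearMap.ker f).subtype)) (fun v hv => by
        have h2 : TIFil_A f v = Finset.univ :=
          Finset.eq_univ_of_card _ (le_antisymm (Finset.card_le_univ _) (by rwa [ZMod.card]))
        exact ⟨tprod κ fun i => ⟨v i, TIFil_memA.1 (h2 ▸ Finset.mem_univ i)⟩, TIm_tprod _ _ _⟩)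
      z.1 z.2
    exact ⟨y, Subtype.ext hy⟩

theorem TIFil_exact {s : K →ₗ[κ] F} (hs : ∀ k, f (s k) = k) :
    Function.Exact (TIFil_F p f 1).subtype (TIm p f) := by
  intro z
  refine ⟨fun h => ⟨⟨z, ?_⟩, rfl⟩, ?_⟩
  · rw [← TIFil_e_sum f s z]
    refine Submodule.sum_mem _ fun J _ => ?_
    rcases J.eq_empty_or_nonempty with rfl | hJ
    · have h1 : TIFil_e f s (∅ : Finset (ZMod p)) = TIm p s ∘ₗ TIm p f := by
        ext v
        simp [TIFil_e_tprod, TIm_tprod]
      rw [h1, LinearMap.comp_apply, h, map_zero]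
      exact Submodule.zero_mem _
    · exact TIFil_anti f hJ.card_pos (TIFil_e_mem hs J z)
  · rintro ⟨y, rfl⟩
    refine TIFil_le (TIm p f) (N := ⊥) (fun v hv => ?_) y.1 y.2
    obtain ⟨i, hi⟩ := Finset.card_pos.1 hv
    rw [TIm_tprod, Submodule.mem_bot]
    exact MultilinearMap.map_coord_zero _ i (TIFil_memA.1 hi)

end aux

theorem van_TI_step {κ : Type} [Field κ] {G : Type*} [Group G] {p : ℕ} [Fact p.Prime]
    {Γ : Type*} [Group Γ] {S : Type*} [MulAction Γ S] (ψ : Γ →* Wr p G) {T : Γ}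
    (hc : Cyc p ((Wr.deg p G).comp ψ) T) {r : S → S → Prop} (hr : Rel Γ r)
    {F K : Type} [AddCommGroup F] [Module κ F] [AddCommGroup K] [Module κ K]
    (ρ : Representation κ G F) (σ : Representation κ G K) (f : F →ₗ[κ] K) (hf : Equi ρ σ f)
    (fsurj : Function.Surjective f) {j : ℕ}
    (hC : ∀ (V : Type) [AddCommGroup V] [Module κ V] (τ : Representation κ Γ V),
      Van τ r (fun γ => (Wr.deg p G).comp ψ γ = 1) j)
    (hK : Van (TIr ψ (K := LinearMap.ker f)
      (ρ.subrepresentation (LinearMap.ker f) (ker_le_comap hf))) r (fun _ => True) j)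
    (hF : Van (TIr ψ ρ) r (fun _ => True) (j + 1)) :
    Van (TIr ψ σ) r (fun _ => True) (j + 1) := by
  obtain ⟨s, hs'⟩ := f.exists_rightInverse_of_surjective (LinearMap.range_eq_top.2 fsurj)
  have hs : ∀ k, f (s k) = k := fun k => LinearMap.congr_fun hs' k
  have h1 : ∀ n i, i + n = p → 0 < i → Van (V := TIFil_F p f i)
      ((TIr ψ ρ).subrepresentation _ (TIFil_inv ψ hf i)) r (fun _ => True) j := by
    intro n
    induction n with
    | zero =>
      intro i hi _
      obtain rfl : i = p := hi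
      exact TIFil_top ψ hf hs hK
    | succ n ih =>
      intro i hi h0
      exact TIFil_step ψ hc hr hf hs h0 (by omega) hC (ih (i + 1) (by omega) (by omega))
  have hp := (Fact.out : p.Prime).pos
  exact Van.x3 hr (TIFil_F p f 1).subtype (TIm p f) (fun _ _ => rfl) (TIm_equi' ψ hf)
    Subtype.val_injective (fun z => ⟨_, TIFil_left s f hs z⟩) (TIFil_exact hs)
    (h1 (p - 1) 1 (by omega) one_pos) hF

end Pool.Agent.MP_f7db47_al.Cv

end

section

open scoped TensorProduct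

namespace Pool.Agent.MP_f7db47_al.Cv

variable {κ : Type} [Field κ] {G : Type} [Group G] {p : ℕ} [Fact p.Prime]
  {Γ : Type*} [Group Γ] {S : Type*} [MulAction Γ S]

theorem TIBase_equiv (κ : Type) [Field κ] (p : ℕ) [Fact p.Prime] (Y : Type) :
    ∃ f : (Pw p Y →₀ κ) →ₗ[κ] (⨂[κ] _ : ZMod p, (Y →₀ κ)), Function.Bijective f ∧
      ∀ y : Pw p Y, f (Finsupp.single y 1) =
        PiTensorProduct.tprod κ fun i => Finsupp.single (y i) 1 := by
  classical
  let e := PiTensorProduct.ofFinsuppEquiv' (R := κ) (κ := fun _ : ZMod p => Y)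
  refine ⟨e.symm.toLinearMap, e.symm.bijective, fun y => ?_⟩
  refine (LinearEquiv.symm_apply_eq e).2 ?_
  have := PiTensorProduct.ofFinsuppEquiv'_tprod_single (R := κ) (κ := fun _ : ZMod p => Y) y
    fun _ => 1
  rw [Finset.prod_const_one] at this
  exact this.symm

theorem TIBase_one {B : Type} {w : Wr p G} {y : Pw p (FB G B)} (h : w • y = y) (hk : w.k = 0) :
    w = 1 := by
  refine Wr.ext (funext fun i => ?_) hk
  have := congrArg FB.g (congrFun h i)
  rw [Pw.smul_apply, hk, sub_zero, FB.smul_g] at this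
  exact mul_eq_right.1 this

theorem TIBase_pow {M Y : Type*} [Monoid M] [MulAction M Y] {w : M} {y : Y} (h : w • y = y)
    (m : ℕ) : w ^ m • y = y := by
  induction m with
  | zero => simp
  | succ m ih => rw [pow_succ, mul_smul, h, ih]

theorem van_TI_free (ψ : Γ →* Wr p G) (hψ : Function.Injective ψ) {r : S → S → Prop}
    (hr : Rel Γ r) (hfix : ∀ γ : Γ, γ ^ p = 1 → ∃ s : S, γ • s = s)
    (htor : ∀ γ : Γ, γ ^ p = 1 → ∀ s : S, r (γ • s) s → γ • s = s) (B : Type) :
    Van (TIr ψ (FR κ G B)) r (fun _ => True) 3 := by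
  let _ := MulAction.compHom (Pw p (FB G B)) ψ
  have hs : ∀ (h : Γ) (y : Pw p (FB G B)), h • y = ψ h • y := fun _ _ => rfl
  have h1 : ∀ (h : Γ) (y : Pw p (FB G B)), h • y = y → (ψ h).k = 0 → h = 1 := fun h y e hk =>
    hψ ((TIBase_one e hk).trans (map_one ψ).symm)
  have h2 : ∀ (h : Γ) (y : Pw p (FB G B)), h • y = y → h ^ p = 1 := fun h y e =>
    h1 _ y (TIBase_pow e p) (by simp)
  obtain ⟨f, hb, hf⟩ := TIBase_equiv κ p (FB G B)
  refine (van_perm (Y := Pw p (FB G B)) (Representation.trivial κ Γ κ) hr (fun y => ?_)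
    fun h y s e => htor h (h2 h y e) s).of_bijective f (fun h z => ?_) hb
  · by_cases h0 : ∃ h0 : Γ, h0 • y = y ∧ h0 ≠ 1
    · obtain ⟨h0, e0, n0⟩ := h0
      obtain ⟨s, hs0⟩ := hfix h0 (h2 h0 y e0)
      refine ⟨s, fun h e => ?_⟩
      have hk : (ψ h0).k ≠ 0 := fun c => n0 (h1 h0 y e0 c)
      have h3 : h⁻¹ * h0 ^ ((ψ h).k * (ψ h0).k⁻¹).val = 1 := by
        refine h1 _ y (by rw [mul_smul, TIBase_pow e0, inv_smul_eq_iff, e]) ?_
        rw [map_mul, map_inv, map_pow, Wr.mul_k, Wr.inv_k, Wr.pow_k, ZMod.natCast_zmod_val,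
          inv_mul_cancel_right₀ hk, neg_add_cancel]
      rw [inv_mul_eq_one.1 h3]
      exact TIBase_pow hs0 _
    · obtain ⟨s, -⟩ := hfix 1 (one_pow p)
      refine ⟨s, fun h e => ?_⟩
      by_contra c
      exact h0 ⟨h, e, fun c' => c (by rw [c', one_smul])⟩
  · induction z using Finsupp.induction_linear with
    | zero => simp
    | add a b ha hb => simp only [map_add, ha, hb]
    | single y c =>
      rw [← mul_one c, ← smul_eq_mul, ← Finsupp.smul_single]
      simp only [map_smul]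
      rw [pr_single, Representation.trivial_apply, hf, hf, TIr_tprod]
      congr 2
      funext i
      rw [FR, pr_single, Representation.trivial_apply]
      rfl

theorem van_of_TI_trivial (ψ : Γ →* Wr p G) {r : S → S → Prop} {j : ℕ}
    (h : Van (TIr ψ (Representation.trivial κ G κ)) r (fun _ => True) j) :
    Van (Representation.trivial κ Γ κ) r (fun _ => True) j := by
  let e := (PiTensorProduct.constantBaseRingEquiv (ZMod p) κ).toLinearEquiv
  refine h.of_bijective e.toLinearMap (fun γ z => ?_) e.bijective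
  have : e.toLinearMap ∘ₗ TIr ψ (Representation.trivial κ G κ) γ = e.toLinearMap := by
    refine PiTensorProduct.ext (MultilinearMap.ext fun v => ?_)
    simp only [LinearMap.compMultilinearMap_apply, LinearMap.comp_apply, TIr_tprod,
      Representation.trivial_apply]
    exact (PiTensorProduct.constantBaseRingEquiv_tprod _).trans
      ((Equiv.prod_comp (trans (ψ γ).k).symm v).trans
        (PiTensorProduct.constantBaseRingEquiv_tprod _).symm)
  exact LinearMap.congr_fun this z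

theorem van_Gamma (ψ : Γ →* Wr p G) (hψ : Function.Injective ψ) {T : Γ}
    (hc : Cyc p ((Wr.deg p G).comp ψ) T) {r : S → S → Prop}
    (hr : Rel Γ r) (hfix : ∀ γ : Γ, γ ^ p = 1 → ∃ s : S, γ • s = s)
    (htor : ∀ γ : Γ, γ ^ p = 1 → ∀ s : S, r (γ • s) s → γ • s = s) {m : ℕ}
    (hC : ∀ (V : Type) [AddCommGroup V] [Module κ V] (τ : Representation κ Γ V),
      Van τ r (fun γ => (Wr.deg p G).comp ψ γ = 1) m)
    {D : ℕ} (hD : Res D (Representation.trivial κ G κ)) :
    ∃ j, Van (Representation.trivial κ Γ κ) r (fun _ => True) j := by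
  have key : ∀ (n : ℕ) (K : Type) [AddCommGroup K] [Module κ K] (σ : Representation κ G K),
      Res n σ → ∃ j, Van (TIr ψ σ) r (fun _ => True) j := by
    intro n
    induction n with
    | zero =>
      rintro K _ _ σ ⟨B, i, q, hi, hq, hqi⟩
      refine ⟨3, (van_TI_free ψ hψ hr hfix htor B).retract (TIm p i) (TIm p q)
        (TIm_equi' ψ hi) (TIm_equi' ψ hq) fun z => ?_⟩
      have : TIm p q ∘ₗ TIm p i = LinearMap.id := by
        ext v
        simp [TIm_tprod, hqi]
      exact LinearMap.congr_fun this z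
    | succ n ih =>
      rintro K _ _ σ ⟨B, f, hf, hs, hR⟩
      obtain ⟨j, hj⟩ := ih _ _ hR
      exact ⟨max j (max m 3) + 1, van_TI_step ψ hc hr _ σ f hf hs
        (fun V _ _ τ => (hC V τ).mono (by omega)) (fun i hi => hj i (by omega))
        ((van_TI_free ψ hψ hr hfix htor B).mono (by omega))⟩
  obtain ⟨j, hj⟩ := key D κ _ hD
  exact ⟨j, van_of_TI_trivial ψ hj⟩

end Pool.Agent.MP_f7db47_al.Cv

end

section

namespace Pool.Agent.MP_f7db47_al.Cv

section
variable {κ : Type*} [CommRing κ] {p : ℕ} [NeZero p] {G : Type*} [Group G] {g : G}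
  {X : Om p G → Wr p G}

theorem DMain_Gd (n : ℕ) {z : List (Pw p G) →₀ (Om p G →₀ κ)} (hz : z ∈ Gd κ n) :
    Phi_map κ g X z ∈ Gd κ n := by
  refine Phi_mem (fun l hl ω a => ?_) hz
  by_cases h : Phi_Orb p g ω
  · rw [Phi_pos X l h]
    exact single_mem_Gd (by rw [length_smul]; exact hl) a
  · rw [Phi_neg X l h]
    exact Submodule.zero_mem _

theorem DMain_J (hX : ∀ ω, Phi_Orb p g ω → (X ω).k = 0 ∧ X ω • ω = Om.cst p g)
    {z : List (Pw p G) →₀ (Om p G →₀ κ)}
    (hz : z ∈ (Jp (ER κ p G) fun w => w.k = 0) ⊔ OnO κ fun ω : Om p G => ¬ Phi_Orb p g ω) :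
    Phi_map κ g X z ∈ Jp (pr (List (Pw p G)) (Representation.trivial κ (Gam p g) κ))
      fun γ => GamPi p g γ = 1 := by
  obtain ⟨a, ha, b, hb, rfl⟩ := Submodule.mem_sup.1 hz
  rw [map_add]
  refine Submodule.add_mem _ (Jp_le (fun u v hu => ?_) ha) (OnO_le (fun l ω a h => ?_) hb)
  · refine Phi_mem' (f := Phi_map κ g X ∘ₗ pr (List (Pw p G)) (OmR κ p G) u - Phi_map κ g X)
      (fun l ω a => ?_) v
    obtain ⟨γ, h1, h2⟩ := Phi_tr hX u l ω a
    rw [LinearMap.sub_apply, LinearMap.comp_apply, h2]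
    exact mem_Jp _ (P := fun γ => GamPi p g γ = 1) ((GamPi_eq_one γ).2 (h1.trans hu)) _
  · rw [Phi_neg X l h]
    exact Submodule.zero_mem _

theorem DMain_th (hX : ∀ ω, Phi_Orb p g ω → (X ω).k = 0 ∧ X ω • ω = Om.cst p g) (n : ℕ)
    (z : List (Pw p G) →₀ (Om p G →₀ κ)) :
    Phi_map κ g X (th (ER κ p G) (Wr.sh p G) p n z) -
      th (pr (List (Pw p G)) (Representation.trivial κ (Gam p g) κ)) (GamT p g) p n
        (Phi_map κ g X z) ∈
      Jp (pr (List (Pw p G)) (Representation.trivial κ (Gam p g) κ))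
        fun γ => GamPi p g γ = 1 := by
  refine map_th (fun w hw => Desc_pr_Jp _ _ hw) (fun v => ?_) p n z
  refine Phi_mem' (f := Phi_map κ g X ∘ₗ pr (List (Pw p G)) (OmR κ p G) (Wr.sh p G) -
    pr (List (Pw p G)) (Representation.trivial κ (Gam p g) κ) (GamT p g) ∘ₗ Phi_map κ g X)
    (fun l ω a => ?_) v
  obtain ⟨γ, h1, h2⟩ := Phi_tr hX (Wr.sh p G) l ω a
  rw [LinearMap.sub_apply, LinearMap.comp_apply, LinearMap.comp_apply, h2]
  have := mem_Jp (pr (List (Pw p G)) (Representation.trivial κ (Gam p g) κ))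
    (P := fun γ => GamPi p g γ = 1) (h := γ * (GamT p g)⁻¹)
    ((GamPi_eq_one _).2 (by
      change (γ : Wr p G).k + -(Wr.sh p G).k = 0
      rw [h1, add_neg_cancel]))
    (pr (List (Pw p G)) (Representation.trivial κ (Gam p g) κ) (GamT p g)
      (Phi_map κ g X (Finsupp.single l (Finsupp.single ω a))))
  rwa [← Module.End.mul_apply, ← map_mul, inv_mul_cancel_right] at this

/-- The functional on the chains of the stabiliser. -/
noncomputable def DMain_lam (p : ℕ) (F : List G → G → κ) (g : G) :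
    (List (Pw p G) →₀ κ) →ₗ[κ] κ :=
  LamW p F ∘ₗ Em (κ := κ) (Finsupp.lsingle (Om.cst p g))

omit [NeZero p] in
theorem DMain_lam_single (F : List G → G → κ) (L : List (Pw p G)) (a : κ) :
    DMain_lam p F g (Finsupp.single L a) = a * lamv F L (Om.cst p g) := by
  rw [DMain_lam, LinearMap.comp_apply, Em_single, Finsupp.lsingle_apply, LamW_single]

theorem DMain_lam_Phi {F : List G → G → κ} (hF : Coc F g)
    (hX : ∀ ω, Phi_Orb p g ω → (X ω).k = 0 ∧ X ω • ω = Om.cst p g)
    (z : List (Pw p G) →₀ (Om p G →₀ κ)) : DMain_lam p F g (Phi_map κ g X z) = LamW p F z := by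
  have := Phi_mem' (f := DMain_lam p F g ∘ₗ Phi_map κ g X - LamW p F) (N := ⊥) (fun l ω a => by
    rw [Submodule.mem_bot, LinearMap.sub_apply, LinearMap.comp_apply, LamW_single, sub_eq_zero]
    by_cases h : Phi_Orb p g ω
    · rw [Phi_pos X l h, DMain_lam_single, ← (hX ω h).2, lamv_smul hF]
    · rw [Phi_neg X l h, map_zero, lamv_off hF l h, mul_zero]) z
  rwa [Submodule.mem_bot, LinearMap.sub_apply, sub_eq_zero] at this

theorem DMain_lam_inv {F : List G → G → κ} (hF : Coc F g) (γ : Gam p g)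
    (z : List (Pw p G) →₀ κ) :
    DMain_lam p F g (pr (List (Pw p G)) (Representation.trivial κ (Gam p g) κ) γ z) =
      DMain_lam p F g z := by
  induction z using Finsupp.induction_linear with
  | zero => simp
  | add a b ha hb => simp only [map_add, ha, hb]
  | single L a =>
    rw [pr_single, DMain_lam_single, DMain_lam_single,
      ← lamv_smul hF (γ : Wr p G) L (Om.cst p g), MulAction.mem_stabilizer_iff.1 γ.2]
    rfl

end

theorem wmain {p : ℕ} [Fact p.Prime] {G : Type} [Group G] {g : G} {D : ℕ}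
    (hD : Res D (Representation.trivial (ZMod p) (Subgroup.centralizer ({g ^ p} : Set G))
      (ZMod p)))
    {F : List G → G → ZMod p} (hF : Coc F g)
    (Y : ℕ → List (Pw p G) →₀ (Om p G →₀ ZMod p)) (hG : ∀ n, Y n ∈ Gd (ZMod p) n)
    (h1 : bd (ZMod p) (Y 1) - Y 0 ∈ (Jp (ER (ZMod p) p G) fun w => w.k = 0) ⊔
      OnO (ZMod p) fun ω : Om p G => ¬ Phi_Orb p g ω)
    (h2 : ∀ n, 1 ≤ n → n < D + 3 →
      bd (ZMod p) (Y (n + 1)) - th (ER (ZMod p) p G) (Wr.sh p G) p n (Y n) ∈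
        (Jp (ER (ZMod p) p G) fun w => w.k = 0) ⊔
          OnO (ZMod p) fun ω : Om p G => ¬ Phi_Orb p g ω) :
    LamW p F (Y 0) = 0 := by
  have hpp : p.Prime := Fact.out
  have h0 : ((p : ℕ) : ZMod p) = 0 := ZMod.natCast_self p
  have hnt : ∀ t : Subgroup.centralizer ({g ^ p} : Set G), t ^ p = 1 → t = 1 :=
    no_torsion hpp h0 hD
  obtain ⟨X, hX⟩ := Phi_choice p g
  obtain ⟨φ, hφ⟩ := Gam_ker (p := p) g
  have : Nonempty (Pw p G) := ⟨fun _ => 1⟩
  have hC : ∀ (V : Type) [AddCommGroup V] [Module (ZMod p) V]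
      (σ : Representation (ZMod p) (Gam p g) V),
      Van σ (GamR p g) (fun γ => GamPi p g γ = 1) (D + 3) := by
    intro V _ _ σ
    exact (Van_subgroup σ (GamR p g) (GamPi p g).ker (D + 3)).1
      (vanC hD φ hφ ((Gam_rel g).subgroup _) _)
  obtain ⟨m₁, hΓ⟩ := van_Gamma (GamPsi p g) (GamPsi_injective g) (Gam_cyc g) (Gam_rel g)
    (Gam_fix g hnt) (Gam_tor g hnt) hC hD
  have e : ∀ a b, Phi_map (ZMod p) g X (a - b) =
      Phi_map (ZMod p) g X a - Phi_map (ZMod p) g X b := fun a b => map_sub _ a b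
  obtain ⟨b, f, hf, hb⟩ := descend (Gam_cyc g) (Gam_rel g)
    (Representation.trivial (ZMod p) (Gam p g) (ZMod p))
    (fun n => Phi_map (ZMod p) g X (Y n)) (D + 3) m₁
    (by omega) (fun n => DMain_Gd n (hG n))
    (by rw [← Phi_bd, ← e]; exact DMain_J hX h1)
    (fun n a1 a2 => by
      have a3 := DMain_J hX (h2 n a1 a2)
      rw [e] at a3
      have a4 := Submodule.add_mem _ a3 (DMain_th hX n (Y n))
      rwa [sub_add_sub_cancel, Phi_bd] at a4)
    (hC _ _) hΓ
  have z1 := Jp_le (f := DMain_lam p F g) (N := ⊥) (fun γ v _ => by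
    rw [DMain_lam_inv hF, sub_self]; exact Submodule.zero_mem _) hb
  have z2 : DMain_lam p F g (NT (pr (List (Pw p G))
      (Representation.trivial (ZMod p) (Gam p g) (ZMod p))) (GamT p g) p b) = 0 := by
    rw [NT_apply, map_sum]
    simp only [DMain_lam_inv hF]
    rw [Finset.sum_const, Finset.card_range, nsmul_eq_mul, h0, zero_mul]
  have z3 : DMain_lam p F g (bd (ZMod p) f) = 0 := by
    have := map_supported (f := DMain_lam p F g ∘ₗ bd (ZMod p)) (N := ⊥) (fun L hL a => by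
      rw [Submodule.mem_bot, LinearMap.comp_apply, DMain_lam, LinearMap.comp_apply, Em_bd,
        Em_single]
      exact LamW_bd hF hL a) hf
    exact this
  rwa [Submodule.mem_bot, map_sub, map_sub, z2, z3, sub_zero, sub_zero,
    DMain_lam_Phi hF hX] at z1

end Pool.Agent.MP_f7db47_al.Cv

end
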