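import Pool.Agent.Mg.Ff7db47a.G7e969c
import Pool.Agent.Mg.Ff7db47a.G5b1285
import Pool.Agent.Mg.Ff7db47a.G9f3309
import Pool.Agent.Mg.Ff7db47a.G9fa3e8
import Mathlib

section

namespace Pool.Agent.MP_f7db47_al.Cv

section Psi
variable {κ : Type*} [CommRing κ] {p : ℕ} {U : Type*}

/-- Bilinear extension. -/
noncomputable def Psi_B (f : List (ZMod p) → List U → (List (Pw p U) →₀ κ)) :
    (List (ZMod p) →₀ κ) →ₗ[κ] (List U →₀ κ) →ₗ[κ] (List (Pw p U) →₀ κ) :=
  Finsupp.linearCombination κ fun a => Finsupp.linearCombination κ (f a)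

theorem Psi_B_single (f : List (ZMod p) → List U → (List (Pw p U) →₀ κ)) (a : List (ZMod p))
    (c : κ) (l : List U) (d : κ) :
    Psi_B f (Finsupp.single a c) (Finsupp.single l d) = c • d • f a l := by
  rw [Psi_B, Finsupp.linearCombination_single, LinearMap.smul_apply,
    Finsupp.linearCombination_single]

theorem Psi_B_mem {f : List (ZMod p) → List U → (List (Pw p U) →₀ κ)}
    {N : Submodule κ (List (Pw p U) →₀ κ)} {A : Set (List (ZMod p))} {B : Set (List U)}
    (h : ∀ a ∈ A, ∀ l ∈ B, f a l ∈ N) {x : List (ZMod p) →₀ κ} {y : List U →₀ κ}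
    (hx : x ∈ Finsupp.supported κ κ A) (hy : y ∈ Finsupp.supported κ κ B) : Psi_B f x y ∈ N :=
  map_supported (f := (Psi_B f).flip y) (fun a ha c => map_supported (f := Psi_B f _)
    (fun l hl d => by
      rw [Psi_B_single]
      exact N.smul_mem _ (N.smul_mem _ (h a ha l hl))) hy) hx

theorem Psi_ext {W : Type*} [AddCommGroup W] [Module κ W] {A : Set (List (ZMod p))}
    {f g : (List (ZMod p) →₀ κ) →ₗ[κ] (List U →₀ κ) →ₗ[κ] W}
    (h : ∀ a ∈ A, ∀ l, f (Finsupp.single a 1) (Finsupp.single l 1) =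
      g (Finsupp.single a 1) (Finsupp.single l 1)) {x : List (ZMod p) →₀ κ}
    (hx : x ∈ Finsupp.supported κ κ A) (y : List U →₀ κ) : f x y = g x y := by
  have : f x = g x := eq_on_supported (fun a ha c => Finsupp.lhom_ext fun l d => by
    rw [← Finsupp.smul_single_one a c, ← Finsupp.smul_single_one l d]
    simp only [map_smul, LinearMap.smul_apply, h a ha l]) hx
  rw [this]

theorem Psi_univ (x : List (ZMod p) →₀ κ) : x ∈ Finsupp.supported κ κ Set.univ :=
  fun _ _ => trivial

theorem Psi_B_map (f : List (ZMod p) → List U → (List (Pw p U) →₀ κ))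
    (g : (List (Pw p U) →₀ κ) →ₗ[κ] (List (Pw p U) →₀ κ)) (x : List (ZMod p) →₀ κ)
    (y : List U →₀ κ) : g (Psi_B f x y) = Psi_B (fun a l => g (f a l)) x y :=
  Psi_ext (f := (Psi_B f).compr₂ g) (fun a _ l => by simp [Psi_B_single]) (Psi_univ x) y

theorem Psi_B_sub (f g : List (ZMod p) → List U → (List (Pw p U) →₀ κ))
    (x : List (ZMod p) →₀ κ) (y : List U →₀ κ) :
    Psi_B (fun a l => f a l - g a l) x y = Psi_B f x y - Psi_B g x y := by
  rw [eq_sub_iff_add_eq]
  exact Psi_ext (f := Psi_B (fun a l => f a l - g a l) + Psi_B g)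
    (fun a _ l => by simp [Psi_B_single]) (Psi_univ x) y

/-- The value on the boundary. -/
noncomputable def Psi_W (f : List (ZMod p) → List U → (List (Pw p U) →₀ κ))
    (a : List (ZMod p)) (l : List U) : List (Pw p U) →₀ κ :=
  Psi_B f (bd κ (Finsupp.single a 1)) (Finsupp.single l 1) +
    (-1 : κ) ^ a.length • Psi_B f (Finsupp.single a 1) (bd κ (Finsupp.single l 1))

theorem Psi_B_W (f : List (ZMod p) → List U → (List (Pw p U) →₀ κ)) {k : ℕ}
    {x : List (ZMod p) →₀ κ} (hx : x ∈ Finsupp.supported κ κ {a : List (ZMod p) | a.length = k})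
    (y : List U →₀ κ) :
    Psi_B (Psi_W f) x y = Psi_B f (bd κ x) y + (-1 : κ) ^ k • Psi_B f x (bd κ y) :=
  Psi_ext (g := Psi_B f ∘ₗ bd κ + (-1 : κ) ^ k • (Psi_B f).compl₂ (bd κ))
    (fun a (ha : a.length = k) l => by
      rw [Psi_B_single, one_smul, one_smul, Psi_W, ha]
      rfl) hx y

/-- The homotopy. -/
noncomputable def Psi_f (κ : Type*) [CommRing κ] :
    ℕ → List (ZMod p) → List U → (List (Pw p U) →₀ κ)
  | 0 => fun a l => match a with
    | [] => Finsupp.single (l.map (cstP p)) 1
    | _ :: _ => 0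
  | n + 1 => fun a l => match a, l with
    | [], l => Finsupp.single (l.map (cstP p)) 1
    | _ :: _, [] => 0
    | i :: a, u :: l => hh κ i u (Psi_W (Psi_f κ n) (i :: a) (u :: l))

theorem Psi_f_nil (n : ℕ) (l : List U) :
    Psi_f κ n ([] : List (ZMod p)) l = Finsupp.single (l.map (cstP p)) 1 := by
  cases n <;> rfl

theorem Psi_f_nil' (n : ℕ) (i : ZMod p) (a : List (ZMod p)) :
    Psi_f κ n (i :: a) ([] : List U) = 0 := by
  cases n <;> rfl

theorem Psi_f_cons (n : ℕ) (i : ZMod p) (a : List (ZMod p)) (u : U) (l : List U) :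
    Psi_f κ (n + 1) (i :: a) (u :: l) = hh κ i u (Psi_W (Psi_f κ n) (i :: a) (u :: l)) := rfl

theorem Psi_B_nil (n : ℕ) (y : List U →₀ κ) :
    Psi_B (Psi_f κ n) (Finsupp.single ([] : List (ZMod p)) 1) y = lm κ (cstP p) y := by
  induction y using Finsupp.induction_linear with
  | zero => simp
  | add a b ha hb => simp only [map_add, ha, hb]
  | single l d => rw [Psi_B_single, Psi_f_nil, lm_single]; simp

theorem Psi_Gd (n : ℕ) (a : List (ZMod p)) (l : List U) : Psi_f κ n a l ∈ Gd κ a.length := by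
  induction n generalizing a l with
  | zero =>
    cases a with
    | nil => exact mem_Gd_zero _
    | cons i a => exact Submodule.zero_mem _
  | succ n ih =>
    cases a with
    | nil => exact mem_Gd_zero _
    | cons i a =>
      cases l with
      | nil => exact Submodule.zero_mem _
      | cons u l =>
        rw [Psi_f_cons]
        refine hh_Gd _ _ (Submodule.add_mem _ ?_ (Submodule.smul_mem _ _ ?_))
        · refine Psi_B_mem (B := Set.univ) (fun a' (h : _ ∧ _) l' _ => ?_) (bd_single_mem _ _)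
            fun _ _ => trivial
          have e : a'.length = a.length := by simpa using h.2
          exact e ▸ ih a' l'
        · exact Psi_B_mem (A := {i :: a}) (B := Set.univ)
            (fun a' (h : a' = i :: a) l' _ => Gd_anti (Nat.le_succ _) (h ▸ ih a' l'))
            (Finsupp.single_mem_supported _ _ rfl) fun _ _ => trivial

theorem Psi_sparse [NeZero p] (E : Set U) (n : ℕ) (a : List (ZMod p)) (l : List U)
    (hn : a.length + l.length = n + 1) (hl : ∀ u ∈ l, u ∈ E) :
    Psi_W (Psi_f κ n) a l - bd κ (Psi_f κ (n + 1) a l) ∈ Sparse κ E (2 * (n + 1)) := by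
  induction n generalizing a l with
  | zero =>
    cases a with
    | nil =>
      rw [Psi_W, bd_nil, map_zero, LinearMap.zero_apply, Psi_B_nil, lm_bd, lm_single, Psi_f_nil]
      simp
    | cons i a =>
      obtain rfl : l = [] := List.length_eq_zero_iff.1 (by simp at hn; omega)
      obtain rfl : a = [] := List.length_eq_zero_iff.1 (by simpa using hn)
      rw [Psi_W, bd_nil, map_zero, smul_zero, add_zero, Psi_f_nil', map_zero, sub_zero,
        bd_single_cons, bd_nil, map_zero, sub_zero, Psi_B_nil, lm_single]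
      exact nil_mem_Sparse _ _ _
  | succ m ih =>
    cases a with
    | nil =>
      rw [Psi_W, bd_nil, map_zero, LinearMap.zero_apply, Psi_B_nil, lm_bd, lm_single, Psi_f_nil]
      simp
    | cons i a =>
      cases l with
      | nil =>
        rw [Psi_W, bd_nil, map_zero, smul_zero, add_zero, Psi_f_nil', map_zero, sub_zero]
        refine Psi_B_mem (B := {[]}) (fun a' (h : _ ∧ _) l' (hl' : l' = []) => ?_)
          (bd_single_mem _ _) (Finsupp.single_mem_supported _ _ rfl)
        cases a' with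
        | nil =>
          have := h.2
          simp only [List.length_cons, List.length_nil] at this hn
          omega
        | cons i' a' =>
          rw [hl', Psi_f_nil']
          exact Submodule.zero_mem _
      | cons u l =>
        rw [Psi_f_cons, hh_bd, sub_sub_cancel, show 2 * (m + 1 + 1) = 2 * (m + 1) + 2 by ring]
        refine hh_sparse i (hl u (by simp)) ?_
        have e : ∀ x y, bd κ (Psi_B (Psi_f κ (m + 1)) x y) =
            Psi_B (Psi_W (Psi_f κ m)) x y - Psi_B (fun (a : List (ZMod p)) (l : List U) =>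
              Psi_W (Psi_f κ m) a l - bd κ (Psi_f κ (m + 1) a l)) x y := by
          intro x y
          rw [Psi_B_sub, Psi_B_map, sub_sub_cancel]
        have hx1 : bd κ (Finsupp.single (i :: a) (1 : κ)) ∈
            Finsupp.supported κ κ {a' : List (ZMod p) | a'.length = a.length} :=
          Finsupp.supported_mono (fun a' (h : _ ∧ _) => by simpa using h.2) (bd_single_mem _ _)
        have hx2 : Finsupp.single (i :: a) (1 : κ) ∈
            Finsupp.supported κ κ {a' : List (ZMod p) | a'.length = a.length + 1} :=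
          Finsupp.single_mem_supported _ _ rfl
        have s1 := Psi_B_mem (N := Sparse κ E (2 * (m + 1))) (B := {u :: l})
          (fun a' (h : a'.length = a.length) l' (hl' : l' = u :: l) =>
            ih a' l' (by rw [h, hl']; simp at hn ⊢; omega) (hl' ▸ hl)) hx1
          (Finsupp.single_mem_supported κ (1 : κ) rfl)
        have s2 := Psi_B_mem (N := Sparse κ E (2 * (m + 1)))
          (fun a' (h : a'.length = a.length + 1) l' (hl' : _ ∧ _) =>
            ih a' l' (by have := hl'.2; simp at hn this; omega)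
              fun x hx => hl x (hl'.1.subset hx)) hx2 (bd_single_mem (u :: l) (1 : κ))
        rw [Psi_W, map_add, map_smul, e, e, Psi_B_W _ hx1, Psi_B_W _ hx2, bd_bd, bd_bd]
        have := Submodule.neg_mem _ (Submodule.add_mem _ s1
          (Submodule.smul_mem _ ((-1 : κ) ^ (a.length + 1)) s2))
        convert this using 1
        simp only [map_zero, LinearMap.zero_apply, List.length_cons, pow_succ]
        module

theorem Psi_equi [Group U] (w : Wr p U) (u : U) (hw : ∀ i, w.x i = u) (n : ℕ)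
    (x : List (ZMod p) →₀ κ) (y : List U →₀ κ) :
    LR κ p U w (Psi_B (Psi_f κ n) x y) =
      Psi_B (Psi_f κ n) (pr (List (ZMod p)) (Representation.trivial κ (Wr p U) κ) w x)
        (pr (List U) (Representation.trivial κ U κ) u y) := by
  have key : ∀ f : List (ZMod p) → List U → (List (Pw p U) →₀ κ),
      (∀ a l, LR κ p U w (f a l) = f (w • a) (u • l)) → ∀ x y, LR κ p U w (Psi_B f x y) =
        Psi_B f (pr (List (ZMod p)) (Representation.trivial κ (Wr p U) κ) w x)
          (pr (List U) (Representation.trivial κ U κ) u y) := fun f hf x y =>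
    Psi_ext (f := (Psi_B f).compr₂ (LR κ p U w))
      (g := (Psi_B f).compl₁₂ (pr (List (ZMod p)) (Representation.trivial κ (Wr p U) κ) w)
        (pr (List U) (Representation.trivial κ U κ) u))
      (fun a _ l => by simp [Psi_B_single, hf]) (Psi_univ x) y
  have hΔ : ∀ l : List U, LR κ p U w (Finsupp.single (l.map (cstP p)) 1) =
      Finsupp.single ((u • l).map (cstP p)) 1 := by
    intro l
    rw [pr_single, smul_list, smul_list, List.map_map, List.map_map]
    congr 2
    funext v i
    exact congrArg (· * v) (hw i)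
  refine key _ ?_ x y
  clear x y
  induction n with
  | zero =>
    intro a l
    cases a with
    | nil => exact hΔ l
    | cons i a => exact map_zero _
  | succ n ih =>
    intro a l
    cases a with
    | nil => exact hΔ l
    | cons i a =>
      cases l with
      | nil => exact map_zero _
      | cons v l =>
        rw [smul_cons, smul_cons, Psi_f_cons, Psi_f_cons, hh_equi w u hw, Psi_W, Psi_W, map_add,
          map_smul, key _ ih, key _ ih, pr_bd, pr_bd, pr_single, pr_single]
        simp [Wr.smul_pos]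

end Psi

theorem exists_Y2 {κ : Type*} [CommRing κ] {p : ℕ} [NeZero p] {U : Type*} [Group U] (E : Set U)
    (n : ℕ) (z : List U →₀ κ)
    (hz : z ∈ Finsupp.supported κ κ {l : List U | l.length = n + 1 ∧ ∀ u ∈ l, u ∈ E})
    (hc : bd κ z ∈ Jp (pr (List U) (Representation.trivial κ U κ)) fun _ => True) :
    ∃ Y : ℕ → List (Pw p U) →₀ κ, Y 0 = lm κ (cstP p) z ∧ (∀ k, Y k ∈ Gd κ k) ∧
      bd κ (Y 1) - Y 0 ∈ Jp (LR κ p U) Dg ⊔ Sparse κ E (2 * (n + 2)) ∧
      ∀ k, 1 ≤ k → bd κ (Y (k + 1)) - th (LR κ p U) (Wr.sh p U) p k (Y k) ∈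
        Jp (LR κ p U) Dg ⊔ Sparse κ E (2 * (k + n + 2)) := by
  obtain ⟨ε, e0, eL, e1, e2⟩ := exists_eps (κ := κ) (Wr.sh_pow (p := p) (G := U)) (0 : ZMod p)
  have hJ : ∀ m x, Psi_B (Psi_f κ m) x (bd κ z) ∈ Jp (LR κ p U) Dg := fun m x => by
    refine Jp_le (f := Psi_B (Psi_f κ m) x) (fun u y _ => ?_) hc
    have h2 : pr (List (ZMod p)) (Representation.trivial κ (Wr p U) κ) ⟨fun _ => u, 0⟩ x = x := by
      induction x using Finsupp.induction_linear with
      | zero => simp
      | add a b ha hb => rw [map_add, ha, hb]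
      | single a c =>
        rw [pr_single, smul_list]
        simp [Wr.smul_pos]
    have h1 := Psi_equi ⟨fun _ => u, 0⟩ u (fun _ => rfl) m x y
    rw [h2] at h1
    rw [← h1]
    exact mem_Jp _ ⟨rfl, u, fun _ => rfl⟩ _
  have main : ∀ k, bd κ (Psi_B (Psi_f κ (k + 1 + n + 1)) (ε (k + 1)) z) -
      Psi_B (Psi_f κ (k + n + 1)) (bd κ (ε (k + 1))) z ∈
        Jp (LR κ p U) Dg ⊔ Sparse κ E (2 * (k + n + 2)) := by
    intro k
    have s := Psi_B_mem (N := Sparse κ E (2 * (k + n + 1 + 1)))
      (fun a (h : a.length = k + 1) l (hl : _ ∧ _) =>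
        Psi_sparse E (k + n + 1) a l (by rw [h, hl.1]; ring) hl.2) (eL (k + 1)) hz
    rw [Psi_B_sub, Psi_B_W _ (eL (k + 1)), ← Psi_B_map] at s
    have := Submodule.sub_mem _
      (Submodule.mem_sup_left (T := Sparse κ E (2 * (k + n + 1 + 1)))
        (Submodule.smul_mem _ ((-1 : κ) ^ (k + 1)) (hJ (k + n + 1) (ε (k + 1)))))
      (Submodule.mem_sup_right s)
    rw [show k + 1 + n + 1 = k + n + 1 + 1 by ring]
    convert this using 1
    abel
  refine ⟨fun k => Psi_B (Psi_f κ (k + n + 1)) (ε k) z, ?_, fun k => ?_, ?_, fun k hk => ?_⟩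
  · show Psi_B (Psi_f κ (0 + n + 1)) (ε 0) z = _
    rw [e0, Psi_B_nil]
  · exact Psi_B_mem (B := Set.univ) (fun a (h : a.length = k) l _ => h ▸ Psi_Gd _ a l) (eL k)
      fun _ _ => trivial
  · have := main 0
    rw [show bd κ (ε (0 + 1)) = ε 0 from e1] at this
    simpa using this
  · have := main k
    rwa [e2 k hk, ← LinearMap.flip_apply (Psi_B (Psi_f κ (k + n + 1))),
      map_th_eq (ρ := pr (List (ZMod p)) (Representation.trivial κ (Wr p U) κ))
        (σ := LR κ p U) (T := Wr.sh p U) (T' := Wr.sh p U)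
        (f := (Psi_B (Psi_f κ (k + n + 1))).flip z) fun v => by
          rw [LinearMap.flip_apply, LinearMap.flip_apply,
            Psi_equi (Wr.sh p U) 1 (fun _ => rfl), map_one, Module.End.one_apply]] at this

end Pool.Agent.MP_f7db47_al.Cv

end

section

namespace Pool.Agent.MP_f7db47_al.Cv

variable {κ : Type*} [CommRing κ] {R : Type*} [Ring R] [Algebra κ R] {G : Type*} [Group G]
variable {p : ℕ} [NeZero p] {tr : R →ₗ[κ] κ}

section
variable {W : Type*} [AddCommGroup W] [Module κ W] {N N' : Submodule κ W} {a b c d : W}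

theorem DTr_add (h : a - b ∈ N) (h' : c - d ∈ N) : a + c - (b + d) ∈ N :=
  add_sub_add_comm a c b d ▸ N.add_mem h h'

theorem DTr_smul (x : κ) (h : a - b ∈ N) : x • a - x • b ∈ N := smul_sub x a b ▸ N.smul_mem x h

theorem DTr_sup (h : a - b ∈ N) (h' : a ∈ N') : b ∈ N ⊔ N' :=
  sub_sub_cancel a b ▸ sub_mem (Submodule.mem_sup_right h') (Submodule.mem_sup_left h)

end

omit [NeZero p] in
theorem DTr_Ln (L : List (Pw p (MonoidAlgebra R G)ˣ)) (i : ZMod p) :
    QQ κ (col L i) ∈ Ln κ L.length := by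
  have := QQ_Ln (κ := κ) (col L i)
  rwa [col, List.length_map] at this

theorem TrP_bd (z : List (Pw p (MonoidAlgebra R G)ˣ) →₀ κ) :
    TrP κ p tr (bd κ z) = bd κ (TrP κ p tr z) := by
  induction z using Finsupp.induction_linear with
  | zero => simp
  | add a b ha hb => simp only [map_add, ha, hb]
  | single L c =>
    rw [bd_eq_sum, map_sum, TrP_single, map_smul, bd_eq_sum_er κ (mu_Ln _ (DTr_Ln L)),
      Finset.smul_sum]
    refine Finset.sum_congr rfl fun j hj => ?_
    rw [Finset.mem_range] at hj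
    rw [map_smul, TrP_single, smul_comm, mu_er _ (DTr_Ln L) j hj]
    congr 3
    funext i
    rw [QQ_er _ _ (by rwa [col, List.length_map]), col, col, List.eraseIdx_map]

theorem TrP_Gd {m : ℕ} {z : List (Pw p (MonoidAlgebra R G)ˣ) →₀ κ} (hz : z ∈ Gd κ m) :
    TrP κ p tr z ∈ Gd κ m := by
  refine map_supported (W := List (Pw p G) →₀ (Om p G →₀ κ)) (fun L hL c => ?_) hz
  rw [TrP_single]
  exact Submodule.smul_mem _ _ fun l h => le_of_le_of_eq hL (mu_Ln _ (DTr_Ln L) h).symm

theorem TrP_sh (htr : ∀ a b, tr (a * b) = tr (b * a))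
    (z : List (Pw p (MonoidAlgebra R G)ˣ) →₀ κ) :
    TrP κ p tr (LR κ p _ (Wr.sh p _) z) = ER κ p G (Wr.sh p G) (TrP κ p tr z) := by
  induction z using Finsupp.induction_linear with
  | zero => simp
  | add a b ha hb => simp only [map_add, ha, hb]
  | single L c =>
    rw [pr_single, TrP_single, TrP_single, map_smul, mu_sh htr _ (DTr_Ln L)]
    congr 2
    funext i
    rw [col, col, smul_list, List.map_map]
    exact congrArg _ (List.map_congr_left fun s _ => one_smul (MonoidAlgebra R G)ˣ (s (i - 1)))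

theorem TrP_J (htr : ∀ a b, tr (a * b) = tr (b * a))
    {z : List (Pw p (MonoidAlgebra R G)ˣ) →₀ κ} (hz : z ∈ Jp (LR κ p _) Dg) :
    TrP κ p tr z ∈ Jp (ER κ p G) fun w => w.k = 0 := by
  refine Jp_le (W := List (Pw p G) →₀ (Om p G →₀ κ)) (fun w v ⟨hk, u, hu⟩ => ?_) hz
  induction v using Finsupp.induction_linear with
  | zero => simp
  | add a b ha hb =>
    simp only [map_add]
    exact DTr_add (W := List (Pw p G) →₀ (Om p G →₀ κ)) ha hb
  | single L c =>
    have e : ∀ i, col (w • L) i = u • col L i := fun i => by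
      rw [col, col, smul_list, smul_list, List.map_map, List.map_map]
      refine List.map_congr_left fun s _ => ?_
      change w.x i • s (i - w.k) = u • s i
      rw [hu, hk, sub_zero]
    have h := mu_bal htr (fun i => Ra κ (u⁻¹).val (QQ κ (col L i)))
      (fun i => Ra_Ln _ (DTr_Ln L i)) fun _ => u.val
    simp only [← Ra_mul, Units.inv_mul, Ra_one, ← QQ_smul, ← e] at h
    rw [pr_single, TrP_single, TrP_single]
    exact DTr_smul (W := List (Pw p G) →₀ (Om p G →₀ κ)) c h

theorem TrP_sparse (htr : ∀ a b, tr (a * b) = tr (b * a)) {E : Set (MonoidAlgebra R G)ˣ}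
    {A : Set G} (hA : ∀ a ∈ E, ∀ b ∈ E, ∀ c, (a⁻¹ * b).val.coeff c ≠ 0 → c ∈ A) {r : ℕ}
    {z : List (Pw p (MonoidAlgebra R G)ˣ) →₀ κ} (hz : z ∈ Sparse κ E r) :
    TrP κ p tr z ∈ (Jp (ER κ p G) fun w => w.k = 0) ⊔
      OnO κ fun ω : Om p G => Wd A r (oprod p ω) := by
  refine map_supported (W := List (Pw p G) →₀ (Om p G →₀ κ)) (fun L hL c => ?_) hz
  rw [TrP_single]
  refine Submodule.smul_mem _ _ ?_
  cases L with
  | nil =>
    refine Submodule.mem_sup_right ?_
    exact mu_single κ p tr (fun _ => []) (fun _ => (1 : G)) (fun _ => 1) ▸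
      single_mem_OnO _ ⟨[], by simp, by simp, by simp [oprod]⟩ _
  | cons s L =>
    have h := mu_bal htr (fun i => Ra κ (s (i + 1)).val (QQ κ (col (s :: L) i)))
      (fun i => Ra_Ln _ (DTr_Ln _ i)) fun i => ((s i)⁻¹).val
    simp only [← Ra_mul, Units.mul_inv, Ra_one] at h
    have h2 := mu_OnO (tr := tr) A (fun i => jmp (col (s :: L) i ++ [s (i + 1)]))
      (fun i => La κ ((s i)⁻¹).val (Ra κ (s (i + 1)).val (QQ κ (col (s :: L) i))))
      fun i t ω => QQ_supp hA (s i) (col L i) (s (i + 1)) (fun x hx => by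
        obtain ⟨y, hy, rfl⟩ := List.mem_map.1 (show x ∈ col (s :: L) i from hx)
        exact hL.1 y hy i) (hL.1 s List.mem_cons_self _) t ω
    refine DTr_sup (W := List (Pw p G) →₀ (Om p G →₀ κ)) h (OnO_mono ?_ h2)
    exact fun ω ⟨l, a, b, e⟩ => ⟨l, a, b.trans hL.2, e⟩

end Pool.Agent.MP_f7db47_al.Cv

end

section

namespace Pool.Agent.MP_f7db47_al.Cv

/-- A shift invariant sum over all words reduces to the constant words. -/
theorem DEval_sum {p : ℕ} [Fact p.Prime] {X : Type*} (s : Finset X)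
    (F : (ZMod p → X) → ZMod p) (hF : ∀ r, F (fun i => r (i - 1)) = F r) :
    ∑ r ∈ Fintype.piFinset fun _ => s, F r = ∑ x ∈ s, F fun _ => x := by
  classical
  let T : Equiv.Perm (ZMod p → X) :=
    ⟨fun r i => r (i - 1), fun r i => r (i + 1), fun r => funext fun i => by simp,
      fun r => funext fun i => by simp⟩
  have hpow : ∀ (n : ℕ) (r : ZMod p → X) (i : ZMod p), (T ^ n) r i = r (i - n) := by
    intro n
    induction n with
    | zero => intro r i; simp
    | succ n ih =>
      intro r i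
      rw [pow_succ, Equiv.Perm.mul_apply, ih, Nat.cast_succ, ← sub_sub]
      rfl
  have hT : T ^ p = 1 := by
    ext r i
    rw [hpow, ZMod.natCast_self, sub_zero]
    rfl
  have hfree : ∑ r ∈ (Fintype.piFinset fun _ => s).filter (fun r => ¬ T • r = r), F r = 0 := by
    refine Tors_sum T hT _ (fun r hr => ?_) (fun r hr => (Finset.mem_filter.1 hr).2) F hF
    rw [Finset.mem_filter, Fintype.mem_piFinset] at hr ⊢
    exact ⟨fun i => hr.1 (i - 1), fun e => hr.2 (MulAction.injective _ e)⟩
  have hfix : ∀ r : ZMod p → X, T • r = r → r = fun _ => r 0 := by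
    intro r h
    have key : ∀ n : ℕ, r (n : ZMod p) = r 0 := by
      intro n
      induction n with
      | zero => simp
      | succ n ih =>
        have : r ((n : ZMod p) + 1 - 1) = r ((n : ZMod p) + 1) := congrFun h _
        rw [add_sub_cancel_right] at this
        rw [Nat.cast_succ, ← this, ih]
    funext i
    have := key i.val
    rwa [ZMod.natCast_zmod_val] at this
  rw [← Finset.sum_filter_add_sum_filter_not _ fun r => T • r = r, hfree, add_zero]
  refine Finset.sum_nbij' (fun r => r 0) (fun x _ => x) (fun r hr => ?_) (fun x hx => ?_)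
    (fun r hr => (hfix r (Finset.mem_filter.1 hr).2).symm) (fun _ _ => rfl)
    fun r hr => congrArg F (hfix r (Finset.mem_filter.1 hr).2)
  · exact Fintype.mem_piFinset.1 (Finset.mem_filter.1 hr).1 0
  · exact Finset.mem_filter.2 ⟨Fintype.mem_piFinset.2 fun _ => hx, rfl⟩

/-- The first `n` columns of a family of lists. -/
def DEval_zip {p : ℕ} {G : Type*} [One G] (n : ℕ) (t : ZMod p → List G) : List (Pw p G) :=
  (List.range n).map fun j i => (t i).getD j 1

theorem DEval_zip_sh {p : ℕ} {G : Type*} [Group G] (n : ℕ) (t : ZMod p → List G) :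
    DEval_zip n (fun i => t (i - 1)) = Wr.sh p G • DEval_zip n t := by
  rw [smul_list, DEval_zip, DEval_zip, List.map_map]
  refine List.map_congr_left fun j _ => funext fun i => ?_
  exact (one_mul _).symm

theorem DEval_zip_cst {p : ℕ} {G : Type*} [One G] (t : List G) :
    DEval_zip t.length (fun _ : ZMod p => t) = t.map (cstP p) := by
  refine List.ext_getElem (by simp [DEval_zip]) fun j h1 h2 => funext fun i => ?_
  have h3 : j < t.length := by simpa using h2
  simp [DEval_zip, cstP, h3]

theorem DEval_lamv {κ : Type*} [CommRing κ] {p : ℕ} {G : Type*} [Group G] (F : List G → G → κ)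
    (a : G) (t : List G) (c : G) : lamv F ((a :: t).map (cstP p)) (Om.cst p c) = F (a :: t) c := by
  have hper : Per ((a :: t).map (cstP p)) (Om.cst p c) := by
    refine ⟨Wr.sh p G, rfl, ?_, funext fun i => Tors_sh_apply _ i⟩
    rw [smul_list, List.map_map]
    exact List.map_congr_left fun x _ => funext fun i => one_mul x
  have hcol : col ((a :: t).map (cstP p)) 0 = a :: t := by
    rw [col, List.map_map]
    exact List.map_id _
  rw [List.map_cons] at hper hcol ⊢
  rw [lamv, if_pos hper, hcol]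
  exact congrArg _ (mul_inv_cancel_right c a)

theorem DEval_oprod (p : ℕ) {M : Type*} [Monoid M] (x : M) : oprod p (fun _ => x) = x ^ p := by
  rw [oprod, List.ofFn_const, List.prod_replicate]

theorem LamW_mu_const {p : ℕ} [Fact p.Prime] {R : Type*} [Ring R] [Algebra (ZMod p) R]
    {G : Type*} [Group G] {tr : R →ₗ[ZMod p] ZMod p} (htr : ∀ a b, tr (a * b) = tr (b * a))
    {F : List G → G → ZMod p} {g : G} (hF : Coc F g) {m : ℕ}
    (b : List G →₀ MonoidAlgebra R G) (hb : b ∈ Ln (ZMod p) (m + 1)) :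
    LamW p F (mu (ZMod p) p tr fun _ => b) =
      b.sum fun t x => x.coeff.sum fun ω M => F t ω * tr (M ^ p) := by
  classical
  let s := b.support.sigma fun t => (b t).coeff.support
  let φ : (ZMod p → (_ : List G) × G) → ZMod p := fun r =>
    tr (oprod p fun i => (b (r i).1).coeff (r i).2) *
      lamv F (DEval_zip (m + 1) fun i => (r i).1) fun i => (r i).2
  have hlen : ∀ x ∈ s, x.1.length = m + 1 := fun x hx =>
    (Finsupp.mem_supported _ _).1 hb (Finset.mem_sigma.1 hx).1
  have h1 : LamW p F (mu (ZMod p) p tr fun _ => b) = ∑ r ∈ Fintype.piFinset fun _ => s, φ r := by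
    conv_lhs => rw [eq_sum_pairs b]
    rw [MultilinearMap.map_sum_finset, map_sum]
    refine Finset.sum_congr rfl fun r hr => ?_
    rw [mu_single (ZMod p) p tr (fun i => (r i).1) (fun i => (r i).2), LamW_single, zipL,
      hlen _ (Fintype.mem_piFinset.1 hr 0)]
    rfl
  have h2 : ∀ r, φ (fun i => r (i - 1)) = φ r := by
    intro r
    simp only [φ]
    rw [tr_oprod_shift htr fun i => (b (r i).1).coeff (r i).2,
      DEval_zip_sh (m + 1) fun i => (r i).1,
      ← lamv_smul hF (Wr.sh p G) (DEval_zip (m + 1) fun i => (r i).1) fun i => (r i).2]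
    congr 2
    exact funext fun i => (Tors_sh_apply (fun i => (r i).2) i).symm
  rw [h1, DEval_sum s φ h2, Finsupp.sum, Finset.sum_sigma]
  refine Finset.sum_congr rfl fun t ht => Finset.sum_congr rfl fun c hc => ?_
  have h3 : t.length = m + 1 := hlen ⟨t, c⟩ (Finset.mem_sigma.2 ⟨ht, hc⟩)
  simp only [φ]
  rw [DEval_oprod, mul_comm, ← h3, DEval_zip_cst]
  obtain ⟨a, t', rfl⟩ := List.exists_cons_of_length_eq_add_one h3
  exact congrArg (· * _) (DEval_lamv F a t' c)

end Pool.Agent.MP_f7db47_al.Cv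

end

section

namespace Pool.Agent.MP_f7db47_al.Cv

theorem TrP_th {κ : Type*} [CommRing κ] {R : Type*} [Ring R] [Algebra κ R] {G : Type*} [Group G]
    {p : ℕ} [NeZero p] {tr : R →ₗ[κ] κ} (htr : ∀ a b, tr (a * b) = tr (b * a)) (k : ℕ)
    (z : List (Pw p (MonoidAlgebra R G)ˣ) →₀ κ) :
    TrP κ p tr (th (LR κ p (MonoidAlgebra R G)ˣ) (Wr.sh p _) p k z) =
      th (ER κ p G) (Wr.sh p G) p k (TrP κ p tr z) :=
  map_th_eq (W := List (Pw p G) →₀ (Om p G →₀ κ)) (fun v => TrP_sh htr v) p k z

theorem dennis_core {p : ℕ} [Fact p.Prime] {G : Type} [Group G] {g : G} {D : ℕ}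
    (hD : Res D (Representation.trivial (ZMod p) (Subgroup.centralizer ({g ^ p} : Set G))
      (ZMod p)))
    {R : Type*} [Ring R] [Algebra (ZMod p) R] {tr : R →ₗ[ZMod p] ZMod p}
    (htr : ∀ a b, tr (a * b) = tr (b * a)) {F : List G → G → ZMod p} (hF : Coc F g) {n : ℕ}
    {E : Set (MonoidAlgebra R G)ˣ} {A : Set G}
    (hA : ∀ a ∈ E, ∀ b ∈ E, ∀ c, (a⁻¹ * b).val.coeff c ≠ 0 → c ∈ A)
    (hfar : ∀ x, Wd A (2 * (D + n + 4)) x → ¬ IsConj x (g ^ p))
    (z : List (MonoidAlgebra R G)ˣ →₀ ZMod p)
    (hz : z ∈ Finsupp.supported (ZMod p) (ZMod p)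
      {l : List (MonoidAlgebra R G)ˣ | l.length = n + 1 ∧ ∀ u ∈ l, u ∈ E})
    (hc : bd (ZMod p) z ∈ Jp (pr (List (MonoidAlgebra R G)ˣ)
      (Representation.trivial (ZMod p) (MonoidAlgebra R G)ˣ (ZMod p))) fun _ => True) :
    (z.sum fun l c => c * (QQ (ZMod p) l).sum fun t x =>
      x.coeff.sum fun ω M => F t ω * tr (M ^ p)) = 0 := by
  obtain ⟨Y, hY0, hYG, hY1, hY2⟩ := exists_Y2 (p := p) E n z hz hc
  have key : ∀ r, r ≤ 2 * (D + n + 4) → ∀ y ∈ Jp (LR (ZMod p) p (MonoidAlgebra R G)ˣ) Dg ⊔
      Sparse (ZMod p) E r, TrP (ZMod p) p tr y ∈ (Jp (ER (ZMod p) p G) fun w => w.k = 0) ⊔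
        OnO (ZMod p) fun ω : Om p G => ¬ Phi_Orb p g ω := by
    intro r hr y hy
    obtain ⟨a, ha, b, hb, rfl⟩ := Submodule.mem_sup.1 hy
    rw [map_add]
    refine Submodule.add_mem _ (Submodule.mem_sup_left (TrP_J htr ha)) ?_
    obtain ⟨c, hc', d, hd, e⟩ := Submodule.mem_sup.1 (TrP_sparse (p := p) htr hA hb)
    rw [← e]
    refine Submodule.add_mem _ (Submodule.mem_sup_left hc')
      (Submodule.mem_sup_right (OnO_mono (fun ω hω ho => ?_) hd))
    obtain ⟨l, h1, h2, h3⟩ := hω
    exact hfar _ ⟨l, h1, h2.trans hr, h3⟩ (orb_conj ho)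
  have e : ∀ a b : List (Pw p (MonoidAlgebra R G)ˣ) →₀ ZMod p, TrP (ZMod p) p tr (a - b) =
      TrP (ZMod p) p tr a - TrP (ZMod p) p tr b := fun a b => map_sub (TrP (ZMod p) p tr) a b
  have h := wmain hD hF (fun k => TrP (ZMod p) p tr (Y k)) (fun k => TrP_Gd (hYG k))
    (by rw [← TrP_bd, ← e]; exact key _ (by omega) _ hY1)
    (fun k h1 h2 => by
      have h3 := key _ (by omega) _ (hY2 k h1)
      rwa [e, TrP_bd, TrP_th htr] at h3)
  rw [hY0] at h
  rw [← h]
  conv_rhs => rw [← Finsupp.sum_single z, Finsupp.sum, map_sum, map_sum, map_sum]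
  refine Finset.sum_congr rfl fun l hl => ?_
  have hcol : ∀ i : ZMod p, col (l.map (cstP p)) i = l := fun i => by
    rw [col, List.map_map]
    exact List.map_id l
  rw [lm_single, TrP_single, map_smul, smul_eq_mul]
  simp only [hcol]
  rw [LamW_mu_const htr hF (m := n) _ ((hz hl).1 ▸ QQ_Ln l)]

end Pool.Agent.MP_f7db47_al.Cv

end

section

namespace Pool.Agent.MP_f7db47_al.Cv

theorem DConv_getD {α : Type*} (t : List α) (j i : ℕ) (d : α) :
    (t.eraseIdx j).getD i d = if i < j then t.getD i d else t.getD (i + 1) d := by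
  simp only [List.getD_eq_getElem?_getD, List.getElem?_eraseIdx]
  split_ifs <;> rfl

theorem DConv_erase {α : Type*} {n : ℕ} (v : Fin (n + 1) → α) (j : Fin (n + 1)) :
    (List.ofFn v).eraseIdx j = List.ofFn (v ∘ j.succAbove) := by
  have hj := j.2
  refine List.ext_getElem (by simp [List.length_eraseIdx]; omega) fun i h1 h2 => ?_
  rw [List.getElem_eraseIdx]
  simp only [List.getElem_ofFn, Function.comp_apply]
  split_ifs with h
  · rw [Fin.succAbove_of_castSucc_lt _ _ h]
    rfl
  · rw [Fin.succAbove_of_le_castSucc _ _ (not_lt.1 h)]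
    rfl

theorem DConv_smul {G : Type*} [Group G] (h : G) (t : List G) {i : ℕ} (hi : i < t.length) :
    (h • t).getD i 1 = h * t.getD i 1 := by
  rw [List.getD_eq_getElem _ _ hi, List.getD_eq_getElem _ _ (by rwa [length_smul])]
  exact List.getElem_map _

theorem DConv_tel {G : Type*} [Group G] (w : ℕ → G) (n : ℕ) :
    w 0 * (List.ofFn fun j : Fin n => (w j)⁻¹ * w (j + 1)).prod = w n := by
  induction n with
  | zero => simp
  | succ n ih =>
    rw [List.ofFn_succ_last, List.prod_append, ← mul_assoc]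
    simp only [Fin.val_castSucc, ih, Fin.val_last, List.prod_singleton, mul_inv_cancel_left]

theorem DConv_contract {G : Type*} [Group G] (w : ℕ → G) (c : G) {n : ℕ} (j : Fin (n + 1)) :
    Fin.contractNth j.castSucc (· * ·)
        (Fin.cons ((w (n + 1))⁻¹ * c * w 0) fun i : Fin (n + 1) => (w i)⁻¹ * w (i + 1)) =
      Fin.cons ((if n < j then w n else w (n + 1))⁻¹ * c * if 0 < j.val then w 0 else w (0 + 1))
        fun i : Fin n => (if i.val < j then w i else w (i + 1))⁻¹ *
          if i.val + 1 < j then w (i + 1) else w (i + 1 + 1) := by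
  have hj := j.2
  funext k
  refine Fin.cases ?_ (fun i => ?_) k
  · rw [Fin.contractNth, Fin.cons_zero, Fin.castSucc_zero, Fin.cons_zero, Fin.cons_succ,
      if_neg (by omega : ¬ n < j)]
    simp only [Fin.val_zero, Fin.val_castSucc]
    split_ifs with h1 h2
    · rfl
    · rw [mul_assoc, mul_inv_cancel_left]
    · omega
  · rw [Fin.contractNth, Fin.cons_succ, Fin.cons_succ, ← Fin.succ_castSucc, Fin.cons_succ]
    simp only [Fin.val_succ, Fin.val_castSucc]
    split_ifs
    all_goals first | omega | rfl | rw [mul_assoc, mul_inv_cancel_left]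

theorem dI_eq {U : Type} [Group U] (n : ℕ) (z : (Fin (n + 1) → U) →₀ ℤ) :
    (groupHomology.inhomogeneousChains.d (Rep.trivial ℤ U ℤ) n).hom z = dI n z := by
  induction z using Finsupp.induction_linear with
  | zero => rw [map_zero, map_zero]
  | add a b ha hb => rw [map_add, map_add, ha, hb]
  | single u a =>
    rw [dI_single]
    exact groupHomology.inhomogeneousChains.d_single (A := Rep.trivial ℤ U ℤ) n u a

theorem dI_map {U U' : Type*} [Group U] [Group U'] (f : U →* U') (n : ℕ)
    (z : (Fin (n + 1) → U) →₀ ℤ) :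
    dI n (Finsupp.mapDomain (fun u i => f (u i)) z) =
      Finsupp.mapDomain (fun u i => f (u i)) (dI n z) := by
  induction z using Finsupp.induction_linear with
  | zero => simp
  | add a b ha hb => rw [Finsupp.mapDomain_add, map_add, map_add, Finsupp.mapDomain_add, ha, hb]
  | single u a =>
    rw [Finsupp.mapDomain_single, dI_single, dI_single, ← Finsupp.lmapDomain_apply ℤ ℤ, map_add,
      map_sum]
    simp only [map_smul, Finsupp.lmapDomain_apply, Finsupp.mapDomain_single]
    congr 1
    refine Finset.sum_congr rfl fun j _ => ?_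
    congr 2
    exact (Fin.comp_contractNth _ _ (map_mul f) j u).symm

theorem HC_bd (κ : Type*) [CommRing κ] {U : Type*} [Group U] (n : ℕ)
    (z : (Fin (n + 1) → U) →₀ ℤ) :
    bd κ (HC κ (n + 1) z) - HC κ n (dI n z) ∈
      Jp (pr (List U) (Representation.trivial κ U κ)) fun _ => True := by
  induction z using Finsupp.induction_linear with
  | zero => simp
  | add a b ha hb =>
    rw [map_add, map_add, map_add, map_add, add_sub_add_comm]
    exact add_mem ha hb
  | single u a =>
    have h1 : ∀ j : Fin (n + 1), (-1 : κ) ^ (j.succ : ℕ) • Finsupp.single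
        ((List.ofFn (Fin.partialProd u)).eraseIdx (j.succ : Fin (n + 2))) (a : κ) =
        HC κ n ((-1 : ℤ) ^ ((j : ℕ) + 1) • Finsupp.single (Fin.contractNth j (· * ·) u) a) := by
      intro j
      rw [map_smul, HC_single, DConv_erase, Fin.partialProd_contractNth, Fin.val_succ,
        ← Int.cast_smul_eq_zsmul κ, Int.cast_pow, Int.cast_neg, Int.cast_one]
    have h2 : (List.ofFn (Fin.partialProd u)).eraseIdx (0 : Fin (n + 2)) =
        u 0 • List.ofFn (Fin.partialProd fun i : Fin n => u i.succ) := by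
      rw [DConv_erase, smul_list, List.map_ofFn, Fin.succAbove_zero]
      exact congrArg _ (funext fun j => Fin.partialProd_succ' u j)
    rw [HC_single, bd_eq_sum, List.length_ofFn, Finset.sum_range, Fin.sum_univ_succ, dI_single,
      map_add, map_sum, Finset.sum_congr rfl fun j _ => h1 j, add_sub_add_right_eq_sub, h2,
      HC_single, Fin.val_zero, pow_zero, one_smul]
    have h3 := mem_Jp (pr (List U) (Representation.trivial κ U κ)) (P := fun _ => True)
      (h := u 0) trivial
      (Finsupp.single (List.ofFn (Fin.partialProd fun i : Fin n => u i.succ)) (a : κ))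
    rw [pr_single] at h3
    exact h3

theorem coc_toF (κ : Type*) [CommRing κ] {G : Type*} [Group G] {n : ℕ}
    {φ : (Fin (n + 1) → G) → ℤ} (hφ : HCocycle φ) {g : G}
    (hs : ∀ t, φ t ≠ 0 → IsConj (List.ofFn t).prod g) :
    Coc (fun t c => ((toF φ t c : ℤ) : κ)) g where
  inv h t c := by
    congr 1
    unfold toF
    rw [length_smul]
    split_ifs with ht
    · congr 2
      · rw [DConv_smul h t (by omega), DConv_smul h t (by omega)]
        group
      · funext j
        have := j.2
        rw [DConv_smul h t (by omega), DConv_smul h t (by omega)]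
        group
    · rfl
  supp t c h := by
    have h1 : toF φ t c ≠ 0 := fun e => h (by rw [e, Int.cast_zero])
    unfold toF at h1
    split_ifs at h1 with ht
    · have h2 := hs _ h1
      rw [List.ofFn_cons, List.prod_cons, mul_assoc, DConv_tel (fun i => t.getD i 1)] at h2
      exact (isConj_iff.2 ⟨(t.getD n 1)⁻¹, by rw [inv_inv]⟩).trans h2
    · exact absurd rfl h1
  nil c := by simp [toF]
  coc t c := by
    rw [bd_eq_sum, map_sum]
    simp only [map_smul, Finsupp.linearCombination_single, one_mul, smul_eq_mul]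
    by_cases ht : t.length = n + 2
    · have h1 := congrArg (Int.cast : ℤ → κ) (hφ (Fin.cons ((t.getD (n + 1) 1)⁻¹ * c * t.getD 0 1)
        fun i : Fin (n + 1) => (t.getD i 1)⁻¹ * t.getD (i + 1) 1))
      have h2 : ∀ j < n + 2, (t.eraseIdx j).length = n + 1 := fun j hj => by
        rw [List.length_eraseIdx, if_pos (by omega)]
        omega
      rw [ht, Finset.sum_range_succ, Finset.sum_range, ← Int.cast_zero (R := κ), ← h1]
      push_cast
      congr 1
      · refine Finset.sum_congr rfl fun j _ => ?_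
        have := j.2
        rw [DConv_contract (fun i => t.getD i 1), toF, if_pos (h2 j (by omega))]
        simp only [DConv_getD]
      · rw [toF, if_pos (h2 _ (by omega))]
        congr 4
        · rw [DConv_getD, DConv_getD, if_pos (by omega), if_pos (by omega), Fin.cons_zero,
            ← Fin.succ_last, Fin.cons_succ, Fin.val_last]
          group
        · funext i
          have := i.2
          rw [DConv_getD, DConv_getD, if_pos (by omega), if_pos (by omega), ← Fin.succ_castSucc,
            Fin.cons_succ, Fin.val_castSucc]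
    · refine Finset.sum_eq_zero fun j hj => ?_
      have := Finset.mem_range.1 hj
      rw [toF, if_neg (by rw [List.length_eraseIdx, if_pos this]; omega), Int.cast_zero, mul_zero]

end Pool.Agent.MP_f7db47_al.Cv

end

section

namespace Pool.Agent.MP_f7db47_al.Cv

open Polynomial in
theorem DChar_charpoly {K : Type*} [Field K] (p : ℕ) [Fact p.Prime] [CharP K p] {ι : Type*}
    [Fintype ι] [DecidableEq ι] [Nonempty ι] (M : Matrix ι ι K) :
    (M ^ p).charpoly = M.charpoly.map (frobenius K p) := by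
  apply expand_injective (R := K) (Fact.out : p.Prime).pos
  rw [← map_expand, map_frobenius_expand]
  unfold Matrix.charpoly
  rw [AlgHom.map_det, ← Matrix.coe_detMonoidHom,
    ← (Matrix.detMonoidHom : Matrix ι ι K[X] →* K[X]).map_pow]
  apply congr_arg Matrix.det
  refine matPolyEquiv.injective ?_
  rw [map_pow, Matrix.matPolyEquiv_charmatrix, sub_pow_char_of_commute, ← C_pow]
  · exact (id (matPolyEquiv_eq_X_pow_sub_C p M) :)
  · exact (C M).commute_X

theorem trace_pow_char {K : Type*} [Field K] (p : ℕ) [Fact p.Prime] [CharP K p] {ι : Type*}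
    [Fintype ι] [DecidableEq ι] (M : Matrix ι ι K) :
    Matrix.trace (M ^ p) = Matrix.trace M ^ p := by
  cases isEmpty_or_nonempty ι
  · simp [Matrix.trace, (Fact.out : p.Prime).ne_zero]
  rw [Matrix.trace_eq_neg_charpoly_coeff, Matrix.trace_eq_neg_charpoly_coeff, DChar_charpoly,
    Polynomial.coeff_map, ← map_neg, frobenius_def]

theorem DChar_constr {S : Set (PrimeSpectrum ℤ)} (hS : Topology.IsConstructible S) :
    ∃ N : ℕ, ∀ p : ℕ, p.Prime → N < p → ∀ P : PrimeSpectrum ℤ, (p : ℤ) ∈ P.asIdeal →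
      (P ∈ S ↔ (⊥ : PrimeSpectrum ℤ) ∈ S) := by
  induction hS using Topology.IsConstructible.empty_union_induction with
  | open_retrocompact U hU _ =>
    by_cases h : (⊥ : PrimeSpectrum ℤ) ∈ U
    · obtain ⟨_, ⟨d, rfl⟩, h1, h2⟩ :=
        PrimeSpectrum.isTopologicalBasis_basic_opens.exists_subset_of_mem_open h hU
      have hd : d ≠ 0 := fun e => h1 (by rw [e]; exact Ideal.zero_mem _)
      refine ⟨d.natAbs, fun p hp hN P hP => ⟨fun _ => h, fun _ => h2 fun hdP => ?_⟩⟩
      have hc : IsCoprime (p : ℤ) d := by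
        rw [Int.isCoprime_iff_gcd_eq_one, Int.gcd, Int.natAbs_natCast]
        exact (Nat.Prime.coprime_iff_not_dvd hp).2 fun h =>
          absurd (Nat.le_of_dvd (Int.natAbs_pos.2 hd) h) (not_le.2 hN)
      obtain ⟨u, v, huv⟩ := hc
      refine P.isPrime.ne_top ((Ideal.eq_top_iff_one _).2 ?_)
      rw [← huv]
      exact P.asIdeal.add_mem (P.asIdeal.mul_mem_left _ hP) (P.asIdeal.mul_mem_left _ hdP)
    · refine ⟨0, fun p _ _ P _ => ⟨fun hP => ?_, fun h' => absurd h' h⟩⟩
      exact ((PrimeSpectrum.le_iff_specializes _ _).1 bot_le).mem_open hU hP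
  | union s _ t _ hs ht =>
    obtain ⟨N, hN⟩ := hs
    obtain ⟨N', hN'⟩ := ht
    refine ⟨max N N', fun p hp h P hP => ?_⟩
    rw [Set.mem_union, Set.mem_union, hN p hp (lt_of_le_of_lt (le_max_left _ _) h) P hP,
      hN' p hp (lt_of_le_of_lt (le_max_right _ _) h) P hP]
  | compl s _ hs =>
    obtain ⟨N, hN⟩ := hs
    exact ⟨N, fun p hp h P hP => not_congr (hN p hp h P hP)⟩

theorem exists_charp (k : Type) [CommRing k] [IsReduced k] [IsAddTorsionFree k]
    [Algebra.FiniteType ℤ k] (a : k) (ha : a ≠ 0) :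
    ∃ N : ℕ, ∀ p : ℕ, p.Prime → N < p →
      ∃ (K : Type) (_ : Field K) (f : k →+* K), CharP K p ∧ f a ≠ 0 := by
  let B := Localization.Away a
  have : Algebra.FinitePresentation k B := IsLocalization.Away.finitePresentation a
  have : Algebra.FiniteType ℤ B := Algebra.FiniteType.trans (S := k) inferInstance inferInstance
  have hfp : Algebra.FinitePresentation ℤ B := Algebra.FinitePresentation.of_finiteType.1 this
  obtain ⟨N, hN⟩ := DChar_constr
    (PrimeSpectrum.isConstructible_range_comap (RingHom.finitePresentation_algebraMap.2 hfp))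
  have hinj : Function.Injective (algebraMap ℤ B) := by
    refine (injective_iff_map_eq_zero _).2 fun n hn => ?_
    by_contra hn0
    rw [IsScalarTower.algebraMap_apply ℤ k B,
      IsLocalization.map_eq_zero_iff (Submonoid.powers a)] at hn
    obtain ⟨⟨_, m, rfl⟩, hm⟩ := hn
    have h1 : n • a ^ m = 0 := by
      rw [zsmul_eq_mul, mul_comm]
      simpa using hm
    exact ha (IsReduced.eq_zero a ⟨m, (smul_eq_zero.1 h1).resolve_left hn0⟩)
  have hbot : (⊥ : PrimeSpectrum ℤ) ∈ Set.range (PrimeSpectrum.comap (algebraMap ℤ B)) := by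
    obtain ⟨Q, hQ, e⟩ := (⊥ : Ideal ℤ).exists_comap_eq_of_mem_minimalPrimes_of_injective hinj
      (by rw [IsDomain.minimalPrimes_eq_singleton_bot]; rfl)
    exact ⟨⟨Q, hQ⟩, PrimeSpectrum.ext e⟩
  refine ⟨N, fun p hp h => ?_⟩
  have hpp : (Ideal.span {(p : ℤ)}).IsPrime :=
    (Ideal.span_singleton_prime (by exact_mod_cast hp.ne_zero)).2 (Nat.prime_iff_prime_int.1 hp)
  obtain ⟨Q, hQ⟩ := (hN p hp h ⟨_, hpp⟩ (Ideal.mem_span_singleton_self _)).2 hbot
  have hpQ : (p : B) ∈ Q.asIdeal := by
    have h1 : (p : ℤ) ∈ (PrimeSpectrum.comap (algebraMap ℤ B) Q).asIdeal := by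
      rw [hQ]
      exact Ideal.mem_span_singleton_self _
    rw [PrimeSpectrum.comap_asIdeal, Ideal.mem_comap, map_natCast] at h1
    exact h1
  let g : B →+* Q.asIdeal.ResidueField := algebraMap _ _
  refine ⟨Q.asIdeal.ResidueField, inferInstance, g.comp (algebraMap k B), ?_, ?_⟩
  · have : Fact p.Prime := ⟨hp⟩
    refine (CharP.charP_iff_prime_eq_zero hp).2 ?_
    rw [← map_natCast g]
    exact Ideal.algebraMap_residueField_eq_zero.2 hpQ
  · exact ((IsLocalization.Away.algebraMap_isUnit a).map g).ne_zero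

end Pool.Agent.MP_f7db47_al.Cv

end

section

namespace Pool.Agent.MP_f7db47_al.Cv

section
open Matrix
variable {ι : Type} [Fintype ι] [DecidableEq ι] {R : Type*} [Ring R]

theorem ElemVW_U (a : Matrix ι ι R) :
    fromBlocks (1 : Matrix ι ι R) a 0 (1 : Matrix ι ι R) ∈ Elem (ι ⊕ ι) R := by
  induction a using Matrix.induction_on' with
  | h_zero => rw [fromBlocks_one]; exact one_mem _
  | h_add p q hp hq => simpa [fromBlocks_multiply, add_comm] using mul_mem hp hq
  | h_std_basis i j c =>
    refine Submonoid.subset_closure ⟨.inl i, .inr j, c, Sum.inl_ne_inr, ?_⟩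
    ext (x | x) (y | y) <;> simp [one_apply, single]

theorem ElemVW_L (a : Matrix ι ι R) :
    fromBlocks (1 : Matrix ι ι R) 0 a (1 : Matrix ι ι R) ∈ Elem (ι ⊕ ι) R := by
  induction a using Matrix.induction_on' with
  | h_zero => rw [fromBlocks_one]; exact one_mem _
  | h_add p q hp hq => simpa [fromBlocks_multiply, add_comm] using mul_mem hp hq
  | h_std_basis i j c =>
    refine Submonoid.subset_closure ⟨.inr i, .inl j, c, Sum.inr_ne_inl, ?_⟩
    ext (x | x) (y | y) <;> simp [one_apply, single]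

theorem ElemVW_diag {v w : (Matrix ι ι R)ˣ} {a b : Matrix ι ι R} (hv : v.val = 1 + a * b)
    (hw : w.val = 1 + b * a) : fromBlocks v.val 0 0 w⁻¹.val ∈ Elem (ι ⊕ ι) R := by
  have e : w⁻¹.val = 1 - b * v⁻¹.val * a := by
    refine (Units.inv_eq_of_mul_eq_one_right ?_)
    have : (1 + b * a) * (1 - b * v⁻¹.val * a) = 1 + b * a - b * ((1 + a * b) * v⁻¹.val) * a := by
      noncomm_ring
    rw [hw, this, ← hv, v.mul_inv, mul_one, add_sub_cancel_right]
  have h := mul_mem (mul_mem (ElemVW_L (-(b * v⁻¹.val))) (mul_mem (ElemVW_U a) (ElemVW_L b)))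
    (ElemVW_U (-(v⁻¹.val * a)))
  simp only [fromBlocks_multiply, mul_one, one_mul, mul_zero, zero_mul, add_zero, zero_add, ← hv,
    neg_mul, mul_neg, Units.inv_mul_cancel_right, Units.mul_inv_cancel_left, neg_add_cancel,
    neg_zero] at h
  rwa [e, sub_eq_neg_add]

theorem ElemVW_gen {v w : (Matrix ι ι R)ˣ} {a b : Matrix ι ι R} (hv : v.val = 1 + a * b)
    (hw : w.val = 1 + b * a) :
    fromBlocks (v * w⁻¹).val 0 0 (1 : Matrix ι ι R) ∈ Elem (ι ⊕ ι) R := by
  have h := mul_mem (ElemVW_diag hv hw)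
    (ElemVW_diag (v := w⁻¹) (w := w⁻¹) (a := w⁻¹.val - 1) (b := 1) (by simp) (by simp))
  simpa only [fromBlocks_multiply, mul_zero, zero_mul, add_zero, zero_add, inv_inv, Units.inv_mul,
    Units.val_mul] using h

end

theorem elem_of_VW {ι : Type} [Fintype ι] [DecidableEq ι] {R : Type*} [Ring R]
    {u : (Matrix ι ι R)ˣ} (hu : u ∈ VW (Matrix ι ι R)) :
    Matrix.fromBlocks (u : Matrix ι ι R) 0 0 (1 : Matrix ι ι R) ∈ Elem (ι ⊕ ι) R := by
  induction hu using Subgroup.closure_induction'' with
  | mem x hx =>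
    obtain ⟨v, w, a, b, hv, hw, rfl⟩ := hx
    exact ElemVW_gen hv hw
  | inv_mem x hx =>
    obtain ⟨v, w, a, b, hv, hw, rfl⟩ := hx
    rw [mul_inv_rev, inv_inv]
    exact ElemVW_gen hw hv
  | one => rw [Units.val_one, Matrix.fromBlocks_one]; exact one_mem _
  | mul x y _ _ hx hy => simpa [Matrix.fromBlocks_multiply] using mul_mem hx hy

/-- Power series over matrices are matrices over power series. -/
theorem exists_ms (ι : Type) [Fintype ι] [DecidableEq ι] (R : Type*) [Ring R] :
    ∃ e : PowerSeries (Matrix ι ι R) ≃+* Matrix ι ι (PowerSeries R),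
      ∀ f n i j, PowerSeries.coeff n (e f i j) = PowerSeries.coeff n f i j := by
  refine ⟨{ toFun := fun f => Matrix.of fun i j => PowerSeries.mk fun n => PowerSeries.coeff n f i j
            invFun := fun M => PowerSeries.mk fun n => Matrix.of fun i j =>
              PowerSeries.coeff n (M i j)
            left_inv := fun f => by ext; simp
            right_inv := fun M => by ext; simp
            map_mul' := fun f g => ?_
            map_add' := fun f g => by ext; simp }, fun f n i j => by simp⟩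
  ext i j n
  simp only [Matrix.of_apply, PowerSeries.coeff_mk, PowerSeries.coeff_mul, Matrix.mul_apply,
    Matrix.sum_apply, map_sum]
  exact Finset.sum_comm

/-- Group rings over matrices are matrices over group rings. -/
theorem exists_gm (ι : Type) [Fintype ι] [DecidableEq ι] (k : Type*) [CommRing k] (G : Type*)
    [Group G] : ∃ e : MonoidAlgebra (Matrix ι ι k) G ≃+* Matrix ι ι (MonoidAlgebra k G),
      ∀ x c i j, (e x i j).coeff c = x.coeff c i j := by
  let f : MonoidAlgebra (Matrix ι ι k) G →+ Matrix ι ι (MonoidAlgebra k G) := AddMonoidHom.mk'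
    (fun x => Matrix.of fun i j => x.map (Matrix.entryAddMonoidHom k i j)) fun x y => by
      refine Matrix.ext fun i j => ?_
      exact MonoidAlgebra.map_add (Matrix.entryAddMonoidHom k i j) x y
  have hf : ∀ x c i j, (f x i j).coeff c = x.coeff c i j := fun _ _ _ _ => rfl
  have hs : ∀ c a i j, f (MonoidAlgebra.single c a) i j = MonoidAlgebra.single c (a i j) :=
    fun c a i j => MonoidAlgebra.map_single (Matrix.entryAddMonoidHom k i j) a c
  have hb : Function.Bijective f := by
    refine ⟨fun x y e => ?_, fun M => ?_⟩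
    · ext c i j
      rw [← hf, e, hf]
    · refine ⟨∑ i, ∑ j, (M i j).map (Matrix.singleAddMonoidHom i j), ?_⟩
      ext i j c
      simp [hf, MonoidAlgebra.coeff_sum, Matrix.sum_apply, Matrix.single, ite_and]
  refine ⟨{ AddEquiv.ofBijective f hb with map_mul' := fun x y => ?_ }, hf⟩
  change f (x * y) = f x * f y
  induction x using MonoidAlgebra.induction_linear with
  | zero => simp
  | add x x' h h' => rw [add_mul, map_add, map_add, h, h', add_mul]
  | single c a =>
    induction y using MonoidAlgebra.induction_linear with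
    | zero => simp
    | add y y' h h' => rw [mul_add, map_add, map_add, h, h', mul_add]
    | single d b =>
      refine Matrix.ext fun i j => ?_
      simp only [MonoidAlgebra.single_mul_single, hs, Matrix.mul_apply]
      exact map_sum (MonoidAlgebra.singleAddHom (c * d)) _ _

theorem trace_of_TT {k : Type*} [CommRing k] {G : Type*} [Group G] {g : G} (h : TT k g)
    {ι : Type} [Fintype ι] [DecidableEq ι] (M : Matrix ι ι (MonoidAlgebra k G))
    (hM : IsNilpotent M) : cs g (Matrix.trace M) = 0 := by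
  obtain ⟨e, he⟩ := exists_gm ι k G
  obtain ⟨x, rfl⟩ := e.surjective M
  rw [← h ι x ((IsNilpotent.map_iff e.injective).1 hM), Matrix.trace, Matrix.trace, map_sum]
  refine Finset.sum_congr rfl fun i _ => ?_
  have : e x i i = x.map (Matrix.entryAddMonoidHom k i i) := by
    ext c
    exact he x c i i
  rw [Matrix.diag_apply, this]
  exact csum_map _ _ _

end Pool.Agent.MP_f7db47_al.Cv

end

section

namespace Pool.Agent.MP_f7db47_al.Cv

theorem map_pprod {U U' : Type*} [Group U] [Group U'] (ψ : U →* U') {n : ℕ} (u : Fin n → U)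
    (i : Fin (n + 1)) : Fin.partialProd (fun j => ψ (u j)) i = ψ (Fin.partialProd u i) := by
  induction i using Fin.induction with
  | zero => simp
  | succ i ih => rw [Fin.partialProd_succ, Fin.partialProd_succ, ih, map_mul]

theorem dennis_hom {p : ℕ} [Fact p.Prime] {G : Type} [Group G] {g : G} {D : ℕ}
    (hD : Res D (Representation.trivial (ZMod p) (Subgroup.centralizer ({g ^ p} : Set G))
      (ZMod p)))
    {R : Type*} [Ring R] [Algebra (ZMod p) R] {tr : R →ₗ[ZMod p] ZMod p}
    (htr : ∀ a b, tr (a * b) = tr (b * a)) {F : List G → G → ZMod p} (hF : Coc F g) {n : ℕ}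
    {U : Type*} [Group U] (ψ : U →* (MonoidAlgebra R G)ˣ) (z : (Fin (n + 1) → U) →₀ ℤ)
    (hz : dI n z = 0) {A : Set G}
    (hA : ∀ u ∈ z.support, ∀ v ∈ z.support, ∀ i j c,
      (ψ ((Fin.partialProd u i)⁻¹ * Fin.partialProd v j)).val.coeff c ≠ 0 → c ∈ A)
    (hfar : ∀ x, Wd A (2 * (D + (n + 1) + 4)) x → ¬ IsConj x (g ^ p)) :
    (z.sum fun u a => (a : ZMod p) *
      (QQ (ZMod p) (List.ofFn (Fin.partialProd fun i => ψ (u i)))).sum fun t x =>
        x.coeff.sum fun ω M => F t ω * tr (M ^ p)) = 0 := by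
  have hc := HC_bd (ZMod p) n (Finsupp.mapDomain (fun u i => ψ (u i)) z)
  rw [dI_map, hz, Finsupp.mapDomain_zero, map_zero, sub_zero] at hc
  have e : HC (ZMod p) (n + 1) (Finsupp.mapDomain (fun u i => ψ (u i)) z) =
      ∑ u ∈ z.support, Finsupp.single (List.ofFn (Fin.partialProd fun i => ψ (u i)))
        ((z u : ℤ) : ZMod p) := by
    rw [Finsupp.mapDomain, Finsupp.sum, map_sum]
    exact Finset.sum_congr rfl fun u _ => HC_single _ _ _ _
  rw [e] at hc
  have h := dennis_core hD htr hF (n := n + 1)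
    (E := {w | ∃ u ∈ z.support, ∃ i, w = ψ (Fin.partialProd u i)}) (A := A)
    (by
      rintro _ ⟨u, hu, i, rfl⟩ _ ⟨v, hv, j, rfl⟩ c hc'
      refine hA u hu v hv i j c ?_
      rwa [map_mul, map_inv])
    hfar _
    (Submodule.sum_mem _ fun u hu => Finsupp.single_mem_supported _ _
      ⟨List.length_ofFn, fun w hw => by
        obtain ⟨i, rfl⟩ := List.mem_ofFn.1 hw
        exact ⟨u, hu, i, map_pprod ψ u i⟩⟩) hc
  have e2 : ∀ (S : List (MonoidAlgebra R G)ˣ → ZMod p)
      (y : List (MonoidAlgebra R G)ˣ →₀ ZMod p),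
      (y.sum fun l c => c * S l) = Finsupp.linearCombination (ZMod p) S y := fun S y => rfl
  rw [e2, map_sum] at h
  rw [← h, Finsupp.sum]
  exact Finset.sum_congr rfl fun u _ => by
    rw [Finsupp.linearCombination_single, smul_eq_mul]

theorem dennis_ft {k : Type} [CommRing k] [IsReduced k] [IsAddTorsionFree k]
    [Algebra.FiniteType ℤ k] {G : Type} [Group G] {g : G} (hg : Far g) {ι : Type} [Fintype ι]
    [DecidableEq ι] {n : ℕ} (z : (Fin (n + 1) → GL ι (MonoidAlgebra k G)) →₀ ℤ)
    (hz : dI n z = 0) {φ : (Fin (n + 2) → G) → ℤ} (hφ : HCocycle φ)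
    (hs : ∀ t, φ t ≠ 0 → IsConj (List.ofFn t).prod g) :
    (z.sum fun u a => a • dennis φ u) = 0 := by
  classical
  by_contra ha
  obtain ⟨N₀, hN⟩ := exists_charp k _ ha
  let A : Finset G := (z.support.biUnion fun u => z.support.biUnion fun v =>
    Finset.univ.biUnion fun x : Fin (n + 2) × Fin (n + 2) × ι × ι =>
      (((Fin.partialProd u x.1)⁻¹ * Fin.partialProd v x.2.1).val x.2.2.1 x.2.2.2).coeff.support) ∪
    (Finset.range (N₀ + 1)).image fun q => g ^ q
  obtain ⟨p, D, hp, hD, hfar⟩ := hg A (2 * (n + 5))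
  have hpN : N₀ < p := by
    by_contra h
    refine hfar [g ^ p] (fun x hx => ?_) ?_ (by rw [List.prod_singleton])
    · rw [List.mem_singleton.1 hx]
      exact Finset.mem_union_right _
        (Finset.mem_image.2 ⟨p, Finset.mem_range.2 (by omega), rfl⟩)
    · rw [List.length_singleton]
      exact Nat.succ_le_of_lt (by positivity)
  obtain ⟨K, _, f, hK, hf⟩ := hN p hp hpN
  haveI := Fact.mk hp
  letI : Algebra (ZMod p) K := ZMod.algebra K p
  obtain ⟨e, he⟩ := exists_gm ι K G
  let ψ₀ : GL ι (MonoidAlgebra K G) →* (MonoidAlgebra (Matrix ι ι K) G)ˣ :=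
    Units.map e.symm.toRingHom.toMonoidHom
  have hψ₀ : ∀ (u : GL ι (MonoidAlgebra K G)) c,
      (ψ₀ u).val.coeff c = u.val.map fun x => x.coeff c := fun u c => by
    ext a b
    rw [← he]
    exact congrArg (fun M : Matrix ι ι (MonoidAlgebra K G) => (M a b).coeff c)
      (e.apply_symm_apply u.val)
  have hd : ∀ u : Fin (n + 1) → GL ι (MonoidAlgebra K G),
      ((QQ (ZMod p) (List.ofFn (Fin.partialProd fun i => ψ₀ (u i)))).sum fun t x =>
        x.coeff.sum fun ω M => toF φ t ω • Matrix.trace M) = dennis φ u := fun u => by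
    have := pair_QQ (ZMod p) (Matrix.traceAddMonoidHom ι K)
      (fun a b => Matrix.trace_mul_comm a b) φ fun i => ψ₀ (u i)
    refine this.trans (finsum_congr fun t => ?_)
    congr 1
    refine congrArg (fun l : List (Matrix ι ι K) => Matrix.trace l.prod)
      (congrArg List.ofFn (funext fun j => ?_))
    refine Fin.cases ?_ (fun i => ?_) j
    · rw [Fin.cons_zero, Fin.cons_zero, ← hψ₀, map_inv, map_list_prod, List.map_ofFn]
      rfl
    · rw [Fin.cons_succ, Fin.cons_succ, hψ₀]
  refine hf (frobenius_inj K p ((Module.forall_dual_apply_eq_zero_iff (ZMod p) _).1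
    (fun χ => ?_) |>.trans (map_zero _).symm))
  have h := dennis_hom (res_zmod D hD) (tr := χ ∘ₗ Matrix.traceLinearMap ι (ZMod p) K)
    (fun a b => congrArg χ (Matrix.trace_mul_comm a b)) (coc_toF (ZMod p) hφ hs)
    (ψ₀.comp (glMap G ι f)) z hz (A := A)
    (fun u hu v hv i j c hc => by
      rw [MonoidHom.comp_apply, hψ₀] at hc
      by_contra hn
      refine hc (Matrix.ext fun a b => ?_)
      rw [Matrix.map_apply, glMap_coeff, Matrix.zero_apply]
      by_contra h0
      refine hn (Finset.mem_coe.2 (Finset.mem_union_left _ (Finset.mem_biUnion.2 ⟨u, hu,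
        Finset.mem_biUnion.2 ⟨v, hv, Finset.mem_biUnion.2 ⟨(i, j, a, b), Finset.mem_univ _,
          Finsupp.mem_support_iff.2 fun h1 => h0 ?_⟩⟩⟩)))
      rw [h1, map_zero])
    (by
      rintro x ⟨l, h1, h2, rfl⟩
      exact hfar l h1 (h2.trans (by nlinarith [Nat.zero_le (n * D)])))
  let Θ : K →+ ZMod p := χ.toAddMonoidHom.comp (frobenius K p).toAddMonoidHom
  have hΘ : ∀ x, χ (frobenius K p x) = Θ x := fun _ => rfl
  rw [hΘ, ← h, Finsupp.sum, Finsupp.sum, map_sum, map_sum]
  refine Finset.sum_congr rfl fun u _ => ?_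
  rw [map_zsmul, map_zsmul, zsmul_eq_mul, ← dennis_map, ← hd, map_finsuppSum]
  congr 1
  refine Finsupp.sum_congr fun t _ => ?_
  rw [map_finsuppSum]
  refine Finsupp.sum_congr fun ω _ => ?_
  rw [map_zsmul, zsmul_eq_mul, ← hΘ, frobenius_def, ← trace_pow_char]
  rfl

theorem dennis_all {k : Type} [CommRing k] [IsReduced k] [IsAddTorsionFree k]
    {G : Type} [Group G] {g : G} (hg : Far g) {ι : Type} [Fintype ι]
    [DecidableEq ι] {n : ℕ} (z : (Fin (n + 1) → GL ι (MonoidAlgebra k G)) →₀ ℤ)
    (hz : dI n z = 0) {φ : (Fin (n + 2) → G) → ℤ} (hφ : HCocycle φ)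
    (hs : ∀ t, φ t ≠ 0 → IsConj (List.ofFn t).prod g) :
    (z.sum fun u a => a • dennis φ u) = 0 := by
  obtain ⟨k₀, _, z₀, rfl⟩ := exists_lift z
  have hinj : Function.Injective k₀.val.toRingHom := Subtype.val_injective
  haveI : IsReduced k₀ := isReduced_of_injective k₀.val.toRingHom hinj
  haveI : IsAddTorsionFree k₀ := hinj.isAddTorsionFree k₀.val.toRingHom.toAddMonoidHom
  have h0 : dI n z₀ = 0 := by
    rw [dI_map] at hz
    refine Finsupp.mapDomain_injective (f := fun (u : Fin n → _) i =>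
      glMap G ι k₀.val.toRingHom (u i)) (fun u v huv => funext fun i =>
        glMap_injective _ hinj (congrFun huv i)) ?_
    rw [hz, Finsupp.mapDomain_zero]
  rw [Finsupp.sum_mapDomain_index (h := fun u (a : ℤ) => a • dennis φ u)
    (fun _ => zero_smul _ _) fun _ _ _ => add_smul _ _ _]
  have := congrArg k₀.val.toRingHom (dennis_ft hg z₀ h0 hφ hs)
  rw [map_zero, map_finsuppSum] at this
  rw [← this]
  exact Finsupp.sum_congr fun u _ => by rw [map_zsmul, dennis_map]

end Pool.Agent.MP_f7db47_al.Cv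

end

section

namespace Pool.Agent.MP_f7db47_al.Cv

variable {G : Type} [Group G] {ι : Type} [Fintype ι] [DecidableEq ι]

theorem prod_contract {n : ℕ} (j : Fin (n + 1)) (t : Fin (n + 2) → G) :
    (List.ofFn (Fin.contractNth j.castSucc (· * ·) t)).prod = (List.ofFn t).prod := by
  have h : ∀ (m : ℕ) (u : Fin m → G), (List.ofFn u).prod = Fin.partialProd u (Fin.last m) :=
    fun m u => by
      rw [Fin.partialProd, List.take_of_length_le (by simp)]
  rw [h, h, Fin.partialProd_contractNth, Function.comp_apply]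
  congr 1
  rw [Fin.succAbove_of_le_castSucc, Fin.succ_last]
  exact Fin.le_def.2 (by simp; omega)

theorem prod_rot {n : ℕ} (t : Fin (n + 2) → G) :
    IsConj (List.ofFn (Fin.cons (t (Fin.last _) * t 0) fun i : Fin n => t i.succ.castSucc :
      Fin (n + 1) → G)).prod (List.ofFn t).prod := by
  rw [List.ofFn_cons, List.prod_cons, List.ofFn_succ' t, List.concat_eq_append, List.prod_append,
    List.prod_singleton, List.ofFn_succ, List.prod_cons]
  exact isConj_iff.2 ⟨(t (Fin.last _))⁻¹, by
    rw [inv_inv, mul_assoc (t (Fin.last _)), inv_mul_cancel_left]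
    rfl⟩

open Classical in
theorem hcoc_cls {n : ℕ} {φ : (Fin (n + 1) → G) → ℤ} (hφ : HCocycle φ) (c : ConjClasses G) :
    HCocycle fun t => if ConjClasses.mk (List.ofFn t).prod = c then φ t else 0 := by
  intro t
  have h := ConjClasses.mk_eq_mk_iff_isConj.2 (prod_rot t)
  simp only [prod_contract, h]
  split_ifs
  · exact hφ t
  · simp

theorem dennis_cls {k : Type} [CommRing k] [IsReduced k] [IsAddTorsionFree k] {n : ℕ}
    (z : (Fin (n + 1) → GL ι (MonoidAlgebra k G)) →₀ ℤ) (hz : dI n z = 0)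
    {φ : (Fin (n + 2) → G) → ℤ} (hφ : HCocycle φ)
    (hs : ∀ t, φ t ≠ 0 → Far (List.ofFn t).prod) : (z.sum fun u a => a • dennis φ u) = 0 := by
  classical
  let a : (Fin (n + 1) → GL ι (MonoidAlgebra k G)) → Fin (n + 2) →
      Matrix ι ι (MonoidAlgebra k G) := fun u =>
    Fin.cons ((List.ofFn u).prod⁻¹).val fun i => (u i).val
  let T : (Fin (n + 1) → GL ι (MonoidAlgebra k G)) → (Fin (n + 2) → G) → k := fun u t =>
    Matrix.trace (List.ofFn fun j => (a u j).map fun x => x.coeff (t j)).prod
  let S : Finset (Fin (n + 2) → G) :=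
    z.support.biUnion fun u => (DLift_fin (fun _ => 1) (a u)).toFinset
  have hd : ∀ (ψ : (Fin (n + 2) → G) → ℤ), ∀ u ∈ z.support,
      dennis ψ u = ∑ t ∈ S, ψ t • T u t := fun ψ u hu => by
    refine finsum_eq_sum_of_support_subset (fun t => ψ t • T u t) fun t ht => ?_
    refine Finset.mem_coe.2 (Finset.mem_biUnion.2 ⟨u, hu, (Set.Finite.mem_toFinset _).2 ?_⟩)
    intro h0
    apply ht
    exact (congrArg (ψ t • ·) ((one_smul ℤ (T u t)).symm.trans h0)).trans (smul_zero _)
  let C := S.image fun t => ConjClasses.mk (List.ofFn t).prod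
  have h : ∀ c ∈ C, (z.sum fun u a => a • dennis
      (fun t => if ConjClasses.mk (List.ofFn t).prod = c then φ t else 0) u) = 0 := by
    intro c _
    by_cases hc : ∃ t, φ t ≠ 0 ∧ ConjClasses.mk (List.ofFn t).prod = c
    · obtain ⟨t₀, h0, rfl⟩ := hc
      refine dennis_all (hs t₀ h0) z hz (hcoc_cls hφ _) fun t ht => ?_
      by_contra hn
      exact ht (if_neg fun e => hn (ConjClasses.mk_eq_mk_iff_isConj.1 e))
    · refine Finset.sum_eq_zero fun u hu => ?_
      beta_reduce
      rw [hd _ u hu, Finset.sum_eq_zero, smul_zero]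
      intro t _
      split_ifs with e
      · rw [show φ t = 0 from by_contra fun h1 => hc ⟨t, h1, e⟩, zero_smul]
      · exact zero_smul _ _
  rw [← Finset.sum_eq_zero h, Finsupp.sum]
  simp only [Finsupp.sum]
  rw [Finset.sum_comm]
  refine Finset.sum_congr rfl fun u hu => ?_
  rw [← Finset.smul_sum, hd φ u hu, Finset.sum_congr rfl fun c _ => hd _ u hu, Finset.sum_comm]
  congr 1
  refine Finset.sum_congr rfl fun t ht => ?_
  rw [← Finset.sum_smul, Finset.sum_ite_eq, if_pos (Finset.mem_image_of_mem _ ht)]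

/-- Invertible matrices over the group ring of a subgroup. -/
noncomputable def glSub (k : Type*) [CommRing k] (ι : Type) [Fintype ι] [DecidableEq ι]
    (H : Subgroup G) : GL ι (MonoidAlgebra k H) →* GL ι (MonoidAlgebra k G) :=
  Units.map ((MonoidAlgebra.mapDomainRingHom k H.subtype).mapMatrix (m := ι)).toMonoidHom

theorem glSub_coeff {k : Type*} [CommRing k] (H : Subgroup G) (u : GL ι (MonoidAlgebra k H))
    (a b : ι) : ((glSub k ι H u).val a b).coeff =
      Finsupp.mapDomain H.subtype (u.val a b).coeff := rfl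

theorem sub_inj (k : Type*) [CommRing k] (H : Subgroup G) :
    Function.Injective ((MonoidAlgebra.mapDomainRingHom k H.subtype).mapMatrix (m := ι)) := by
  intro M N h
  ext1 a b
  exact MonoidAlgebra.mapDomain_injective Subtype.val_injective (congrFun (congrFun h a) b)

theorem trPair_sub {k : Type*} [CommRing k] (H : Subgroup G) {n : ℕ}
    (φ : (Fin (n + 1) → G) → ℤ) (a : Fin (n + 1) → Matrix ι ι (MonoidAlgebra k H))
    (a' : Fin (n + 1) → Matrix ι ι (MonoidAlgebra k G))
    (h : ∀ j r c, (a' j r c).coeff = Finsupp.mapDomain H.subtype (a j r c).coeff) :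
    trPair φ a' = trPair (fun t : Fin (n + 1) → H => φ fun i => t i) a := by
  have hinj : Function.Injective fun (t : Fin (n + 1) → H) i => (t i : G) :=
    fun s t e => funext fun i => Subtype.ext (congrFun e i)
  rw [trPair, trPair, ← finsum_mem_univ, finsum_mem_inter_support_eq' _ _ (Set.range
    fun (t : Fin (n + 1) → H) i => (t i : G)), finsum_mem_range hinj]
  · refine finsum_congr fun t => ?_
    congr 4
    funext j
    ext r c
    rw [Matrix.map_apply, Matrix.map_apply, h]
    exact Finsupp.mapDomain_apply Subtype.val_injective _ _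
  · intro t ht
    refine ⟨fun _ => ?_, fun _ => trivial⟩
    have : ∀ j, t j ∈ H := fun j => by
      by_contra hj
      apply ht
      have h0 : ((a' j).map fun x => x.coeff (t j)) = 0 := by
        ext r c
        rw [Matrix.map_apply, h]
        exact Finsupp.mapDomain_notin_range _ _ fun ⟨y, hy⟩ => hj (hy ▸ y.2)
      have h1 : (List.ofFn fun j => (a' j).map fun x => x.coeff (t j)).prod = 0 :=
        List.prod_eq_zero (List.mem_ofFn.2 ⟨j, h0⟩)
      simp only [h1, Matrix.trace_zero, smul_zero]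
    exact ⟨fun j => ⟨t j, this j⟩, rfl⟩

theorem dennis_sub {k : Type*} [CommRing k] (H : Subgroup G) {n : ℕ}
    (φ : (Fin (n + 1) → G) → ℤ) (u : Fin n → GL ι (MonoidAlgebra k H)) :
    dennis φ (fun i => glSub k ι H (u i)) =
      dennis (fun t : Fin (n + 1) → H => φ fun i => t i) u := by
  refine trPair_sub H φ _ _ fun j r c => ?_
  refine Fin.cases ?_ (fun i => ?_) j
  · have h : (List.ofFn fun i => glSub k ι H (u i)).prod⁻¹ =
        glSub k ι H (List.ofFn u).prod⁻¹ := by
      rw [map_inv, map_list_prod, List.map_ofFn]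
      rfl
    rw [Fin.cons_zero, Fin.cons_zero, h, glSub_coeff]
  · rw [Fin.cons_succ, Fin.cons_succ, glSub_coeff]

theorem hcoc_sub (H : Subgroup G) {n : ℕ} {φ : (Fin (n + 1) → G) → ℤ} (hφ : HCocycle φ) :
    HCocycle fun t : Fin (n + 1) → H => φ fun i => t i := by
  intro t
  refine Eq.trans ?_ (hφ fun i => t i)
  congr 1
  · refine Finset.sum_congr rfl fun j _ => ?_
    refine congrArg (fun x => _ * φ x) (funext fun i => ?_)
    simp only [Fin.contractNth]
    split_ifs <;> rfl
  · exact congrArg (fun x => _ * φ x) (funext fun i => Fin.cases rfl (fun i => rfl) i)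

theorem exists_sub {k : Type*} [CommRing k] {n : ℕ}
    (z : (Fin n → GL ι (MonoidAlgebra k G)) →₀ ℤ) :
    ∃ (H : Subgroup G) (_ : H.FG) (z₀ : (Fin n → GL ι (MonoidAlgebra k H)) →₀ ℤ),
      z = Finsupp.mapDomain (fun u i => glSub k ι H (u i)) z₀ := by
  classical
  let A : Finset G := z.support.biUnion fun u => Finset.univ.biUnion fun x : Fin n × ι × ι =>
    ((u x.1).val x.2.1 x.2.2).coeff.support ∪ (((u x.1)⁻¹).val x.2.1 x.2.2).coeff.support
  let H : Subgroup G := Subgroup.closure (A : Set G)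
  have hM : ∀ M : Matrix ι ι (MonoidAlgebra k G), (∀ a b, (M a b).coeff.support ⊆ A) →
      ∃ M₀, (MonoidAlgebra.mapDomainRingHom k H.subtype).mapMatrix (m := ι) M₀ = M := by
    intro M h
    refine ⟨Matrix.of fun a b => MonoidAlgebra.ofCoeff ((M a b).coeff.comapDomain H.subtype
      Subtype.val_injective.injOn), ?_⟩
    ext1 a b
    apply MonoidAlgebra.coeff_injective
    refine Finsupp.mapDomain_comapDomain _ Subtype.val_injective _ fun c hc => ?_
    exact ⟨⟨c, Subgroup.subset_closure (h a b hc)⟩, rfl⟩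
  have key : ∀ u : Fin n → GL ι (MonoidAlgebra k G), ∃ u₀ : Fin n → GL ι (MonoidAlgebra k H),
      u ∈ z.support → (fun i => glSub k ι H (u₀ i)) = u := by
    intro u
    by_cases hu : u ∈ z.support
    · have h1 : ∀ i, ∃ v₀ : GL ι (MonoidAlgebra k H), glSub k ι H v₀ = u i := fun i => by
        obtain ⟨M, hM'⟩ := hM (u i).val fun a b c hc => Finset.mem_biUnion.2 ⟨u, hu,
          Finset.mem_biUnion.2 ⟨(i, a, b), Finset.mem_univ _, Finset.mem_union_left _ hc⟩⟩
        obtain ⟨N, hN⟩ := hM ((u i)⁻¹).val fun a b c hc => Finset.mem_biUnion.2 ⟨u, hu,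
          Finset.mem_biUnion.2 ⟨(i, a, b), Finset.mem_univ _, Finset.mem_union_right _ hc⟩⟩
        refine ⟨⟨M, N, sub_inj k H ?_, sub_inj k H ?_⟩, Units.ext hM'⟩
        · rw [map_mul, map_one, hM', hN, Units.mul_inv]
        · rw [map_mul, map_one, hM', hN, Units.inv_mul]
      choose u₀ h₀ using h1
      exact ⟨u₀, fun _ => funext h₀⟩
    · exact ⟨fun _ => 1, fun h => absurd h hu⟩
  choose L hL using key
  refine ⟨H, ⟨A, rfl⟩, Finsupp.mapDomain L z, ?_⟩
  rw [← Finsupp.mapDomain_comp]
  exact ((Finsupp.mapDomain_congr (g := id) hL).trans Finsupp.mapDomain_id).symm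

theorem dennis_loc {k : Type} [CommRing k] [IsReduced k] [IsAddTorsionFree k] {n : ℕ}
    (z : (Fin (n + 1) → GL ι (MonoidAlgebra k G)) →₀ ℤ) (hz : dI n z = 0)
    {φ : (Fin (n + 2) → G) → ℤ} (hφ : HCocycle φ)
    (hs : ∀ t, φ t ≠ 0 → ∀ H : Subgroup G, H.FG → ∀ h : H, (h : G) = (List.ofFn t).prod →
      Far h) : (z.sum fun u a => a • dennis φ u) = 0 := by
  obtain ⟨H, hH, z₀, rfl⟩ := exists_sub z
  have h0 : dI n z₀ = 0 := by
    rw [dI_map] at hz
    refine Finsupp.mapDomain_injective (f := fun (u : Fin n → _) i => glSub k ι H (u i))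
      (fun u v huv => funext fun i =>
        Units.ext (sub_inj k H (congrArg Units.val (congrFun huv i)))) ?_
    rw [hz, Finsupp.mapDomain_zero]
  rw [Finsupp.sum_mapDomain_index (h := fun u (a : ℤ) => a • dennis φ u)
    (fun _ => zero_smul _ _) fun _ _ _ => add_smul _ _ _]
  simp only [dennis_sub]
  refine dennis_cls z₀ h0 (hcoc_sub H hφ) fun t ht => hs _ ht H hH _ ?_
  rw [← H.coe_subtype, map_list_prod, List.map_ofFn]
  rfl

end Pool.Agent.MP_f7db47_al.Cv

end
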